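import Pool.Agent.X240.SH.TrDefs

/-!
# Outputs as lists of constraints
-/

set_option autoImplicit false

open Finset

namespace Pool.Agent.X240.SH

variable {K L : Type} {T : ℕ}

/-- The number of the constraints of the output `y`: `y t` is the list of the constraints which are
written in the step `t`. -/
def total (y : Fin T → List K) : ℕ := ∑ t, (y t).length

open Classical in
/-- The number of the constraints of the output which are satisfied by the labeling `l`. -/
noncomputable def good (sat : L → K → Prop) (y : Fin T → List K) (l : L) : ℕ :=
  ∑ t, (y t).countP (fun e => decide (sat l e))

/-- The output is not empty and some labeling satisfies at least the fraction `c` of its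
constraints. -/
def ValueGe (sat : L → K → Prop) (c : ℝ) (y : Fin T → List K) : Prop :=
  1 ≤ total y ∧ ∃ l, c * total y ≤ good sat y l

/-- The output is not empty and no labeling satisfies more than the fraction `δ` of its
constraints. -/
def ValueLe (sat : L → K → Prop) (δ : ℝ) (y : Fin T → List K) : Prop :=
  1 ≤ total y ∧ ∀ l, (good sat y l : ℝ) ≤ δ * total y

end Pool.Agent.X240.SH
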