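import Pool.Agent.X240.SH.TrDefs
import Pool.Agent.X240.SH.TrGap

/-!
# A reduction without a gap by one head in linear time
-/

set_option autoImplicit false

open Finset

namespace Pool.Agent.X240.SH.GapFree

open Pool.Agent.X240.SH

/-- A constraint: the label of the left vertex is `xor s (φ b)` for the label `(s, b)` of the right
vertex. -/
abbrev Con (N : ℕ) : Type := (Bool × Fin (N + 1)) × Fin (N + 1) × (Bool → Bool)

/-- the constraint is satisfied -/
def CSat {N : ℕ} (l : Bool × Fin (N + 1) → Bool) (r : Fin (N + 1) → Bool × Bool) (c : Con N) : Prop :=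
  l c.1 = xor (r c.2.1).1 (c.2.2 (r c.2.1).2)

/-- the position of the entry `(j, i)` -/
def tp {V : ℕ} (p : Fin (V * V)) : Fin (V * V) :=
  ⟨(p.modNat : ℕ) * V + (p.divNat : ℕ), by
    have h1 := p.modNat.2
    have h2 := p.divNat.2
    calc (p.modNat : ℕ) * V + (p.divNat : ℕ) < (p.modNat : ℕ) * V + V := by omega
      _ = ((p.modNat : ℕ) + 1) * V := by ring
      _ ≤ V * V := Nat.mul_le_mul_right _ h1⟩

theorem tp_div {V : ℕ} (p : Fin (V * V)) : (tp p).divNat = p.modNat := by
  apply Fin.ext
  have h2 := p.divNat.2
  show ((p.modNat : ℕ) * V + (p.divNat : ℕ)) / V = _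
  rw [mul_comm, Nat.mul_add_div (by omega), Nat.div_eq_of_lt h2, add_zero]

theorem tp_mod {V : ℕ} (p : Fin (V * V)) : (tp p).modNat = p.divNat := by
  apply Fin.ext
  have h2 := p.divNat.2
  show ((p.modNat : ℕ) * V + (p.divNat : ℕ)) % V = _
  rw [mul_comm, Nat.mul_add_mod, Nat.mod_eq_of_lt h2]

theorem pos_ext {V : ℕ} (p p' : Fin (V * V)) (h1 : p.divNat = p'.divNat) (h2 : p.modNat = p'.modNat) :
    p = p' := by
  apply Fin.ext
  have e1 : (p : ℕ) / V = (p' : ℕ) / V := congrArg Fin.val h1
  have e2 : (p : ℕ) % V = (p' : ℕ) % V := congrArg Fin.val h2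
  rw [← Nat.div_add_mod (p : ℕ) V, ← Nat.div_add_mod (p' : ℕ) V, e1, e2]

theorem tp_tp {V : ℕ} (p : Fin (V * V)) : tp (tp p) = p := by
  apply pos_ext
  · rw [tp_div, tp_mod]
  · rw [tp_mod, tp_div]

/-- the constraints which are written at the position `p` -/
def cons (V : ℕ) (p : Fin (V * V)) (β : Bool) : List (Con (V * V)) :=
  [((false, p.castSucc), p.castSucc, fun b => decide (p.divNat < p.modNat) && (β && b)),
    ((false, p.castSucc), p.succ, fun _ => false),
    ((true, Fin.last _), 0, fun _ => false),
    ((true, Fin.last _), Fin.last _, fun _ => true)] ++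
  (if p.modNat < p.divNat then [((true, (tp p).castSucc), (tp p).castSucc, fun _ => false),
    ((true, (tp p).castSucc), (tp p).castSucc, fun b => xor b β)] else [])

/-- the contribution of a position -/
def bt {V : ℕ} (a : Fin V → Fin V → Bool) (p : Fin (V * V)) : Bool :=
  decide (p.divNat < p.modNat) && (gword V a p && gword V a (tp p))

/-- the partial sums -/
def sg {V : ℕ} (a : Fin V → Fin V → Bool) : ℕ → Bool
  | 0 => false
  | m + 1 => xor (sg a m) (if h : m < V * V then bt a ⟨m, h⟩ else false)

theorem sg_card {V : ℕ} (a : Fin V → Fin V → Bool) : ∀ m ≤ V * V,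
    sg a m = decide (((univ : Finset (Fin (V * V))).filter
      (fun p : Fin (V * V) => (p : ℕ) < m ∧ bt a p = true)).card % 2 = 1) := by
  intro m
  induction m with
  | zero =>
    intro _
    simp [sg]
  | succ m ih =>
    intro hm
    have h : m < V * V := hm
    rw [sg, ih (by omega), dif_pos h]
    obtain ⟨F, hF⟩ : ∃ F : Finset (Fin (V * V)),
        F = (univ : Finset (Fin (V * V))).filter (fun p : Fin (V * V) => (p : ℕ) < m ∧ bt a p = true) := ⟨_, rfl⟩
    rw [← hF]
    have hnF : (⟨m, h⟩ : Fin (V * V)) ∉ F := by
      rw [hF, mem_filter]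
      rintro ⟨-, h1, -⟩
      simp at h1
    by_cases hb : bt a ⟨m, h⟩ = true
    · have e : (univ : Finset (Fin (V * V))).filter (fun p : Fin (V * V) => (p : ℕ) < m + 1 ∧ bt a p = true) =
          insert ⟨m, h⟩ F := by
        ext p
        rw [mem_insert, hF, mem_filter, mem_filter]
        constructor
        · rintro ⟨-, h1, h2⟩
          rcases Nat.lt_or_ge (p : ℕ) m with h3 | h3
          · exact Or.inr ⟨mem_univ _, h3, h2⟩
          · exact Or.inl (Fin.ext (by simp only; omega))
        · rintro (h1 | ⟨-, h1, h2⟩)
          · rw [h1]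
            exact ⟨mem_univ _, by simp, hb⟩
          · exact ⟨mem_univ _, by omega, h2⟩
      rw [e, card_insert_of_notMem hnF, hb]
      rcases Nat.mod_two_eq_zero_or_one F.card with h1 | h1
      · have h2 : (F.card + 1) % 2 = 1 := by omega
        simp [h1, h2]
      · have h2 : (F.card + 1) % 2 = 0 := by omega
        simp [h1, h2]
    · have e : (univ : Finset (Fin (V * V))).filter (fun p : Fin (V * V) => (p : ℕ) < m + 1 ∧ bt a p = true) = F := by
        ext p
        rw [hF, mem_filter, mem_filter]
        constructor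
        · rintro ⟨-, h1, h2⟩
          refine ⟨mem_univ _, ?_, h2⟩
          rcases Nat.lt_or_ge (p : ℕ) m with h3 | h3
          · exact h3
          · exfalso
            have h4 : p = ⟨m, h⟩ := Fin.ext (by simp only; omega)
            rw [h4] at h2
            exact hb h2
        · rintro ⟨-, h1, h2⟩
          exact ⟨mem_univ _, by omega, h2⟩
      rw [e]
      have h1 : bt a ⟨m, h⟩ = false := by
        cases h2 : bt a ⟨m, h⟩ with
        | true => exact absurd h2 hb
        | false => rfl
      rw [h1, Bool.xor_false]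

theorem card_bt {V : ℕ} (a : Fin V → Fin V → Bool) :
    ((univ : Finset (Fin (V * V))).filter (fun p : Fin (V * V) => (p : ℕ) < V * V ∧ bt a p = true)).card =
      twoCycles a := by
  unfold twoCycles
  apply Finset.card_bij (fun p _ => (p.divNat, p.modNat))
  · intro p hp
    obtain ⟨-, -, h1⟩ := mem_filter.mp hp
    unfold bt gword at h1
    rw [tp_div, tp_mod] at h1
    simp only [Bool.and_eq_true, decide_eq_true_eq] at h1
    exact mem_filter.mpr ⟨mem_univ _, h1.1, h1.2.1, h1.2.2⟩
  · intro p _ p' _ h
    rw [Prod.mk.injEq] at h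
    exact pos_ext p p' h.1 h.2
  · rintro ⟨i, j⟩ hij
    obtain ⟨-, h1, h2, h3⟩ := mem_filter.mp hij
    have hlt : (i : ℕ) * V + (j : ℕ) < V * V := by
      have hi := i.2
      have hj := j.2
      calc (i : ℕ) * V + (j : ℕ) < (i : ℕ) * V + V := by omega
        _ = ((i : ℕ) + 1) * V := by ring
        _ ≤ V * V := Nat.mul_le_mul_right _ hi
    have e1 : (⟨(i : ℕ) * V + (j : ℕ), hlt⟩ : Fin (V * V)).divNat = i := by
      apply Fin.ext
      show ((i : ℕ) * V + (j : ℕ)) / V = _
      rw [mul_comm, Nat.mul_add_div (by have := j.2; omega), Nat.div_eq_of_lt j.2, add_zero]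
    have e2 : (⟨(i : ℕ) * V + (j : ℕ), hlt⟩ : Fin (V * V)).modNat = j := by
      apply Fin.ext
      show ((i : ℕ) * V + (j : ℕ)) % V = _
      rw [mul_comm, Nat.mul_add_mod, Nat.mod_eq_of_lt j.2]
    refine ⟨⟨(i : ℕ) * V + (j : ℕ), hlt⟩, ?_, ?_⟩
    · refine mem_filter.mpr ⟨mem_univ _, hlt, ?_⟩
      unfold bt gword
      rw [tp_div, tp_mod, e1, e2]
      simp only [Bool.and_eq_true, decide_eq_true_eq]
      exact ⟨h1, h2, h3⟩
    · rw [e1, e2]

theorem sg_last {V : ℕ} (a : Fin V → Fin V → Bool) :
    sg a (V * V) = decide (twoCycles a % 2 = 1) := by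
  rw [sg_card a (V * V) le_rfl, card_bt]

/-- the labels for odd graphs -/
theorem complete {V : ℕ} (a : Fin V → Fin V → Bool) (h : twoCycles a % 2 = 1) :
    ∃ (l : Bool × Fin (V * V + 1) → Bool) (r : Fin (V * V + 1) → Bool × Bool),
      ∀ p : Fin (V * V), ∀ c ∈ cons V p (gword V a p), CSat l r c := by
  have hlast : sg a (V * V) = true := by rw [sg_last, h]; rfl
  refine ⟨fun u => if u.1 = true then (if u.2 = Fin.last _ then false else sg a u.2) else
    sg a ((u.2 : ℕ) + 1), fun v => (sg a v, if h : (v : ℕ) < V * V then gword V a (tp ⟨v, h⟩) else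
      false), ?_⟩
  intro p c hc
  have hpc : ((p.castSucc : Fin (V * V + 1)) : ℕ) < V * V := p.2
  have htc : (((tp p).castSucc : Fin (V * V + 1)) : ℕ) < V * V := (tp p).2
  have hne : (tp p).castSucc ≠ Fin.last _ := (Fin.castSucc_lt_last _).ne
  unfold cons at hc
  rw [List.mem_append] at hc
  rcases hc with hc | hc
  · simp only [List.mem_cons, List.not_mem_nil, or_false] at hc
    rcases hc with rfl | rfl | rfl | rfl
    · unfold CSat
      simp only [Bool.false_eq_true, if_false, Fin.val_castSucc]
      rw [dif_pos p.2]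
      simp only [sg]
      rw [dif_pos p.2]
      rfl
    · unfold CSat
      simp
    · unfold CSat
      simp [sg]
    · unfold CSat
      simp [hlast]
  · split_ifs at hc with hlt
    · simp only [List.mem_cons, List.not_mem_nil, or_false] at hc
      rcases hc with rfl | rfl
      · unfold CSat
        simp only [if_true, if_neg hne, Bool.xor_false]
      · unfold CSat
        simp only [if_true, if_neg hne]
        rw [dif_pos htc]
        have e : (⟨(((tp p).castSucc : Fin (V * V + 1)) : ℕ), htc⟩ : Fin (V * V)) = tp p := rfl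
        rw [e, tp_tp]
        simp
    · simp at hc

/-- the graphs with a labeling are odd -/
theorem sound {V : ℕ} (hV : 0 < V) (a : Fin V → Fin V → Bool)
    (l : Bool × Fin (V * V + 1) → Bool) (r : Fin (V * V + 1) → Bool × Bool)
    (h : ∀ p : Fin (V * V), ∀ c ∈ cons V p (gword V a p), CSat l r c) : twoCycles a % 2 = 1 := by
  -- the bits
  have hb : ∀ p : Fin (V * V), p.divNat < p.modNat → (r p.castSucc).2 = gword V a (tp p) := by
    intro p hp
    have h1 := h (tp p)
    have h2 : (tp p).modNat < (tp p).divNat := by rw [tp_mod, tp_div]; exact hp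
    have h3 := h1 ((true, p.castSucc), p.castSucc, fun _ => false) (by
      unfold cons
      rw [if_pos h2, tp_tp]
      simp)
    have h4 := h1 ((true, p.castSucc), p.castSucc, fun b => xor b (gword V a (tp p))) (by
      unfold cons
      rw [if_pos h2, tp_tp]
      simp)
    unfold CSat at h3 h4
    simp only at h3 h4
    rw [h3] at h4
    revert h4
    cases (r p.castSucc).1 <;> cases (r p.castSucc).2 <;> cases gword V a (tp p) <;> simp
  have hs : ∀ p : Fin (V * V), (r p.succ).1 = xor (r p.castSucc).1 (bt a p) := by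
    intro p
    have h3 := h p ((false, p.castSucc), p.castSucc,
      fun b => decide (p.divNat < p.modNat) && (gword V a p && b)) (by
      unfold cons
      simp)
    have h4 := h p ((false, p.castSucc), p.succ, fun _ => false) (by
      unfold cons
      simp)
    unfold CSat at h3 h4
    simp only at h3 h4
    rw [Bool.xor_false] at h4
    rw [← h4, h3]
    congr 1
    unfold bt
    by_cases hp : p.divNat < p.modNat
    · rw [hb p hp]
    · simp [hp]
  have hall : ∀ m (hm : m ≤ V * V), (r ⟨m, by omega⟩).1 = xor (r 0).1 (sg a m) := by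
    intro m
    induction m with
    | zero =>
      intro _
      simp [sg]
    | succ m ih =>
      intro hm
      have h1 := hs ⟨m, hm⟩
      have h2 := ih (by omega)
      have e1 : (⟨m, hm⟩ : Fin (V * V)).succ = (⟨m + 1, by omega⟩ : Fin (V * V + 1)) := rfl
      have e2 : (⟨m, hm⟩ : Fin (V * V)).castSucc = (⟨m, by omega⟩ : Fin (V * V + 1)) := rfl
      rw [e1, e2, h2] at h1
      rw [h1, sg, dif_pos (show m < V * V from hm), Bool.xor_assoc]
  have h1 := hall (V * V) le_rfl
  have hpos : 0 < V * V := Nat.mul_pos hV hV
  have h3 := h ⟨0, hpos⟩ ((true, Fin.last _), 0, fun _ => false) (by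
    unfold cons
    simp)
  have h4 := h ⟨0, hpos⟩ ((true, Fin.last _), Fin.last _, fun _ => true) (by
    unfold cons
    simp)
  unfold CSat at h3 h4
  simp only at h3 h4
  have e : (⟨V * V, by omega⟩ : Fin (V * V + 1)) = Fin.last _ := rfl
  rw [e] at h1
  rw [h3, h1, sg_last] at h4
  by_contra hcon
  have h5 : decide (twoCycles a % 2 = 1) = false := by
    rw [decide_eq_false_iff_not]
    exact hcon
  rw [h5] at h4
  revert h4
  cases (r 0).1 <;> simp

/-- the transducer with one head which sweeps over the word once -/
def sweep {K : Type} (V : ℕ) (hV : 0 < V) (f : Con (V * V) → K) : Transducer Bool K (V * V) 1 where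
  Q := Unit
  start := ((), fun _ => ⟨0, Nat.mul_pos hV hV⟩)
  move := fun _ p _ => ((), fun i => if h : (p i : ℕ) + 1 < V * V then ⟨(p i : ℕ) + 1, h⟩ else p i)
  write := fun _ p x => (cons V (p 0) (x 0)).map f
  slow := by
    intro _ p _ i
    simp only
    split_ifs <;> simp <;> omega

theorem sweep_pos {K : Type} (V : ℕ) (hV : 0 < V) (f : Con (V * V) → K) (x : Fin (V * V) → Bool) :
    ∀ t (ht : t < V * V), ((sweep V hV f).step x)^[t] (sweep V hV f).start = ((), fun _ => ⟨t, ht⟩) := by
  intro t
  induction t with
  | zero => intro _; rfl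
  | succ t ih =>
    intro ht
    rw [Function.iterate_succ_apply', ih (by omega)]
    show ((), fun _ => _) = _
    congr 1
    funext i
    simp only
    rw [dif_pos ht]

theorem sweep_output {K : Type} (V : ℕ) (hV : 0 < V) (f : Con (V * V) → K) (x : Fin (V * V) → Bool)
    (t : Fin (V * V)) : (sweep V hV f).output (V * V) x t = (cons V t (x t)).map f := by
  unfold Transducer.output
  rw [sweep_pos V hV f x t t.2]
  rfl

theorem length_cons (V : ℕ) (p : Fin (V * V)) (β : Bool) : (cons V p β).length ≤ 6 := by
  unfold cons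
  split_ifs <;> simp

theorem one_le_cons (V : ℕ) (p : Fin (V * V)) (β : Bool) : 1 ≤ (cons V p β).length := by
  unfold cons
  split_ifs <;> simp

open Classical in
/-- all constraints are satisfied -/
theorem good_eq_total {K L : Type} {T : ℕ} (sat : L → K → Prop) (y : Fin T → List K) (l : L) :
    good sat y l = total y ↔ ∀ t, ∀ e ∈ y t, sat l e := by
  unfold good total
  constructor
  · intro h t e he
    by_contra hcon
    have h1 : ∀ t ∈ (univ : Finset (Fin T)), (y t).countP (fun e => decide (sat l e)) ≤
        (y t).length := fun t _ => List.countP_le_length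
    have h2 : (y t).countP (fun e => decide (sat l e)) < (y t).length := by
      rcases Nat.lt_or_ge ((y t).countP (fun e => decide (sat l e))) (y t).length with h3 | h3
      · exact h3
      · exfalso
        have h4 := le_antisymm List.countP_le_length h3
        rw [List.countP_eq_length] at h4
        exact hcon (of_decide_eq_true (h4 e he))
    exact absurd h (Finset.sum_lt_sum h1 ⟨t, mem_univ _, h2⟩).ne
  · intro h
    apply Finset.sum_congr rfl
    intro t _
    rw [List.countP_eq_length]
    intro e he
    exact decide_eq_true (h t e he)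

open Classical in
theorem good_le_total {K L : Type} {T : ℕ} (sat : L → K → Prop) (y : Fin T → List K) (l : L) :
    good sat y l ≤ total y :=
  Finset.sum_le_sum (fun _ _ => List.countP_le_length)

/-- **A reduction without a gap.** -/
theorem gap_free {K L : Type} (V : ℕ) (hV : 0 < V) (sat : L → K → Prop) (f : Con (V * V) → K)
    (hc : ∀ (l : Bool × Fin (V * V + 1) → Bool) (r : Fin (V * V + 1) → Bool × Bool),
      ∃ l' : L, ∀ c, CSat l r c → sat l' (f c))
    (hs : ∀ l' : L, ∃ (l : Bool × Fin (V * V + 1) → Bool) (r : Fin (V * V + 1) → Bool × Bool),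
      ∀ c, sat l' (f c) → CSat l r c) :
    ∃ R : Transducer Bool K (V * V) 1, Fintype.card R.Q = 1 ∧
      (∀ x t, (R.output (V * V) x t).length ≤ 6) ∧
      ∀ a : Fin V → Fin V → Bool,
        (twoCycles a % 2 = 1 → ValueGe sat 1 (R.output (V * V) (gword V a))) ∧
        (twoCycles a % 2 = 0 → ∀ l, good sat (R.output (V * V) (gword V a)) l <
          total (R.output (V * V) (gword V a))) := by
  refine ⟨sweep V hV f, rfl, ?_, ?_⟩
  · intro x t
    rw [sweep_output, List.length_map]
    exact length_cons _ _ _
  · intro a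
    constructor
    · intro h
      constructor
      · unfold total
        have hpos : 0 < V * V := Nat.mul_pos hV hV
        refine le_trans ?_ (Finset.single_le_sum (f := fun t =>
          ((sweep V hV f).output (V * V) (gword V a) t).length) (fun _ _ => Nat.zero_le _)
          (mem_univ ⟨0, hpos⟩))
        rw [sweep_output, List.length_map]
        exact one_le_cons _ _ _
      · obtain ⟨l, r, hlr⟩ := complete a h
        obtain ⟨l', hl'⟩ := hc l r
        refine ⟨l', ?_⟩
        rw [one_mul]
        apply le_of_eq
        have h1 := (good_eq_total sat ((sweep V hV f).output (V * V) (gword V a)) l').mpr (by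
          intro t e he
          rw [sweep_output] at he
          obtain ⟨c, hc1, rfl⟩ := List.mem_map.mp he
          exact hl' c (hlr t c hc1))
        rw [h1]
    · intro h l'
      refine lt_of_le_of_ne (good_le_total _ _ _) ?_
      intro heq
      have h1 := (good_eq_total sat ((sweep V hV f).output (V * V) (gword V a)) l').mp heq
      obtain ⟨l, r, hlr⟩ := hs l'
      have h2 := sound hV a l r (by
        intro p c hc1
        apply hlr
        apply h1 p
        rw [sweep_output]
        exact List.mem_map.mpr ⟨c, hc1, rfl⟩)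
      omega

end Pool.Agent.X240.SH.GapFree
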