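import Mathlib

/-!
# Weighted directed graphs as words
-/

set_option autoImplicit false

namespace Pool.Agent.X240.SH

/-- the row of the cell which contains the letter `p` -/
def arow {V w : ℕ} (p : Fin (V * (V * (w + 1)))) : Fin V :=
  ⟨(p : ℕ) / (V * (w + 1)), Nat.div_lt_of_lt_mul (lt_of_lt_of_eq p.2 (mul_comm _ _))⟩

/-- the column of the cell which contains the letter `p` -/
def acol {V w : ℕ} (p : Fin (V * (V * (w + 1)))) : Fin V :=
  ⟨(p : ℕ) / (w + 1) % V, Nat.mod_lt _ (lt_of_le_of_lt (Nat.zero_le _) (arow p).2)⟩

/-- the word of a directed graph with the vertices `0, ..., V - 1` and with weights: the cells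
`(u, v)` of the adjacency matrix, row by row, with `w + 1` letters for each cell: the edge flag
`e u v`, and the `w` last binary digits of the weight `x u v` -/
def apword (V w : ℕ) (e : Fin V → Fin V → Bool) (x : Fin V → Fin V → ℕ)
    (p : Fin (V * (V * (w + 1)))) : Bool :=
  if (p : ℕ) % (w + 1) = 0 then e (arow p) (acol p)
  else Nat.testBit (x (arow p) (acol p)) ((p : ℕ) % (w + 1) - 1)

/-- `Walk e x u v s`: some walk with at least one edge leads from `u` to `v` and has total
weight `s` -/
inductive Walk {V : ℕ} (e : Fin V → Fin V → Bool) (x : Fin V → Fin V → ℕ) :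
    Fin V → Fin V → ℕ → Prop
  | edge (u v : Fin V) : e u v = true → Walk e x u v (x u v)
  | cons (u k v : Fin V) (s : ℕ) : e u k = true → Walk e x k v s → Walk e x u v (x u k + s)

/-- every edge is a shortest path -/
def EdgesShortest {V : ℕ} (e : Fin V → Fin V → Bool) (x : Fin V → Fin V → ℕ) : Prop :=
  ∀ u v s, e u v = true → Walk e x u v s → x u v ≤ s

/-- some edge is longer than a path with two edges -/
def Shortcut {V : ℕ} (e : Fin V → Fin V → Bool) (x : Fin V → Fin V → ℕ) : Prop :=
  ∃ u k v, e u k = true ∧ e k v = true ∧ e u v = true ∧ x u k + x k v < x u v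

end Pool.Agent.X240.SH
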