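import Pool.Agent.X240.SH.Matched
import Pool.Agent.X240.SH.ApDefs

/-!
# Slow heads and shortest paths
-/

set_option autoImplicit false

open Finset

namespace Pool.Agent.X240.SH

open Pool.Agent.TH457.HT

/-- `0` or `1` -/
def bz (b : Bool) : ℤ := if b then 1 else 0

theorem bz_nonneg (b : Bool) : 0 ≤ bz b := by unfold bz; split_ifs <;> norm_num
theorem bz_le (b : Bool) : bz b ≤ 1 := by unfold bz; split_ifs <;> norm_num

/-- the edges of the instance: three layers with `M`, `M` and `2 M` vertices -/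
def ea (M u v : ℕ) : Bool :=
  decide ((u < M ∧ M ≤ v ∧ v < 4 * M) ∨ (M ≤ u ∧ u < 2 * M ∧ 2 * M ≤ v ∧ v < 4 * M))

/-- the weights of the instance -/
def xz (M : ℕ) (X Y : ℕ → ℕ → Bool) (u v : ℕ) : ℤ :=
  if u < M then
    (if v < 2 * M then 2 * ((v : ℤ) - M - u) ^ 2 + 1 + bz (X u (v - M))
      else 8 * M ^ 2 - 4 * u * ((v : ℤ) - 3 * M) - 2 * ((v : ℤ) - 3 * M) ^ 2 + 2)
  else 8 * M ^ 2 - 4 * ((u : ℤ) - M) * ((v : ℤ) - 3 * M) + 1 -
    (if v ≤ u + 2 * M then bz (Y (u + 2 * M - v) (u - M)) else 0)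

theorem xz_range (M : ℕ) (X Y : ℕ → ℕ → Bool) (u v : ℕ) (h : ea M u v = true) :
    1 ≤ xz M X Y u v ∧ xz M X Y u v ≤ 16 * M ^ 2 := by
  unfold ea at h
  simp only [decide_eq_true_eq] at h
  unfold xz
  rcases h with ⟨h1, h2, h3⟩ | ⟨h1, h2, h3, h4⟩
  · rw [if_pos h1]
    have a1 : (u : ℤ) < M := by exact_mod_cast h1
    have a2 : (M : ℤ) ≤ v := by exact_mod_cast h2
    have a3 : (v : ℤ) < 4 * M := by exact_mod_cast h3
    have a0 : (0 : ℤ) ≤ u := Int.natCast_nonneg u
    split_ifs with h4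
    · have a4 : (v : ℤ) < 2 * M := by exact_mod_cast h4
      have b1 := bz_nonneg (X u (v - M))
      have b2 := bz_le (X u (v - M))
      constructor
      · nlinarith [sq_nonneg ((v : ℤ) - M - u)]
      · nlinarith [sq_nonneg ((v : ℤ) - M - u)]
    · have a4 : (2 * M : ℤ) ≤ v := by exact_mod_cast (not_lt.mp h4)
      obtain ⟨j, hj⟩ : ∃ j : ℤ, j = (v : ℤ) - 3 * M := ⟨_, rfl⟩
      rw [← hj]
      have c1 : -(M : ℤ) ≤ j := by omega
      have c2 : j < M := by omega
      have c3 : (u : ℤ) * j ≤ M * M := by nlinarith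
      have c4 : -((M : ℤ) * M) ≤ u * j := by nlinarith
      have c5 : j ^ 2 ≤ M * M := by nlinarith
      have c6 : 1 ≤ (M : ℤ) * M := by nlinarith
      constructor
      · nlinarith
      · nlinarith [sq_nonneg j]
  · rw [if_neg (by omega)]
    have a1 : (u : ℤ) < 2 * M := by exact_mod_cast h2
    have a2 : (M : ℤ) ≤ u := by exact_mod_cast h1
    have a3 : (v : ℤ) < 4 * M := by exact_mod_cast h4
    have a4 : (2 * M : ℤ) ≤ v := by exact_mod_cast h3
    obtain ⟨j, hj⟩ : ∃ j : ℤ, j = (v : ℤ) - 3 * M := ⟨_, rfl⟩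
    obtain ⟨c, hc⟩ : ∃ c : ℤ, c = (u : ℤ) - M := ⟨_, rfl⟩
    rw [← hj, ← hc]
    have c1 : -(M : ℤ) ≤ j := by omega
    have c2 : j < M := by omega
    have d1 : 0 ≤ c := by omega
    have d2 : c < M := by omega
    have c3 : c * j ≤ M * M := by nlinarith
    have c4 : -((M : ℤ) * M) ≤ c * j := by nlinarith
    have c6 : 1 ≤ (M : ℤ) * M := by nlinarith
    have hb : 0 ≤ (if v ≤ u + 2 * M then bz (Y (u + 2 * M - v) (u - M)) else 0) ∧
        (if v ≤ u + 2 * M then bz (Y (u + 2 * M - v) (u - M)) else 0) ≤ 1 := by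
      split_ifs
      · exact ⟨bz_nonneg _, bz_le _⟩
      · norm_num
    constructor
    · nlinarith [hb.1, hb.2]
    · nlinarith [hb.1, hb.2]

/-- the triangle inequality -/
theorem xz_tri (M : ℕ) (X Y : ℕ → ℕ → Bool) (i c v : ℕ) (hi : i < M) (hc : c < M)
    (hv : 2 * M ≤ v) :
    xz M X Y i (M + c) + xz M X Y (M + c) v - xz M X Y i v =
      2 * ((c : ℤ) - i - (v - 3 * M)) ^ 2 + bz (X i c) -
        (if v ≤ M + c + 2 * M then bz (Y (M + c + 2 * M - v) c) else 0) := by
  unfold xz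
  rw [if_pos hi, if_pos (by omega), if_neg (by omega : ¬ M + c < M), if_pos hi,
    if_neg (by omega : ¬ v < 2 * M), Nat.add_sub_cancel_left]
  push_cast
  ring

theorem xz_row (M : ℕ) (X X' Y Y' : ℕ → ℕ → Bool) (u v : ℕ) (hu : u < M)
    (hX : ∀ c, X u c = X' u c) : xz M X Y u v = xz M X' Y' u v := by
  unfold xz
  rw [if_pos hu, if_pos hu, hX]

theorem xz_col (M : ℕ) (X X' Y Y' : ℕ → ℕ → Bool) (u v : ℕ) (hu : M ≤ u)
    (hY : ∀ i, Y i (u - M) = Y' i (u - M)) : xz M X Y u v = xz M X' Y' u v := by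
  unfold xz
  rw [if_neg (by omega : ¬ u < M), if_neg (by omega : ¬ u < M), hY]

/-- the weights, as natural numbers -/
def xa (M : ℕ) (X Y : ℕ → ℕ → Bool) (u v : ℕ) : ℕ :=
  if ea M u v = true then (xz M X Y u v).toNat else 1

theorem xa_cast (M : ℕ) (X Y : ℕ → ℕ → Bool) (u v : ℕ) (h : ea M u v = true) :
    (xa M X Y u v : ℤ) = xz M X Y u v := by
  unfold xa
  rw [if_pos h]
  exact Int.toNat_of_nonneg (by have := (xz_range M X Y u v h).1; omega)

theorem xa_range (V M : ℕ) (hM : 4 * M ≤ V) (hV : 1 ≤ V) (X Y : ℕ → ℕ → Bool) (u v : ℕ) :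
    1 ≤ xa M X Y u v ∧ xa M X Y u v ≤ V ^ 2 := by
  by_cases h : ea M u v = true
  · have h1 := xz_range M X Y u v h
    rw [← xa_cast M X Y u v h] at h1
    have h2 : xa M X Y u v ≤ 16 * M ^ 2 := by exact_mod_cast h1.2
    refine ⟨by exact_mod_cast h1.1, h2.trans ?_⟩
    calc 16 * M ^ 2 = (4 * M) ^ 2 := by ring
      _ ≤ V ^ 2 := Nat.pow_le_pow_left hM 2
  · unfold xa
    rw [if_neg h]
    exact ⟨le_rfl, Nat.one_le_pow _ _ hV⟩

variable {V : ℕ}

/-- the edges and the weights as functions of the vertices -/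
def eV (V M : ℕ) (u v : Fin V) : Bool := ea M u v
def xV (V M : ℕ) (X Y : ℕ → ℕ → Bool) (u v : Fin V) : ℕ := xa M X Y u v

theorem walk_layers (M : ℕ) (X Y : ℕ → ℕ → Bool) (u v : Fin V) (s : ℕ)
    (h : Walk (eV V M) (xV V M X Y) u v s) :
    (eV V M u v = true ∧ s = xV V M X Y u v) ∨
      ∃ k : Fin V, eV V M u k = true ∧ eV V M k v = true ∧
        s = xV V M X Y u k + xV V M X Y k v := by
  induction h with
  | edge u v h => exact Or.inl ⟨h, rfl⟩
  | cons u k v s h _ ih =>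
    right
    rcases ih with ⟨h1, h2⟩ | ⟨k', h1, h2, h3⟩
    · exact ⟨k, h, h1, by rw [h2]⟩
    · exfalso
      unfold eV ea at h h1 h2
      simp only [decide_eq_true_eq] at h h1 h2
      omega

theorem shortest_of_le (M : ℕ) (X Y : ℕ → ℕ → Bool)
    (hXY : ∀ i < M, ∀ c < M, Y i c = true → X i c = true) :
    EdgesShortest (eV V M) (xV V M X Y) := by
  intro u v s huv hs
  rcases walk_layers M X Y u v s hs with ⟨-, h⟩ | ⟨k, h1, h2, h⟩
  · rw [h]
  · rw [h]
    have c1 := xa_cast M X Y u v huv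
    have c2 := xa_cast M X Y u k h1
    have c3 := xa_cast M X Y k v h2
    have g1 := h1
    have g2 := h2
    unfold eV ea at g1 g2
    simp only [decide_eq_true_eq] at g1 g2
    have hu : (u : ℕ) < M := by omega
    have hk : M ≤ (k : ℕ) ∧ (k : ℕ) < 2 * M := by omega
    have hv : 2 * M ≤ (v : ℕ) ∧ (v : ℕ) < 4 * M := by omega
    obtain ⟨c, hc⟩ : ∃ c, (k : ℕ) = M + c := ⟨k - M, by omega⟩
    have hcM : c < M := by omega
    have key : (xa M X Y u k : ℤ) + xa M X Y k v - xa M X Y u v =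
        2 * ((c : ℤ) - (u : ℕ) - ((v : ℕ) - 3 * M)) ^ 2 + bz (X u c) -
        (if (v : ℕ) ≤ M + c + 2 * M then bz (Y (M + c + 2 * M - v) c) else 0) := by
      rw [c1, c2, c3, hc]
      exact xz_tri M X Y u c v hu hcM hv.1
    have hpos : 0 ≤ 2 * ((c : ℤ) - (u : ℕ) - ((v : ℕ) - 3 * M)) ^ 2 + bz (X u c) -
        (if (v : ℕ) ≤ M + c + 2 * M then bz (Y (M + c + 2 * M - v) c) else 0) := by
      have b1 := bz_nonneg (X u c)
      obtain ⟨z, hz⟩ : ∃ z : ℤ, z = (c : ℤ) - (u : ℕ) - ((v : ℕ) - 3 * M) := ⟨_, rfl⟩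
      rw [← hz]
      by_cases h0 : z = 0
      · rw [h0]
        have h4 : (v : ℕ) ≤ M + c + 2 * M := by omega
        have h5 : M + c + 2 * M - v = (u : ℕ) := by omega
        rw [if_pos h4, h5]
        have h6 : bz (Y u c) ≤ bz (X u c) := by
          unfold bz
          by_cases h7 : Y u c = true
          · rw [if_pos h7, if_pos (hXY u hu c hcM h7)]
          · rw [if_neg h7]
            split_ifs <;> norm_num
        linarith
      · have h1 : 1 ≤ z ^ 2 := by
          have : 0 < z ^ 2 := by positivity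
          omega
        have h2 : (if (v : ℕ) ≤ M + c + 2 * M then bz (Y (M + c + 2 * M - v) c) else 0) ≤ 1 := by
          split_ifs
          · exact bz_le _
          · norm_num
        linarith
    rw [← key] at hpos
    have : (xa M X Y u v : ℤ) ≤ xa M X Y u k + xa M X Y k v := by linarith
    show xa M X Y u v ≤ xa M X Y u k + xa M X Y k v
    exact_mod_cast this

theorem shortcut_of (M : ℕ) (hM : 4 * M ≤ V) (X Y : ℕ → ℕ → Bool) (i c : ℕ) (hi : i < M)
    (hc : c < M) (hY : Y i c = true) (hX : X i c = false) :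
    Shortcut (eV V M) (xV V M X Y) := by
  have hu : i < V := by omega
  have hk : M + c < V := by omega
  have hv : 3 * M + c - i < V := by omega
  have h1 : ea M i (M + c) = true := by
    unfold ea
    simp only [decide_eq_true_eq]
    omega
  have h2 : ea M (M + c) (3 * M + c - i) = true := by
    unfold ea
    simp only [decide_eq_true_eq]
    omega
  have h3 : ea M i (3 * M + c - i) = true := by
    unfold ea
    simp only [decide_eq_true_eq]
    omega
  refine ⟨⟨i, hu⟩, ⟨M + c, hk⟩, ⟨3 * M + c - i, hv⟩, h1, h2, h3, ?_⟩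
  have key := xz_tri M X Y i c (3 * M + c - i) hi hc (by omega)
  rw [← xa_cast M X Y _ _ h1, ← xa_cast M X Y _ _ h2, ← xa_cast M X Y _ _ h3] at key
  have e1 : ((3 * M + c - i : ℕ) : ℤ) = 3 * M + c - i := by
    rw [Nat.cast_sub (by omega)]
    push_cast
    ring
  rw [if_pos (by omega), show M + c + 2 * M - (3 * M + c - i) = i by omega, hX, hY, e1] at key
  have e2 : 2 * ((c : ℤ) - i - ((3 * M + c - i : ℤ) - 3 * M)) ^ 2 = 0 := by ring
  rw [e2] at key
  have b1 : bz true = 1 := rfl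
  have b2 : bz false = 0 := rfl
  rw [b1, b2] at key
  show xa M X Y i (M + c) + xa M X Y (M + c) (3 * M + c - i) < xa M X Y i (3 * M + c - i)
  omega

/-- **Shortest paths and slow heads.** -/
theorem ap_nondet (V w k T S : ℕ) (P : HeadProg Bool (V * (V * (w + 1))) k) (hk : 1 ≤ k)
    (hS : Fintype.card P.Q * (V * (V * (w + 1))) ^ k ≤ 2 ^ S)
    (hacc : ∀ (e : Fin V → Fin V → Bool) (x : Fin V → Fin V → ℕ),
      (∀ u v, 1 ≤ x u v ∧ x u v ≤ V ^ 2) → EdgesShortest e x → P.AcceptsIn T (apword V w e x))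
    (hsound : ∀ (e : Fin V → Fin V → Bool) (x : Fin V → Fin V → ℕ),
      (∀ u v, 1 ≤ x u v ∧ x u v ≤ V ^ 2) → Shortcut e x → ¬ P.Accepts (apword V w e x)) :
    V ^ 2 * (V * (V * (w + 1))) ^ 2
      ≤ 200000000 * (k * (S + 1) * (k * T + V * (V * (w + 1))) ^ 2) := by
  rcases Nat.lt_or_ge V 2 with hV | hV
  · obtain ⟨n, hn⟩ : ∃ n, n = V * (V * (w + 1)) := ⟨_, rfl⟩
    rw [← hn]
    calc V ^ 2 * n ^ 2 ≤ 1 ^ 2 * n ^ 2 := Nat.mul_le_mul_right _ (Nat.pow_le_pow_left (by omega) 2)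
      _ = 1 * (1 * 1 * n ^ 2) := by ring
      _ ≤ 200000000 * (k * (S + 1) * (k * T + n) ^ 2) := by
        gcongr
        · norm_num
        · omega
        · omega
  have hn2 : 2 ≤ V * (V * (w + 1)) := by
    calc 2 ≤ V := hV
      _ = V * 1 := (mul_one V).symm
      _ ≤ V * (V * (w + 1)) := Nat.mul_le_mul_left _ (Nat.one_le_iff_ne_zero.mpr (by positivity))
  have hρ : 1 ≤ V * (w + 1) := Nat.one_le_iff_ne_zero.mpr (by positivity)
  apply matched P V (V * (w + 1)) T S (by omega) hρ rfl hn2 hk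
    (fun M X Y => apword V w (eV V M) (xV V M X Y))
  · intro M X X' Y Y' p hp hX
    have hu : ((arow p : Fin V) : ℕ) = (p : ℕ) / (V * (w + 1)) := rfl
    unfold apword
    split_ifs with h0
    · rfl
    · congr 1
      show xa M X Y (arow p) (acol p) = xa M X' Y' (arow p) (acol p)
      unfold xa
      split_ifs with h1
      · congr 1
        apply xz_row
        · rw [hu]; exact hp
        · rw [hu]; exact hX
      · rfl
  · intro M X X' Y Y' p hp hY
    have hu : ((arow p : Fin V) : ℕ) = (p : ℕ) / (V * (w + 1)) := rfl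
    unfold apword
    split_ifs with h0
    · rfl
    · congr 1
      show xa M X Y (arow p) (acol p) = xa M X' Y' (arow p) (acol p)
      unfold xa
      split_ifs with h1
      · congr 1
        apply xz_col
        · rw [hu]; exact hp
        · rw [hu]; exact hY
      · rfl
  · intro M hM X
    exact hacc _ _ (fun u v => xa_range V M hM (by omega) X X u v)
      (shortest_of_le M X X (fun _ _ _ _ h => h))
  · intro M hM X Y hA i hi c hc hY
    by_contra hX
    rw [Bool.not_eq_true] at hX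
    exact hsound _ _ (fun u v => xa_range V M hM (by omega) X Y u v)
      (shortcut_of M hM X Y i c hi hc hY hX) hA
  · exact hS

end Pool.Agent.X240.SH
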