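import Pool.Agent.X240.SH.Diag

/-!
# Slow heads and arrays: the choice of the parameters
-/

set_option autoImplicit false

open Finset

namespace Pool.Agent.X240.SH

open Pool.Agent.TH457.HT

/-- the choice of the parameters -/
theorem paramsA (n R h ρ k T S cc : ℕ) (hR : 1 ≤ R) (hh : 1 ≤ h) (hhR : h ≤ R) (hρ : 1 ≤ ρ)
    (hn1 : R * ρ ≤ n) (hn2 : n ≤ 2 * (R * ρ)) (hk : 1 ≤ k) (hkS : k ≤ S + 1) (hcc : 1 ≤ cc) :
    R * h * n ^ 2 ≤ 9 * (1804 * cc + 813604) * (k * (S + 1) * (k * T + n) ^ 2) ∨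
    ∃ q r D, 1 ≤ q ∧ cc * ((S + 1) * q) ≤ r * h ∧ 0 < r ∧ 2 ≤ D ∧ D * r ≤ R ∧
      12 * (3 * k) * (T / (r * ρ) + 1) < (25 * q + 1) * D ∧ 12 * (3 * k) * (25 * q) + 1 ≤ D := by
  have hn : 0 < n := lt_of_lt_of_le (by positivity) hn1
  obtain ⟨q, hq⟩ : ∃ q, q = 3 * k * T / n + 1 := ⟨_, rfl⟩
  have hq1 : 1 ≤ q := by rw [hq]; exact Nat.le_add_left 1 _
  have hkT : 3 * k * T < n * q := by
    rw [hq]
    have h1 := Nat.div_add_mod (3 * k * T) n
    have h2 := Nat.mod_lt (3 * k * T) hn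
    calc 3 * k * T = n * (3 * k * T / n) + 3 * k * T % n := h1.symm
      _ < n * (3 * k * T / n) + n := by omega
      _ = n * (3 * k * T / n + 1) := by ring
  have hnq : n * q ≤ 3 * (k * T + n) := by
    rw [hq, mul_add, mul_one]
    have := Nat.mul_div_le (3 * k * T) n
    have e : 3 * k * T = 3 * (k * T) := by ring
    omega
  obtain ⟨r, hr⟩ : ∃ r, r = cc * ((S + 1) * q) / h + 1 := ⟨_, rfl⟩
  have hrh : cc * ((S + 1) * q) ≤ r * h := by
    rw [hr]
    have h1 := Nat.div_add_mod (cc * ((S + 1) * q)) h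
    have h2 := Nat.mod_lt (cc * ((S + 1) * q)) hh
    calc cc * ((S + 1) * q) = h * (cc * ((S + 1) * q) / h) + cc * ((S + 1) * q) % h := h1.symm
      _ ≤ h * (cc * ((S + 1) * q) / h) + h := by omega
      _ = (cc * ((S + 1) * q) / h + 1) * h := by ring
  have hr0 : 0 < r := by rw [hr]; exact Nat.succ_pos _
  rcases Nat.lt_or_ge R (902 * (k * q) * r) with hcon | hmain
  · left
    have hkey : R * h ≤ (1804 * cc + 813604) * (k * (S + 1) * q ^ 2) := by
      rcases Nat.lt_or_ge (cc * ((S + 1) * q)) h with hlt | hge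
      · -- one row
        have h1 : r = 1 := by rw [hr, Nat.div_eq_of_lt hlt]
        rw [h1, mul_one] at hcon
        calc R * h ≤ R * R := Nat.mul_le_mul_left _ hhR
          _ ≤ 902 * (k * q) * (902 * (k * q)) := Nat.mul_le_mul hcon.le hcon.le
          _ = 813604 * (k * k * q ^ 2) := by ring
          _ ≤ 813604 * (k * (S + 1) * q ^ 2) := by gcongr
          _ ≤ (1804 * cc + 813604) * (k * (S + 1) * q ^ 2) :=
              Nat.mul_le_mul_right _ (Nat.le_add_left _ _)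
      · have h1 : r * h ≤ 2 * (cc * ((S + 1) * q)) := by
          rw [hr]
          have h2 := Nat.div_mul_le_self (cc * ((S + 1) * q)) h
          calc (cc * ((S + 1) * q) / h + 1) * h = cc * ((S + 1) * q) / h * h + h := by ring
            _ ≤ 2 * (cc * ((S + 1) * q)) := by omega
        calc R * h ≤ 902 * (k * q) * r * h := Nat.mul_le_mul_right _ hcon.le
          _ = 902 * (k * q) * (r * h) := by ring
          _ ≤ 902 * (k * q) * (2 * (cc * ((S + 1) * q))) := Nat.mul_le_mul_left _ h1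
          _ = 1804 * cc * (k * (S + 1) * q ^ 2) := by ring
          _ ≤ (1804 * cc + 813604) * (k * (S + 1) * q ^ 2) :=
              Nat.mul_le_mul_right _ (Nat.le_add_right _ _)
    calc R * h * n ^ 2 ≤ (1804 * cc + 813604) * (k * (S + 1) * q ^ 2) * n ^ 2 :=
          Nat.mul_le_mul_right _ hkey
      _ = (1804 * cc + 813604) * (k * (S + 1) * (n * q) ^ 2) := by ring
      _ ≤ (1804 * cc + 813604) * (k * (S + 1) * (3 * (k * T + n)) ^ 2) := by gcongr
      _ = 9 * (1804 * cc + 813604) * (k * (S + 1) * (k * T + n) ^ 2) := by ring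
  right
  obtain ⟨D, hD⟩ : ∃ D, D = R / r := ⟨_, rfl⟩
  have hkq : 1 ≤ k * q := Nat.one_le_iff_ne_zero.mpr (by positivity)
  have hDD : 902 * (k * q) ≤ D := by
    rw [hD, Nat.le_div_iff_mul_le hr0]
    exact hmain
  have hDr : D * r ≤ R := by rw [hD]; exact Nat.div_mul_le_self _ _
  have hRD : R < r * (D + 1) := by
    rw [hD]
    have h1 := Nat.div_add_mod R r
    have h2 := Nat.mod_lt R hr0
    calc R = r * (R / r) + R % r := h1.symm
      _ < r * (R / r) + r := by omega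
      _ = r * (R / r + 1) := by ring
  have hkD : 300 * (3 * (k * q)) + 1 ≤ D := by omega
  refine ⟨q, r, D, hq1, hrh, hr0, by omega, hDr, ?_, ?_⟩
  · have hlam : 0 < r * ρ := by positivity
    -- `3 k T / (r ρ) < 2 q (D + 1)`
    have h1 : 3 * k * (T / (r * ρ)) < 2 * (q * (D + 1)) := by
      apply Nat.lt_of_mul_lt_mul_left (a := r * ρ)
      calc r * ρ * (3 * k * (T / (r * ρ))) = 3 * k * (r * ρ * (T / (r * ρ))) := by ring
        _ ≤ 3 * k * T := Nat.mul_le_mul_left _ (Nat.mul_div_le T (r * ρ))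
        _ < n * q := hkT
        _ ≤ 2 * (R * ρ) * q := Nat.mul_le_mul_right _ hn2
        _ ≤ 2 * (r * (D + 1) * ρ) * q := by gcongr
        _ = r * ρ * (2 * (q * (D + 1))) := by ring
    have h2 : 12 * (3 * k) * (T / (r * ρ) + 1) = 12 * (3 * k * (T / (r * ρ))) + 36 * k := by ring
    have h3 : (25 * q + 1) * D = 24 * (q * D) + q * D + D := by ring
    have h4 : 2 * (q * (D + 1)) = 2 * (q * D) + 2 * q := by ring
    have h5 : k * (902 * (k * q)) ≤ q * D * k := by
      calc k * (902 * (k * q)) ≤ k * D := Nat.mul_le_mul_left _ hDD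
        _ = 1 * D * k := by ring
        _ ≤ q * D * k := by gcongr
    have h6 : q * (902 * (k * q)) ≤ q * D := Nat.mul_le_mul_left _ hDD
    have h7 : q ≤ q * (k * q) := by
      calc q = q * 1 := (mul_one q).symm
        _ ≤ q * (k * q) := Nat.mul_le_mul_left _ hkq
    have h8 : k ≤ q * (k * q) := by
      calc k = 1 * (k * 1) := by ring
        _ ≤ q * (k * q) := by gcongr
    have h9 : q * (902 * (k * q)) = 902 * (q * (k * q)) := by ring
    omega
  · have e : 12 * (3 * k) * (25 * q) = 300 * (3 * (k * q)) := by ring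
    omega

variable {Λ : Type} {n k : ℕ}

/-- the array of the rows from the families of the zones -/
def unz {D r h U : ℕ} (v : Fin D → Fin (r * h) → Fin U) (j : Fin (D * r)) (c : Fin h) : Fin U :=
  v (finProdFinEquiv.symm j).1 (finProdFinEquiv ((finProdFinEquiv.symm j).2, c))

theorem unz_inj {D r h U : ℕ} (v : Fin D → Fin (r * h) → Fin U)
    (hv : Function.Injective (fun p : Fin D × Fin (r * h) => v p.1 p.2)) :
    Function.Injective (fun p : Fin (D * r) × Fin h => unz v p.1 p.2) := by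
  rintro ⟨j, c⟩ ⟨j', c'⟩ he
  unfold unz at he
  have h1 := hv (a₁ := ((finProdFinEquiv.symm j).1, finProdFinEquiv ((finProdFinEquiv.symm j).2, c)))
    (a₂ := ((finProdFinEquiv.symm j').1, finProdFinEquiv ((finProdFinEquiv.symm j').2, c'))) he
  have h2 := congrArg Prod.fst h1
  have h3 := finProdFinEquiv.injective (congrArg Prod.snd h1)
  have h4 := congrArg Prod.fst h3
  have h5 := congrArg Prod.snd h3
  simp only at h2 h4 h5
  have h6 : finProdFinEquiv.symm j = finProdFinEquiv.symm j' := Prod.ext h2 h4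
  rw [finProdFinEquiv.symm.injective h6, h5]

theorem unz_apply {D r h U : ℕ} (v : Fin D → Fin (r * h) → Fin U) (z : Fin D) (i : Fin r)
    (c : Fin h) : unz v (finProdFinEquiv (z, i)) c = v z (finProdFinEquiv (i, c)) := by
  unfold unz
  rw [Equiv.symm_apply_apply]

theorem unz_local {D r h U ρ : ℕ} (W : (Fin (D * r) → Fin h → Fin U) → Fin n → Λ)
    (hW : ∀ v v' (p : Fin n), (∀ h : (p : ℕ) / ρ < D * r,
      v ⟨(p : ℕ) / ρ, h⟩ = v' ⟨(p : ℕ) / ρ, h⟩) → W v p = W v' p)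
    (v v' : Fin D → Fin (r * h) → Fin U) (p : Fin n)
    (hp : ∀ h : (p : ℕ) / (ρ * r) < D, v ⟨(p : ℕ) / (ρ * r), h⟩ = v' ⟨(p : ℕ) / (ρ * r), h⟩) :
    W (unz v) p = W (unz v') p := by
  apply hW
  intro h1
  have hz : (p : ℕ) / (ρ * r) < D := by
    rw [← Nat.div_div_eq_div_mul]
    exact Nat.div_lt_of_lt_mul (by rw [mul_comm]; exact h1)
  have e : (finProdFinEquiv.symm (⟨(p : ℕ) / ρ, h1⟩ : Fin (D * r))).1
      = ⟨(p : ℕ) / (ρ * r), hz⟩ := by
    apply Fin.ext
    simp only [finProdFinEquiv_symm_apply, Fin.divNat, Nat.div_div_eq_div_mul]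
  funext c
  unfold unz
  rw [e, hp hz]

/-- the class of a row -/
theorem unz_row {D r : ℕ} (z : Fin D) (i : Fin r) :
    ((finProdFinEquiv (z, i) : Fin (D * r)) : ℕ) / r = z ∧
    ((finProdFinEquiv (z, i) : Fin (D * r)) : ℕ) % r = i := by
  have hr : 0 < r := lt_of_le_of_lt (Nat.zero_le _) i.2
  simp only [finProdFinEquiv_apply_val]
  constructor
  · rw [Nat.add_mul_div_left _ _ hr, Nat.div_eq_of_lt i.2, zero_add]
  · rw [Nat.add_mul_mod_self_left, Nat.mod_eq_of_lt i.2]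

/-- the numbers of the zones of the two classes -/
theorem parity_card (D : ℕ) (b : ℕ) (hb : b < 2) :
    D / 2 ≤ ((univ : Finset (Fin D)).filter (fun z : Fin D => (z : ℕ) % 2 = b)).card := by
  have h3 : ((univ : Finset (Fin (D / 2))).map ⟨fun i => (⟨2 * i.1 + b, by have := i.2; omega⟩ :
      Fin D), fun i j h => by
        have := congrArg Fin.val h
        simp only at this
        exact Fin.ext (by omega)⟩) ⊆
      (univ : Finset (Fin D)).filter (fun z : Fin D => (z : ℕ) % 2 = b) := by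
    intro z hz
    obtain ⟨i, -, rfl⟩ := mem_map.mp hz
    exact mem_filter.mpr ⟨mem_univ _, by simp only [Function.Embedding.coeFn_mk]; omega⟩
  have h4 := card_le_card h3
  rwa [card_map, card_univ, Fintype.card_fin] at h4

/-- **Nondeterministic programs with slow heads and arrays.** The class of the row `j` is the
parity of `j / r`. -/
theorem arraysN (P : HeadProg Λ n k) (R h ρ U T S : ℕ) (hR : 1 ≤ R) (hh : 1 ≤ h) (hhR : h ≤ R)
    (hρ : 1 ≤ ρ) (hn1 : R * ρ ≤ n) (hn2 : n ≤ 2 * (R * ρ)) (hn : 2 ≤ n) (hk : 1 ≤ k)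
    (hU0 : 0 < U) (hU : 2 * (R * h) ^ 2 ≤ U)
    (W : ℕ → ∀ m : ℕ, (Fin m → Fin h → Fin U) → Fin n → Λ)
    (hW : ∀ r m, ∀ v v' (p : Fin n), (∀ h : (p : ℕ) / ρ < m,
      v ⟨(p : ℕ) / ρ, h⟩ = v' ⟨(p : ℕ) / ρ, h⟩) → W r m v p = W r m v' p)
    (hacc : ∀ r m, m ≤ R → ∀ v : Fin m → Fin h → Fin U,
      Function.Injective (fun p : Fin m × Fin h => v p.1 p.2) → P.AcceptsIn T (W r m v))
    (hsound : ∀ r m, 0 < r → m ≤ R → ∀ v : Fin m → Fin h → Fin U, P.Accepts (W r m v) →
      ∀ i j : Fin m, (i : ℕ) / r % 2 = 0 → (j : ℕ) / r % 2 = 1 → (i : ℕ) % r = (j : ℕ) % r →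
      ∀ c, v i c ≠ v j c)
    (hS : Fintype.card P.Q * n ^ k ≤ 2 ^ S) :
    R * h * n ^ 2 ≤ 7780000 * (k * (S + 1) * (k * T + n) ^ 2) := by
  have hQ : 1 ≤ Fintype.card P.Q := by
    obtain ⟨t, -, c, -⟩ := hacc 1 0 (Nat.zero_le _) (fun j => j.elim0) (fun p => p.1.elim0)
    exact Fintype.card_pos_iff.mpr ⟨(c 0).1⟩
  have hkS : k ≤ S + 1 := by
    have h1 : 2 ^ k ≤ 2 ^ S := by
      calc 2 ^ k ≤ n ^ k := Nat.pow_le_pow_left hn k
        _ = 1 * n ^ k := (one_mul _).symm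
        _ ≤ Fintype.card P.Q * n ^ k := Nat.mul_le_mul_right _ hQ
        _ ≤ 2 ^ S := hS
    have := (Nat.pow_le_pow_iff_right (by norm_num : 1 < 2)).mp h1
    omega
  rcases paramsA n R h ρ k T S 28 hR hh hhR hρ hn1 hn2 hk hkS (by norm_num) with
    h0 | ⟨q, r, D, hq, hd, hr0, hD, hDr, h1, h2⟩
  · exact h0.trans (Nat.mul_le_mul_right _ (by norm_num))
  exfalso
  obtain ⟨Z0, hZ0⟩ : ∃ Z0 : Finset (Fin D), Z0 = univ.filter (fun z : Fin D => (z : ℕ) % 2 = 0) :=
    ⟨_, rfl⟩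
  obtain ⟨Z1, hZ1⟩ : ∃ Z1 : Finset (Fin D), Z1 = univ.filter (fun z : Fin D => (z : ℕ) % 2 = 1) :=
    ⟨_, rfl⟩
  have hc1 : D / 2 ≤ Z1.card := by rw [hZ1]; exact parity_card D 1 (by norm_num)
  have hc0 : D / 2 ≤ Z0.card := by rw [hZ0]; exact parity_card D 0 (by norm_num)
  have hD2 : D ≤ 3 * (D / 2) := by omega
  have hfin := engineD P (ρ * r) D (r * h) U T (S + 1) (25 * q) (by positivity) Z0 Z1
    (by
      rw [Finset.disjoint_left]
      intro z h3 h4
      rw [hZ0] at h3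
      rw [hZ1] at h4
      have := (mem_filter.mp h3).2
      have := (mem_filter.mp h4).2
      omega)
    (by rw [← card_pos]; omega) (by rw [← card_pos]; omega)
    (fun v => W r (D * r) (unz v))
    (fun v v' p h => unz_local (W r (D * r)) (hW r (D * r)) v v' p h)
    (fun v hv => hacc r (D * r) hDr _ (unz_inj v hv))
    (by
      intro v hv _ _ z hz z' hz' i
      obtain ⟨⟨i1, c⟩, rfl⟩ := finProdFinEquiv.surjective i
      rw [← unz_apply v z i1 c, ← unz_apply v z' i1 c]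
      apply hsound r (D * r) hr0 hDr _ hv
      · rw [(unz_row z i1).1]
        rw [hZ0] at hz
        exact (mem_filter.mp hz).2
      · rw [(unz_row z' i1).1]
        rw [hZ1] at hz'
        exact (mem_filter.mp hz').2
      · rw [(unz_row z i1).2, (unz_row z' i1).2])
    hU0
    (by
      refine le_trans ?_ hU
      have e : D * (r * h) = D * r * h := by ring
      rw [e]
      gcongr)
    (by
      have h3 : 12 * (3 * k) * (T / (ρ * r) + 1) < (25 * q + 1) * (3 * Z1.card) := by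
        rw [mul_comm ρ r]
        exact lt_of_lt_of_le h1 (Nat.mul_le_mul_left _ (by omega))
      have h4 : 3 * (12 * k * (T / (ρ * r) + 1)) < 3 * ((25 * q + 1) * Z1.card) := by
        calc 3 * (12 * k * (T / (ρ * r) + 1)) = 12 * (3 * k) * (T / (ρ * r) + 1) := by ring
          _ < (25 * q + 1) * (3 * Z1.card) := h3
          _ = 3 * ((25 * q + 1) * Z1.card) := by ring
      exact Nat.lt_of_mul_lt_mul_left h4)
    (by
      have h3 : 3 * (12 * k * (25 * q)) ≤ 3 * Z0.card := by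
        calc 3 * (12 * k * (25 * q)) = 12 * (3 * k) * (25 * q) := by ring
          _ ≤ 3 * Z0.card := by omega
      omega)
    (by
      rw [Fintype.card_prod, Fintype.card_fun, Fintype.card_fin, Fintype.card_fin, pow_succ]
      have : 1 ≤ 2 ^ S := Nat.one_le_two_pow
      omega)
  have h9 : (S + 1) * (25 * q + 1) ≤ 26 * ((S + 1) * q) := by
    calc (S + 1) * (25 * q + 1) ≤ (S + 1) * (26 * q) := Nat.mul_le_mul_left _ (by omega)
      _ = 26 * ((S + 1) * q) := by ring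
  have h11 : 1 ≤ (S + 1) * q := Nat.one_le_iff_ne_zero.mpr (by positivity)
  omega

/-- **Randomized programs with slow heads and arrays.** The class of the row `j` is the
parity of `j / r`. -/
theorem arraysR {Ω : Type} [Fintype Ω] (p : Ω → ℝ) (hp : ∀ ω, 0 ≤ p ω)
    (hp1 : ∑ ω, p ω = 1) (P : Ω → DetProg Λ n k) (R h ρ U T S : ℕ) (hR : 1 ≤ R) (hh : 1 ≤ h)
    (hhR : h ≤ R) (hρ : 1 ≤ ρ) (hn1 : R * ρ ≤ n) (hn2 : n ≤ 2 * (R * ρ)) (hn : 2 ≤ n) (hk : 1 ≤ k)
    (hU0 : 0 < U) (hU : 20000 * (R * h) ^ 2 ≤ U)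
    (W : ℕ → ∀ m : ℕ, (Fin m → Fin h → Fin U) → Fin n → Λ)
    (hW : ∀ r m, ∀ v v' (p : Fin n), (∀ h : (p : ℕ) / ρ < m,
      v ⟨(p : ℕ) / ρ, h⟩ = v' ⟨(p : ℕ) / ρ, h⟩) → W r m v p = W r m v' p)
    (hyes : ∀ r m, m ≤ R → ∀ v : Fin m → Fin h → Fin U,
      Function.Injective (fun p : Fin m × Fin h => v p.1 p.2) →
      1 - 1 / 10000 ≤ prob p P T (W r m v) true)
    (hno : ∀ r m, 0 < r → m ≤ R → ∀ v : Fin m → Fin h → Fin U,
      ∀ i j : Fin m, (i : ℕ) / r % 2 = 0 → (j : ℕ) / r % 2 = 1 → (i : ℕ) % r = (j : ℕ) % r →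
      ∀ c, v i c = v j c → 1 - 1 / 10000 ≤ prob p P T (W r m v) false)
    (hS : ∀ ω, Fintype.card (P ω).Q * n ^ k ≤ 2 ^ S) :
    R * h * n ^ 2 ≤ 26000000 * (k * (S + 1) * (k * T + n) ^ 2) := by
  have hne : Nonempty Ω := by
    by_contra hemp
    rw [not_nonempty_iff] at hemp
    rw [Finset.univ_eq_empty, Finset.sum_empty] at hp1
    norm_num at hp1
  obtain ⟨ω⟩ := hne
  have hQ : 1 ≤ Fintype.card (P ω).Q := Fintype.card_pos_iff.mpr ⟨(P ω).start.1⟩
  have hkS : k ≤ S + 1 := by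
    have h1 : 2 ^ k ≤ 2 ^ S := by
      calc 2 ^ k ≤ n ^ k := Nat.pow_le_pow_left hn k
        _ = 1 * n ^ k := (one_mul _).symm
        _ ≤ Fintype.card (P ω).Q * n ^ k := Nat.mul_le_mul_right _ hQ
        _ ≤ 2 ^ S := hS ω
    have := (Nat.pow_le_pow_iff_right (by norm_num : 1 < 2)).mp h1
    omega
  rcases paramsA n R h ρ k T S 1134 hR hh hhR hρ hn1 hn2 hk hkS (by norm_num) with
    h0 | ⟨q, r, D, hq, hd, hr0, hD, hDr, h1, h2⟩
  · exact h0.trans (Nat.mul_le_mul_right _ (by norm_num))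
  exfalso
  obtain ⟨Z0, hZ0⟩ : ∃ Z0 : Finset (Fin D), Z0 = univ.filter (fun z : Fin D => (z : ℕ) % 2 = 0) :=
    ⟨_, rfl⟩
  obtain ⟨Z1, hZ1⟩ : ∃ Z1 : Finset (Fin D), Z1 = univ.filter (fun z : Fin D => (z : ℕ) % 2 = 1) :=
    ⟨_, rfl⟩
  have hc1 : D / 2 ≤ Z1.card := by rw [hZ1]; exact parity_card D 1 (by norm_num)
  have hc0 : D / 2 ≤ Z0.card := by rw [hZ0]; exact parity_card D 0 (by norm_num)
  have hD2 : D ≤ 3 * (D / 2) := by omega
  have hfin := engineRD p hp hp1 P (ρ * r) D (r * h) U T (25 * q) (S + 1) (by positivity)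
    (by positivity) hU0 Z0 Z1
    (by
      rw [Finset.disjoint_left]
      intro z h3 h4
      rw [hZ0] at h3
      rw [hZ1] at h4
      have := (mem_filter.mp h3).2
      have := (mem_filter.mp h4).2
      omega)
    (by rw [← card_pos]; omega) (by rw [← card_pos]; omega)
    (fun v => W r (D * r) (unz v))
    (fun v v' p h => unz_local (W r (D * r)) (hW r (D * r)) v v' p h)
    (fun v hv => hyes r (D * r) hDr _ (unz_inj v hv))
    (by
      rintro v ⟨z, hz, z', hz', i, hi⟩ _ _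
      obtain ⟨⟨i1, c⟩, rfl⟩ := finProdFinEquiv.surjective i
      rw [← unz_apply v z i1 c, ← unz_apply v z' i1 c] at hi
      refine hno r (D * r) hr0 hDr _ (finProdFinEquiv (z, i1)) (finProdFinEquiv (z', i1)) ?_ ?_ ?_
        c hi
      · rw [(unz_row z i1).1]
        rw [hZ0] at hz
        exact (mem_filter.mp hz).2
      · rw [(unz_row z' i1).1]
        rw [hZ1] at hz'
        exact (mem_filter.mp hz').2
      · rw [(unz_row z i1).2, (unz_row z' i1).2])
    (by
      refine le_trans ?_ hU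
      have e : D * (r * h) = D * r * h := by ring
      rw [e]
      gcongr)
    (by
      have h3 : 12 * (3 * k) * (T / (ρ * r) + 1) < (25 * q + 1) * (3 * Z1.card) := by
        rw [mul_comm ρ r]
        exact lt_of_lt_of_le h1 (Nat.mul_le_mul_left _ (by omega))
      have h4 : 3 * (12 * k * (T / (ρ * r) + 1)) < 3 * ((25 * q + 1) * Z1.card) := by
        calc 3 * (12 * k * (T / (ρ * r) + 1)) = 12 * (3 * k) * (T / (ρ * r) + 1) := by ring
          _ < (25 * q + 1) * (3 * Z1.card) := h3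
          _ = 3 * ((25 * q + 1) * Z1.card) := by ring
      exact Nat.lt_of_mul_lt_mul_left h4)
    (by
      have h3 : 3 * (12 * k * (25 * q)) ≤ 3 * Z0.card := by
        calc 3 * (12 * k * (25 * q)) = 12 * (3 * k) * (25 * q) := by ring
          _ ≤ 3 * Z0.card := by omega
      omega)
    (by
      intro ω
      rw [Fintype.card_prod, Fintype.card_fun, Fintype.card_fin, Fintype.card_fin, pow_succ]
      have := hS ω
      have : 1 ≤ 2 ^ S := Nat.one_le_two_pow
      omega)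
  have h9 : 42 * (25 * q * (S + 1)) = 1050 * ((S + 1) * q) := by ring
  have h11 : 1 ≤ (S + 1) * q := Nat.one_le_iff_ne_zero.mpr (by positivity)
  omega

end Pool.Agent.X240.SH
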