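import Pool.Agent.TH457.HT.Gen3

/-!
# Slow heads and two classes of distinct blocks

The theorem on distinct blocks (`Pool.Agent.TH457.HT.blocksN3`) under the promise that the blocks of
each of two classes are distinct.
-/

set_option autoImplicit false

open Finset

namespace Pool.Agent.X240.SH

open Pool.Agent.TH457.HT

/-- **The engine.**  `D` zones of length `lam`, each with `d` blocks with values below `U`. The
program accepts the words of all families of distinct values within `T` steps; if it accepts the word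
of a family such that the values in the zones of `Z0` are distinct, and the values in the zones of
`Z1` are distinct, then no value occurs in both kinds of zones. -/
theorem engineB {Λ : Type} {n k : ℕ} (P : HeadProg Λ n k) (lam D d U T S K : ℕ) (hlam : 0 < lam)
    (Z0 Z1 : Finset (Fin D)) (hZ : Disjoint Z0 Z1) (hne0 : Z0.Nonempty) (hne1 : Z1.Nonempty)
    (wd : (Fin D → Fin d → Fin U) → (Fin n → Λ))
    (hloc : ∀ v v' (p : Fin n), (∀ h : (p : ℕ) / lam < D,
      v ⟨(p : ℕ) / lam, h⟩ = v' ⟨(p : ℕ) / lam, h⟩) → wd v p = wd v' p)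
    (hacc : ∀ v, Function.Injective (fun p : Fin D × Fin d => v p.1 p.2) → P.AcceptsIn T (wd v))
    (hsound : ∀ v, P.Accepts (wd v) →
      (∀ z ∈ Z0, ∀ z' ∈ Z0, ∀ i i', v z i = v z' i' → z = z' ∧ i = i') →
      (∀ z ∈ Z1, ∀ z' ∈ Z1, ∀ i i', v z i = v z' i' → z = z' ∧ i = i') →
      ∀ z ∈ Z0, ∀ z' ∈ Z1, ∀ i i', v z i ≠ v z' i')
    (hU0 : 0 < U) (hU : 2 * (D * d) ^ 2 ≤ U)
    (hK1 : 12 * k * (T / lam + 1) < (K + 1) * Z1.card) (hK2 : 12 * k * K ≤ Z0.card)
    (hS : Fintype.card P.Cfg + 1 ≤ 2 ^ S) : d ≤ 1 + S * (K + 1) := by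
  classical
  obtain ⟨N, hN⟩ : ∃ N, N = T / lam + 1 := ⟨_, rfl⟩
  have h0 := fun v hv => exists_touch P lam D T hlam (wd v) (hacc v hv)
  rw [← hN] at hK1
  simp only [← hN] at h0
  choose! Tch hT1 hT2 using h0
  set G : Finset (Fin D → Fin d → Fin U) := univ.filter
    (fun v => Function.Injective (fun p : Fin D × Fin d => v p.1 p.2)) with hG
  have hGmem : ∀ x ∈ G, Function.Injective (fun p : Fin D × Fin d => x p.1 p.2) :=
    fun x hx => (mem_filter.mp hx).2
  -- the number of windows which touch `b`
  obtain ⟨Kb, hKb⟩ : ∃ Kb : (Fin D → Fin d → Fin U) → Fin D → ℕ,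
      Kb = fun x b => ((range N).filter (fun i => b ∈ Tch x i)).card := ⟨_, rfl⟩
  have hsumK : ∀ x ∈ G, ∑ b : Fin D, Kb x b ≤ N * (3 * k) := by
    intro x hx
    have h1 : ∑ i ∈ range N, ((univ : Finset (Fin D)).filter (fun b => b ∈ Tch x i)).card
        = ∑ b : Fin D, ((range N).filter (fun i => b ∈ Tch x i)).card :=
      Finset.sum_card_bipartiteAbove_eq_sum_card_bipartiteBelow (r := fun i b => b ∈ Tch x i)
    rw [hKb]
    simp only
    rw [← h1]
    refine (Finset.sum_le_sum (g := fun _ => 3 * k) ?_).trans (by simp)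
    intro i _
    have e : (univ : Finset (Fin D)).filter (fun b => b ∈ Tch x i) = Tch x i := by
      ext z; simp
    rw [e]
    exact hT1 x (hGmem x hx) i
  obtain ⟨b, hbZ, hb⟩ := avg4 G Z1 (fun x b => K < Kb x b) hne1 (by
      intro x hx
      have h1 : (K + 1) * (Z1.filter (fun b => K < Kb x b)).card
          ≤ ∑ b : Fin D, Kb x b := by
        calc (K + 1) * (Z1.filter (fun b => K < Kb x b)).card
            = ∑ b ∈ Z1.filter (fun b => K < Kb x b), (K + 1) := by
              rw [sum_const, smul_eq_mul, mul_comm]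
          _ ≤ ∑ b ∈ Z1.filter (fun b => K < Kb x b), Kb x b :=
              Finset.sum_le_sum (fun b hb => (mem_filter.mp hb).2)
          _ ≤ ∑ b : Fin D, Kb x b :=
              Finset.sum_le_sum_of_subset (subset_univ _)
      have h2 := h1.trans (hsumK x hx)
      have h3 : (K + 1) * (4 * (Z1.filter (fun b => K < Kb x b)).card)
          < (K + 1) * Z1.card := by
        calc (K + 1) * (4 * (Z1.filter (fun b => K < Kb x b)).card)
            = 4 * ((K + 1) * (Z1.filter (fun b => K < Kb x b)).card) := by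
              ring
          _ ≤ 4 * (N * (3 * k)) := Nat.mul_le_mul_left _ h2
          _ = 12 * k * N := by ring
          _ < (K + 1) * Z1.card := hK1
      exact (Nat.lt_of_mul_lt_mul_left h3).le)
  set G1 := G.filter (fun x => ¬ K < Kb x b) with hG1
  have hc1 : (G.filter (fun x => K < Kb x b)).card + G1.card = G.card :=
    Finset.card_filter_add_card_filter_not (s := G) (fun x => K < Kb x b)
  obtain ⟨a, haZ, ha2⟩ := avg4 G1 Z0
    (fun x a => ∃ i < N, a ∈ Tch x i ∧ b ∈ Tch x i) hne0
    (by
      intro x hx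
      have hxG : x ∈ G := (mem_filter.mp hx).1
      have hxK : Kb x b ≤ K := by
        have := (mem_filter.mp hx).2; omega
      have hsub : Z0.filter
          (fun a => ∃ i < N, a ∈ Tch x i ∧ b ∈ Tch x i) ⊆
          ((range N).filter (fun i => b ∈ Tch x i)).biUnion (Tch x) := by
        intro a ha
        obtain ⟨-, i, hi, h1, h2⟩ := mem_filter.mp ha
        exact mem_biUnion.mpr ⟨i, mem_filter.mpr ⟨mem_range.mpr hi, h2⟩, h1⟩
      have h1 : (Z0.filter
          (fun a => ∃ i < N, a ∈ Tch x i ∧ b ∈ Tch x i)).card ≤ Kb x b * (3 * k) := by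
        refine (card_le_card hsub).trans (card_biUnion_le.trans ?_)
        refine (Finset.sum_le_sum (g := fun _ => 3 * k)
          (fun i _ => hT1 x (hGmem x hxG) i)).trans ?_
        rw [sum_const, smul_eq_mul, hKb]
      have h2 : Kb x b * (3 * k) ≤ K * (3 * k) := Nat.mul_le_mul_right _ hxK
      have h3 : 4 * (K * (3 * k)) = 12 * k * K := by ring
      omega)
  have hab : a ≠ b := by
    rintro rfl
    exact Finset.disjoint_left.mp hZ haZ hbZ
  set G2 := G1.filter (fun x => ¬ ∃ i < N, a ∈ Tch x i ∧ b ∈ Tch x i) with hG2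
  have hc2 : (G1.filter (fun x => ∃ i < N, a ∈ Tch x i ∧ b ∈ Tch x i)).card + G2.card = G1.card :=
    Finset.card_filter_add_card_filter_not (s := G1) _
  have hG2G : ∀ x ∈ G2, x ∈ G := fun x hx => (mem_filter.mp (mem_filter.mp hx).1).1
  -- transcripts
  have htr : ∀ x ∈ G2, ∃ (c₀ : P.Cfg) (τ : List P.Cfg), P.init c₀.1 c₀.2 ∧
      Tr P lam a b (wd x) false c₀ τ ∧ τ.length ≤ 2 * K + 1 := by
    intro x hx
    have hx2 := (mem_filter.mp hx).2
    have hx1 := (mem_filter.mp (mem_filter.mp hx).1).2
    obtain ⟨c₀, τ, h1, h2, h3⟩ := hT2 x (hGmem x (hG2G x hx)) a b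
      (fun i hi h1 h2 => hx2 ⟨i, hi, h1, h2⟩)
    refine ⟨c₀, τ, h1, h2, h3.trans ?_⟩
    have : Kb x b ≤ K := by omega
    rw [hKb] at this
    simp only at this
    omega
  have hne : ∀ x ∈ G2, Nonempty P.Cfg := fun x hx => ⟨(htr x hx).choose⟩
  rcases Finset.eq_empty_or_nonempty G2 with hemp | ⟨x₀, hx₀⟩
  · exfalso
    have hz : G2.card = 0 := by rw [hemp]; rfl
    have hz1 : G1.card = 0 := by omega
    have hz0 : G.card = 0 := by omega
    have := card_inj D d U hU
    rw [← hG, hz0] at this
    have : 0 < U ^ (d * D) := by positivity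
    omega
  have : Nonempty P.Cfg := hne x₀ hx₀
  choose! c₀ τ hi htau hlen using htr
  have hfin := rect_keys (κ := Fin (2 * K + 2) → Option P.Cfg) G2
    (fun x i => (c₀ x :: τ x)[(i : ℕ)]?) a b hab (by
      intro x hx y hy hkey hrest
      have e := getElem?_ext (R := 2 * K + 2)
        (by rw [List.length_cons]; have := hlen x hx; omega)
        (by rw [List.length_cons]; have := hlen y hy; omega) hkey
      rw [List.cons.injEq] at e
      have hxi := hGmem x (hG2G x hx)
      have hyi := hGmem y (hG2G y hy)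
      have hmixacc : P.Accepts (wd (Function.update x b (y b))) := by
        refine Tr_accepts P lam a b _ (τ x) false (c₀ x) (hi x hx) ?_
        refine Tr_mix P lam a b (wd x) (wd y) _ ?_ ?_ (τ x) false (c₀ x) (htau x hx) ?_
        · intro p hp
          apply hloc
          intro h
          apply Function.update_of_ne
          intro hh
          exact hp (congrArg Fin.val hh)
        · intro p hp
          apply hloc
          intro h
          by_cases hpb : (⟨(p : ℕ) / lam, h⟩ : Fin D) = b
          · rw [hpb, Function.update_self]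
          · rw [Function.update_of_ne hpb]
            apply hrest _ _ hpb
            intro hh
            exact hp (congrArg Fin.val hh)
        · rw [e.1, e.2]
          exact htau y hy
      have hcross : ∀ i i', x a i ≠ y b i' := by
        intro i i'
        have h3 := hsound _ hmixacc ?_ ?_ a haZ b hbZ i i'
        · rwa [Function.update_of_ne hab, Function.update_self] at h3
        · intro z hz z' hz' j j' hj
          have hzb : z ≠ b := by rintro rfl; exact Finset.disjoint_left.mp hZ hz hbZ
          have hzb' : z' ≠ b := by rintro rfl; exact Finset.disjoint_left.mp hZ hz' hbZ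
          rw [Function.update_of_ne hzb, Function.update_of_ne hzb'] at hj
          have h4 := hxi (a₁ := (z, j)) (a₂ := (z', j')) hj
          exact ⟨congrArg Prod.fst h4, congrArg Prod.snd h4⟩
        · intro z hz z' hz' j j' hj
          have hup : ∀ z ∈ Z1, Function.update x b (y b) z = y z := by
            intro z hz
            by_cases hzb : z = b
            · rw [hzb, Function.update_self]
            · rw [Function.update_of_ne hzb]
              apply hrest z _ hzb
              rintro rfl
              exact Finset.disjoint_left.mp hZ haZ hz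
          rw [hup z hz, hup z' hz'] at hj
          have h4 := hyi (a₁ := (z, j)) (a₂ := (z', j')) hj
          exact ⟨congrArg Prod.fst h4, congrArg Prod.snd h4⟩
      have hyb : ∀ z i i', z ≠ b → y b i ≠ x z i' := by
        intro z i i' hzb hh
        by_cases hza : z = a
        · subst hza
          exact hcross i' i hh.symm
        · rw [hrest z hza hzb] at hh
          exact hzb (congrArg Prod.fst (hyi (a₁ := (b, i)) (a₂ := (z, i')) hh)).symm
      rintro ⟨z, i⟩ ⟨z', i'⟩ hzz
      simp only at hzz
      by_cases hzb : z = b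
      · by_cases hzb' : z' = b
        · subst hzb hzb'
          rw [Function.update_self] at hzz
          exact hyi (a₁ := (z', i)) (a₂ := (z', i')) hzz
        · exfalso
          rw [hzb, Function.update_self, Function.update_of_ne hzb'] at hzz
          exact hyb z' i i' hzb' hzz
      · by_cases hzb' : z' = b
        · exfalso
          rw [hzb', Function.update_self, Function.update_of_ne hzb] at hzz
          exact hyb z i' i hzb hzz.symm
        · rw [Function.update_of_ne hzb, Function.update_of_ne hzb'] at hzz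
          exact hxi (a₁ := (z, i)) (a₂ := (z', i')) hzz)
  rw [Fintype.card_fun, Fintype.card_fin, Fintype.card_option] at hfin
  have hinj := card_inj D d U hU
  rw [← hG] at hinj
  have hGG2 : G.card ≤ 2 * G2.card := by omega
  have hpos : 0 < U ^ (d * D) := by positivity
  have h4 : 4 ^ d * U ^ (d * D) ≤ 4 * 2 ^ (S * (2 * K + 2)) * U ^ (d * D) := by
    calc 4 ^ d * U ^ (d * D) ≤ 4 ^ d * (4 * G2.card) := Nat.mul_le_mul_left _ (by omega)
      _ = 4 * (4 ^ d * G2.card) := by ring
      _ ≤ 4 * ((Fintype.card P.Cfg + 1) ^ (2 * K + 2) * U ^ (d * D)) :=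
          Nat.mul_le_mul_left _ hfin
      _ ≤ 4 * ((2 ^ S) ^ (2 * K + 2) * U ^ (d * D)) :=
          Nat.mul_le_mul_left _ (Nat.mul_le_mul_right _ (Nat.pow_le_pow_left hS _))
      _ = 4 * 2 ^ (S * (2 * K + 2)) * U ^ (d * D) := by rw [← pow_mul]; ring
  have h5 : 4 ^ d ≤ 4 * 2 ^ (S * (2 * K + 2)) := Nat.le_of_mul_le_mul_right h4 hpos
  have h6 : (2 : ℕ) ^ (2 * d) ≤ 2 ^ (2 + S * (2 * K + 2)) := by
    calc (2 : ℕ) ^ (2 * d) = 4 ^ d := by rw [pow_mul]; norm_num
      _ ≤ 4 * 2 ^ (S * (2 * K + 2)) := h5
      _ = 2 ^ (2 + S * (2 * K + 2)) := by rw [pow_add]; norm_num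
  have h7 := (Nat.pow_le_pow_iff_right (by norm_num : 1 < 2)).mp h6
  have h8 : S * (2 * K + 2) = 2 * (S * (K + 1)) := by ring
  omega

/-- **Nondeterministic programs with slow heads and two classes of distinct blocks.** The class of
the block `j` is the parity of `j / d`. The program accepts the words of all families of distinct
values within `T` steps, and of the words of the families which are injective on both classes it
accepts no others. -/
theorem blocksB {Λ : Type} {n k : ℕ} (P : HeadProg Λ n k) (L U T S : ℕ) (hn : 0 < n) (hL : 0 < L)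
    (hk : 1 ≤ k) (hU0 : 0 < U) (hU : 2 * (n / L) ^ 2 ≤ U)
    (W : ℕ → ∀ m : ℕ, (Fin m → Fin U) → Fin n → Λ)
    (hW : ∀ d m, ∀ v v' (p : Fin n), (∀ h : (p : ℕ) / L < m,
      v ⟨(p : ℕ) / L, h⟩ = v' ⟨(p : ℕ) / L, h⟩) → W d m v p = W d m v' p)
    (hacc : ∀ d m, (m + 1) * L ≤ n → ∀ v : Fin m → Fin U, Function.Injective v →
      P.AcceptsIn T (W d m v))
    (hsound : ∀ d m, (m + 1) * L ≤ n → ∀ v : Fin m → Fin U,
      (∀ i j : Fin m, (i : ℕ) / d % 2 = (j : ℕ) / d % 2 → v i = v j → i = j) →
      P.Accepts (W d m v) → Function.Injective v)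
    (hS : Fintype.card P.Q * n ^ k ≤ 2 ^ S) :
    n ^ 3 ≤ 228312 * (k * (S + 1) * L * (k * T + n) ^ 2) := by
  rcases params n (3 * k) T L S 28 hn hL (by omega) (by norm_num) with
    h | ⟨q, d, D, hq, hd, hd0, hD, hDdL, h1, h2⟩
  · refine h.trans ?_
    calc 302 * 28 * (3 * k * (S + 1) * L * (3 * k * T + n) ^ 2)
        ≤ 302 * 28 * (3 * k * (S + 1) * L * (3 * (k * T + n)) ^ 2) := by
          gcongr
          have : 3 * k * T = 3 * (k * T) := by ring
          omega
      _ = 228312 * (k * (S + 1) * L * (k * T + n) ^ 2) := by ring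
  exfalso
  have hDd : D * d ≤ n / L := by
    rw [Nat.le_div_iff_mul_le hL]
    nlinarith
  obtain ⟨Z0, hZ0⟩ : ∃ Z0 : Finset (Fin D), Z0 = univ.filter (fun z : Fin D => (z : ℕ) % 2 = 0) :=
    ⟨_, rfl⟩
  obtain ⟨Z1, hZ1⟩ : ∃ Z1 : Finset (Fin D), Z1 = univ.filter (fun z : Fin D => (z : ℕ) % 2 = 1) :=
    ⟨_, rfl⟩
  have hc1 : D / 2 ≤ Z1.card := by
    have h3 : ((univ : Finset (Fin (D / 2))).map ⟨fun i => (⟨2 * i.1 + 1, by have := i.2; omega⟩ :
        Fin D), fun i j h => by
          have := congrArg Fin.val h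
          simp only at this
          exact Fin.ext (by omega)⟩) ⊆ Z1 := by
      intro z hz
      obtain ⟨i, -, rfl⟩ := mem_map.mp hz
      rw [hZ1]
      exact mem_filter.mpr ⟨mem_univ _, by simp only [Function.Embedding.coeFn_mk]; omega⟩
    have h4 := card_le_card h3
    rwa [card_map, card_univ, Fintype.card_fin] at h4
  have hc0 : D / 2 ≤ Z0.card := by
    have h3 : ((univ : Finset (Fin (D / 2))).map ⟨fun i => (⟨2 * i.1, by have := i.2; omega⟩ :
        Fin D), fun i j h => by
          have := congrArg Fin.val h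
          simp only at this
          exact Fin.ext (by omega)⟩) ⊆ Z0 := by
      intro z hz
      obtain ⟨i, -, rfl⟩ := mem_map.mp hz
      rw [hZ0]
      exact mem_filter.mpr ⟨mem_univ _, by simp only [Function.Embedding.coeFn_mk]; omega⟩
    have h4 := card_le_card h3
    rwa [card_map, card_univ, Fintype.card_fin] at h4
  have hD2 : D ≤ 3 * (D / 2) := by omega
  have hdiv : ∀ (z : Fin D) (i : Fin d), ((finProdFinEquiv (z, i) : Fin (D * d)) : ℕ) / d = z := by
    intro z i
    simp only [finProdFinEquiv_apply_val]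
    rw [Nat.add_mul_div_left _ _ hd0, Nat.div_eq_of_lt i.2, zero_add]
  have hfin := engineB P (L * d) D d U T (S + 1) (25 * q) (by positivity) Z0 Z1
    (by
      rw [Finset.disjoint_left]
      intro z h3 h4
      rw [hZ0] at h3
      rw [hZ1] at h4
      have := (mem_filter.mp h3).2
      have := (mem_filter.mp h4).2
      omega)
    (by rw [← card_pos]; omega) (by rw [← card_pos]; omega)
    (fun v => W d (D * d) (fun j => v (finProdFinEquiv.symm j).1 (finProdFinEquiv.symm j).2))
    (fun v v' p h => loc_zones (W d (D * d)) (hW d (D * d)) v v' p h)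
    (fun v hv => hacc d (D * d) hDdL _ ((inj_zones v).mpr hv))
    (by
      intro v hv h3 h4 z hz z' hz' i i' heq
      have h5 := hsound d (D * d) hDdL _ (by
        intro j j' hjj hv'
        obtain ⟨⟨z1, i1⟩, rfl⟩ := finProdFinEquiv.surjective j
        obtain ⟨⟨z2, i2⟩, rfl⟩ := finProdFinEquiv.surjective j'
        rw [hdiv, hdiv] at hjj
        rw [Equiv.symm_apply_apply, Equiv.symm_apply_apply] at hv'
        have h6 : z1 = z2 ∧ i1 = i2 := by
          rcases Nat.mod_two_eq_zero_or_one (z1 : ℕ) with h7 | h7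
          · refine h3 z1 ?_ z2 ?_ i1 i2 hv'
            · rw [hZ0]; exact mem_filter.mpr ⟨mem_univ _, h7⟩
            · rw [hZ0]; exact mem_filter.mpr ⟨mem_univ _, by omega⟩
          · refine h4 z1 ?_ z2 ?_ i1 i2 hv'
            · rw [hZ1]; exact mem_filter.mpr ⟨mem_univ _, h7⟩
            · rw [hZ1]; exact mem_filter.mpr ⟨mem_univ _, by omega⟩
        rw [h6.1, h6.2]) hv
      have h6 := h5 (a₁ := finProdFinEquiv (z, i)) (a₂ := finProdFinEquiv (z', i'))
        (by simpa using heq)
      have h7 := finProdFinEquiv.injective h6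
      have h8 : z = z' := congrArg Prod.fst h7
      rw [hZ0] at hz
      rw [hZ1, ← h8] at hz'
      have := (mem_filter.mp hz).2
      have := (mem_filter.mp hz').2
      omega)
    hU0 (le_trans (by gcongr) hU)
    (by
      have h3 : 12 * (3 * k) * (T / (L * d) + 1) < (25 * q + 1) * (3 * Z1.card) :=
        lt_of_lt_of_le h1 (Nat.mul_le_mul_left _ (by omega))
      have h4 : 3 * (12 * k * (T / (L * d) + 1)) < 3 * ((25 * q + 1) * Z1.card) := by
        calc 3 * (12 * k * (T / (L * d) + 1)) = 12 * (3 * k) * (T / (L * d) + 1) := by ring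
          _ < (25 * q + 1) * (3 * Z1.card) := h3
          _ = 3 * ((25 * q + 1) * Z1.card) := by ring
      exact Nat.lt_of_mul_lt_mul_left h4)
    (by
      have h3 : 3 * (12 * k * (25 * q)) ≤ 3 * Z0.card := by
        calc 3 * (12 * k * (25 * q)) = 12 * (3 * k) * (25 * q) := by ring
          _ ≤ 3 * Z0.card := by omega
      omega)
    (by
      rw [Fintype.card_prod, Fintype.card_fun, Fintype.card_fin, Fintype.card_fin, pow_succ]
      have : 1 ≤ 2 ^ S := Nat.one_le_two_pow
      omega)
  have h9 : (S + 1) * (25 * q + 1) ≤ 26 * ((S + 1) * q) := by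
    calc (S + 1) * (25 * q + 1) ≤ (S + 1) * (26 * q) := Nat.mul_le_mul_left _ (by omega)
      _ = 26 * ((S + 1) * q) := by ring
  have h11 : 1 ≤ (S + 1) * q := Nat.one_le_iff_ne_zero.mpr (by positivity)
  omega

end Pool.Agent.X240.SH
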