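import Pool.Agent.TH457.HT.Gen3

/-!
# Randomized programs with slow heads and two classes of distinct blocks
-/

set_option autoImplicit false

open Finset

namespace Pool.Agent.X240.SH

open Pool.Agent.TH457.HT

variable {Λ : Type} {n k : ℕ}

/-- the number of the injective families of blocks, for many values -/
theorem card_inj_many (D d U c : ℕ) (hc : 1 ≤ c) (hU0 : 0 < U) (hU : c * (D * d) ^ 2 ≤ U) :
    (U : ℝ) ^ (d * D) * (1 - 1 / c) ≤ (((univ : Finset (Fin D → Fin d → Fin U)).filter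
      (fun v => Function.Injective (fun p : Fin D × Fin d => v p.1 p.2))).card : ℝ) := by
  classical
  have e : ((univ : Finset (Fin D → Fin d → Fin U)).filter
      (fun v => Function.Injective (fun p : Fin D × Fin d => v p.1 p.2))).card
      = U.descFactorial (D * d) := by
    rw [← Fintype.card_subtype]
    have e1 : Fintype.card {v : Fin D → Fin d → Fin U //
        Function.Injective (fun p : Fin D × Fin d => v p.1 p.2)}
        = Fintype.card (Fin D × Fin d ↪ Fin U) := by
      refine Fintype.card_congr ⟨fun v => ⟨fun p => v.1 p.1 p.2, v.2⟩,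
        fun f => ⟨fun z i => f (z, i), f.injective⟩, fun v => rfl, fun f => rfl⟩
    rw [e1, Fintype.card_embedding_eq, Fintype.card_fin, Fintype.card_prod, Fintype.card_fin,
      Fintype.card_fin]
  rw [e]
  obtain ⟨m, hm⟩ : ∃ m, m = D * d := ⟨_, rfl⟩
  rw [mul_comm d D, ← hm]
  rw [← hm] at hU
  have hcr : (0 : ℝ) < c := by exact_mod_cast hc
  rcases Nat.eq_zero_or_pos m with h0 | h0
  · subst h0
    simp
  have hm2 : m ≤ m ^ 2 := by nlinarith
  have hmU : m ≤ U := by nlinarith
  have h1 : (U + 1 - m) ^ m ≤ U.descFactorial m := Nat.pow_sub_le_descFactorial U m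
  have h1r : (((U + 1 - m) ^ m : ℕ) : ℝ) ≤ (U.descFactorial m : ℝ) := by exact_mod_cast h1
  refine le_trans ?_ h1r
  have key : (1 + (-((m : ℝ) / U))) ^ m ≥ 1 + (m : ℝ) * (-((m : ℝ) / U)) := by
    apply one_add_mul_le_pow
    have : (m : ℝ) / U ≤ 1 := by
      rw [div_le_one (by exact_mod_cast hU0)]; exact_mod_cast hmU
    linarith
  have hUr : (0 : ℝ) < U := by exact_mod_cast hU0
  have hhalf : (m : ℝ) * ((m : ℝ) / U) ≤ 1 / c := by
    rw [← mul_div_assoc, div_le_div_iff₀ hUr hcr]
    have : (c : ℝ) * (m : ℝ) ^ 2 ≤ U := by exact_mod_cast hU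
    nlinarith
  have h2 : (1 : ℝ) - 1 / c ≤ (1 + (-((m : ℝ) / U))) ^ m := by
    have : (1 : ℝ) + (m : ℝ) * (-((m : ℝ) / U)) = 1 - (m : ℝ) * ((m : ℝ) / U) := by ring
    linarith
  have h3 : ((U : ℝ)) ^ m * (1 - 1 / c) ≤ ((U : ℝ) - m) ^ m := by
    have e3 : ((U : ℝ) - m) ^ m = (U : ℝ) ^ m * (1 + (-((m : ℝ) / U))) ^ m := by
      rw [← mul_pow]; congr 1; field_simp; ring
    rw [e3]
    exact mul_le_mul_of_nonneg_left h2 (by positivity)
  have h4 : ((U : ℝ) - m) ^ m ≤ (((U + 1 - m) ^ m : ℕ) : ℝ) := by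
    rw [Nat.cast_pow]
    apply pow_le_pow_left₀
    · have : (m : ℝ) ≤ U := by exact_mod_cast hmU
      linarith
    · rw [Nat.cast_sub (by omega)]; push_cast; linarith
  exact h3.trans h4

/-- for an accepted family most pairs of zones of both kinds have short transcripts -/
theorem many_pairsB (P : DetProg Λ n k) (lam D d U T K : ℕ) (hlam : 0 < lam)
    (wd : (Fin D → Fin d → Fin U) → (Fin n → Λ)) (v : Fin D → Fin d → Fin U)
    (hv : P.Answers T (wd v) true) (Z0 Z1 : Finset (Fin D))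
    (hK1 : 12 * k * (T / lam + 1) < (K + 1) * Z1.card) (hK2 : 12 * k * K ≤ Z0.card) :
    Z0.card * Z1.card ≤ 2 * ∑ b ∈ Z1, (Z0.filter
      (fun a => v ∈ HH P lam D d U (2 * K) wd a b)).card := by
  classical
  obtain ⟨Tch, hT1, hT2⟩ := exists_can P lam D T hlam (wd v) hv
  obtain ⟨N, hN⟩ : ∃ N, N = T / lam + 1 := ⟨_, rfl⟩
  rw [← hN] at hK1 hT2
  obtain ⟨Kb, hKb⟩ : ∃ Kb : Fin D → ℕ,
      Kb = fun b => ((range N).filter (fun i => b ∈ Tch i)).card := ⟨_, rfl⟩
  have hsumK : ∑ b : Fin D, Kb b ≤ N * (3 * k) := by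
    have h1 : ∑ i ∈ range N, ((univ : Finset (Fin D)).filter (fun b => b ∈ Tch i)).card
        = ∑ b : Fin D, ((range N).filter (fun i => b ∈ Tch i)).card :=
      Finset.sum_card_bipartiteAbove_eq_sum_card_bipartiteBelow (r := fun i b => b ∈ Tch i)
    rw [hKb]
    simp only
    rw [← h1]
    refine (Finset.sum_le_sum (g := fun _ => 3 * k) ?_).trans (by simp)
    intro i _
    have e : (univ : Finset (Fin D)).filter (fun b => b ∈ Tch i) = Tch i := by
      ext z; simp
    rw [e]
    exact hT1 i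
  have hfew : 4 * (Z1.filter (fun b => K < Kb b)).card ≤ Z1.card := by
    have h1 : (K + 1) * (Z1.filter (fun b => K < Kb b)).card
        ≤ ∑ b : Fin D, Kb b := by
      calc (K + 1) * (Z1.filter (fun b => K < Kb b)).card
          = ∑ b ∈ Z1.filter (fun b => K < Kb b), (K + 1) := by
            rw [sum_const, smul_eq_mul, mul_comm]
        _ ≤ ∑ b ∈ Z1.filter (fun b => K < Kb b), Kb b :=
            Finset.sum_le_sum (fun b hb => (mem_filter.mp hb).2)
        _ ≤ ∑ b : Fin D, Kb b :=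
            Finset.sum_le_sum_of_subset (subset_univ _)
    have h2 := h1.trans hsumK
    have h3 : (K + 1) * (4 * (Z1.filter (fun b => K < Kb b)).card)
        < (K + 1) * Z1.card := by
      calc (K + 1) * (4 * (Z1.filter (fun b => K < Kb b)).card)
          = 4 * ((K + 1) * (Z1.filter (fun b => K < Kb b)).card) := by
            ring
        _ ≤ 4 * (N * (3 * k)) := Nat.mul_le_mul_left _ h2
        _ = 12 * k * N := by ring
        _ < (K + 1) * Z1.card := hK1
    exact (Nat.lt_of_mul_lt_mul_left h3).le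
  have hc : (Z1.filter (fun b => K < Kb b)).card
      + (Z1.filter (fun b => ¬ K < Kb b)).card = Z1.card :=
    Finset.card_filter_add_card_filter_not (s := Z1) (fun b => K < Kb b)
  have hgood : ∀ b ∈ Z1.filter (fun b => ¬ K < Kb b),
      3 * Z0.card ≤ 4 * (Z0.filter
        (fun a => v ∈ HH P lam D d U (2 * K) wd a b)).card := by
    intro b hb
    have hbK : Kb b ≤ K := by
      have := (mem_filter.mp hb).2; omega
    have hsub : Z0.filter
        (fun a => ∃ i < N, a ∈ Tch i ∧ b ∈ Tch i) ⊆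
        ((range N).filter (fun i => b ∈ Tch i)).biUnion Tch := by
      intro a ha
      obtain ⟨-, i, hi, h1, h2⟩ := mem_filter.mp ha
      exact mem_biUnion.mpr ⟨i, mem_filter.mpr ⟨mem_range.mpr hi, h2⟩, h1⟩
    have h1 : (Z0.filter
        (fun a => ∃ i < N, a ∈ Tch i ∧ b ∈ Tch i)).card ≤ Kb b * (3 * k) := by
      refine (card_le_card hsub).trans (card_biUnion_le.trans ?_)
      refine (Finset.sum_le_sum (g := fun _ => 3 * k) (fun i _ => hT1 i)).trans ?_
      rw [sum_const, smul_eq_mul, hKb]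
    have h2 : Kb b * (3 * k) ≤ K * (3 * k) := Nat.mul_le_mul_right _ hbK
    have h3 : 4 * (K * (3 * k)) = 12 * k * K := by ring
    have h4 := Finset.card_filter_add_card_filter_not (s := Z0)
      (fun a => ∃ i < N, a ∈ Tch i ∧ b ∈ Tch i)
    have h5 : (Z0.filter
        (fun a => ¬ ∃ i < N, a ∈ Tch i ∧ b ∈ Tch i)).card
        ≤ (Z0.filter
        (fun a => v ∈ HH P lam D d U (2 * K) wd a b)).card := by
      apply card_le_card
      intro a ha
      obtain ⟨ha1, ha2⟩ := mem_filter.mp ha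
      refine mem_filter.mpr ⟨ha1, ?_⟩
      obtain ⟨τ, h6, h7⟩ := hT2 a b (fun i hi h1 h2 => ha2 ⟨i, hi, h1, h2⟩)
      refine (mem_HH P lam D d U (2 * K) wd a b v).mpr ⟨τ, h7.trans ?_, h6⟩
      have := hbK
      rw [hKb] at this
      simp only at this
      omega
    omega
  have h6 : (Z1.filter (fun b => ¬ K < Kb b)).card * (3 * Z0.card)
      ≤ 4 * ∑ b ∈ Z1, (Z0.filter
      (fun a => v ∈ HH P lam D d U (2 * K) wd a b)).card := by
    calc (Z1.filter (fun b => ¬ K < Kb b)).card * (3 * Z0.card)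
        = ∑ b ∈ Z1.filter (fun b => ¬ K < Kb b), 3 * Z0.card := by
          rw [sum_const, smul_eq_mul]
      _ ≤ ∑ b ∈ Z1.filter (fun b => ¬ K < Kb b),
          4 * (Z0.filter
          (fun a => v ∈ HH P lam D d U (2 * K) wd a b)).card := Finset.sum_le_sum hgood
      _ ≤ ∑ b ∈ Z1, 4 * (Z0.filter
          (fun a => v ∈ HH P lam D d U (2 * K) wd a b)).card :=
          Finset.sum_le_sum_of_subset (filter_subset _ _)
      _ = _ := by rw [mul_sum]
  have h7 : 3 * Z1.card ≤ 4 * (Z1.filter (fun b => ¬ K < Kb b)).card := by omega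
  have h8 : 3 * Z1.card * (3 * Z0.card) ≤ 4 * (4 * ∑ b ∈ Z1, (Z0.filter
      (fun a => v ∈ HH P lam D d U (2 * K) wd a b)).card) := by
    calc 3 * Z1.card * (3 * Z0.card)
        ≤ 4 * (Z1.filter (fun b => ¬ K < Kb b)).card * (3 * Z0.card) :=
          Nat.mul_le_mul_right _ h7
      _ = 4 * ((Z1.filter (fun b => ¬ K < Kb b)).card * (3 * Z0.card)) := by
          ring
      _ ≤ _ := Nat.mul_le_mul_left _ h6
  have h9 : 3 * Z1.card * (3 * Z0.card) = 9 * (Z0.card * Z1.card) := by ring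
  omega

/-- one program -/
theorem one_progB (P : DetProg Λ n k) (lam D d U T K S : ℕ) (hlam : 0 < lam) (hd : 0 < d)
    (hU : 0 < U) (wd : (Fin D → Fin d → Fin U) → (Fin n → Λ))
    (hloc : ∀ v v' (p : Fin n), (∀ h : (p : ℕ) / lam < D,
      v ⟨(p : ℕ) / lam, h⟩ = v' ⟨(p : ℕ) / lam, h⟩) → wd v p = wd v' p)
    (Z0 Z1 : Finset (Fin D)) (hZ : Disjoint Z0 Z1)
    (hK1 : 12 * k * (T / lam + 1) < (K + 1) * Z1.card) (hK2 : 12 * k * K ≤ Z0.card)
    (hS : Fintype.card P.Cfg + 1 ≤ 2 ^ S) (Acc : Finset (Fin D → Fin d → Fin U))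
    (hAcc : ∀ v ∈ Acc, P.Answers T (wd v) true) :
    (d : ℝ) ^ 2 * ((Z0.card * Z1.card : ℕ) * (Acc.card : ℝ)) ≤
      2 * ∑ b ∈ Z1, ∑ a ∈ Z0,
        (2048 * ∑ i, ∑ j, PL P wd a b i j
          + (d : ℝ) ^ 2 * (((2 : ℝ) ^ (2 * (K * S))) * (eta d * (U : ℝ) ^ (d * D)))) := by
  classical
  have h1 : (Z0.card * Z1.card) * Acc.card ≤
      2 * ∑ b ∈ Z1, ∑ a ∈ Z0,
        (HH P lam D d U (2 * K) wd a b).card := by
    calc (Z0.card * Z1.card) * Acc.card = ∑ v ∈ Acc, Z0.card * Z1.card := by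
          rw [sum_const, smul_eq_mul, mul_comm]
      _ ≤ ∑ v ∈ Acc, 2 * ∑ b ∈ Z1, (Z0.filter
          (fun a => v ∈ HH P lam D d U (2 * K) wd a b)).card :=
          Finset.sum_le_sum (fun v hv =>
            many_pairsB P lam D d U T K hlam wd v (hAcc v hv) Z0 Z1 hK1 hK2)
      _ = 2 * ∑ b ∈ Z1, ∑ v ∈ Acc, (Z0.filter
          (fun a => v ∈ HH P lam D d U (2 * K) wd a b)).card := by
          rw [← mul_sum, Finset.sum_comm]
      _ = 2 * ∑ b ∈ Z1, ∑ a ∈ Z0, (Acc.filter
          (fun v => v ∈ HH P lam D d U (2 * K) wd a b)).card := by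
          congr 1
          apply Finset.sum_congr rfl
          intro b _
          exact Finset.sum_card_bipartiteAbove_eq_sum_card_bipartiteBelow
            (r := fun (v : Fin D → Fin d → Fin U) (a : Fin D) =>
              v ∈ HH P lam D d U (2 * K) wd a b)
      _ ≤ _ := by
          apply Nat.mul_le_mul_left
          apply Finset.sum_le_sum
          intro b _
          apply Finset.sum_le_sum
          intro a _
          apply card_le_card
          intro v hv
          exact (mem_filter.mp hv).2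
  have hM : (((Fintype.card P.Cfg + 1) ^ (2 * K) : ℕ) : ℝ) ≤ (2 : ℝ) ^ (2 * (K * S)) := by
    have : (Fintype.card P.Cfg + 1) ^ (2 * K) ≤ 2 ^ (2 * (K * S)) := by
      calc (Fintype.card P.Cfg + 1) ^ (2 * K) ≤ (2 ^ S) ^ (2 * K) := Nat.pow_le_pow_left hS _
        _ = 2 ^ (2 * (K * S)) := by rw [← pow_mul]; congr 1; ring
    exact_mod_cast this
  have hη : 0 ≤ eta d := by unfold eta; positivity
  have hUd : (0 : ℝ) ≤ (U : ℝ) ^ (d * D) := by positivity
  have h2 : ∀ b ∈ Z1, ∀ a ∈ Z0,
      (d : ℝ) ^ 2 * (HH P lam D d U (2 * K) wd a b).card ≤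
      2048 * ∑ i, ∑ j, PL P wd a b i j
          + (d : ℝ) ^ 2 * (((2 : ℝ) ^ (2 * (K * S))) * (eta d * (U : ℝ) ^ (d * D))) := by
    intro b hb a ha
    have hab : a ≠ b := by
      rintro rfl
      exact Finset.disjoint_left.mp hZ ha hb
    have h3 := plantP P lam D d U (2 * K) hd hU wd hloc a b hab
    refine h3.trans ?_
    apply add_le_add (le_refl _)
    apply mul_le_mul_of_nonneg_left _ (by positivity)
    exact mul_le_mul_of_nonneg_right hM (mul_nonneg hη hUd)
  have h1' : (((Z0.card * Z1.card : ℕ) : ℝ) * (Acc.card : ℝ)) ≤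
      2 * ∑ b ∈ Z1, ∑ a ∈ Z0,
        ((HH P lam D d U (2 * K) wd a b).card : ℝ) := by
    exact_mod_cast h1
  calc (d : ℝ) ^ 2 * ((Z0.card * Z1.card : ℕ) * (Acc.card : ℝ))
      ≤ (d : ℝ) ^ 2 * (2 * ∑ b ∈ Z1, ∑ a ∈ Z0,
        ((HH P lam D d U (2 * K) wd a b).card : ℝ)) :=
        mul_le_mul_of_nonneg_left h1' (by positivity)
    _ = 2 * ∑ b ∈ Z1, ∑ a ∈ Z0,
        (d : ℝ) ^ 2 * ((HH P lam D d U (2 * K) wd a b).card : ℝ) := by
        rw [← mul_assoc, mul_comm ((d : ℝ) ^ 2) 2, mul_assoc, mul_sum]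
        congr 1
        apply Finset.sum_congr rfl
        intro b _
        rw [mul_sum]
    _ ≤ _ := by
        apply mul_le_mul_of_nonneg_left _ (by norm_num)
        exact Finset.sum_le_sum (fun b hb => Finset.sum_le_sum (fun a ha => h2 b hb a ha))

/-- **The engine for randomized programs and two classes of zones.** -/
theorem engineRB {Ω : Type} [Fintype Ω] (p : Ω → ℝ) (hp : ∀ ω, 0 ≤ p ω) (hp1 : ∑ ω, p ω = 1)
    (P : Ω → DetProg Λ n k) (lam D d U T K S : ℕ) (hlam : 0 < lam) (hd : 0 < d)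
    (hU0 : 0 < U) (Z0 Z1 : Finset (Fin D)) (hZ : Disjoint Z0 Z1) (hne0 : Z0.Nonempty)
    (hne1 : Z1.Nonempty) (wd : (Fin D → Fin d → Fin U) → (Fin n → Λ))
    (hloc : ∀ v v' (p : Fin n), (∀ h : (p : ℕ) / lam < D,
      v ⟨(p : ℕ) / lam, h⟩ = v' ⟨(p : ℕ) / lam, h⟩) → wd v p = wd v' p)
    (hyes : ∀ v, Function.Injective (fun p : Fin D × Fin d => v p.1 p.2) →
      1 - 1 / 10000 ≤ prob p P T (wd v) true)
    (hno : ∀ v, ¬ Function.Injective (fun p : Fin D × Fin d => v p.1 p.2) →
      (∀ z ∈ Z0, ∀ z' ∈ Z0, ∀ i i', v z i = v z' i' → z = z' ∧ i = i') →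
      (∀ z ∈ Z1, ∀ z' ∈ Z1, ∀ i i', v z i = v z' i' → z = z' ∧ i = i') →
      1 - 1 / 10000 ≤ prob p P T (wd v) false)
    (hU : 20000 * (D * d) ^ 2 ≤ U)
    (hK1 : 12 * k * (T / lam + 1) < (K + 1) * Z1.card) (hK2 : 12 * k * K ≤ Z0.card)
    (hS : ∀ ω, Fintype.card (P ω).Cfg + 1 ≤ 2 ^ S) : d < 42 * (K * S) + 84 := by
  classical
  by_contra hcon
  push Not at hcon
  obtain ⟨V, hV⟩ : ∃ V : ℝ, V = (U : ℝ) ^ (d * D) := ⟨_, rfl⟩
  have hVpos : 0 < V := by rw [hV]; positivity
  have hcardV : ((univ : Finset (Fin D → Fin d → Fin U)).card : ℝ) = V := by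
    rw [card_univ, Fintype.card_fun, Fintype.card_fun, Fintype.card_fin, Fintype.card_fin,
      Fintype.card_fin, ← pow_mul, hV]
    push_cast; rfl
  obtain ⟨M, hM⟩ : ∃ M : ℝ, M = (2 : ℝ) ^ (2 * (K * S)) * eta d := ⟨_, rfl⟩
  obtain ⟨Acc, hAcc⟩ : ∃ Acc : Ω → Finset (Fin D → Fin d → Fin U),
      Acc = fun ω => univ.filter (fun v => (P ω).Answers T (wd v) true) := ⟨_, rfl⟩
  obtain ⟨c, hc⟩ : ∃ c : ℝ, c = ((Z0.card * Z1.card : ℕ) : ℝ) := ⟨_, rfl⟩
  have hcpos : 0 < c := by
    rw [hc]
    have h1 : 0 < Z0.card * Z1.card := Nat.mul_pos (card_pos.mpr hne0) (card_pos.mpr hne1)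
    exact_mod_cast h1
  -- the injective families
  obtain ⟨G, hG⟩ : ∃ G : Finset (Fin D → Fin d → Fin U), G = univ.filter
      (fun v => Function.Injective (fun p : Fin D × Fin d => v p.1 p.2)) := ⟨_, rfl⟩
  have hGc : V * (1 - 1 / 20000) ≤ (G.card : ℝ) := by
    have h1 := card_inj_many D d U 20000 (by norm_num) hU0 hU
    rw [← hV, ← hG] at h1
    exact_mod_cast h1
  have hGn : ((univ.filter (fun v : Fin D → Fin d → Fin U => v ∉ G)).card : ℝ)
      ≤ 1 / 20000 * V := by
    have h1 := Finset.card_filter_add_card_filter_not (s := (univ : Finset (Fin D → Fin d → Fin U)))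
      (fun v => v ∈ G)
    have h2 : (univ : Finset (Fin D → Fin d → Fin U)).filter (fun v => v ∈ G) = G := by
      ext v; simp
    rw [h2] at h1
    have h3 : (G.card : ℝ) + ((univ.filter (fun v : Fin D → Fin d → Fin U => v ∉ G)).card : ℝ)
        = V := by
      rw [← hcardV]
      exact_mod_cast h1
    linarith
  -- probabilities
  have hle1 : ∀ v, ∑ ω, p ω * (if v ∈ AI (P ω) wd then (1 : ℝ) else 0) ≤ 1 := by
    intro v
    refine le_trans (Finset.sum_le_sum (g := p) ?_) (le_of_eq hp1)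
    intro ω _
    split_ifs
    · rw [mul_one]
    · rw [mul_zero]; exact hp ω
  -- the planted families are rejected
  have hfalse : ∀ v, ¬ Function.Injective (fun p : Fin D × Fin d => v p.1 p.2) →
      (∀ z ∈ Z0, ∀ z' ∈ Z0, ∀ i i', v z i = v z' i' → z = z' ∧ i = i') →
      (∀ z ∈ Z1, ∀ z' ∈ Z1, ∀ i i', v z i = v z' i' → z = z' ∧ i = i') →
      ∑ ω, p ω * (if v ∈ AI (P ω) wd then (1 : ℝ) else 0) ≤ 1 / 10000 := by
    intro v hv hv0 hv1
    have h1 := hno v hv hv0 hv1
    have h2 : ∑ ω, p ω * (if v ∈ AI (P ω) wd then (1 : ℝ) else 0) + prob p P T (wd v) false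
        ≤ ∑ ω, p ω := by
      unfold prob
      rw [← Finset.sum_add_distrib]
      apply Finset.sum_le_sum
      intro ω _
      by_cases h3 : v ∈ AI (P ω) wd
      · have h4 : ¬ (P ω).Answers T (wd v) false := by
          obtain ⟨T', t', -, h5, h6⟩ := (mem_AI (P ω) wd v).mp h3
          rintro ⟨t, -, h7, h8⟩
          rcases Nat.lt_trichotomy t t' with hlt | heq | hgt
          · rw [h6 t hlt] at h7; cases h7
          · rw [heq, h5] at h7; cases h7
          · rw [h8 t' hgt] at h5; cases h5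
        rw [if_pos h3, if_neg h4]; simp
      · rw [if_neg h3, mul_zero, zero_add]
        split_ifs
        · exact le_rfl
        · exact hp ω
    rw [hp1] at h2
    linarith
  have hPL : ∀ b ∈ Z1, ∀ a ∈ Z0, ∀ i j,
      ∑ ω, p ω * PL (P ω) wd a b i j ≤ (1 / 10000 + 1 / 20000) * V := by
    intro b hb a ha i j
    have hab : a ≠ b := by
      rintro rfl
      exact Finset.disjoint_left.mp hZ ha hb
    have hZb : ∀ z ∈ Z0, z ≠ b := by
      rintro z hz rfl
      exact Finset.disjoint_left.mp hZ hz hb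
    have haZ : ∀ z ∈ Z1, z ≠ a := by
      rintro z hz rfl
      exact Finset.disjoint_left.mp hZ ha hz
    have h1 : ∀ ω, PL (P ω) wd a b i j
        = ∑ v, (if TT a b i j v ∈ AI (P ω) wd then (1 : ℝ) else 0) := by
      intro ω
      unfold PL
      exact sum_ite_card _ _
    simp only [h1, mul_sum]
    rw [Finset.sum_comm]
    have hper : ∀ v : Fin D → Fin d → Fin U,
        ∑ ω, p ω * (if TT a b i j v ∈ AI (P ω) wd then (1 : ℝ) else 0)
        ≤ 1 / 10000 + (if v ∉ G then (1 : ℝ) else 0) := by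
      intro v
      by_cases hvG : v ∈ G
      · rw [if_neg (fun h => h hvG), add_zero]
        have hinj : Function.Injective (fun p : Fin D × Fin d => v p.1 p.2) := by
          rw [hG] at hvG
          exact (mem_filter.mp hvG).2
        apply hfalse
        · intro hinj'
          have h2 : (fun p : Fin D × Fin d => TT a b i j v p.1 p.2) (a, i)
              = (fun p : Fin D × Fin d => TT a b i j v p.1 p.2) (b, j) := by
            simp only [TT, Function.update_self, Function.update_of_ne hab]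
          exact hab (congrArg Prod.fst (hinj' h2))
        · intro z hz z' hz' l l' hl
          rw [TT, Function.update_of_ne (hZb z hz), Function.update_of_ne (hZb z' hz')] at hl
          have h4 := hinj (a₁ := (z, l)) (a₂ := (z', l')) hl
          exact ⟨congrArg Prod.fst h4, congrArg Prod.snd h4⟩
        · -- the values of the planted family in a zone of the second kind
          have hval : ∀ z ∈ Z1, ∀ l, (TT a b i j v z l = v z l ∧ ¬ (z = b ∧ l = j)) ∨
              (z = b ∧ l = j ∧ TT a b i j v z l = v a i) := by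
            intro z _ l
            unfold TT
            by_cases hzb : z = b
            · rw [hzb, Function.update_self]
              by_cases hlj : l = j
              · right
                rw [hlj, Function.update_self]
                exact ⟨rfl, rfl, rfl⟩
              · left
                rw [Function.update_of_ne hlj]
                exact ⟨rfl, fun h => hlj h.2⟩
            · left
              rw [Function.update_of_ne hzb]
              exact ⟨rfl, fun h => hzb h.1⟩
          intro z hz z' hz' l l' hl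
          rcases hval z hz l with ⟨e1, -⟩ | ⟨h3, h4, e1⟩ <;>
          rcases hval z' hz' l' with ⟨e2, -⟩ | ⟨h5, h6, e2⟩
          · rw [e1, e2] at hl
            have h4 := hinj (a₁ := (z, l)) (a₂ := (z', l')) hl
            exact ⟨congrArg Prod.fst h4, congrArg Prod.snd h4⟩
          · exfalso
            rw [e1, e2] at hl
            have h4 := hinj (a₁ := (z, l)) (a₂ := (a, i)) hl
            exact haZ z hz (congrArg Prod.fst h4)
          · exfalso
            rw [e1, e2] at hl
            have h4 := hinj (a₁ := (a, i)) (a₂ := (z', l')) hl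
            exact haZ z' hz' (congrArg Prod.fst h4).symm
          · exact ⟨h3.trans h5.symm, h4.trans h6.symm⟩
      · rw [if_pos hvG]
        have := hle1 (TT a b i j v)
        linarith
    calc ∑ v, ∑ ω, p ω * (if TT a b i j v ∈ AI (P ω) wd then (1 : ℝ) else 0)
        ≤ ∑ v : Fin D → Fin d → Fin U, (1 / 10000 + (if v ∉ G then (1 : ℝ) else 0)) :=
          Finset.sum_le_sum (fun v _ => hper v)
      _ = 1 / 10000 * V + ((univ.filter (fun v : Fin D → Fin d → Fin U => v ∉ G)).card : ℝ) := by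
          rw [Finset.sum_add_distrib, sum_const, nsmul_eq_mul, hcardV, ← sum_ite_card]; ring
      _ ≤ (1 / 10000 + 1 / 20000) * V := by linarith
  -- the families of distinct values are accepted
  have hAccE : (1 - 1 / 10000) * (V * (1 - 1 / 20000)) ≤ ∑ ω, p ω * ((Acc ω).card : ℝ) := by
    have h1 : ∑ ω, p ω * ((Acc ω).card : ℝ) = ∑ v, prob p P T (wd v) true := by
      unfold prob
      rw [Finset.sum_comm]
      apply Finset.sum_congr rfl
      intro ω _
      rw [hAcc]
      dsimp only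
      rw [sum_ite_card, mul_sum]
      apply Finset.sum_congr rfl
      intro v _
      split_ifs <;> simp
    rw [h1]
    calc (1 - 1 / 10000) * (V * (1 - 1 / 20000))
        ≤ (1 - 1 / 10000) * (G.card : ℝ) :=
          mul_le_mul_of_nonneg_left hGc (by norm_num)
      _ = ∑ v ∈ G, (1 - 1 / 10000 : ℝ) := by
          rw [sum_const, nsmul_eq_mul]; ring
      _ ≤ ∑ v ∈ G, prob p P T (wd v) true :=
          Finset.sum_le_sum (fun v hv => hyes v (by rw [hG] at hv; exact (mem_filter.mp hv).2))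
      _ ≤ ∑ v, prob p P T (wd v) true := by
          apply Finset.sum_le_sum_of_subset_of_nonneg (subset_univ _)
          intro v _ _
          unfold prob
          apply Finset.sum_nonneg
          intro ω _
          split_ifs
          · exact hp ω
          · exact le_rfl
  -- all together
  have hone : ∀ ω, (d : ℝ) ^ 2 * (c * ((Acc ω).card : ℝ)) ≤
      2 * ∑ b ∈ Z1, ∑ a ∈ Z0,
        (2048 * ∑ i, ∑ j, PL (P ω) wd a b i j + (d : ℝ) ^ 2 * (M * V)) := by
    intro ω
    have h1 := one_progB (P ω) lam D d U T K S hlam hd hU0 wd hloc Z0 Z1 hZ hK1 hK2 (hS ω)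
      (Acc ω) (by
      intro v hv
      rw [hAcc] at hv
      exact (mem_filter.mp hv).2)
    rw [← hc, ← hV] at h1
    have e : (2 : ℝ) ^ (2 * (K * S)) * (eta d * V) = M * V := by rw [hM]; ring
    rw [e] at h1
    exact h1
  have hsum : (d : ℝ) ^ 2 * (c * ∑ ω, p ω * ((Acc ω).card : ℝ)) ≤
      2 * (c * (2048 * ((d : ℝ) ^ 2 * ((1 / 10000 + 1 / 20000) * V)) + (d : ℝ) ^ 2 * (M * V))) := by
    calc (d : ℝ) ^ 2 * (c * ∑ ω, p ω * ((Acc ω).card : ℝ))
        = ∑ ω, p ω * ((d : ℝ) ^ 2 * (c * ((Acc ω).card : ℝ))) := by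
          rw [mul_sum, mul_sum]
          apply Finset.sum_congr rfl
          intro ω _
          ring
      _ ≤ ∑ ω, p ω * (2 * ∑ b ∈ Z1, ∑ a ∈ Z0,
        (2048 * ∑ i, ∑ j, PL (P ω) wd a b i j + (d : ℝ) ^ 2 * (M * V))) :=
          Finset.sum_le_sum (fun ω _ => mul_le_mul_of_nonneg_left (hone ω) (hp ω))
      _ = 2 * ∑ b ∈ Z1, ∑ a ∈ Z0,
        (2048 * ∑ i, ∑ j, ∑ ω, p ω * PL (P ω) wd a b i j + (d : ℝ) ^ 2 * (M * V)) := by
          have e1 : ∀ ω, p ω * (2 * ∑ b ∈ Z1, ∑ a ∈ Z0,
              (2048 * ∑ i, ∑ j, PL (P ω) wd a b i j + (d : ℝ) ^ 2 * (M * V)))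
              = ∑ b ∈ Z1, ∑ a ∈ Z0,
              (2 * (2048 * ∑ i, ∑ j, p ω * PL (P ω) wd a b i j
                + p ω * ((d : ℝ) ^ 2 * (M * V)))) := by
            intro ω
            rw [mul_sum, mul_sum]
            apply Finset.sum_congr rfl
            intro b _
            rw [mul_sum, mul_sum]
            apply Finset.sum_congr rfl
            intro a _
            have e2 : ∑ i, ∑ j, p ω * PL (P ω) wd a b i j
                = p ω * ∑ i, ∑ j, PL (P ω) wd a b i j := by
              rw [mul_sum]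
              apply Finset.sum_congr rfl
              intro i _
              rw [mul_sum]
            rw [e2]; ring
          rw [Finset.sum_congr rfl (fun ω _ => e1 ω), Finset.sum_comm, mul_sum]
          apply Finset.sum_congr rfl
          intro b _
          rw [Finset.sum_comm, mul_sum]
          apply Finset.sum_congr rfl
          intro a _
          rw [← mul_sum, Finset.sum_add_distrib, ← mul_sum, ← sum_mul, hp1, one_mul,
            Finset.sum_comm]
          congr 3
          apply Finset.sum_congr rfl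
          intro i _
          rw [Finset.sum_comm]
      _ ≤ 2 * ∑ b ∈ Z1, ∑ a ∈ Z0,
        (2048 * ((d : ℝ) ^ 2 * ((1 / 10000 + 1 / 20000) * V)) + (d : ℝ) ^ 2 * (M * V)) := by
          apply mul_le_mul_of_nonneg_left _ (by norm_num)
          apply Finset.sum_le_sum
          intro b hb
          apply Finset.sum_le_sum
          intro a ha
          apply add_le_add _ (le_refl _)
          apply mul_le_mul_of_nonneg_left _ (by norm_num)
          calc ∑ i, ∑ j, ∑ ω, p ω * PL (P ω) wd a b i j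
              ≤ ∑ i : Fin d, ∑ j : Fin d, ((1 / 10000 + 1 / 20000) * V) :=
                Finset.sum_le_sum (fun i _ => Finset.sum_le_sum (fun j _ => hPL b hb a ha i j))
            _ = (d : ℝ) ^ 2 * ((1 / 10000 + 1 / 20000) * V) := by
                rw [sum_const, sum_const, card_univ, Fintype.card_fin, nsmul_eq_mul,
                  nsmul_eq_mul]; ring
      _ = 2 * (c * (2048 * ((d : ℝ) ^ 2 * ((1 / 10000 + 1 / 20000) * V))
          + (d : ℝ) ^ 2 * (M * V))) := by
          rw [Finset.sum_congr rfl (fun b _ => sum_const _), sum_const, nsmul_eq_mul,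
            nsmul_eq_mul, hc]
          push_cast
          ring
  have hMle : M ≤ 1 / 8 := by
    rw [hM]
    unfold eta
    have h1 : ((967 : ℝ) / 1000) ^ d ≤ (1 / 2) ^ (2 * (K * S) + 4) := by
      calc ((967 : ℝ) / 1000) ^ d ≤ (967 / 1000) ^ (21 * (2 * (K * S) + 4)) :=
            pow_le_pow_of_le_one (by norm_num) (by norm_num) (by omega)
        _ = ((967 / 1000) ^ 21) ^ (2 * (K * S) + 4) := by rw [pow_mul]
        _ ≤ (1 / 2) ^ (2 * (K * S) + 4) := by
            apply pow_le_pow_left₀ (by positivity)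
            norm_num
    calc (2 : ℝ) ^ (2 * (K * S)) * (2 * ((967 : ℝ) / 1000) ^ d)
        ≤ (2 : ℝ) ^ (2 * (K * S)) * (2 * (1 / 2) ^ (2 * (K * S) + 4)) := by gcongr
      _ = (2 * (1 / 2)) ^ (2 * (K * S)) * (2 * (1 / 2) ^ 4) := by
          rw [pow_add, mul_pow]; ring
      _ = 1 / 8 := by norm_num
  have hdpos : (0 : ℝ) < (d : ℝ) ^ 2 := by positivity
  obtain ⟨E, hE⟩ : ∃ E : ℝ, E = ∑ ω, p ω * ((Acc ω).card : ℝ) := ⟨_, rfl⟩
  rw [← hE] at hsum hAccE
  have h5 : (d : ℝ) ^ 2 * c * E ≤ (d : ℝ) ^ 2 * c *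
      (2 * (2048 * ((1 / 10000 + 1 / 20000) * V) + M * V)) := by
    calc (d : ℝ) ^ 2 * c * E = (d : ℝ) ^ 2 * (c * E) := by ring
      _ ≤ 2 * (c * (2048 * ((d : ℝ) ^ 2 * ((1 / 10000 + 1 / 20000) * V))
          + (d : ℝ) ^ 2 * (M * V))) := hsum
      _ = _ := by ring
  have h6 : E ≤ 2 * (2048 * ((1 / 10000 + 1 / 20000) * V) + M * V) :=
    le_of_mul_le_mul_left h5 (mul_pos hdpos hcpos)
  have h7 : M * V ≤ 1 / 8 * V := mul_le_mul_of_nonneg_right hMle hVpos.le
  nlinarith

/-- **Randomized programs with slow heads and two classes of distinct blocks.** The class of the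
block `j` is the parity of `j / d`. -/
theorem blocksRB {Ω : Type} [Fintype Ω] (p : Ω → ℝ) (hp : ∀ ω, 0 ≤ p ω)
    (hp1 : ∑ ω, p ω = 1) (P : Ω → DetProg Λ n k) (L U T S : ℕ) (hn : 0 < n) (hL : 0 < L)
    (hk : 1 ≤ k) (hU0 : 0 < U) (hU : 20000 * (n / L) ^ 2 ≤ U)
    (W : ℕ → ∀ m : ℕ, (Fin m → Fin U) → Fin n → Λ)
    (hW : ∀ d m, ∀ v v' (p : Fin n), (∀ h : (p : ℕ) / L < m,
      v ⟨(p : ℕ) / L, h⟩ = v' ⟨(p : ℕ) / L, h⟩) → W d m v p = W d m v' p)
    (hyes : ∀ d m, (m + 1) * L ≤ n → ∀ v : Fin m → Fin U, Function.Injective v →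
      1 - 1 / 10000 ≤ prob p P T (W d m v) true)
    (hno : ∀ d m, (m + 1) * L ≤ n → ∀ v : Fin m → Fin U,
      (∀ i j : Fin m, (i : ℕ) / d % 2 = (j : ℕ) / d % 2 → v i = v j → i = j) →
      ¬ Function.Injective v → 1 - 1 / 10000 ≤ prob p P T (W d m v) false)
    (hS : ∀ ω, Fintype.card (P ω).Q * n ^ k ≤ 2 ^ S) :
    n ^ 3 ≤ 9246636 * (k * (S + 1) * L * (k * T + n) ^ 2) := by
  rcases params n (3 * k) T L S 1134 hn hL (by omega) (by norm_num) with
    h | ⟨q, d, D, hq, hd, hd0, hD, hDdL, h1, h2⟩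
  · refine h.trans ?_
    calc 302 * 1134 * (3 * k * (S + 1) * L * (3 * k * T + n) ^ 2)
        ≤ 302 * 1134 * (3 * k * (S + 1) * L * (3 * (k * T + n)) ^ 2) := by
          gcongr
          have : 3 * k * T = 3 * (k * T) := by ring
          omega
      _ = 9246636 * (k * (S + 1) * L * (k * T + n) ^ 2) := by ring
  exfalso
  have hDd : D * d ≤ n / L := by
    rw [Nat.le_div_iff_mul_le hL]
    nlinarith
  obtain ⟨Z0, hZ0⟩ : ∃ Z0 : Finset (Fin D), Z0 = univ.filter (fun z : Fin D => (z : ℕ) % 2 = 0) :=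
    ⟨_, rfl⟩
  obtain ⟨Z1, hZ1⟩ : ∃ Z1 : Finset (Fin D), Z1 = univ.filter (fun z : Fin D => (z : ℕ) % 2 = 1) :=
    ⟨_, rfl⟩
  have hc1 : D / 2 ≤ Z1.card := by
    have h3 : ((univ : Finset (Fin (D / 2))).map ⟨fun i => (⟨2 * i.1 + 1, by have := i.2; omega⟩ :
        Fin D), fun i j h => by
          have := congrArg Fin.val h
          simp only at this
          exact Fin.ext (by omega)⟩) ⊆ Z1 := by
      intro z hz
      obtain ⟨i, -, rfl⟩ := mem_map.mp hz
      rw [hZ1]
      exact mem_filter.mpr ⟨mem_univ _, by simp only [Function.Embedding.coeFn_mk]; omega⟩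
    have h4 := card_le_card h3
    rwa [card_map, card_univ, Fintype.card_fin] at h4
  have hc0 : D / 2 ≤ Z0.card := by
    have h3 : ((univ : Finset (Fin (D / 2))).map ⟨fun i => (⟨2 * i.1, by have := i.2; omega⟩ :
        Fin D), fun i j h => by
          have := congrArg Fin.val h
          simp only at this
          exact Fin.ext (by omega)⟩) ⊆ Z0 := by
      intro z hz
      obtain ⟨i, -, rfl⟩ := mem_map.mp hz
      rw [hZ0]
      exact mem_filter.mpr ⟨mem_univ _, by simp only [Function.Embedding.coeFn_mk]; omega⟩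
    have h4 := card_le_card h3
    rwa [card_map, card_univ, Fintype.card_fin] at h4
  have hD2 : D ≤ 3 * (D / 2) := by omega
  have hdiv : ∀ (z : Fin D) (i : Fin d), ((finProdFinEquiv (z, i) : Fin (D * d)) : ℕ) / d = z := by
    intro z i
    simp only [finProdFinEquiv_apply_val]
    rw [Nat.add_mul_div_left _ _ hd0, Nat.div_eq_of_lt i.2, zero_add]
  have hfin := engineRB p hp hp1 P (L * d) D d U T (25 * q) (S + 1) (by positivity) hd0 hU0 Z0 Z1
    (by
      rw [Finset.disjoint_left]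
      intro z h3 h4
      rw [hZ0] at h3
      rw [hZ1] at h4
      have := (mem_filter.mp h3).2
      have := (mem_filter.mp h4).2
      omega)
    (by rw [← card_pos]; omega) (by rw [← card_pos]; omega)
    (fun v => W d (D * d) (fun j => v (finProdFinEquiv.symm j).1 (finProdFinEquiv.symm j).2))
    (fun v v' p h => loc_zones (W d (D * d)) (hW d (D * d)) v v' p h)
    (fun v hv => hyes d (D * d) hDdL _ ((inj_zones v).mpr hv))
    (by
      intro v hv h3 h4
      refine hno d (D * d) hDdL _ ?_ (fun h => hv ((inj_zones v).mp h))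
      intro j j' hjj hv'
      obtain ⟨⟨z1, i1⟩, rfl⟩ := finProdFinEquiv.surjective j
      obtain ⟨⟨z2, i2⟩, rfl⟩ := finProdFinEquiv.surjective j'
      rw [hdiv, hdiv] at hjj
      rw [Equiv.symm_apply_apply, Equiv.symm_apply_apply] at hv'
      have h6 : z1 = z2 ∧ i1 = i2 := by
        rcases Nat.mod_two_eq_zero_or_one (z1 : ℕ) with h7 | h7
        · refine h3 z1 ?_ z2 ?_ i1 i2 hv'
          · rw [hZ0]; exact mem_filter.mpr ⟨mem_univ _, h7⟩
          · rw [hZ0]; exact mem_filter.mpr ⟨mem_univ _, by omega⟩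
        · refine h4 z1 ?_ z2 ?_ i1 i2 hv'
          · rw [hZ1]; exact mem_filter.mpr ⟨mem_univ _, h7⟩
          · rw [hZ1]; exact mem_filter.mpr ⟨mem_univ _, by omega⟩
      rw [h6.1, h6.2])
    (le_trans (by gcongr) hU)
    (by
      have h3 : 12 * (3 * k) * (T / (L * d) + 1) < (25 * q + 1) * (3 * Z1.card) :=
        lt_of_lt_of_le h1 (Nat.mul_le_mul_left _ (by omega))
      have h4 : 3 * (12 * k * (T / (L * d) + 1)) < 3 * ((25 * q + 1) * Z1.card) := by
        calc 3 * (12 * k * (T / (L * d) + 1)) = 12 * (3 * k) * (T / (L * d) + 1) := by ring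
          _ < (25 * q + 1) * (3 * Z1.card) := h3
          _ = 3 * ((25 * q + 1) * Z1.card) := by ring
      exact Nat.lt_of_mul_lt_mul_left h4)
    (by
      have h3 : 3 * (12 * k * (25 * q)) ≤ 3 * Z0.card := by
        calc 3 * (12 * k * (25 * q)) = 12 * (3 * k) * (25 * q) := by ring
          _ ≤ 3 * Z0.card := by omega
      omega)
    (by
      intro ω
      rw [Fintype.card_prod, Fintype.card_fun, Fintype.card_fin, Fintype.card_fin, pow_succ]
      have := hS ω
      have : 1 ≤ 2 ^ S := Nat.one_le_two_pow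
      omega)
  have h9 : 42 * (25 * q * (S + 1)) = 1050 * ((S + 1) * q) := by ring
  have h11 : 1 ≤ (S + 1) * q := Nat.one_le_iff_ne_zero.mpr (by positivity)
  omega

end Pool.Agent.X240.SH
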