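import Pool.Agent.X240.SH.BipR

/-!
# Slow heads and arrays: collisions in the same column

The zones of the word contain the rows of an array, each zone one row with `d` values.  The zones are
divided into two classes (and the others).  The program has to find out whether there are two equal
values in the same column, in rows of different classes.
-/

set_option autoImplicit false

open Finset

namespace Pool.Agent.X240.SH

open Pool.Agent.TH457.HT

/-- a set of families whose two zones `a`, `b` can be exchanged is small -/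
theorem rectD {D d U : ℕ} (F : Finset (Fin D → Fin d → Fin U)) (a b : Fin D) (hab : a ≠ b)
    (hrest : ∀ x ∈ F, ∀ y ∈ F, ∀ z, z ≠ a → z ≠ b → x z = y z)
    (hmix : ∀ x ∈ F, ∀ y ∈ F, ∀ i, x a i ≠ y b i) :
    4 ^ d * F.card ≤ (U ^ 2) ^ d := by
  classical
  obtain ⟨V, hV⟩ : ∃ V : Fin d → Finset (Fin U), V = fun i => F.image (fun x => x a i) :=
    ⟨_, rfl⟩
  have hA : F.image (fun x => x a) ⊆ Fintype.piFinset V := by
    intro f hf
    obtain ⟨x, hx, rfl⟩ := mem_image.mp hf
    rw [Fintype.mem_piFinset]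
    intro i
    rw [hV]
    exact mem_image_of_mem (fun x : Fin D → Fin d → Fin U => x a i) hx
  have hB : F.image (fun x => x b) ⊆ Fintype.piFinset (fun i => (V i)ᶜ) := by
    intro g hg
    obtain ⟨y, hy, rfl⟩ := mem_image.mp hg
    rw [Fintype.mem_piFinset]
    intro i
    rw [mem_compl, hV]
    intro hi
    obtain ⟨x, hx, hxi⟩ := mem_image.mp hi
    exact hmix x hx y hy i hxi
  have hcard : F.card ≤ (F.image (fun x => x a)).card * (F.image (fun x => x b)).card := by
    rw [← card_product]
    apply card_le_card_of_injOn (fun x => (x a, x b))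
    · intro x hx
      simp only [coe_product, Set.mem_prod, mem_coe]
      exact ⟨mem_image_of_mem _ hx, mem_image_of_mem _ hx⟩
    · intro x hx y hy hxy
      simp only [Prod.mk.injEq] at hxy
      funext z
      by_cases ha : z = a
      · subst ha; exact hxy.1
      · by_cases hb : z = b
        · subst hb; exact hxy.2
        · exact hrest x hx y hy z ha hb
  have h1 := card_le_card hA
  have h2 := card_le_card hB
  rw [Fintype.card_piFinset] at h1 h2
  have hVU : ∀ i, (V i).card ≤ U := by
    intro i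
    have := card_le_univ (V i)
    rwa [Fintype.card_fin] at this
  have h2' : ∏ i, ((V i)ᶜ).card = ∏ i, (U - (V i).card) := by
    apply Finset.prod_congr rfl
    intro i _
    rw [card_compl, Fintype.card_fin]
  rw [h2'] at h2
  have h3 : F.card ≤ ∏ i, ((V i).card * (U - (V i).card)) := by
    rw [Finset.prod_mul_distrib]
    exact hcard.trans (Nat.mul_le_mul h1 h2)
  calc 4 ^ d * F.card ≤ 4 ^ d * ∏ i, ((V i).card * (U - (V i).card)) := Nat.mul_le_mul_left _ h3
    _ = ∏ i, (4 * ((V i).card * (U - (V i).card))) := by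
        rw [Finset.prod_mul_distrib (f := fun _ : Fin d => 4)
          (g := fun i => (V i).card * (U - (V i).card)), Finset.prod_const, card_univ,
          Fintype.card_fin]
    _ ≤ ∏ _i : Fin d, U ^ 2 := by
        apply Finset.prod_le_prod'
        intro i _
        exact four_mul (V i).card U (hVU i)
    _ = (U ^ 2) ^ d := by rw [Finset.prod_const, card_univ, Fintype.card_fin]

/-- the same with rests and keys -/
theorem rect_keysD {D d U : ℕ} {κ : Type} [Fintype κ] (G : Finset (Fin D → Fin d → Fin U))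
    (key : (Fin D → Fin d → Fin U) → κ) (a b : Fin D) (hab : a ≠ b)
    (hmix : ∀ x ∈ G, ∀ y ∈ G, key x = key y → (∀ z, z ≠ a → z ≠ b → x z = y z) →
      ∀ i, x a i ≠ y b i) :
    4 ^ d * G.card ≤ Fintype.card κ * U ^ (d * D) := by
  classical
  have hfib : ∀ t ∈ (univ : Finset (κ × ({z : Fin D // z ≠ a ∧ z ≠ b} → Fin d → Fin U))),
      (G.filter (fun x => (key x, fun z : {z : Fin D // z ≠ a ∧ z ≠ b} => x z) = t)).card
        ≤ (U ^ 2) ^ d / 4 ^ d := by
    intro t _
    rw [Nat.le_div_iff_mul_le (by positivity), mul_comm]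
    apply rectD _ a b hab
    · intro x hx y hy z hza hzb
      have h1 := (mem_filter.mp hx).2
      have h2 := (mem_filter.mp hy).2
      have h3 := congrArg Prod.snd (h1.trans h2.symm)
      exact congrFun h3 ⟨z, hza, hzb⟩
    · intro x hx y hy
      have h1 := (mem_filter.mp hx).2
      have h2 := (mem_filter.mp hy).2
      have h3 := h1.trans h2.symm
      apply hmix x (mem_filter.mp hx).1 y (mem_filter.mp hy).1 (congrArg Prod.fst h3)
      intro z hza hzb
      exact congrFun (congrArg Prod.snd h3) ⟨z, hza, hzb⟩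
  have h1 := Finset.card_le_mul_card_image_of_maps_to (s := G)
    (t := (univ : Finset (κ × ({z : Fin D // z ≠ a ∧ z ≠ b} → Fin d → Fin U))))
    (f := fun x => (key x, fun z : {z : Fin D // z ≠ a ∧ z ≠ b} => x z))
    (fun x _ => mem_univ _) _ hfib
  have hsub : Fintype.card {z : Fin D // z ≠ a ∧ z ≠ b} = D - 2 := by
    rw [Fintype.card_subtype]
    have e : (univ : Finset (Fin D)).filter (fun z => z ≠ a ∧ z ≠ b) = (univ.erase a).erase b := by
      ext z; simp [mem_erase, and_comm]
    rw [e, card_erase_of_mem (mem_erase.mpr ⟨hab.symm, mem_univ _⟩),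
      card_erase_of_mem (mem_univ _), card_univ, Fintype.card_fin]
    omega
  rw [card_univ, Fintype.card_prod, Fintype.card_fun, hsub, Fintype.card_fun, Fintype.card_fin,
    Fintype.card_fin] at h1
  have hD : 2 ≤ D := by
    by_contra hlt
    apply hab
    have h1 := a.2
    have h2 := b.2
    apply Fin.ext
    omega
  calc 4 ^ d * G.card ≤ 4 ^ d * ((U ^ 2) ^ d / 4 ^ d * (Fintype.card κ * (U ^ d) ^ (D - 2))) :=
        Nat.mul_le_mul_left _ h1
    _ = ((U ^ 2) ^ d / 4 ^ d * 4 ^ d) * (Fintype.card κ * (U ^ d) ^ (D - 2)) := by ring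
    _ ≤ (U ^ 2) ^ d * (Fintype.card κ * (U ^ d) ^ (D - 2)) :=
        Nat.mul_le_mul_right _ (Nat.div_mul_le_self _ _)
    _ = Fintype.card κ * ((U ^ d) ^ 2 * (U ^ d) ^ (D - 2)) := by
        rw [← pow_mul U 2 d, mul_comm 2 d, pow_mul U d 2]; ring
    _ = Fintype.card κ * U ^ (d * D) := by
        rw [← pow_add, show 2 + (D - 2) = D by omega, ← pow_mul]

/-- **The engine for arrays.**  `D` zones of length `lam`, each with `d` values below `U`. The
program accepts the words of all families of distinct values within `T` steps; if it accepts the word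
of a family such that the values in the zones of `Z0` are distinct, and the values in the zones of
`Z1` are distinct, then there are no equal values in the same column of zones of different kinds. -/
theorem engineD {Λ : Type} {n k : ℕ} (P : HeadProg Λ n k) (lam D d U T S K : ℕ) (hlam : 0 < lam)
    (Z0 Z1 : Finset (Fin D)) (hZ : Disjoint Z0 Z1) (hne0 : Z0.Nonempty) (hne1 : Z1.Nonempty)
    (wd : (Fin D → Fin d → Fin U) → (Fin n → Λ))
    (hloc : ∀ v v' (p : Fin n), (∀ h : (p : ℕ) / lam < D,
      v ⟨(p : ℕ) / lam, h⟩ = v' ⟨(p : ℕ) / lam, h⟩) → wd v p = wd v' p)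
    (hacc : ∀ v, Function.Injective (fun p : Fin D × Fin d => v p.1 p.2) → P.AcceptsIn T (wd v))
    (hsound : ∀ v, P.Accepts (wd v) →
      (∀ z ∈ Z0, ∀ z' ∈ Z0, ∀ i i', v z i = v z' i' → z = z' ∧ i = i') →
      (∀ z ∈ Z1, ∀ z' ∈ Z1, ∀ i i', v z i = v z' i' → z = z' ∧ i = i') →
      ∀ z ∈ Z0, ∀ z' ∈ Z1, ∀ i, v z i ≠ v z' i)
    (hU0 : 0 < U) (hU : 2 * (D * d) ^ 2 ≤ U)
    (hK1 : 12 * k * (T / lam + 1) < (K + 1) * Z1.card) (hK2 : 12 * k * K ≤ Z0.card)
    (hS : Fintype.card P.Cfg + 1 ≤ 2 ^ S) : d ≤ 1 + S * (K + 1) := by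
  classical
  obtain ⟨N, hN⟩ : ∃ N, N = T / lam + 1 := ⟨_, rfl⟩
  have h0 := fun v hv => exists_touch P lam D T hlam (wd v) (hacc v hv)
  rw [← hN] at hK1
  simp only [← hN] at h0
  choose! Tch hT1 hT2 using h0
  set G : Finset (Fin D → Fin d → Fin U) := univ.filter
    (fun v => Function.Injective (fun p : Fin D × Fin d => v p.1 p.2)) with hG
  have hGmem : ∀ x ∈ G, Function.Injective (fun p : Fin D × Fin d => x p.1 p.2) :=
    fun x hx => (mem_filter.mp hx).2
  -- the number of windows which touch `b`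
  obtain ⟨Kb, hKb⟩ : ∃ Kb : (Fin D → Fin d → Fin U) → Fin D → ℕ,
      Kb = fun x b => ((range N).filter (fun i => b ∈ Tch x i)).card := ⟨_, rfl⟩
  have hsumK : ∀ x ∈ G, ∑ b : Fin D, Kb x b ≤ N * (3 * k) := by
    intro x hx
    have h1 : ∑ i ∈ range N, ((univ : Finset (Fin D)).filter (fun b => b ∈ Tch x i)).card
        = ∑ b : Fin D, ((range N).filter (fun i => b ∈ Tch x i)).card :=
      Finset.sum_card_bipartiteAbove_eq_sum_card_bipartiteBelow (r := fun i b => b ∈ Tch x i)
    rw [hKb]
    simp only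
    rw [← h1]
    refine (Finset.sum_le_sum (g := fun _ => 3 * k) ?_).trans (by simp)
    intro i _
    have e : (univ : Finset (Fin D)).filter (fun b => b ∈ Tch x i) = Tch x i := by
      ext z; simp
    rw [e]
    exact hT1 x (hGmem x hx) i
  obtain ⟨b, hbZ, hb⟩ := avg4 G Z1 (fun x b => K < Kb x b) hne1 (by
      intro x hx
      have h1 : (K + 1) * (Z1.filter (fun b => K < Kb x b)).card
          ≤ ∑ b : Fin D, Kb x b := by
        calc (K + 1) * (Z1.filter (fun b => K < Kb x b)).card
            = ∑ b ∈ Z1.filter (fun b => K < Kb x b), (K + 1) := by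
              rw [sum_const, smul_eq_mul, mul_comm]
          _ ≤ ∑ b ∈ Z1.filter (fun b => K < Kb x b), Kb x b :=
              Finset.sum_le_sum (fun b hb => (mem_filter.mp hb).2)
          _ ≤ ∑ b : Fin D, Kb x b :=
              Finset.sum_le_sum_of_subset (subset_univ _)
      have h2 := h1.trans (hsumK x hx)
      have h3 : (K + 1) * (4 * (Z1.filter (fun b => K < Kb x b)).card)
          < (K + 1) * Z1.card := by
        calc (K + 1) * (4 * (Z1.filter (fun b => K < Kb x b)).card)
            = 4 * ((K + 1) * (Z1.filter (fun b => K < Kb x b)).card) := by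
              ring
          _ ≤ 4 * (N * (3 * k)) := Nat.mul_le_mul_left _ h2
          _ = 12 * k * N := by ring
          _ < (K + 1) * Z1.card := hK1
      exact (Nat.lt_of_mul_lt_mul_left h3).le)
  set G1 := G.filter (fun x => ¬ K < Kb x b) with hG1
  have hc1 : (G.filter (fun x => K < Kb x b)).card + G1.card = G.card :=
    Finset.card_filter_add_card_filter_not (s := G) (fun x => K < Kb x b)
  obtain ⟨a, haZ, ha2⟩ := avg4 G1 Z0
    (fun x a => ∃ i < N, a ∈ Tch x i ∧ b ∈ Tch x i) hne0
    (by
      intro x hx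
      have hxG : x ∈ G := (mem_filter.mp hx).1
      have hxK : Kb x b ≤ K := by
        have := (mem_filter.mp hx).2; omega
      have hsub : Z0.filter
          (fun a => ∃ i < N, a ∈ Tch x i ∧ b ∈ Tch x i) ⊆
          ((range N).filter (fun i => b ∈ Tch x i)).biUnion (Tch x) := by
        intro a ha
        obtain ⟨-, i, hi, h1, h2⟩ := mem_filter.mp ha
        exact mem_biUnion.mpr ⟨i, mem_filter.mpr ⟨mem_range.mpr hi, h2⟩, h1⟩
      have h1 : (Z0.filter
          (fun a => ∃ i < N, a ∈ Tch x i ∧ b ∈ Tch x i)).card ≤ Kb x b * (3 * k) := by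
        refine (card_le_card hsub).trans (card_biUnion_le.trans ?_)
        refine (Finset.sum_le_sum (g := fun _ => 3 * k)
          (fun i _ => hT1 x (hGmem x hxG) i)).trans ?_
        rw [sum_const, smul_eq_mul, hKb]
      have h2 : Kb x b * (3 * k) ≤ K * (3 * k) := Nat.mul_le_mul_right _ hxK
      have h3 : 4 * (K * (3 * k)) = 12 * k * K := by ring
      omega)
  have hab : a ≠ b := by
    rintro rfl
    exact Finset.disjoint_left.mp hZ haZ hbZ
  set G2 := G1.filter (fun x => ¬ ∃ i < N, a ∈ Tch x i ∧ b ∈ Tch x i) with hG2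
  have hc2 : (G1.filter (fun x => ∃ i < N, a ∈ Tch x i ∧ b ∈ Tch x i)).card + G2.card = G1.card :=
    Finset.card_filter_add_card_filter_not (s := G1) _
  have hG2G : ∀ x ∈ G2, x ∈ G := fun x hx => (mem_filter.mp (mem_filter.mp hx).1).1
  -- transcripts
  have htr : ∀ x ∈ G2, ∃ (c₀ : P.Cfg) (τ : List P.Cfg), P.init c₀.1 c₀.2 ∧
      Tr P lam a b (wd x) false c₀ τ ∧ τ.length ≤ 2 * K + 1 := by
    intro x hx
    have hx2 := (mem_filter.mp hx).2
    have hx1 := (mem_filter.mp (mem_filter.mp hx).1).2
    obtain ⟨c₀, τ, h1, h2, h3⟩ := hT2 x (hGmem x (hG2G x hx)) a b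
      (fun i hi h1 h2 => hx2 ⟨i, hi, h1, h2⟩)
    refine ⟨c₀, τ, h1, h2, h3.trans ?_⟩
    have : Kb x b ≤ K := by omega
    rw [hKb] at this
    simp only at this
    omega
  have hne : ∀ x ∈ G2, Nonempty P.Cfg := fun x hx => ⟨(htr x hx).choose⟩
  rcases Finset.eq_empty_or_nonempty G2 with hemp | ⟨x₀, hx₀⟩
  · exfalso
    have hz : G2.card = 0 := by rw [hemp]; rfl
    have hz1 : G1.card = 0 := by omega
    have hz0 : G.card = 0 := by omega
    have := card_inj D d U hU
    rw [← hG, hz0] at this
    have : 0 < U ^ (d * D) := by positivity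
    omega
  have : Nonempty P.Cfg := hne x₀ hx₀
  choose! c₀ τ hi htau hlen using htr
  have hfin := rect_keysD (κ := Fin (2 * K + 2) → Option P.Cfg) G2
    (fun x i => (c₀ x :: τ x)[(i : ℕ)]?) a b hab (by
      intro x hx y hy hkey hrest
      have e := getElem?_ext (R := 2 * K + 2)
        (by rw [List.length_cons]; have := hlen x hx; omega)
        (by rw [List.length_cons]; have := hlen y hy; omega) hkey
      rw [List.cons.injEq] at e
      have hxi := hGmem x (hG2G x hx)
      have hyi := hGmem y (hG2G y hy)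
      have hmixacc : P.Accepts (wd (Function.update x b (y b))) := by
        refine Tr_accepts P lam a b _ (τ x) false (c₀ x) (hi x hx) ?_
        refine Tr_mix P lam a b (wd x) (wd y) _ ?_ ?_ (τ x) false (c₀ x) (htau x hx) ?_
        · intro p hp
          apply hloc
          intro h
          apply Function.update_of_ne
          intro hh
          exact hp (congrArg Fin.val hh)
        · intro p hp
          apply hloc
          intro h
          by_cases hpb : (⟨(p : ℕ) / lam, h⟩ : Fin D) = b
          · rw [hpb, Function.update_self]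
          · rw [Function.update_of_ne hpb]
            apply hrest _ _ hpb
            intro hh
            exact hp (congrArg Fin.val hh)
        · rw [e.1, e.2]
          exact htau y hy
      intro i
      have h3 := hsound _ hmixacc ?_ ?_ a haZ b hbZ i
      · rwa [Function.update_of_ne hab, Function.update_self] at h3
      · intro z hz z' hz' j j' hj
        have hzb : z ≠ b := by rintro rfl; exact Finset.disjoint_left.mp hZ hz hbZ
        have hzb' : z' ≠ b := by rintro rfl; exact Finset.disjoint_left.mp hZ hz' hbZ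
        rw [Function.update_of_ne hzb, Function.update_of_ne hzb'] at hj
        have h4 := hxi (a₁ := (z, j)) (a₂ := (z', j')) hj
        exact ⟨congrArg Prod.fst h4, congrArg Prod.snd h4⟩
      · intro z hz z' hz' j j' hj
        have hup : ∀ z ∈ Z1, Function.update x b (y b) z = y z := by
          intro z hz
          by_cases hzb : z = b
          · rw [hzb, Function.update_self]
          · rw [Function.update_of_ne hzb]
            apply hrest z _ hzb
            rintro rfl
            exact Finset.disjoint_left.mp hZ haZ hz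
        rw [hup z hz, hup z' hz'] at hj
        have h4 := hyi (a₁ := (z, j)) (a₂ := (z', j')) hj
        exact ⟨congrArg Prod.fst h4, congrArg Prod.snd h4⟩)
  rw [Fintype.card_fun, Fintype.card_fin, Fintype.card_option] at hfin
  have hinj := card_inj D d U hU
  rw [← hG] at hinj
  have hGG2 : G.card ≤ 2 * G2.card := by omega
  have hpos : 0 < U ^ (d * D) := by positivity
  have h4 : 4 ^ d * U ^ (d * D) ≤ 4 * 2 ^ (S * (2 * K + 2)) * U ^ (d * D) := by
    calc 4 ^ d * U ^ (d * D) ≤ 4 ^ d * (4 * G2.card) := Nat.mul_le_mul_left _ (by omega)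
      _ = 4 * (4 ^ d * G2.card) := by ring
      _ ≤ 4 * ((Fintype.card P.Cfg + 1) ^ (2 * K + 2) * U ^ (d * D)) :=
          Nat.mul_le_mul_left _ hfin
      _ ≤ 4 * ((2 ^ S) ^ (2 * K + 2) * U ^ (d * D)) :=
          Nat.mul_le_mul_left _ (Nat.mul_le_mul_right _ (Nat.pow_le_pow_left hS _))
      _ = 4 * 2 ^ (S * (2 * K + 2)) * U ^ (d * D) := by rw [← pow_mul]; ring
  have h5 : 4 ^ d ≤ 4 * 2 ^ (S * (2 * K + 2)) := Nat.le_of_mul_le_mul_right h4 hpos
  have h6 : (2 : ℕ) ^ (2 * d) ≤ 2 ^ (2 + S * (2 * K + 2)) := by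
    calc (2 : ℕ) ^ (2 * d) = 4 ^ d := by rw [pow_mul]; norm_num
      _ ≤ 4 * 2 ^ (S * (2 * K + 2)) := h5
      _ = 2 ^ (2 + S * (2 * K + 2)) := by rw [pow_add]; norm_num
  have h7 := (Nat.pow_le_pow_iff_right (by norm_num : 1 < 2)).mp h6
  have h8 : S * (2 * K + 2) = 2 * (S * (K + 1)) := by ring
  omega

/-- **Corruption.** In a large rectangle there are many planted collisions in the same column. -/
theorem corruptD {d U : ℕ} (A B : Finset (Fin d → Fin U)) (hd : 0 < d) (hU : 0 < U)
    (hA : 2 * ((967 : ℝ) / 1000) ^ d * (U : ℝ) ^ d < A.card)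
    (hB : 2 * ((967 : ℝ) / 1000) ^ d * (U : ℝ) ^ d < B.card) :
    d * (A.card * B.card) ≤ 2048 * ∑ i, (plant A B i i).card := by
  classical
  have h1 := spread A hd hU hA
  have h2 := spread B hd hU hB
  set GA := (univ : Finset (Fin d)).filter (fun i => ¬ 8 * (Wset A i).card ≤ 5 * U) with hGA
  set GB := (univ : Finset (Fin d)).filter (fun i => ¬ 8 * (Wset B i).card ≤ 5 * U) with hGB
  have hcA : ((univ : Finset (Fin d)).filter (fun i => 8 * (Wset A i).card ≤ 5 * U)).card
      + GA.card = d := by
    have := Finset.card_filter_add_card_filter_not (s := (univ : Finset (Fin d)))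
      (fun i => 8 * (Wset A i).card ≤ 5 * U)
    rwa [card_univ, Fintype.card_fin] at this
  have hcB : ((univ : Finset (Fin d)).filter (fun i => 8 * (Wset B i).card ≤ 5 * U)).card
      + GB.card = d := by
    have := Finset.card_filter_add_card_filter_not (s := (univ : Finset (Fin d)))
      (fun i => 8 * (Wset B i).card ≤ 5 * U)
    rwa [card_univ, Fintype.card_fin] at this
  have hpair : ∀ i ∈ GA, ∀ j ∈ GB, A.card * B.card ≤ 1024 * (plant A B i j).card := by
    intro i hi j hj
    have hi2 := (mem_filter.mp hi).2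
    have hj2 := (mem_filter.mp hj).2
    have hint : U ≤ 4 * (Wset A i ∩ Wset B j).card := by
      have h3 := Finset.card_union_add_card_inter (Wset A i) (Wset B j)
      have h4 := card_le_univ (Wset A i ∪ Wset B j)
      rw [Fintype.card_fin] at h4
      omega
    have h5 : (Wset A i ∩ Wset B j).card * (A.card * B.card)
        ≤ 256 * U * ∑ v, cnt A i v * (U * cnt B j v) := by
      calc (Wset A i ∩ Wset B j).card * (A.card * B.card)
          = ∑ v ∈ Wset A i ∩ Wset B j, A.card * B.card := by rw [sum_const, smul_eq_mul]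
        _ ≤ ∑ v ∈ Wset A i ∩ Wset B j, (16 * U * cnt A i v) * (16 * U * cnt B j v) := by
            apply Finset.sum_le_sum
            intro v hv
            rw [mem_inter] at hv
            exact Nat.mul_le_mul (mem_filter.mp hv.1).2 (mem_filter.mp hv.2).2
        _ ≤ ∑ v, (16 * U * cnt A i v) * (16 * U * cnt B j v) :=
            Finset.sum_le_sum_of_subset (subset_univ _)
        _ = 256 * U * ∑ v, cnt A i v * (U * cnt B j v) := by
            rw [mul_sum]; apply Finset.sum_congr rfl; intro v _; ring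
    have h6 := card_plant A B i j
    have h7 : U * (A.card * B.card) ≤ U * (1024 * (plant A B i j).card) := by
      calc U * (A.card * B.card) ≤ 4 * (Wset A i ∩ Wset B j).card * (A.card * B.card) :=
            Nat.mul_le_mul_right _ hint
        _ = 4 * ((Wset A i ∩ Wset B j).card * (A.card * B.card)) := by ring
        _ ≤ 4 * (256 * U * ∑ v, cnt A i v * (U * cnt B j v)) := Nat.mul_le_mul_left _ h5
        _ = U * (1024 * ∑ v, cnt A i v * (U * cnt B j v)) := by ring
        _ ≤ U * (1024 * (plant A B i j).card) :=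
            Nat.mul_le_mul_left _ (Nat.mul_le_mul_left _ h6)
    exact Nat.le_of_mul_le_mul_left h7 hU
  have h8 : (GA ∩ GB).card * (A.card * B.card) ≤ 1024 * ∑ i, (plant A B i i).card := by
    calc (GA ∩ GB).card * (A.card * B.card)
        = ∑ i ∈ GA ∩ GB, A.card * B.card := by
          rw [sum_const, smul_eq_mul]
      _ ≤ ∑ i ∈ GA ∩ GB, 1024 * (plant A B i i).card :=
          Finset.sum_le_sum (fun i hi => hpair i (mem_inter.mp hi).1 i (mem_inter.mp hi).2)
      _ ≤ ∑ i, 1024 * (plant A B i i).card :=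
          Finset.sum_le_sum_of_subset (subset_univ _)
      _ = 1024 * ∑ i, (plant A B i i).card := by
          rw [mul_sum]
  have h9 : d ≤ 2 * (GA ∩ GB).card := by
    have h3 := Finset.card_union_add_card_inter GA GB
    have h4 := card_le_univ (GA ∪ GB)
    rw [Fintype.card_fin] at h4
    omega
  calc d * (A.card * B.card) ≤ 2 * (GA ∩ GB).card * (A.card * B.card) :=
        Nat.mul_le_mul_right _ h9
    _ = 2 * ((GA ∩ GB).card * (A.card * B.card)) := by ring
    _ ≤ 2 * (1024 * ∑ i, (plant A B i i).card) := Nat.mul_le_mul_left _ h8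
    _ = 2048 * ∑ i, (plant A B i i).card := by ring

/-- a set of families closed under crossing over has many planted collisions -/
theorem plantFD {D d U : ℕ} (hd : 0 < d) (hU : 0 < U) (F : Finset (Fin D → Fin d → Fin U))
    (a b : Fin D) (hab : a ≠ b)
    (hrest : ∀ x ∈ F, ∀ y ∈ F, ∀ z, z ≠ a → z ≠ b → x z = y z)
    (hmix : ∀ x ∈ F, ∀ y ∈ F, Function.update x b (y b) ∈ F) :
    (d : ℝ) * F.card ≤ 2048 * ∑ i,
      (((univ : Finset (Fin D → Fin d → Fin U)).filter (fun v => TT a b i i v ∈ F)).card : ℝ)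
      + (d : ℝ) * (eta d * ((U : ℝ) ^ d) ^ 2) := by
  classical
  set A := F.image (fun x => x a) with hA
  set B := F.image (fun x => x b) with hB
  have hcard : F.card ≤ A.card * B.card := by
    rw [← card_product]
    apply card_le_card_of_injOn (fun x => (x a, x b))
    · intro x hx
      simp only [coe_product, Set.mem_prod, mem_coe]
      exact ⟨mem_image_of_mem _ hx, mem_image_of_mem _ hx⟩
    · intro x hx y hy hxy
      simp only [Prod.mk.injEq] at hxy
      funext z
      by_cases ha : z = a
      · subst ha; exact hxy.1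
      · by_cases hb : z = b
        · subst hb; exact hxy.2
        · exact hrest x hx y hy z ha hb
  have hcardR : (F.card : ℝ) ≤ A.card * B.card := by exact_mod_cast hcard
  have hAU : (A.card : ℝ) ≤ (U : ℝ) ^ d := by
    have := card_le_univ A
    rw [Fintype.card_fun, Fintype.card_fin, Fintype.card_fin] at this
    exact_mod_cast this
  have hBU : (B.card : ℝ) ≤ (U : ℝ) ^ d := by
    have := card_le_univ B
    rw [Fintype.card_fun, Fintype.card_fin, Fintype.card_fin] at this
    exact_mod_cast this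
  have hη : 0 ≤ eta d := by unfold eta; positivity
  have hUd : (0 : ℝ) ≤ (U : ℝ) ^ d := by positivity
  have hsum0 : (0 : ℝ) ≤ 2048 * ∑ i : Fin d,
      (((univ : Finset (Fin D → Fin d → Fin U)).filter (fun v => TT a b i i v ∈ F)).card : ℝ) :=
    mul_nonneg (by norm_num) (Finset.sum_nonneg (fun i _ => Nat.cast_nonneg _))
  by_cases hbig : eta d * (U : ℝ) ^ d < A.card ∧ eta d * (U : ℝ) ^ d < B.card
  · have h1 := corruptD A B hd hU hbig.1 hbig.2
    have hne : A.Nonempty := by
      rw [← card_pos]
      have h2 : (0 : ℝ) < A.card := lt_of_le_of_lt (by positivity) hbig.1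
      exact_mod_cast h2
    obtain ⟨x0, hx0⟩ := hne
    obtain ⟨v0, hv0, -⟩ := mem_image.mp hx0
    have h2 : ∀ i j, (plant A B i j).card ≤
        ((univ : Finset (Fin D → Fin d → Fin U)).filter (fun v => TT a b i j v ∈ F)).card := by
      intro i j
      apply card_le_card_of_injOn (fun p => Function.update (Function.update v0 a p.1) b p.2)
      · rintro ⟨x, y⟩ hp
        unfold plant at hp
        simp only [coe_filter, Set.mem_ofPred_eq, mem_product, mem_univ, and_true] at hp
        obtain ⟨hx, hy⟩ := hp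
        obtain ⟨f1, hf1, hf1x⟩ := mem_image.mp hx
        obtain ⟨f2, hf2, hf2y⟩ := mem_image.mp hy
        simp only [coe_filter, Set.mem_ofPred_eq, mem_univ, true_and]
        unfold TT
        rw [Function.update_self, Function.update_of_ne hab, Function.update_self,
          Function.update_idem]
        have e : Function.update (Function.update v0 a x) b (Function.update y j (x i))
            = Function.update f1 b (f2 b) := by
          rw [hf2y]
          funext z
          by_cases hzb : z = b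
          · subst hzb; rw [Function.update_self, Function.update_self]
          · rw [Function.update_of_ne hzb, Function.update_of_ne hzb]
            by_cases hza : z = a
            · subst hza; rw [Function.update_self]; exact hf1x.symm
            · rw [Function.update_of_ne hza]
              exact hrest v0 hv0 f1 hf1 z hza hzb
        rw [e]
        exact hmix f1 hf1 f2 hf2
      · rintro ⟨x, y⟩ _ ⟨x', y'⟩ _ h
        simp only at h
        have h3 := congrFun h a
        rw [Function.update_of_ne hab, Function.update_of_ne hab, Function.update_self,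
          Function.update_self] at h3
        have h4 := congrFun h b
        rw [Function.update_self, Function.update_self] at h4
        rw [h3, h4]
    have h3 : (d : ℝ) * (A.card * B.card) ≤ 2048 * ∑ i, ((plant A B i i).card : ℝ) := by
      exact_mod_cast h1
    have h4 : ∑ i, ((plant A B i i).card : ℝ) ≤ ∑ i : Fin d,
        (((univ : Finset (Fin D → Fin d → Fin U)).filter
          (fun v => TT a b i i v ∈ F)).card : ℝ) :=
      Finset.sum_le_sum (fun i _ => by exact_mod_cast h2 i i)
    have h5 : (d : ℝ) * F.card ≤ (d : ℝ) * (A.card * B.card) :=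
      mul_le_mul_of_nonneg_left hcardR (by positivity)
    have h6 : (0 : ℝ) ≤ (d : ℝ) * (eta d * ((U : ℝ) ^ d) ^ 2) := by positivity
    linarith
  · have h1 : (A.card : ℝ) * B.card ≤ eta d * ((U : ℝ) ^ d) ^ 2 := by
      rw [not_and_or, not_lt, not_lt] at hbig
      rcases hbig with h | h
      · calc (A.card : ℝ) * B.card ≤ (eta d * (U : ℝ) ^ d) * (U : ℝ) ^ d :=
              mul_le_mul h hBU (by positivity) (by positivity)
          _ = eta d * ((U : ℝ) ^ d) ^ 2 := by ring
      · calc (A.card : ℝ) * B.card ≤ (U : ℝ) ^ d * (eta d * (U : ℝ) ^ d) :=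
              mul_le_mul hAU h (by positivity) (by positivity)
          _ = eta d * ((U : ℝ) ^ d) ^ 2 := by ring
    have h2 : (d : ℝ) * F.card ≤ (d : ℝ) * (eta d * ((U : ℝ) ^ d) ^ 2) :=
      mul_le_mul_of_nonneg_left (hcardR.trans h1) (by positivity)
    linarith

/-- the same with classes -/
theorem plantHD {D d U : ℕ} {κ : Type} [Fintype κ] (hd : 0 < d) (hU : 0 < U)
    (H : Finset (Fin D → Fin d → Fin U)) (key : (Fin D → Fin d → Fin U) → κ)
    (a b : Fin D) (hab : a ≠ b)
    (hmix : ∀ x ∈ H, ∀ y ∈ H, key x = key y → (∀ z, z ≠ a → z ≠ b → x z = y z) →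
      Function.update x b (y b) ∈ H ∧ key (Function.update x b (y b)) = key x) :
    (d : ℝ) * H.card ≤ 2048 * ∑ i,
      (((univ : Finset (Fin D → Fin d → Fin U)).filter (fun v => TT a b i i v ∈ H)).card : ℝ)
      + (d : ℝ) * (Fintype.card κ * (eta d * (U : ℝ) ^ (d * D))) := by
  classical
  have hD : 2 ≤ D := by
    by_contra hlt
    apply hab
    have h1 := a.2
    have h2 := b.2
    apply Fin.ext
    omega
  obtain ⟨g, hg⟩ : ∃ g : (Fin D → Fin d → Fin U) →
      κ × ({z : Fin D // z ≠ a ∧ z ≠ b} → Fin d → Fin U),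
      g = fun x => (key x, fun z : {z : Fin D // z ≠ a ∧ z ≠ b} => x z) := ⟨_, rfl⟩
  obtain ⟨Fc, hFc⟩ : ∃ Fc : κ × ({z : Fin D // z ≠ a ∧ z ≠ b} → Fin d → Fin U) →
      Finset (Fin D → Fin d → Fin U), Fc = fun t => H.filter (fun x => g x = t) := ⟨_, rfl⟩
  have hcls : ∀ t, (d : ℝ) * (Fc t).card ≤ 2048 * ∑ i,
      (((univ : Finset (Fin D → Fin d → Fin U)).filter
        (fun v => TT a b i i v ∈ Fc t)).card : ℝ)
      + (d : ℝ) * (eta d * ((U : ℝ) ^ d) ^ 2) := by
    intro t
    apply plantFD hd hU (Fc t) a b hab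
    · intro x hx y hy z hza hzb
      rw [hFc] at hx hy
      have h1 := (mem_filter.mp hx).2
      have h2 := (mem_filter.mp hy).2
      have h3 := h1.trans h2.symm
      rw [hg] at h3
      exact congrFun (congrArg Prod.snd h3) ⟨z, hza, hzb⟩
    · intro x hx y hy
      rw [hFc] at hx hy ⊢
      obtain ⟨hx1, hx2⟩ := mem_filter.mp hx
      obtain ⟨hy1, hy2⟩ := mem_filter.mp hy
      have h3 := hx2.trans hy2.symm
      rw [hg] at h3
      have h4 := hmix x hx1 y hy1 (congrArg Prod.fst h3)
        (fun z hza hzb => congrFun (congrArg Prod.snd h3) ⟨z, hza, hzb⟩)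
      refine mem_filter.mpr ⟨h4.1, ?_⟩
      rw [← hx2, hg]
      dsimp only
      rw [h4.2]
      congr 1
      funext z
      rw [Function.update_of_ne z.2.2]
  have hH : (H.card : ℝ) = ∑ t, ((Fc t).card : ℝ) := by
    rw [Finset.card_eq_sum_card_fiberwise (f := g) (t := univ) (fun x _ => mem_univ _), hFc]
    push_cast
    rfl
  have hpl : ∀ i j, ∑ t, (((univ : Finset (Fin D → Fin d → Fin U)).filter
        (fun v => TT a b i j v ∈ Fc t)).card : ℝ)
      = (((univ : Finset (Fin D → Fin d → Fin U)).filter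
        (fun v => TT a b i j v ∈ H)).card : ℝ) := by
    intro i j
    rw [Finset.card_eq_sum_card_fiberwise (s := (univ : Finset (Fin D → Fin d → Fin U)).filter
        (fun v => TT a b i j v ∈ H)) (f := fun v => g (TT a b i j v)) (t := univ)
        (fun x _ => mem_univ _)]
    push_cast
    apply Finset.sum_congr rfl
    intro t _
    congr 2
    ext v
    rw [hFc]
    simp only [mem_filter, mem_univ, true_and]
  have hsub : Fintype.card {z : Fin D // z ≠ a ∧ z ≠ b} = D - 2 := by
    rw [Fintype.card_subtype]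
    have e : (univ : Finset (Fin D)).filter (fun z => z ≠ a ∧ z ≠ b) = (univ.erase a).erase b := by
      ext z; simp [mem_erase, and_comm]
    rw [e, card_erase_of_mem (mem_erase.mpr ⟨hab.symm, mem_univ _⟩),
      card_erase_of_mem (mem_univ _), card_univ, Fintype.card_fin]
    omega
  have hT : (Fintype.card (κ × ({z : Fin D // z ≠ a ∧ z ≠ b} → Fin d → Fin U)) : ℝ)
      = Fintype.card κ * ((U : ℝ) ^ d) ^ (D - 2) := by
    rw [Fintype.card_prod, Fintype.card_fun, hsub, Fintype.card_fun, Fintype.card_fin,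
      Fintype.card_fin]
    push_cast
    rfl
  calc (d : ℝ) * H.card = ∑ t, (d : ℝ) * ((Fc t).card : ℝ) := by rw [hH, mul_sum]
    _ ≤ ∑ t, (2048 * ∑ i,
      (((univ : Finset (Fin D → Fin d → Fin U)).filter
        (fun v => TT a b i i v ∈ Fc t)).card : ℝ)
      + (d : ℝ) * (eta d * ((U : ℝ) ^ d) ^ 2)) := Finset.sum_le_sum (fun t _ => hcls t)
    _ = 2048 * ∑ i,
      (((univ : Finset (Fin D → Fin d → Fin U)).filter (fun v => TT a b i i v ∈ H)).card : ℝ)
      + (d : ℝ) * (Fintype.card κ * (eta d * (U : ℝ) ^ (d * D))) := by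
      rw [Finset.sum_add_distrib, ← mul_sum, Finset.sum_comm]
      congr 1
      · congr 1
        apply Finset.sum_congr rfl
        intro i _
        exact hpl i i
      · rw [sum_const, nsmul_eq_mul, card_univ, hT]
        have e : (U : ℝ) ^ (d * D) = ((U : ℝ) ^ d) ^ (D - 2) * ((U : ℝ) ^ d) ^ 2 := by
          rw [← pow_add, show D - 2 + 2 = D by omega, ← pow_mul]
        rw [e]; ring

/-- planted collisions for a pair of zones -/
theorem plantPD {Λ : Type} {n k : ℕ} (P : DetProg Λ n k) (lam D d U R : ℕ) (hd : 0 < d) (hU : 0 < U)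
    (wd : (Fin D → Fin d → Fin U) → (Fin n → Λ))
    (hloc : ∀ v v' (p : Fin n), (∀ h : (p : ℕ) / lam < D,
      v ⟨(p : ℕ) / lam, h⟩ = v' ⟨(p : ℕ) / lam, h⟩) → wd v p = wd v' p)
    (a b : Fin D) (hab : a ≠ b) :
    (d : ℝ) * (HH P lam D d U R wd a b).card ≤ 2048 * ∑ i,
      (((univ : Finset (Fin D → Fin d → Fin U)).filter (fun v => TT a b i i v ∈ AI P wd)).card : ℝ)
      + (d : ℝ) * (((Fintype.card P.Cfg + 1) ^ R : ℕ) * (eta d * (U : ℝ) ^ (d * D))) := by
  classical
  have hex : ∀ v ∈ HH P lam D d U R wd a b, ∃ τ : List P.Cfg, τ.length ≤ R ∧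
      Can P lam a b (wd v) false P.start τ := fun v hv => (mem_HH P lam D d U R wd a b v).mp hv
  choose! τ hlen hcan using hex
  have h := plantHD (κ := Fin R → Option P.Cfg) hd hU (HH P lam D d U R wd a b)
    (fun v i => (τ v)[(i : ℕ)]?) a b hab (by
      intro x hx y hy hkey hrest
      have e := getElem?_ext (R := R) (hlen x hx) (hlen y hy) hkey
      have hz : Can P lam a b (wd (Function.update x b (y b))) false P.start (τ x) := by
        refine Can_mix P lam a b (wd x) (wd y) _ ?_ ?_ (τ x) false P.start (hcan x hx)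
          (by rw [e]; exact hcan y hy)
        · intro p hp
          apply hloc
          intro h
          apply Function.update_of_ne
          intro hh
          exact hp (congrArg Fin.val hh)
        · intro p hp
          apply hloc
          intro h
          by_cases hpb : (⟨(p : ℕ) / lam, h⟩ : Fin D) = b
          · rw [hpb, Function.update_self]
          · rw [Function.update_of_ne hpb]
            apply hrest _ _ hpb
            intro hh
            exact hp (congrArg Fin.val hh)
      have hzH : Function.update x b (y b) ∈ HH P lam D d U R wd a b :=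
        (mem_HH P lam D d U R wd a b _).mpr ⟨τ x, hlen x hx, hz⟩
      refine ⟨hzH, ?_⟩
      rw [Can_unique P lam a b _ _ _ false P.start (hcan _ hzH) hz])
  rw [Fintype.card_fun, Fintype.card_fin, Fintype.card_option] at h
  have hmono : ∀ i j, ((((univ : Finset (Fin D → Fin d → Fin U)).filter
      (fun v => TT a b i j v ∈ HH P lam D d U R wd a b)).card : ℕ) : ℝ)
      ≤ (((univ : Finset (Fin D → Fin d → Fin U)).filter
      (fun v => TT a b i j v ∈ AI P wd)).card : ℝ) := by
    intro i j
    have : ((univ : Finset (Fin D → Fin d → Fin U)).filter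
      (fun v => TT a b i j v ∈ HH P lam D d U R wd a b)).card
      ≤ ((univ : Finset (Fin D → Fin d → Fin U)).filter
      (fun v => TT a b i j v ∈ AI P wd)).card := by
      apply card_le_card
      intro v hv
      rw [mem_filter] at hv ⊢
      exact ⟨hv.1, HH_sub P lam D d U R wd a b hv.2⟩
    exact_mod_cast this
  refine h.trans ?_
  apply add_le_add_left
  apply mul_le_mul_of_nonneg_left _ (by norm_num)
  exact Finset.sum_le_sum (fun i _ => hmono i i)

/-- one program -/
theorem one_progD {Λ : Type} {n k : ℕ} (P : DetProg Λ n k) (lam D d U T K S : ℕ) (hlam : 0 < lam) (hd : 0 < d)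
    (hU : 0 < U) (wd : (Fin D → Fin d → Fin U) → (Fin n → Λ))
    (hloc : ∀ v v' (p : Fin n), (∀ h : (p : ℕ) / lam < D,
      v ⟨(p : ℕ) / lam, h⟩ = v' ⟨(p : ℕ) / lam, h⟩) → wd v p = wd v' p)
    (Z0 Z1 : Finset (Fin D)) (hZ : Disjoint Z0 Z1)
    (hK1 : 12 * k * (T / lam + 1) < (K + 1) * Z1.card) (hK2 : 12 * k * K ≤ Z0.card)
    (hS : Fintype.card P.Cfg + 1 ≤ 2 ^ S) (Acc : Finset (Fin D → Fin d → Fin U))
    (hAcc : ∀ v ∈ Acc, P.Answers T (wd v) true) :
    (d : ℝ) * ((Z0.card * Z1.card : ℕ) * (Acc.card : ℝ)) ≤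
      2 * ∑ b ∈ Z1, ∑ a ∈ Z0,
        (2048 * ∑ i, PL P wd a b i i
          + (d : ℝ) * (((2 : ℝ) ^ (2 * (K * S))) * (eta d * (U : ℝ) ^ (d * D)))) := by
  classical
  have h1 : (Z0.card * Z1.card) * Acc.card ≤
      2 * ∑ b ∈ Z1, ∑ a ∈ Z0,
        (HH P lam D d U (2 * K) wd a b).card := by
    calc (Z0.card * Z1.card) * Acc.card = ∑ v ∈ Acc, Z0.card * Z1.card := by
          rw [sum_const, smul_eq_mul, mul_comm]
      _ ≤ ∑ v ∈ Acc, 2 * ∑ b ∈ Z1, (Z0.filter
          (fun a => v ∈ HH P lam D d U (2 * K) wd a b)).card :=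
          Finset.sum_le_sum (fun v hv =>
            many_pairsB P lam D d U T K hlam wd v (hAcc v hv) Z0 Z1 hK1 hK2)
      _ = 2 * ∑ b ∈ Z1, ∑ v ∈ Acc, (Z0.filter
          (fun a => v ∈ HH P lam D d U (2 * K) wd a b)).card := by
          rw [← mul_sum, Finset.sum_comm]
      _ = 2 * ∑ b ∈ Z1, ∑ a ∈ Z0, (Acc.filter
          (fun v => v ∈ HH P lam D d U (2 * K) wd a b)).card := by
          congr 1
          apply Finset.sum_congr rfl
          intro b _
          exact Finset.sum_card_bipartiteAbove_eq_sum_card_bipartiteBelow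
            (r := fun (v : Fin D → Fin d → Fin U) (a : Fin D) =>
              v ∈ HH P lam D d U (2 * K) wd a b)
      _ ≤ _ := by
          apply Nat.mul_le_mul_left
          apply Finset.sum_le_sum
          intro b _
          apply Finset.sum_le_sum
          intro a _
          apply card_le_card
          intro v hv
          exact (mem_filter.mp hv).2
  have hM : (((Fintype.card P.Cfg + 1) ^ (2 * K) : ℕ) : ℝ) ≤ (2 : ℝ) ^ (2 * (K * S)) := by
    have : (Fintype.card P.Cfg + 1) ^ (2 * K) ≤ 2 ^ (2 * (K * S)) := by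
      calc (Fintype.card P.Cfg + 1) ^ (2 * K) ≤ (2 ^ S) ^ (2 * K) := Nat.pow_le_pow_left hS _
        _ = 2 ^ (2 * (K * S)) := by rw [← pow_mul]; congr 1; ring
    exact_mod_cast this
  have hη : 0 ≤ eta d := by unfold eta; positivity
  have hUd : (0 : ℝ) ≤ (U : ℝ) ^ (d * D) := by positivity
  have h2 : ∀ b ∈ Z1, ∀ a ∈ Z0,
      (d : ℝ) * (HH P lam D d U (2 * K) wd a b).card ≤
      2048 * ∑ i, PL P wd a b i i
          + (d : ℝ) * (((2 : ℝ) ^ (2 * (K * S))) * (eta d * (U : ℝ) ^ (d * D))) := by
    intro b hb a ha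
    have hab : a ≠ b := by
      rintro rfl
      exact Finset.disjoint_left.mp hZ ha hb
    have h3 := plantPD P lam D d U (2 * K) hd hU wd hloc a b hab
    refine h3.trans ?_
    apply add_le_add (le_refl _)
    apply mul_le_mul_of_nonneg_left _ (by positivity)
    exact mul_le_mul_of_nonneg_right hM (mul_nonneg hη hUd)
  have h1' : (((Z0.card * Z1.card : ℕ) : ℝ) * (Acc.card : ℝ)) ≤
      2 * ∑ b ∈ Z1, ∑ a ∈ Z0,
        ((HH P lam D d U (2 * K) wd a b).card : ℝ) := by
    exact_mod_cast h1
  calc (d : ℝ) * ((Z0.card * Z1.card : ℕ) * (Acc.card : ℝ))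
      ≤ (d : ℝ) * (2 * ∑ b ∈ Z1, ∑ a ∈ Z0,
        ((HH P lam D d U (2 * K) wd a b).card : ℝ)) :=
        mul_le_mul_of_nonneg_left h1' (by positivity)
    _ = 2 * ∑ b ∈ Z1, ∑ a ∈ Z0,
        (d : ℝ) * ((HH P lam D d U (2 * K) wd a b).card : ℝ) := by
        rw [← mul_assoc, mul_comm ((d : ℝ)) 2, mul_assoc, mul_sum]
        congr 1
        apply Finset.sum_congr rfl
        intro b _
        rw [mul_sum]
    _ ≤ _ := by
        apply mul_le_mul_of_nonneg_left _ (by norm_num)
        exact Finset.sum_le_sum (fun b hb => Finset.sum_le_sum (fun a ha => h2 b hb a ha))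

/-- **The engine for randomized programs and arrays.** -/
theorem engineRD {Λ : Type} {n k : ℕ} {Ω : Type} [Fintype Ω] (p : Ω → ℝ) (hp : ∀ ω, 0 ≤ p ω) (hp1 : ∑ ω, p ω = 1)
    (P : Ω → DetProg Λ n k) (lam D d U T K S : ℕ) (hlam : 0 < lam) (hd : 0 < d)
    (hU0 : 0 < U) (Z0 Z1 : Finset (Fin D)) (hZ : Disjoint Z0 Z1) (hne0 : Z0.Nonempty)
    (hne1 : Z1.Nonempty) (wd : (Fin D → Fin d → Fin U) → (Fin n → Λ))
    (hloc : ∀ v v' (p : Fin n), (∀ h : (p : ℕ) / lam < D,
      v ⟨(p : ℕ) / lam, h⟩ = v' ⟨(p : ℕ) / lam, h⟩) → wd v p = wd v' p)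
    (hyes : ∀ v, Function.Injective (fun p : Fin D × Fin d => v p.1 p.2) →
      1 - 1 / 10000 ≤ prob p P T (wd v) true)
    (hno : ∀ v, (∃ z ∈ Z0, ∃ z' ∈ Z1, ∃ i, v z i = v z' i) →
      (∀ z ∈ Z0, ∀ z' ∈ Z0, ∀ i i', v z i = v z' i' → z = z' ∧ i = i') →
      (∀ z ∈ Z1, ∀ z' ∈ Z1, ∀ i i', v z i = v z' i' → z = z' ∧ i = i') →
      1 - 1 / 10000 ≤ prob p P T (wd v) false)
    (hU : 20000 * (D * d) ^ 2 ≤ U)
    (hK1 : 12 * k * (T / lam + 1) < (K + 1) * Z1.card) (hK2 : 12 * k * K ≤ Z0.card)
    (hS : ∀ ω, Fintype.card (P ω).Cfg + 1 ≤ 2 ^ S) : d < 42 * (K * S) + 84 := by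
  classical
  by_contra hcon
  push Not at hcon
  obtain ⟨V, hV⟩ : ∃ V : ℝ, V = (U : ℝ) ^ (d * D) := ⟨_, rfl⟩
  have hVpos : 0 < V := by rw [hV]; positivity
  have hcardV : ((univ : Finset (Fin D → Fin d → Fin U)).card : ℝ) = V := by
    rw [card_univ, Fintype.card_fun, Fintype.card_fun, Fintype.card_fin, Fintype.card_fin,
      Fintype.card_fin, ← pow_mul, hV]
    push_cast; rfl
  obtain ⟨M, hM⟩ : ∃ M : ℝ, M = (2 : ℝ) ^ (2 * (K * S)) * eta d := ⟨_, rfl⟩
  obtain ⟨Acc, hAcc⟩ : ∃ Acc : Ω → Finset (Fin D → Fin d → Fin U),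
      Acc = fun ω => univ.filter (fun v => (P ω).Answers T (wd v) true) := ⟨_, rfl⟩
  obtain ⟨c, hc⟩ : ∃ c : ℝ, c = ((Z0.card * Z1.card : ℕ) : ℝ) := ⟨_, rfl⟩
  have hcpos : 0 < c := by
    rw [hc]
    have h1 : 0 < Z0.card * Z1.card := Nat.mul_pos (card_pos.mpr hne0) (card_pos.mpr hne1)
    exact_mod_cast h1
  -- the injective families
  obtain ⟨G, hG⟩ : ∃ G : Finset (Fin D → Fin d → Fin U), G = univ.filter
      (fun v => Function.Injective (fun p : Fin D × Fin d => v p.1 p.2)) := ⟨_, rfl⟩
  have hGc : V * (1 - 1 / 20000) ≤ (G.card : ℝ) := by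
    have h1 := card_inj_many D d U 20000 (by norm_num) hU0 hU
    rw [← hV, ← hG] at h1
    exact_mod_cast h1
  have hGn : ((univ.filter (fun v : Fin D → Fin d → Fin U => v ∉ G)).card : ℝ)
      ≤ 1 / 20000 * V := by
    have h1 := Finset.card_filter_add_card_filter_not (s := (univ : Finset (Fin D → Fin d → Fin U)))
      (fun v => v ∈ G)
    have h2 : (univ : Finset (Fin D → Fin d → Fin U)).filter (fun v => v ∈ G) = G := by
      ext v; simp
    rw [h2] at h1
    have h3 : (G.card : ℝ) + ((univ.filter (fun v : Fin D → Fin d → Fin U => v ∉ G)).card : ℝ)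
        = V := by
      rw [← hcardV]
      exact_mod_cast h1
    linarith
  -- probabilities
  have hle1 : ∀ v, ∑ ω, p ω * (if v ∈ AI (P ω) wd then (1 : ℝ) else 0) ≤ 1 := by
    intro v
    refine le_trans (Finset.sum_le_sum (g := p) ?_) (le_of_eq hp1)
    intro ω _
    split_ifs
    · rw [mul_one]
    · rw [mul_zero]; exact hp ω
  -- the planted families are rejected
  have hfalse : ∀ v, (∃ z ∈ Z0, ∃ z' ∈ Z1, ∃ i, v z i = v z' i) →
      (∀ z ∈ Z0, ∀ z' ∈ Z0, ∀ i i', v z i = v z' i' → z = z' ∧ i = i') →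
      (∀ z ∈ Z1, ∀ z' ∈ Z1, ∀ i i', v z i = v z' i' → z = z' ∧ i = i') →
      ∑ ω, p ω * (if v ∈ AI (P ω) wd then (1 : ℝ) else 0) ≤ 1 / 10000 := by
    intro v hv hv0 hv1
    have h1 := hno v hv hv0 hv1
    have h2 : ∑ ω, p ω * (if v ∈ AI (P ω) wd then (1 : ℝ) else 0) + prob p P T (wd v) false
        ≤ ∑ ω, p ω := by
      unfold prob
      rw [← Finset.sum_add_distrib]
      apply Finset.sum_le_sum
      intro ω _
      by_cases h3 : v ∈ AI (P ω) wd
      · have h4 : ¬ (P ω).Answers T (wd v) false := by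
          obtain ⟨T', t', -, h5, h6⟩ := (mem_AI (P ω) wd v).mp h3
          rintro ⟨t, -, h7, h8⟩
          rcases Nat.lt_trichotomy t t' with hlt | heq | hgt
          · rw [h6 t hlt] at h7; cases h7
          · rw [heq, h5] at h7; cases h7
          · rw [h8 t' hgt] at h5; cases h5
        rw [if_pos h3, if_neg h4]; simp
      · rw [if_neg h3, mul_zero, zero_add]
        split_ifs
        · exact le_rfl
        · exact hp ω
    rw [hp1] at h2
    linarith
  have hPL : ∀ b ∈ Z1, ∀ a ∈ Z0, ∀ i,
      ∑ ω, p ω * PL (P ω) wd a b i i ≤ (1 / 10000 + 1 / 20000) * V := by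
    intro b hb a ha i
    have hab : a ≠ b := by
      rintro rfl
      exact Finset.disjoint_left.mp hZ ha hb
    have hZb : ∀ z ∈ Z0, z ≠ b := by
      rintro z hz rfl
      exact Finset.disjoint_left.mp hZ hz hb
    have haZ : ∀ z ∈ Z1, z ≠ a := by
      rintro z hz rfl
      exact Finset.disjoint_left.mp hZ ha hz
    have h1 : ∀ ω, PL (P ω) wd a b i i
        = ∑ v, (if TT a b i i v ∈ AI (P ω) wd then (1 : ℝ) else 0) := by
      intro ω
      unfold PL
      exact sum_ite_card _ _
    simp only [h1, mul_sum]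
    rw [Finset.sum_comm]
    have hper : ∀ v : Fin D → Fin d → Fin U,
        ∑ ω, p ω * (if TT a b i i v ∈ AI (P ω) wd then (1 : ℝ) else 0)
        ≤ 1 / 10000 + (if v ∉ G then (1 : ℝ) else 0) := by
      intro v
      by_cases hvG : v ∈ G
      · rw [if_neg (fun h => h hvG), add_zero]
        have hinj : Function.Injective (fun p : Fin D × Fin d => v p.1 p.2) := by
          rw [hG] at hvG
          exact (mem_filter.mp hvG).2
        apply hfalse
        · refine ⟨a, ha, b, hb, i, ?_⟩
          simp only [TT, Function.update_self, Function.update_of_ne hab]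
        · intro z hz z' hz' l l' hl
          rw [TT, Function.update_of_ne (hZb z hz), Function.update_of_ne (hZb z' hz')] at hl
          have h4 := hinj (a₁ := (z, l)) (a₂ := (z', l')) hl
          exact ⟨congrArg Prod.fst h4, congrArg Prod.snd h4⟩
        · -- the values of the planted family in a zone of the second kind
          have hval : ∀ z ∈ Z1, ∀ l, (TT a b i i v z l = v z l ∧ ¬ (z = b ∧ l = i)) ∨
              (z = b ∧ l = i ∧ TT a b i i v z l = v a i) := by
            intro z _ l
            unfold TT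
            by_cases hzb : z = b
            · rw [hzb, Function.update_self]
              by_cases hlj : l = i
              · right
                rw [hlj, Function.update_self]
                exact ⟨rfl, rfl, rfl⟩
              · left
                rw [Function.update_of_ne hlj]
                exact ⟨rfl, fun h => hlj h.2⟩
            · left
              rw [Function.update_of_ne hzb]
              exact ⟨rfl, fun h => hzb h.1⟩
          intro z hz z' hz' l l' hl
          rcases hval z hz l with ⟨e1, -⟩ | ⟨h3, h4, e1⟩ <;>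
          rcases hval z' hz' l' with ⟨e2, -⟩ | ⟨h5, h6, e2⟩
          · rw [e1, e2] at hl
            have h4 := hinj (a₁ := (z, l)) (a₂ := (z', l')) hl
            exact ⟨congrArg Prod.fst h4, congrArg Prod.snd h4⟩
          · exfalso
            rw [e1, e2] at hl
            have h4 := hinj (a₁ := (z, l)) (a₂ := (a, i)) hl
            exact haZ z hz (congrArg Prod.fst h4)
          · exfalso
            rw [e1, e2] at hl
            have h4 := hinj (a₁ := (a, i)) (a₂ := (z', l')) hl
            exact haZ z' hz' (congrArg Prod.fst h4).symm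
          · exact ⟨h3.trans h5.symm, h4.trans h6.symm⟩
      · rw [if_pos hvG]
        have := hle1 (TT a b i i v)
        linarith
    calc ∑ v, ∑ ω, p ω * (if TT a b i i v ∈ AI (P ω) wd then (1 : ℝ) else 0)
        ≤ ∑ v : Fin D → Fin d → Fin U, (1 / 10000 + (if v ∉ G then (1 : ℝ) else 0)) :=
          Finset.sum_le_sum (fun v _ => hper v)
      _ = 1 / 10000 * V + ((univ.filter (fun v : Fin D → Fin d → Fin U => v ∉ G)).card : ℝ) := by
          rw [Finset.sum_add_distrib, sum_const, nsmul_eq_mul, hcardV, ← sum_ite_card]; ring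
      _ ≤ (1 / 10000 + 1 / 20000) * V := by linarith
  -- the families of distinct values are accepted
  have hAccE : (1 - 1 / 10000) * (V * (1 - 1 / 20000)) ≤ ∑ ω, p ω * ((Acc ω).card : ℝ) := by
    have h1 : ∑ ω, p ω * ((Acc ω).card : ℝ) = ∑ v, prob p P T (wd v) true := by
      unfold prob
      rw [Finset.sum_comm]
      apply Finset.sum_congr rfl
      intro ω _
      rw [hAcc]
      dsimp only
      rw [sum_ite_card, mul_sum]
      apply Finset.sum_congr rfl
      intro v _
      split_ifs <;> simp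
    rw [h1]
    calc (1 - 1 / 10000) * (V * (1 - 1 / 20000))
        ≤ (1 - 1 / 10000) * (G.card : ℝ) :=
          mul_le_mul_of_nonneg_left hGc (by norm_num)
      _ = ∑ v ∈ G, (1 - 1 / 10000 : ℝ) := by
          rw [sum_const, nsmul_eq_mul]; ring
      _ ≤ ∑ v ∈ G, prob p P T (wd v) true :=
          Finset.sum_le_sum (fun v hv => hyes v (by rw [hG] at hv; exact (mem_filter.mp hv).2))
      _ ≤ ∑ v, prob p P T (wd v) true := by
          apply Finset.sum_le_sum_of_subset_of_nonneg (subset_univ _)
          intro v _ _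
          unfold prob
          apply Finset.sum_nonneg
          intro ω _
          split_ifs
          · exact hp ω
          · exact le_rfl
  -- all together
  have hone : ∀ ω, (d : ℝ) * (c * ((Acc ω).card : ℝ)) ≤
      2 * ∑ b ∈ Z1, ∑ a ∈ Z0,
        (2048 * ∑ i, PL (P ω) wd a b i i + (d : ℝ) * (M * V)) := by
    intro ω
    have h1 := one_progD (P ω) lam D d U T K S hlam hd hU0 wd hloc Z0 Z1 hZ hK1 hK2 (hS ω)
      (Acc ω) (by
      intro v hv
      rw [hAcc] at hv
      exact (mem_filter.mp hv).2)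
    rw [← hc, ← hV] at h1
    have e : (2 : ℝ) ^ (2 * (K * S)) * (eta d * V) = M * V := by rw [hM]; ring
    rw [e] at h1
    exact h1
  have hsum : (d : ℝ) * (c * ∑ ω, p ω * ((Acc ω).card : ℝ)) ≤
      2 * (c * (2048 * ((d : ℝ) * ((1 / 10000 + 1 / 20000) * V)) + (d : ℝ) * (M * V))) := by
    calc (d : ℝ) * (c * ∑ ω, p ω * ((Acc ω).card : ℝ))
        = ∑ ω, p ω * ((d : ℝ) * (c * ((Acc ω).card : ℝ))) := by
          rw [mul_sum, mul_sum]
          apply Finset.sum_congr rfl
          intro ω _
          ring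
      _ ≤ ∑ ω, p ω * (2 * ∑ b ∈ Z1, ∑ a ∈ Z0,
        (2048 * ∑ i, PL (P ω) wd a b i i + (d : ℝ) * (M * V))) :=
          Finset.sum_le_sum (fun ω _ => mul_le_mul_of_nonneg_left (hone ω) (hp ω))
      _ = 2 * ∑ b ∈ Z1, ∑ a ∈ Z0,
        (2048 * ∑ i, ∑ ω, p ω * PL (P ω) wd a b i i + (d : ℝ) * (M * V)) := by
          have e1 : ∀ ω, p ω * (2 * ∑ b ∈ Z1, ∑ a ∈ Z0,
              (2048 * ∑ i, PL (P ω) wd a b i i + (d : ℝ) * (M * V)))
              = ∑ b ∈ Z1, ∑ a ∈ Z0,
              (2 * (2048 * ∑ i, p ω * PL (P ω) wd a b i i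
                + p ω * ((d : ℝ) * (M * V)))) := by
            intro ω
            rw [mul_sum, mul_sum]
            apply Finset.sum_congr rfl
            intro b _
            rw [mul_sum, mul_sum]
            apply Finset.sum_congr rfl
            intro a _
            have e2 : ∑ i, p ω * PL (P ω) wd a b i i
                = p ω * ∑ i, PL (P ω) wd a b i i := by
              rw [mul_sum]
            rw [e2]; ring
          rw [Finset.sum_congr rfl (fun ω _ => e1 ω), Finset.sum_comm, mul_sum]
          apply Finset.sum_congr rfl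
          intro b _
          rw [Finset.sum_comm, mul_sum]
          apply Finset.sum_congr rfl
          intro a _
          rw [← mul_sum, Finset.sum_add_distrib, ← mul_sum, ← sum_mul, hp1, one_mul,
            Finset.sum_comm]
      _ ≤ 2 * ∑ b ∈ Z1, ∑ a ∈ Z0,
        (2048 * ((d : ℝ) * ((1 / 10000 + 1 / 20000) * V)) + (d : ℝ) * (M * V)) := by
          apply mul_le_mul_of_nonneg_left _ (by norm_num)
          apply Finset.sum_le_sum
          intro b hb
          apply Finset.sum_le_sum
          intro a ha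
          apply add_le_add _ (le_refl _)
          apply mul_le_mul_of_nonneg_left _ (by norm_num)
          calc ∑ i, ∑ ω, p ω * PL (P ω) wd a b i i
              ≤ ∑ i : Fin d, ((1 / 10000 + 1 / 20000) * V) :=
                Finset.sum_le_sum (fun i _ => hPL b hb a ha i)
            _ = (d : ℝ) * ((1 / 10000 + 1 / 20000) * V) := by
                rw [sum_const, card_univ, Fintype.card_fin, nsmul_eq_mul]
      _ = 2 * (c * (2048 * ((d : ℝ) * ((1 / 10000 + 1 / 20000) * V))
          + (d : ℝ) * (M * V))) := by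
          rw [Finset.sum_congr rfl (fun b _ => sum_const _), sum_const, nsmul_eq_mul,
            nsmul_eq_mul, hc]
          push_cast
          ring
  have hMle : M ≤ 1 / 8 := by
    rw [hM]
    unfold eta
    have h1 : ((967 : ℝ) / 1000) ^ d ≤ (1 / 2) ^ (2 * (K * S) + 4) := by
      calc ((967 : ℝ) / 1000) ^ d ≤ (967 / 1000) ^ (21 * (2 * (K * S) + 4)) :=
            pow_le_pow_of_le_one (by norm_num) (by norm_num) (by omega)
        _ = ((967 / 1000) ^ 21) ^ (2 * (K * S) + 4) := by rw [pow_mul]
        _ ≤ (1 / 2) ^ (2 * (K * S) + 4) := by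
            apply pow_le_pow_left₀ (by positivity)
            norm_num
    calc (2 : ℝ) ^ (2 * (K * S)) * (2 * ((967 : ℝ) / 1000) ^ d)
        ≤ (2 : ℝ) ^ (2 * (K * S)) * (2 * (1 / 2) ^ (2 * (K * S) + 4)) := by gcongr
      _ = (2 * (1 / 2)) ^ (2 * (K * S)) * (2 * (1 / 2) ^ 4) := by
          rw [pow_add, mul_pow]; ring
      _ = 1 / 8 := by norm_num
  have hdpos : (0 : ℝ) < (d : ℝ) := by positivity
  obtain ⟨E, hE⟩ : ∃ E : ℝ, E = ∑ ω, p ω * ((Acc ω).card : ℝ) := ⟨_, rfl⟩
  rw [← hE] at hsum hAccE
  have h5 : (d : ℝ) * c * E ≤ (d : ℝ) * c *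
      (2 * (2048 * ((1 / 10000 + 1 / 20000) * V) + M * V)) := by
    calc (d : ℝ) * c * E = (d : ℝ) * (c * E) := by ring
      _ ≤ 2 * (c * (2048 * ((d : ℝ) * ((1 / 10000 + 1 / 20000) * V))
          + (d : ℝ) * (M * V))) := hsum
      _ = _ := by ring
  have h6 : E ≤ 2 * (2048 * ((1 / 10000 + 1 / 20000) * V) + M * V) :=
    le_of_mul_le_mul_left h5 (mul_pos hdpos hcpos)
  have h7 : M * V ≤ 1 / 8 * V := mul_le_mul_of_nonneg_right hMle hVpos.le
  nlinarith


end Pool.Agent.X240.SH
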