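import Pool.Agent.TH457.HT.ZDefs

/-!
# Weighted graphs as words
-/

set_option autoImplicit false

namespace Pool.Agent.X240.SH

open Pool.Agent.TH457.HT

/-- the row of the cell which contains the letter `p` -/
def mrow {n w : ℕ} (p : Fin (n * (n * (w + 2)))) : Fin n :=
  ⟨(p : ℕ) / (n * (w + 2)), Nat.div_lt_of_lt_mul (lt_of_lt_of_eq p.2 (mul_comm _ _))⟩

/-- the column of the cell which contains the letter `p` -/
def mcol {n w : ℕ} (p : Fin (n * (n * (w + 2)))) : Fin n :=
  ⟨(p : ℕ) / (w + 2) % n, Nat.mod_lt _ (lt_of_le_of_lt (Nat.zero_le _) (mrow p).2)⟩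

/-- the word of a graph with the vertices `0, ..., n - 1` and with integral weights: the cells
`(i, j)`, row by row, with `w + 2` letters for each cell; for `i < j` these are the edge flag
`e i j`, the sign of the weight `x i j`, and the `w` last binary digits of its absolute value; the
cells `(i, j)` with `j ≤ i` are blank -/
def etword (n w : ℕ) (e : Fin n → Fin n → Bool) (x : Fin n → Fin n → ℤ)
    (p : Fin (n * (n * (w + 2)))) : Bool :=
  if mrow p < mcol p then
    (if (p : ℕ) % (w + 2) = 0 then e (mrow p) (mcol p)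
      else zlet (x (mrow p) (mcol p)) ((p : ℕ) % (w + 2) - 1))
  else false

/-- there is a triangle of total weight zero -/
def ZeroTriangle {n : ℕ} (e : Fin n → Fin n → Bool) (x : Fin n → Fin n → ℤ) : Prop :=
  ∃ i j k : Fin n, i < j ∧ j < k ∧ e i j = true ∧ e j k = true ∧ e i k = true ∧
    x i j + x j k + x i k = 0

end Pool.Agent.X240.SH
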