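import Pool.Agent.X240.SH.Arr
import Pool.Agent.X240.SH.EtDefs

/-!
# Slow heads and triangles of weight zero
-/

set_option autoImplicit false

open Finset

namespace Pool.Agent.X240.SH

open Pool.Agent.TH457.HT

/-- the edges of the instance: `h` vertices at the end, `m` at the beginning, `r` of them in a zone -/
def ee (n h r m : ℕ) (i j : Fin n) : Bool :=
  decide (((i : ℕ) < m ∧ n - h ≤ (j : ℕ)) ∨
    ((i : ℕ) < m ∧ (j : ℕ) < m ∧ (i : ℕ) / r % 2 ≠ (j : ℕ) / r % 2))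

/-- the weights of the instance -/
def ex (n h r m U : ℕ) (v : Fin m → Fin h → Fin U) (i j : Fin n) : ℤ :=
  if hi : (i : ℕ) < m then
    (if hj : (j : ℕ) - (n - h) < h ∧ n - h ≤ (j : ℕ) then
      (if (i : ℕ) / r % 2 = 0 then ((v ⟨i, hi⟩ ⟨(j : ℕ) - (n - h), hj.1⟩ : ℕ) : ℤ)
        else -((v ⟨i, hi⟩ ⟨(j : ℕ) - (n - h), hj.1⟩ : ℕ) : ℤ))
      else 0)
  else 0

theorem ex_eq (n h r m U : ℕ) (v : Fin m → Fin h → Fin U) (i : Fin m) (c : Fin h)
    (h1 : (i : ℕ) < n) (h2 : n - h + (c : ℕ) < n) :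
    ex n h r m U v ⟨i, h1⟩ ⟨n - h + c, h2⟩
      = if (i : ℕ) / r % 2 = 0 then ((v i c : ℕ) : ℤ) else -((v i c : ℕ) : ℤ) := by
  have e1 : n - h + (c : ℕ) - (n - h) = c := by omega
  have hc := c.2
  unfold ex
  simp only [i.2, dite_true]
  rw [dif_pos (by rw [e1]; exact ⟨hc, by omega⟩)]
  have e2 : (⟨n - h + (c : ℕ) - (n - h), by rw [e1]; exact hc⟩ : Fin h) = c := Fin.ext e1
  rw [e2]

theorem ex_abs (n h r m U : ℕ) (v : Fin m → Fin h → Fin U) (i j : Fin n) :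
    |ex n h r m U v i j| ≤ (U : ℤ) := by
  unfold ex
  have hU : (0 : ℤ) ≤ U := by positivity
  split_ifs with h1 h2 h3
  · have h4 := (v ⟨i, h1⟩ ⟨(j : ℕ) - (n - h), h2.1⟩).2
    rw [abs_of_nonneg (by positivity)]
    exact_mod_cast h4.le
  · have h4 := (v ⟨i, h1⟩ ⟨(j : ℕ) - (n - h), h2.1⟩).2
    rw [abs_neg, abs_of_nonneg (by positivity)]
    exact_mod_cast h4.le
  · rw [abs_zero]; exact hU
  · rw [abs_zero]; exact hU

/-- two equal values give a triangle of weight zero -/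
theorem zero_of_eq {n h r m U : ℕ} (v : Fin m → Fin h → Fin U) (hm : m + h ≤ n) (i j : Fin m)
    (hi : (i : ℕ) / r % 2 = 0) (hj : (j : ℕ) / r % 2 = 1) (c : Fin h) (he : v i c = v j c) :
    ZeroTriangle (ee n h r m) (ex n h r m U v) := by
  have hi2 := i.2
  have hj2 := j.2
  have hc := c.2
  have hzero : ∀ (a b : Fin m) (h1 : (a : ℕ) < n) (h2 : (b : ℕ) < n),
      ex n h r m U v ⟨a, h1⟩ ⟨b, h2⟩ = 0 := by
    intro a b h1 h2
    have hb := b.2
    unfold ex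
    simp only [a.2, dite_true]
    rw [dif_neg (by omega)]
  rcases Nat.lt_trichotomy (i : ℕ) (j : ℕ) with hlt | heq | hgt
  · refine ⟨⟨i, by omega⟩, ⟨j, by omega⟩, ⟨n - h + c, by omega⟩, ?_, ?_, ?_, ?_, ?_, ?_⟩
    · exact hlt
    · show (j : ℕ) < n - h + c
      omega
    · unfold ee
      simp only [decide_eq_true_eq]
      omega
    · unfold ee
      simp only [decide_eq_true_eq]
      omega
    · unfold ee
      simp only [decide_eq_true_eq]
      omega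
    · rw [hzero, ex_eq, ex_eq, if_neg (by omega), if_pos hi, he]
      ring
  · exfalso
    rw [heq] at hi
    omega
  · refine ⟨⟨j, by omega⟩, ⟨i, by omega⟩, ⟨n - h + c, by omega⟩, ?_, ?_, ?_, ?_, ?_, ?_⟩
    · exact hgt
    · show (i : ℕ) < n - h + c
      omega
    · unfold ee
      simp only [decide_eq_true_eq]
      omega
    · unfold ee
      simp only [decide_eq_true_eq]
      omega
    · unfold ee
      simp only [decide_eq_true_eq]
      omega
    · rw [hzero, ex_eq, ex_eq, if_pos hi, if_neg (by omega), he]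
      ring

/-- a triangle of weight zero gives two equal values -/
theorem eq_of_zero {n h r m U : ℕ} (v : Fin m → Fin h → Fin U) (hm : m + h ≤ n)
    (hz : ZeroTriangle (ee n h r m) (ex n h r m U v)) :
    ∃ (i j : Fin m) (c : Fin h), i ≠ j ∧ v i c = v j c := by
  obtain ⟨a, b, k, hab, hbk, h1, h2, h3, h4⟩ := hz
  have hab' : (a : ℕ) < b := hab
  have hbk' : (b : ℕ) < k := hbk
  unfold ee at h1 h2 h3
  simp only [decide_eq_true_eq] at h1 h2 h3
  have ha : (a : ℕ) < m := by omega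
  have hb : (b : ℕ) < m := by omega
  have hk : n - h ≤ (k : ℕ) := by omega
  have hcl : (a : ℕ) / r % 2 ≠ (b : ℕ) / r % 2 := by omega
  have hk2 := k.2
  have hc : (k : ℕ) - (n - h) < h := by omega
  refine ⟨⟨a, ha⟩, ⟨b, hb⟩, ⟨(k : ℕ) - (n - h), hc⟩, ?_, ?_⟩
  · intro he
    have := congrArg Fin.val he
    simp only at this
    omega
  · have e0 : ex n h r m U v a b = 0 := by
      unfold ex
      rw [dif_pos ha, dif_neg (by omega)]
    have e1 : ex n h r m U v b k = if (b : ℕ) / r % 2 = 0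
        then ((v ⟨b, hb⟩ ⟨(k : ℕ) - (n - h), hc⟩ : ℕ) : ℤ)
        else -((v ⟨b, hb⟩ ⟨(k : ℕ) - (n - h), hc⟩ : ℕ) : ℤ) := by
      unfold ex
      rw [dif_pos hb, dif_pos ⟨hc, hk⟩]
    have e2 : ex n h r m U v a k = if (a : ℕ) / r % 2 = 0
        then ((v ⟨a, ha⟩ ⟨(k : ℕ) - (n - h), hc⟩ : ℕ) : ℤ)
        else -((v ⟨a, ha⟩ ⟨(k : ℕ) - (n - h), hc⟩ : ℕ) : ℤ) := by
      unfold ex
      rw [dif_pos ha, dif_pos ⟨hc, hk⟩]
    rw [e0, e1, e2] at h4
    apply Fin.ext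
    split_ifs at h4 with h5 h6 <;> omega

/-- the word -/
def EW (n w h U r m : ℕ) (v : Fin m → Fin h → Fin U) : Fin (n * (n * (w + 2))) → Bool :=
  etword n w (ee n h r m) (ex n h r m U v)

theorem EW_local (n w h U r m : ℕ) (v v' : Fin m → Fin h → Fin U) (p : Fin (n * (n * (w + 2))))
    (hp : ∀ h : (p : ℕ) / (n * (w + 2)) < m,
      v ⟨(p : ℕ) / (n * (w + 2)), h⟩ = v' ⟨(p : ℕ) / (n * (w + 2)), h⟩) :
    EW n w h U r m v p = EW n w h U r m v' p := by
  have key : ex n h r m U v (mrow p) (mcol p) = ex n h r m U v' (mrow p) (mcol p) := by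
    unfold ex
    by_cases h1 : ((mrow p : Fin n) : ℕ) < m
    · rw [dif_pos h1, dif_pos h1]
      have h2 : v ⟨((mrow p : Fin n) : ℕ), h1⟩ = v' ⟨((mrow p : Fin n) : ℕ), h1⟩ := hp h1
      rw [h2]
    · rw [dif_neg h1, dif_neg h1]
  unfold EW etword
  rw [key]

theorem numsE (n : ℕ) (hn : 3 ≤ n) : n ^ 2 ≤ 8 * ((n - n / 3) * (n / 3)) ∧
    3 * ((n - n / 3) * (n / 3)) ≤ n ^ 2 := by
  obtain ⟨h, hh⟩ : ∃ h, h = n / 3 := ⟨_, rfl⟩
  obtain ⟨R, hR⟩ : ∃ R, R = n - n / 3 := ⟨_, rfl⟩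
  rw [← hh] at hR ⊢
  rw [← hR]
  have h1 : n = R + h := by omega
  have h2 : 3 * h ≤ n := by omega
  have h3 : n ≤ 5 * h := by omega
  have h4 : R ≤ 4 * h := by omega
  have h5 : 2 * h ≤ R := by omega
  have h6 : R ≤ n := by omega
  constructor
  · rw [h1]
    have e1 : (R + h) ^ 2 = R * R + 2 * (R * h) + h * h := by ring
    have e2 : R * R ≤ 4 * (R * h) := by
      calc R * R ≤ R * (4 * h) := Nat.mul_le_mul_left _ h4
        _ = 4 * (R * h) := by ring
    have e3 : 2 * (h * h) ≤ R * h := by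
      calc 2 * (h * h) = 2 * h * h := by ring
        _ ≤ R * h := Nat.mul_le_mul_right _ h5
    omega
  · calc 3 * (R * h) = R * (3 * h) := by ring
      _ ≤ n * n := Nat.mul_le_mul h6 h2
      _ = n ^ 2 := by ring

theorem Ubound (n c : ℕ) (hn : 3 ≤ n) :
    9 * (c * ((n - n / 3) * (n / 3)) ^ 2) ≤ c * n ^ 4 := by
  have h1 := (numsE n hn).2
  calc 9 * (c * ((n - n / 3) * (n / 3)) ^ 2) = c * (3 * ((n - n / 3) * (n / 3))) ^ 2 := by ring
    _ ≤ c * (n ^ 2) ^ 2 := by gcongr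
    _ = c * n ^ 4 := by ring

theorem esmall {n w K k S T : ℕ} (hn : n < 3) (hK : 4 ≤ K) (hk : 1 ≤ k) :
    n ^ 2 * (n * (n * (w + 2))) ^ 2 ≤ K * (k * (S + 1) * (k * T + n * (n * (w + 2))) ^ 2) := by
  have h1 : n ^ 2 ≤ K * (k * (S + 1)) := by
    have h2 : 1 ≤ k * (S + 1) := Nat.one_le_iff_ne_zero.mpr (by positivity)
    calc n ^ 2 ≤ 2 ^ 2 := Nat.pow_le_pow_left (by omega) 2
      _ = 4 * 1 := by norm_num
      _ ≤ K * (k * (S + 1)) := Nat.mul_le_mul hK h2
  calc n ^ 2 * (n * (n * (w + 2))) ^ 2 ≤ K * (k * (S + 1)) * (k * T + n * (n * (w + 2))) ^ 2 := by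
        gcongr; omega
    _ = _ := by ring

/-- **Nondeterministic slow heads which verify that there is no triangle of weight zero.** -/
theorem et_nondet (n w : ℕ) {k : ℕ} (P : HeadProg Bool (n * (n * (w + 2))) k) (T S : ℕ)
    (hk : 1 ≤ k) (hS : Fintype.card P.Q * (n * (n * (w + 2))) ^ k ≤ 2 ^ S)
    (hacc : ∀ (e : Fin n → Fin n → Bool) (x : Fin n → Fin n → ℤ), (∀ i j, |x i j| ≤ (n : ℤ) ^ 4) →
      ¬ ZeroTriangle e x → P.AcceptsIn T (etword n w e x))
    (hsound : ∀ (e : Fin n → Fin n → Bool) (x : Fin n → Fin n → ℤ),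
      (∀ i j, |x i j| ≤ (n : ℤ) ^ 4) → ZeroTriangle e x → ¬ P.Accepts (etword n w e x)) :
    n ^ 2 * (n * (n * (w + 2))) ^ 2
      ≤ 62240000 * (k * (S + 1) * (k * T + n * (n * (w + 2))) ^ 2) := by
  rcases Nat.lt_or_ge n 3 with hn | hn
  · exact esmall hn (by norm_num) hk
  obtain ⟨hN1, hN2⟩ := numsE n hn
  have hh : 1 ≤ n / 3 := by omega
  have hR : 1 ≤ n - n / 3 := by omega
  have hρ : 1 ≤ n * (w + 2) := Nat.one_le_iff_ne_zero.mpr (by positivity)
  obtain ⟨U, hU⟩ : ∃ U, U = 2 * ((n - n / 3) * (n / 3)) ^ 2 := ⟨_, rfl⟩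
  have hU0 : 0 < U := by rw [hU]; positivity
  have hUn : (U : ℤ) ≤ (n : ℤ) ^ 4 := by
    have h1 := Ubound n 2 hn
    rw [← hU] at h1
    have h2 : U ≤ n ^ 4 := by omega
    exact_mod_cast h2
  have habs : ∀ (r m : ℕ) (v : Fin m → Fin (n / 3) → Fin U) (i j : Fin n),
      |ex n (n / 3) r m U v i j| ≤ (n : ℤ) ^ 4 :=
    fun r m v i j => (ex_abs n (n / 3) r m U v i j).trans hUn
  have h := arraysN P (n - n / 3) (n / 3) (n * (w + 2)) U T S hR hh (by omega) hρ
    (by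
      exact Nat.mul_le_mul_right _ (Nat.sub_le _ _))
    (by
      calc n * (n * (w + 2)) ≤ 2 * (n - n / 3) * (n * (w + 2)) :=
            Nat.mul_le_mul_right _ (by omega)
        _ = 2 * ((n - n / 3) * (n * (w + 2))) := by ring)
    (by
      have h1 : 2 * 1 ≤ n * (n * (w + 2)) := Nat.mul_le_mul (by omega) hρ
      omega)
    hk hU0 hU.ge
    (fun r m v => EW n w (n / 3) U r m v)
    (fun r m v v' p hp => EW_local n w (n / 3) U r m v v' p hp)
    (by
      intro r m hm v hv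
      refine hacc _ _ (habs r m v) ?_
      intro hz
      obtain ⟨i, j, c, hij, he⟩ := eq_of_zero v (by omega) hz
      have := hv (a₁ := (i, c)) (a₂ := (j, c)) he
      exact hij (congrArg Prod.fst this))
    (by
      intro r m hr hm v hv i j hi hj _ c hc
      exact hsound _ _ (habs r m v) (zero_of_eq v (by omega) i j hi hj c hc) hv)
    hS
  calc n ^ 2 * (n * (n * (w + 2))) ^ 2
      ≤ 8 * ((n - n / 3) * (n / 3)) * (n * (n * (w + 2))) ^ 2 := Nat.mul_le_mul_right _ hN1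
    _ = 8 * ((n - n / 3) * (n / 3) * (n * (n * (w + 2))) ^ 2) := by ring
    _ ≤ 8 * (7780000 * (k * (S + 1) * (k * T + n * (n * (w + 2))) ^ 2)) :=
        Nat.mul_le_mul_left _ h
    _ = 62240000 * (k * (S + 1) * (k * T + n * (n * (w + 2))) ^ 2) := by ring

open Classical in
/-- **Randomized slow heads and triangles of weight zero.** -/
theorem et_rand (n w : ℕ) {k : ℕ} {Ω : Type} [Fintype Ω] (p : Ω → ℝ) (hp : ∀ ω, 0 ≤ p ω)
    (hp1 : ∑ ω, p ω = 1) (P : Ω → DetProg Bool (n * (n * (w + 2))) k) (T S : ℕ) (hk : 1 ≤ k)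
    (hS : ∀ ω, Fintype.card (P ω).Q * (n * (n * (w + 2))) ^ k ≤ 2 ^ S)
    (h : ∀ (e : Fin n → Fin n → Bool) (x : Fin n → Fin n → ℤ),
      (∀ i j, |x i j| ≤ 2500 * (n : ℤ) ^ 4) →
      1 - 1 / 10000 ≤ prob p P T (etword n w e x) (decide (ZeroTriangle e x))) :
    n ^ 2 * (n * (n * (w + 2))) ^ 2
      ≤ 208000000 * (k * (S + 1) * (k * T + n * (n * (w + 2))) ^ 2) := by
  rcases Nat.lt_or_ge n 3 with hn | hn
  · exact esmall hn (by norm_num) hk
  obtain ⟨hN1, hN2⟩ := numsE n hn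
  have hh : 1 ≤ n / 3 := by omega
  have hR : 1 ≤ n - n / 3 := by omega
  have hρ : 1 ≤ n * (w + 2) := Nat.one_le_iff_ne_zero.mpr (by positivity)
  obtain ⟨U, hU⟩ : ∃ U, U = 20000 * ((n - n / 3) * (n / 3)) ^ 2 := ⟨_, rfl⟩
  have hU0 : 0 < U := by rw [hU]; positivity
  have hUn : (U : ℤ) ≤ 2500 * (n : ℤ) ^ 4 := by
    have h1 := Ubound n 20000 hn
    rw [← hU] at h1
    have h2 : U ≤ 2500 * n ^ 4 := by omega
    exact_mod_cast h2
  have habs : ∀ (r m : ℕ) (v : Fin m → Fin (n / 3) → Fin U) (i j : Fin n),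
      |ex n (n / 3) r m U v i j| ≤ 2500 * (n : ℤ) ^ 4 :=
    fun r m v i j => (ex_abs n (n / 3) r m U v i j).trans hUn
  have h := arraysR p hp hp1 (fun ω => (P ω).flip) (n - n / 3) (n / 3) (n * (w + 2)) U T S hR hh
    (by omega) hρ
    (by
      exact Nat.mul_le_mul_right _ (Nat.sub_le _ _))
    (by
      calc n * (n * (w + 2)) ≤ 2 * (n - n / 3) * (n * (w + 2)) :=
            Nat.mul_le_mul_right _ (by omega)
        _ = 2 * ((n - n / 3) * (n * (w + 2))) := by ring)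
    (by
      have h1 : 2 * 1 ≤ n * (n * (w + 2)) := Nat.mul_le_mul (by omega) hρ
      omega)
    hk hU0 hU.ge
    (fun r m v => EW n w (n / 3) U r m v)
    (fun r m v v' p hp => EW_local n w (n / 3) U r m v v' p hp)
    (by
      intro r m hm v hv
      rw [prob_flip]
      have h1 := h (ee n (n / 3) r m) _ (habs r m v)
      have hz : ¬ ZeroTriangle (ee n (n / 3) r m) (ex n (n / 3) r m U v) := by
        intro hz
        obtain ⟨i, j, c, hij, he⟩ := eq_of_zero v (by omega) hz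
        have := hv (a₁ := (i, c)) (a₂ := (j, c)) he
        exact hij (congrArg Prod.fst this)
      rw [decide_eq_false hz] at h1
      exact h1)
    (by
      intro r m hr hm v i j hi hj _ c hc
      rw [prob_flip]
      have h1 := h (ee n (n / 3) r m) _ (habs r m v)
      rw [decide_eq_true (zero_of_eq v (by omega) i j hi hj c hc)] at h1
      exact h1)
    (fun ω => hS ω)
  calc n ^ 2 * (n * (n * (w + 2))) ^ 2
      ≤ 8 * ((n - n / 3) * (n / 3)) * (n * (n * (w + 2))) ^ 2 := Nat.mul_le_mul_right _ hN1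
    _ = 8 * ((n - n / 3) * (n / 3) * (n * (n * (w + 2))) ^ 2) := by ring
    _ ≤ 8 * (26000000 * (k * (S + 1) * (k * T + n * (n * (w + 2))) ^ 2)) :=
        Nat.mul_le_mul_left _ h
    _ = 208000000 * (k * (S + 1) * (k * T + n * (n * (w + 2))) ^ 2) := by ring

end Pool.Agent.X240.SH
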