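import Pool.Agent.TH457.HT.Engine

/-!
# Slow heads: an engine with fooling sets for pairs of zones
-/

set_option autoImplicit false

open Finset

namespace Pool.Agent.X240.SH

open Pool.Agent.TH457.HT

/-- the word `u` with the zone `b` of the word `v` -/
def mix {Λ : Type} {n : ℕ} (lam b : ℕ) (u v : Fin n → Λ) : Fin n → Λ :=
  fun p => if (p : ℕ) / lam = b then v p else u p

/-- **The engine.**  `D` zones of length `lam`. The program accepts all words `x γ` within `T` steps.
For each pair of a zone `a` in `Z0` and a zone `b` in `Z1`, there are at least `2 ^ m` bijections of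
the index set which change the words only in these two zones, such that for two different ones the
two mixed words are not both accepted. -/
theorem engineF {Λ Γ : Type} [Fintype Γ] [Nonempty Γ] {n k : ℕ} (P : HeadProg Λ n k)
    (lam D T S K m : ℕ) (hlam : 0 < lam)
    (Z0 Z1 : Finset (Fin D)) (hne0 : Z0.Nonempty) (hne1 : Z1.Nonempty)
    (x : Γ → Fin n → Λ) (hacc : ∀ γ, P.AcceptsIn T (x γ))
    (hfool : ∀ a ∈ Z0, ∀ b ∈ Z1, ∃ (W : Type) (_ : Fintype W) (τ : W → Equiv.Perm Γ),
      2 ^ m ≤ Fintype.card W ∧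
      (∀ s γ, ∀ p : Fin n, (p : ℕ) / lam ≠ (a : ℕ) → (p : ℕ) / lam ≠ (b : ℕ) →
        x (τ s γ) p = x γ p) ∧
      ∀ γ s s', s ≠ s' → P.Accepts (mix lam b (x (τ s γ)) (x (τ s' γ))) →
        ¬ P.Accepts (mix lam b (x (τ s' γ)) (x (τ s γ))))
    (hK1 : 12 * k * (T / lam + 1) < (K + 1) * Z1.card) (hK2 : 12 * k * K ≤ Z0.card)
    (hS : Fintype.card P.Cfg + 1 ≤ 2 ^ S) : m ≤ 1 + S * (2 * K + 2) := by
  classical
  obtain ⟨N, hN⟩ : ∃ N, N = T / lam + 1 := ⟨_, rfl⟩
  have h0 := fun v => exists_touch P lam D T hlam (x v) (hacc v)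
  rw [← hN] at hK1
  simp only [← hN] at h0
  choose Tch hT1 hT2 using h0
  obtain ⟨G, hG⟩ : ∃ G : Finset Γ, G = univ := ⟨_, rfl⟩
  -- the number of windows which touch `b`
  obtain ⟨Kb, hKb⟩ : ∃ Kb : Γ → Fin D → ℕ,
      Kb = fun x b => ((range N).filter (fun i => b ∈ Tch x i)).card := ⟨_, rfl⟩
  have hsumK : ∀ x ∈ G, ∑ b : Fin D, Kb x b ≤ N * (3 * k) := by
    intro x hx
    have h1 : ∑ i ∈ range N, ((univ : Finset (Fin D)).filter (fun b => b ∈ Tch x i)).card
        = ∑ b : Fin D, ((range N).filter (fun i => b ∈ Tch x i)).card :=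
      Finset.sum_card_bipartiteAbove_eq_sum_card_bipartiteBelow (r := fun i b => b ∈ Tch x i)
    rw [hKb]
    simp only
    rw [← h1]
    refine (Finset.sum_le_sum (g := fun _ => 3 * k) ?_).trans (by simp)
    intro i _
    have e : (univ : Finset (Fin D)).filter (fun b => b ∈ Tch x i) = Tch x i := by
      ext z; simp
    rw [e]
    exact hT1 x i
  obtain ⟨b, hbZ, hb⟩ := avg4 G Z1 (fun x b => K < Kb x b) hne1 (by
      intro x hx
      have h1 : (K + 1) * (Z1.filter (fun b => K < Kb x b)).card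
          ≤ ∑ b : Fin D, Kb x b := by
        calc (K + 1) * (Z1.filter (fun b => K < Kb x b)).card
            = ∑ b ∈ Z1.filter (fun b => K < Kb x b), (K + 1) := by
              rw [sum_const, smul_eq_mul, mul_comm]
          _ ≤ ∑ b ∈ Z1.filter (fun b => K < Kb x b), Kb x b :=
              Finset.sum_le_sum (fun b hb => (mem_filter.mp hb).2)
          _ ≤ ∑ b : Fin D, Kb x b :=
              Finset.sum_le_sum_of_subset (subset_univ _)
      have h2 := h1.trans (hsumK x hx)
      have h3 : (K + 1) * (4 * (Z1.filter (fun b => K < Kb x b)).card)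
          < (K + 1) * Z1.card := by
        calc (K + 1) * (4 * (Z1.filter (fun b => K < Kb x b)).card)
            = 4 * ((K + 1) * (Z1.filter (fun b => K < Kb x b)).card) := by
              ring
          _ ≤ 4 * (N * (3 * k)) := Nat.mul_le_mul_left _ h2
          _ = 12 * k * N := by ring
          _ < (K + 1) * Z1.card := hK1
      exact (Nat.lt_of_mul_lt_mul_left h3).le)
  set G1 := G.filter (fun x => ¬ K < Kb x b) with hG1
  have hc1 : (G.filter (fun x => K < Kb x b)).card + G1.card = G.card :=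
    Finset.card_filter_add_card_filter_not (s := G) (fun x => K < Kb x b)
  obtain ⟨a, haZ, ha2⟩ := avg4 G1 Z0
    (fun x a => ∃ i < N, a ∈ Tch x i ∧ b ∈ Tch x i) hne0
    (by
      intro x hx
      have hxK : Kb x b ≤ K := by
        have := (mem_filter.mp hx).2; omega
      have hsub : Z0.filter
          (fun a => ∃ i < N, a ∈ Tch x i ∧ b ∈ Tch x i) ⊆
          ((range N).filter (fun i => b ∈ Tch x i)).biUnion (Tch x) := by
        intro a ha
        obtain ⟨-, i, hi, h1, h2⟩ := mem_filter.mp ha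
        exact mem_biUnion.mpr ⟨i, mem_filter.mpr ⟨mem_range.mpr hi, h2⟩, h1⟩
      have h1 : (Z0.filter
          (fun a => ∃ i < N, a ∈ Tch x i ∧ b ∈ Tch x i)).card ≤ Kb x b * (3 * k) := by
        refine (card_le_card hsub).trans (card_biUnion_le.trans ?_)
        refine (Finset.sum_le_sum (g := fun _ => 3 * k)
          (fun i _ => hT1 x i)).trans ?_
        rw [sum_const, smul_eq_mul, hKb]
      have h2 : Kb x b * (3 * k) ≤ K * (3 * k) := Nat.mul_le_mul_right _ hxK
      have h3 : 4 * (K * (3 * k)) = 12 * k * K := by ring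
      omega)
  set G2 := G1.filter (fun x => ¬ ∃ i < N, a ∈ Tch x i ∧ b ∈ Tch x i) with hG2
  have hc2 : (G1.filter (fun x => ∃ i < N, a ∈ Tch x i ∧ b ∈ Tch x i)).card + G2.card = G1.card :=
    Finset.card_filter_add_card_filter_not (s := G1) _
  have hcG : G.card = Fintype.card Γ := by rw [hG, card_univ]
  have hpos : 0 < G.card := by rw [hcG]; exact Fintype.card_pos
  have hGG2 : G.card ≤ 2 * G2.card := by omega
  -- transcripts
  have htr : ∀ γ ∈ G2, ∃ (c₀ : P.Cfg) (τ : List P.Cfg), P.init c₀.1 c₀.2 ∧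
      Tr P lam a b (x γ) false c₀ τ ∧ τ.length ≤ 2 * K + 1 := by
    intro γ hx
    have hx2 := (mem_filter.mp hx).2
    have hx1 := (mem_filter.mp (mem_filter.mp hx).1).2
    obtain ⟨c₀, τ, h1, h2, h3⟩ := hT2 γ a b
      (fun i hi h1 h2 => hx2 ⟨i, hi, h1, h2⟩)
    refine ⟨c₀, τ, h1, h2, h3.trans ?_⟩
    have : Kb γ b ≤ K := by omega
    rw [hKb] at this
    simp only at this
    omega
  have hne : G2.Nonempty := by
    rw [← Finset.card_pos]
    omega
  obtain ⟨x₀, hx₀⟩ := hne
  have : Nonempty P.Cfg := ⟨(htr x₀ hx₀).choose⟩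
  choose! c₀ τ hi htau hlen using htr
  obtain ⟨W, _, tau, hW, hout, hbad⟩ := hfool a haZ b hbZ
  obtain ⟨key, hkey⟩ : ∃ key : Γ → Fin (2 * K + 2) → Option P.Cfg,
      key = fun γ (i : Fin (2 * K + 2)) => (c₀ γ :: τ γ)[(i : ℕ)]? := ⟨_, rfl⟩
  have hmix : ∀ γ₁ ∈ G2, ∀ γ₂ ∈ G2, key γ₁ = key γ₂ →
      (∀ p : Fin n, (p : ℕ) / lam ≠ (a : ℕ) → (p : ℕ) / lam ≠ (b : ℕ) → x γ₁ p = x γ₂ p) →
      P.Accepts (mix lam b (x γ₁) (x γ₂)) := by
    intro γ₁ h1 γ₂ h2 hk12 hrest
    rw [hkey] at hk12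
    have e := getElem?_ext (R := 2 * K + 2) (l := c₀ γ₁ :: τ γ₁) (l' := c₀ γ₂ :: τ γ₂)
      (by rw [List.length_cons]; have := hlen γ₁ h1; omega)
      (by rw [List.length_cons]; have := hlen γ₂ h2; omega) hk12
    rw [List.cons.injEq] at e
    refine Tr_accepts P lam a b _ (τ γ₁) false (c₀ γ₁) (hi γ₁ h1) ?_
    refine Tr_mix P lam a b (x γ₁) (x γ₂) _ ?_ ?_ (τ γ₁) false (c₀ γ₁) (htau γ₁ h1) ?_
    · intro p hp
      exact if_neg hp
    · intro p hp
      unfold mix
      by_cases hpb : (p : ℕ) / lam = b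
      · rw [if_pos hpb]
      · rw [if_neg hpb]
        exact hrest p hp hpb
    · rw [e.1, e.2]
      exact htau γ₂ h2
  -- counting
  have hinj : ∀ γ : Γ, ((univ : Finset W).filter (fun s => tau s γ ∈ G2)).card ≤
      (Fintype.card P.Cfg + 1) ^ (2 * K + 2) := by
    intro γ
    have h1 : ((univ : Finset W).filter (fun s => tau s γ ∈ G2)).card ≤
        (univ : Finset (Fin (2 * K + 2) → Option P.Cfg)).card := by
      apply Finset.card_le_card_of_injOn (fun s => key (tau s γ))
      · intro s _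
        exact mem_univ _
      · intro s hs s' hs' hk
        have hs2 := (mem_filter.mp (mem_coe.mp hs)).2
        have hs2' := (mem_filter.mp (mem_coe.mp hs')).2
        by_contra hne
        have hr : ∀ p : Fin n, (p : ℕ) / lam ≠ (a : ℕ) → (p : ℕ) / lam ≠ (b : ℕ) →
            x (tau s γ) p = x (tau s' γ) p := by
          intro p h1 h2
          rw [hout s γ p h1 h2, hout s' γ p h1 h2]
        exact hbad γ s s' hne (hmix _ hs2 _ hs2' hk hr)
          (hmix _ hs2' _ hs2 hk.symm (fun p h1 h2 => (hr p h1 h2).symm))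
    rw [card_univ, Fintype.card_fun, Fintype.card_fin, Fintype.card_option] at h1
    exact h1
  have hdc : ∑ γ : Γ, ((univ : Finset W).filter (fun s => tau s γ ∈ G2)).card =
      Fintype.card W * G2.card := by
    have h1 : ∑ γ : Γ, ((univ : Finset W).filter (fun s => tau s γ ∈ G2)).card =
        ∑ s : W, ((univ : Finset Γ).filter (fun γ => tau s γ ∈ G2)).card :=
      Finset.sum_card_bipartiteAbove_eq_sum_card_bipartiteBelow (r := fun γ s => tau s γ ∈ G2)
    rw [h1]
    have h2 : ∀ s : W, ((univ : Finset Γ).filter (fun γ => tau s γ ∈ G2)).card = G2.card := by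
      intro s
      apply Finset.card_bij (fun γ _ => tau s γ)
      · intro γ hγ
        exact (mem_filter.mp hγ).2
      · intro γ _ γ' _ h
        exact (tau s).injective h
      · intro γ hγ
        exact ⟨(tau s).symm γ, mem_filter.mpr ⟨mem_univ _, by simpa using hγ⟩, by simp⟩
    rw [Finset.sum_congr rfl (fun s _ => h2 s), sum_const, card_univ, smul_eq_mul]
  have h3 : Fintype.card W * G2.card ≤ Fintype.card Γ * (Fintype.card P.Cfg + 1) ^ (2 * K + 2) := by
    rw [← hdc]
    refine (Finset.sum_le_sum (fun γ _ => hinj γ)).trans ?_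
    rw [sum_const, card_univ, smul_eq_mul]
  have hG2pos : 0 < G2.card := Finset.card_pos.mpr ⟨x₀, hx₀⟩
  have h4 : Fintype.card W ≤ 2 * (Fintype.card P.Cfg + 1) ^ (2 * K + 2) := by
    apply Nat.le_of_mul_le_mul_right _ hG2pos
    calc Fintype.card W * G2.card ≤ Fintype.card Γ * (Fintype.card P.Cfg + 1) ^ (2 * K + 2) := h3
      _ ≤ 2 * G2.card * (Fintype.card P.Cfg + 1) ^ (2 * K + 2) := by
          rw [← hcG]
          exact Nat.mul_le_mul_right _ hGG2
      _ = 2 * (Fintype.card P.Cfg + 1) ^ (2 * K + 2) * G2.card := by ring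
  have h5 : (2 : ℕ) ^ m ≤ 2 ^ (1 + S * (2 * K + 2)) := by
    calc (2 : ℕ) ^ m ≤ Fintype.card W := hW
      _ ≤ 2 * (Fintype.card P.Cfg + 1) ^ (2 * K + 2) := h4
      _ ≤ 2 * (2 ^ S) ^ (2 * K + 2) := Nat.mul_le_mul_left _ (Nat.pow_le_pow_left hS _)
      _ = 2 ^ (1 + S * (2 * K + 2)) := by rw [← pow_mul, pow_add, pow_one]
  exact (Nat.pow_le_pow_iff_right (by norm_num : 1 < 2)).mp h5

end Pool.Agent.X240.SH
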