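import Pool.Agent.TH457.HT.Engine
import Pool.Agent.X240.SH.PathS
import Pool.Agent.X240.SH.Fool

/-!
# Slow heads: an engine with fooling sets for one zone against most zones
-/

set_option autoImplicit false

open Finset

namespace Pool.Agent.X240.SH

open Pool.Agent.TH457.HT

/-- **The engine.**  `D` zones of length `lam`. The program accepts all words `x γ` within `T` steps.
For each zone `b` in `Z1` and each set `A` of at least three quarters of the zones of `Z0` there are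
at least `2 ^ m` bijections of the index set which change the words only in these zones, such that for
two different ones the two mixed words are not both accepted. -/
theorem engineG {Λ Γ : Type} [Fintype Γ] [Nonempty Γ] {n k : ℕ} (P : HeadProg Λ n k)
    (lam D T S K m : ℕ) (hlam : 0 < lam)
    (Z0 Z1 : Finset (Fin D)) (hne1 : Z1.Nonempty)
    (x : Γ → Fin n → Λ) (hacc : ∀ γ, P.AcceptsIn T (x γ))
    (hfool : ∀ b ∈ Z1, ∀ A ⊆ Z0, 3 * Z0.card ≤ 4 * A.card →
      ∃ (W : Type) (_ : Fintype W) (τ : W → Equiv.Perm Γ),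
      2 ^ m ≤ Fintype.card W ∧
      (∀ s γ, ∀ p : Fin n, (∀ a ∈ A, (p : ℕ) / lam ≠ (a : ℕ)) → (p : ℕ) / lam ≠ (b : ℕ) →
        x (τ s γ) p = x γ p) ∧
      ∀ γ s s', s ≠ s' → P.Accepts (mix lam b (x (τ s γ)) (x (τ s' γ))) →
        ¬ P.Accepts (mix lam b (x (τ s' γ)) (x (τ s γ))))
    (hK1 : 12 * k * (T / lam + 1) < (K + 1) * Z1.card) (hK2 : 12 * k * K ≤ Z0.card)
    (hS : Fintype.card P.Cfg + 1 ≤ 2 ^ S) : m ≤ 1 + Z0.card + S * (2 * K + 2) := by
  classical
  obtain ⟨N, hN⟩ : ∃ N, N = T / lam + 1 := ⟨_, rfl⟩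
  have h0 := fun v => exists_touchS P lam D T hlam (x v) (hacc v)
  rw [← hN] at hK1
  simp only [← hN] at h0
  choose Tch hT1 hT2 using h0
  obtain ⟨G, hG⟩ : ∃ G : Finset Γ, G = univ := ⟨_, rfl⟩
  -- the number of windows which touch `b`
  obtain ⟨Kb, hKb⟩ : ∃ Kb : Γ → Fin D → ℕ,
      Kb = fun x b => ((range N).filter (fun i => b ∈ Tch x i)).card := ⟨_, rfl⟩
  have hsumK : ∀ x ∈ G, ∑ b : Fin D, Kb x b ≤ N * (3 * k) := by
    intro x hx
    have h1 : ∑ i ∈ range N, ((univ : Finset (Fin D)).filter (fun b => b ∈ Tch x i)).card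
        = ∑ b : Fin D, ((range N).filter (fun i => b ∈ Tch x i)).card :=
      Finset.sum_card_bipartiteAbove_eq_sum_card_bipartiteBelow (r := fun i b => b ∈ Tch x i)
    rw [hKb]
    simp only
    rw [← h1]
    refine (Finset.sum_le_sum (g := fun _ => 3 * k) ?_).trans (by simp)
    intro i _
    have e : (univ : Finset (Fin D)).filter (fun b => b ∈ Tch x i) = Tch x i := by
      ext z; simp
    rw [e]
    exact hT1 x i
  obtain ⟨b, hbZ, hb⟩ := avg4 G Z1 (fun x b => K < Kb x b) hne1 (by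
      intro x hx
      have h1 : (K + 1) * (Z1.filter (fun b => K < Kb x b)).card
          ≤ ∑ b : Fin D, Kb x b := by
        calc (K + 1) * (Z1.filter (fun b => K < Kb x b)).card
            = ∑ b ∈ Z1.filter (fun b => K < Kb x b), (K + 1) := by
              rw [sum_const, smul_eq_mul, mul_comm]
          _ ≤ ∑ b ∈ Z1.filter (fun b => K < Kb x b), Kb x b :=
              Finset.sum_le_sum (fun b hb => (mem_filter.mp hb).2)
          _ ≤ ∑ b : Fin D, Kb x b :=
              Finset.sum_le_sum_of_subset (subset_univ _)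
      have h2 := h1.trans (hsumK x hx)
      have h3 : (K + 1) * (4 * (Z1.filter (fun b => K < Kb x b)).card)
          < (K + 1) * Z1.card := by
        calc (K + 1) * (4 * (Z1.filter (fun b => K < Kb x b)).card)
            = 4 * ((K + 1) * (Z1.filter (fun b => K < Kb x b)).card) := by
              ring
          _ ≤ 4 * (N * (3 * k)) := Nat.mul_le_mul_left _ h2
          _ = 12 * k * N := by ring
          _ < (K + 1) * Z1.card := hK1
      exact (Nat.lt_of_mul_lt_mul_left h3).le)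
  obtain ⟨G1, hG1⟩ : ∃ G1, G1 = G.filter (fun x => ¬ K < Kb x b) := ⟨_, rfl⟩
  have hc1 : (G.filter (fun x => K < Kb x b)).card + G1.card = G.card := by
    rw [hG1]
    exact Finset.card_filter_add_card_filter_not (s := G) (fun x => K < Kb x b)
  have hcG : G.card = Fintype.card Γ := by rw [hG, card_univ]
  have hpos : 0 < G.card := by rw [hcG]; exact Fintype.card_pos
  -- the zones which are not touched together with `b`
  obtain ⟨AA, hAA⟩ : ∃ AA : Γ → Finset (Fin D), AA = fun γ => Z0.filter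
      (fun a => ¬ ∃ i < N, a ∈ Tch γ i ∧ b ∈ Tch γ i) := ⟨_, rfl⟩
  have hAAsub : ∀ γ, AA γ ⊆ Z0 := by
    intro γ
    rw [hAA]
    exact filter_subset _ _
  have hAAcard : ∀ γ ∈ G1, 3 * Z0.card ≤ 4 * (AA γ).card := by
    intro γ hγ
    have hxK : Kb γ b ≤ K := by
      rw [hG1] at hγ
      have := (mem_filter.mp hγ).2; omega
    have hsub : Z0.filter
        (fun a => ∃ i < N, a ∈ Tch γ i ∧ b ∈ Tch γ i) ⊆
        ((range N).filter (fun i => b ∈ Tch γ i)).biUnion (Tch γ) := by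
      intro a ha
      obtain ⟨-, i, hi, h1, h2⟩ := mem_filter.mp ha
      exact mem_biUnion.mpr ⟨i, mem_filter.mpr ⟨mem_range.mpr hi, h2⟩, h1⟩
    have h1 : (Z0.filter
        (fun a => ∃ i < N, a ∈ Tch γ i ∧ b ∈ Tch γ i)).card ≤ Kb γ b * (3 * k) := by
      refine (card_le_card hsub).trans (card_biUnion_le.trans ?_)
      refine (Finset.sum_le_sum (g := fun _ => 3 * k)
        (fun i _ => hT1 γ i)).trans ?_
      rw [sum_const, smul_eq_mul, hKb]
    have h2 : Kb γ b * (3 * k) ≤ K * (3 * k) := Nat.mul_le_mul_right _ hxK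
    have h3 : 4 * (K * (3 * k)) = 12 * k * K := by ring
    have h4 := Finset.card_filter_add_card_filter_not (s := Z0)
      (fun a => ∃ i < N, a ∈ Tch γ i ∧ b ∈ Tch γ i)
    rw [hAA]
    simp only
    omega
  -- the most frequent set
  obtain ⟨A, hA⟩ : ∃ A : Finset (Fin D),
      G1.card ≤ 2 ^ Z0.card * (G1.filter (fun γ => AA γ = A)).card := by
    by_contra hcon
    push Not at hcon
    have h1 : G1.card = ∑ A ∈ Z0.powerset, (G1.filter (fun γ => AA γ = A)).card :=
      Finset.card_eq_sum_card_fiberwise (fun γ _ => mem_powerset.mpr (hAAsub γ))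
    have h2 : 2 ^ Z0.card * G1.card = ∑ A ∈ Z0.powerset,
        2 ^ Z0.card * (G1.filter (fun γ => AA γ = A)).card := by
      rw [← Finset.mul_sum, ← h1]
    have h3 : ∑ A ∈ Z0.powerset, 2 ^ Z0.card * (G1.filter (fun γ => AA γ = A)).card
        < ∑ A ∈ Z0.powerset, G1.card :=
      Finset.sum_lt_sum_of_nonempty ⟨∅, empty_mem_powerset _⟩ (fun A _ => hcon A)
    rw [sum_const, card_powerset, smul_eq_mul] at h3
    omega
  obtain ⟨G2, hG2⟩ : ∃ G2, G2 = G1.filter (fun γ => AA γ = A) := ⟨_, rfl⟩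
  rw [← hG2] at hA
  have hGG2 : G.card ≤ 2 * 2 ^ Z0.card * G2.card := by
    calc G.card ≤ 2 * G1.card := by omega
      _ ≤ 2 * (2 ^ Z0.card * G2.card) := Nat.mul_le_mul_left _ hA
      _ = 2 * 2 ^ Z0.card * G2.card := by ring
  have hG2pos : 0 < G2.card := by
    rcases Nat.eq_zero_or_pos G2.card with h | h
    · rw [h] at hGG2; omega
    · exact h
  obtain ⟨x₀, hx₀⟩ := Finset.card_pos.mp hG2pos
  have hx₀1 : x₀ ∈ G1 ∧ AA x₀ = A := by rw [hG2] at hx₀; exact mem_filter.mp hx₀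
  have hAsub : A ⊆ Z0 := by rw [← hx₀1.2]; exact hAAsub x₀
  have hAcard : 3 * Z0.card ≤ 4 * A.card := by rw [← hx₀1.2]; exact hAAcard x₀ hx₀1.1
  -- transcripts
  have htr : ∀ γ ∈ G2, ∃ (c₀ : P.Cfg) (τ : List P.Cfg), P.init c₀.1 c₀.2 ∧
      TrS P lam (Forb b A) (x γ) false c₀ τ ∧ τ.length ≤ 2 * K + 1 := by
    intro γ hx
    rw [hG2] at hx
    have hx2 := (mem_filter.mp hx).2
    have hx1 := (mem_filter.mp hx).1
    rw [hG1] at hx1
    have hx1 := (mem_filter.mp hx1).2
    obtain ⟨c₀, τ, h1, h2, h3⟩ := hT2 γ b A (by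
      intro i hi hbi a ha hai
      rw [← hx2, hAA] at ha
      exact (mem_filter.mp ha).2 ⟨i, hi, hai, hbi⟩)
    refine ⟨c₀, τ, h1, h2, h3.trans ?_⟩
    have : Kb γ b ≤ K := by omega
    rw [hKb] at this
    simp only at this
    omega
  have : Nonempty P.Cfg := ⟨(htr x₀ hx₀).choose⟩
  choose! c₀ τ hi htau hlen using htr
  obtain ⟨W, _, tau, hW, hout, hbad⟩ := hfool b hbZ A hAsub hAcard
  obtain ⟨key, hkey⟩ : ∃ key : Γ → Fin (2 * K + 2) → Option P.Cfg,
      key = fun γ (i : Fin (2 * K + 2)) => (c₀ γ :: τ γ)[(i : ℕ)]? := ⟨_, rfl⟩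
  have hmix : ∀ γ₁ ∈ G2, ∀ γ₂ ∈ G2, key γ₁ = key γ₂ →
      (∀ p : Fin n, (∀ a ∈ A, (p : ℕ) / lam ≠ (a : ℕ)) → (p : ℕ) / lam ≠ (b : ℕ) →
        x γ₁ p = x γ₂ p) →
      P.Accepts (mix lam b (x γ₁) (x γ₂)) := by
    intro γ₁ h1 γ₂ h2 hk12 hrest
    rw [hkey] at hk12
    have e := getElem?_ext (R := 2 * K + 2) (l := c₀ γ₁ :: τ γ₁) (l' := c₀ γ₂ :: τ γ₂)
      (by rw [List.length_cons]; have := hlen γ₁ h1; omega)
      (by rw [List.length_cons]; have := hlen γ₂ h2; omega) hk12
    rw [List.cons.injEq] at e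
    refine TrS_accepts P lam (Forb b A) _ (τ γ₁) false (c₀ γ₁) (hi γ₁ h1) ?_
    refine TrS_mix P lam (Forb b A) (x γ₁) (x γ₂) _ ?_ ?_ (τ γ₁) false (c₀ γ₁) (htau γ₁ h1) ?_
    · intro p hp
      unfold Forb at hp
      rw [if_neg (by simp)] at hp
      exact if_neg hp
    · intro p hp
      unfold Forb at hp
      rw [if_pos rfl] at hp
      unfold mix
      by_cases hpb : (p : ℕ) / lam = b
      · rw [if_pos hpb]
      · rw [if_neg hpb]
        exact hrest p (fun a ha h => hp ⟨a, ha, h.symm⟩) hpb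
    · rw [e.1, e.2]
      exact htau γ₂ h2
  -- counting
  have hinj : ∀ γ : Γ, ((univ : Finset W).filter (fun s => tau s γ ∈ G2)).card ≤
      (Fintype.card P.Cfg + 1) ^ (2 * K + 2) := by
    intro γ
    have h1 : ((univ : Finset W).filter (fun s => tau s γ ∈ G2)).card ≤
        (univ : Finset (Fin (2 * K + 2) → Option P.Cfg)).card := by
      apply Finset.card_le_card_of_injOn (fun s => key (tau s γ))
      · intro s _
        exact mem_univ _
      · intro s hs s' hs' hk
        have hs2 := (mem_filter.mp (mem_coe.mp hs)).2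
        have hs2' := (mem_filter.mp (mem_coe.mp hs')).2
        by_contra hne
        have hr : ∀ p : Fin n, (∀ a ∈ A, (p : ℕ) / lam ≠ (a : ℕ)) → (p : ℕ) / lam ≠ (b : ℕ) →
            x (tau s γ) p = x (tau s' γ) p := by
          intro p h1 h2
          rw [hout s γ p h1 h2, hout s' γ p h1 h2]
        exact hbad γ s s' hne (hmix _ hs2 _ hs2' hk hr)
          (hmix _ hs2' _ hs2 hk.symm (fun p h1 h2 => (hr p h1 h2).symm))
    rw [card_univ, Fintype.card_fun, Fintype.card_fin, Fintype.card_option] at h1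
    exact h1
  have hdc : ∑ γ : Γ, ((univ : Finset W).filter (fun s => tau s γ ∈ G2)).card =
      Fintype.card W * G2.card := by
    have h1 : ∑ γ : Γ, ((univ : Finset W).filter (fun s => tau s γ ∈ G2)).card =
        ∑ s : W, ((univ : Finset Γ).filter (fun γ => tau s γ ∈ G2)).card :=
      Finset.sum_card_bipartiteAbove_eq_sum_card_bipartiteBelow (r := fun γ s => tau s γ ∈ G2)
    rw [h1]
    have h2 : ∀ s : W, ((univ : Finset Γ).filter (fun γ => tau s γ ∈ G2)).card = G2.card := by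
      intro s
      apply Finset.card_bij (fun γ _ => tau s γ)
      · intro γ hγ
        exact (mem_filter.mp hγ).2
      · intro γ _ γ' _ h
        exact (tau s).injective h
      · intro γ hγ
        exact ⟨(tau s).symm γ, mem_filter.mpr ⟨mem_univ _, by simpa using hγ⟩, by simp⟩
    rw [Finset.sum_congr rfl (fun s _ => h2 s), sum_const, card_univ, smul_eq_mul]
  have h3 : Fintype.card W * G2.card ≤ Fintype.card Γ * (Fintype.card P.Cfg + 1) ^ (2 * K + 2) := by
    rw [← hdc]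
    refine (Finset.sum_le_sum (fun γ _ => hinj γ)).trans ?_
    rw [sum_const, card_univ, smul_eq_mul]
  have h4 : Fintype.card W ≤ 2 * 2 ^ Z0.card * (Fintype.card P.Cfg + 1) ^ (2 * K + 2) := by
    apply Nat.le_of_mul_le_mul_right _ hG2pos
    calc Fintype.card W * G2.card ≤ Fintype.card Γ * (Fintype.card P.Cfg + 1) ^ (2 * K + 2) := h3
      _ ≤ 2 * 2 ^ Z0.card * G2.card * (Fintype.card P.Cfg + 1) ^ (2 * K + 2) := by
          rw [← hcG]
          exact Nat.mul_le_mul_right _ hGG2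
      _ = 2 * 2 ^ Z0.card * (Fintype.card P.Cfg + 1) ^ (2 * K + 2) * G2.card := by ring
  have h5 : (2 : ℕ) ^ m ≤ 2 ^ (1 + Z0.card + S * (2 * K + 2)) := by
    calc (2 : ℕ) ^ m ≤ Fintype.card W := hW
      _ ≤ 2 * 2 ^ Z0.card * (Fintype.card P.Cfg + 1) ^ (2 * K + 2) := h4
      _ ≤ 2 * 2 ^ Z0.card * (2 ^ S) ^ (2 * K + 2) :=
          Nat.mul_le_mul_left _ (Nat.pow_le_pow_left hS _)
      _ = 2 ^ (1 + Z0.card + S * (2 * K + 2)) := by rw [← pow_mul, pow_add, pow_add, pow_one]
  exact (Nat.pow_le_pow_iff_right (by norm_num : 1 < 2)).mp h5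

end Pool.Agent.X240.SH
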