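import Pool.Agent.X240.SH.GapM
import Pool.Agent.X240.SH.TrGap

/-!
# Slow heads: gap problems for constraints
-/

set_option autoImplicit false

open Finset

namespace Pool.Agent.X240.SH.GapC

open Pool.Agent.X240.SH

variable {K L : Type} {T : ℕ}

/-- a yes instance and a no instance do not agree outside of a light set -/
theorem gap_csp (sat : L → K → Prop) (ε δ : ℝ) (m : ℕ) (hε : 0 ≤ ε) (hδ : 0 ≤ δ)
    (hm : 2 < m * (1 - ε - δ)) (y z : Fin T → List K) (J : Finset (Fin T))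
    (hJ : ∀ t, t ∉ J → y t = z t)
    (hy : (m : ℝ) * ∑ t ∈ J, ((y t).length : ℝ) ≤ ∑ t, ((y t).length : ℝ))
    (hz : (m : ℝ) * ∑ t ∈ J, ((z t).length : ℝ) ≤ ∑ t, ((z t).length : ℝ))
    (h1 : ValueGe sat (1 - ε) y) (h2 : ValueLe sat δ z) : False := by
  classical
  obtain ⟨hty, l, hl⟩ := h1
  obtain ⟨htz, hno⟩ := h2
  have hno := hno l
  obtain ⟨Jc, hJc⟩ : ∃ Jc : Finset (Fin T), Jc = univ \ J := ⟨_, rfl⟩
  have hsplit : ∀ f : Fin T → ℝ, ∑ t, f t = ∑ t ∈ Jc, f t + ∑ t ∈ J, f t := by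
    intro f
    rw [hJc]
    exact (Finset.sum_sdiff (subset_univ J)).symm
  have hcJ : ∀ t ∈ Jc, y t = z t := by
    intro t ht
    rw [hJc, mem_sdiff] at ht
    exact hJ t ht.2
  have ety : (total y : ℝ) = ∑ t, ((y t).length : ℝ) := by
    unfold total
    push_cast
    rfl
  have etz : (total z : ℝ) = ∑ t, ((z t).length : ℝ) := by
    unfold total
    push_cast
    rfl
  have egy : (good sat y l : ℝ) = ∑ t, (((y t).countP (fun e => decide (sat l e)) : ℕ) : ℝ) := by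
    unfold good
    push_cast
    rfl
  have egz : (good sat z l : ℝ) = ∑ t, (((z t).countP (fun e => decide (sat l e)) : ℕ) : ℝ) := by
    unfold good
    push_cast
    rfl
  rw [← ety] at hy
  rw [← etz] at hz
  have sty := hsplit (fun t => ((y t).length : ℝ))
  have stz := hsplit (fun t => ((z t).length : ℝ))
  have sgy := hsplit (fun t => (((y t).countP (fun e => decide (sat l e)) : ℕ) : ℝ))
  have sgz := hsplit (fun t => (((z t).countP (fun e => decide (sat l e)) : ℕ) : ℝ))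
  rw [← ety] at sty
  rw [← etz] at stz
  rw [← egy] at sgy
  rw [← egz] at sgz
  have c1 : ∑ t ∈ Jc, ((z t).length : ℝ) = ∑ t ∈ Jc, ((y t).length : ℝ) :=
    Finset.sum_congr rfl (fun t ht => by rw [hcJ t ht])
  have c2 : ∑ t ∈ Jc, (((z t).countP (fun e => decide (sat l e)) : ℕ) : ℝ) =
      ∑ t ∈ Jc, (((y t).countP (fun e => decide (sat l e)) : ℕ) : ℝ) :=
    Finset.sum_congr rfl (fun t ht => by rw [hcJ t ht])
  have c3 : ∑ t ∈ J, (((y t).countP (fun e => decide (sat l e)) : ℕ) : ℝ) ≤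
      ∑ t ∈ J, ((y t).length : ℝ) :=
    Finset.sum_le_sum (fun t _ => by exact_mod_cast List.countP_le_length)
  have c4 : 0 ≤ ∑ t ∈ J, (((z t).countP (fun e => decide (sat l e)) : ℕ) : ℝ) :=
    Finset.sum_nonneg (fun t _ => Nat.cast_nonneg _)
  have c5 : 0 ≤ ∑ t ∈ J, ((y t).length : ℝ) := Finset.sum_nonneg (fun t _ => Nat.cast_nonneg _)
  have c6 : 0 ≤ ∑ t ∈ J, ((z t).length : ℝ) := Finset.sum_nonneg (fun t _ => Nat.cast_nonneg _)
  rw [c1] at stz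
  rw [c2] at sgz
  obtain ⟨a, ha⟩ : ∃ a, a = ∑ t ∈ Jc, ((y t).length : ℝ) := ⟨_, rfl⟩
  obtain ⟨g, hg⟩ : ∃ g, g = ∑ t ∈ Jc, (((y t).countP (fun e => decide (sat l e)) : ℕ) : ℝ) :=
    ⟨_, rfl⟩
  obtain ⟨b, hb⟩ : ∃ b, b = ∑ t ∈ J, ((y t).length : ℝ) := ⟨_, rfl⟩
  obtain ⟨c, hc⟩ : ∃ c, c = ∑ t ∈ J, ((z t).length : ℝ) := ⟨_, rfl⟩
  obtain ⟨gb, hgb⟩ : ∃ gb, gb = ∑ t ∈ J, (((y t).countP (fun e => decide (sat l e)) : ℕ) : ℝ) :=
    ⟨_, rfl⟩
  obtain ⟨gc, hgc⟩ : ∃ gc, gc = ∑ t ∈ J, (((z t).countP (fun e => decide (sat l e)) : ℕ) : ℝ) :=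
    ⟨_, rfl⟩
  rw [← ha, ← hb] at sty
  rw [← ha, ← hc] at stz
  rw [← hg, ← hgb] at sgy
  rw [← hg, ← hgc] at sgz
  rw [← hb] at hy c5
  rw [← hc] at hz c6
  rw [← hgb, ← hb] at c3
  rw [← hgc] at c4
  rw [sgy, sty] at hl
  rw [sgz, stz] at hno
  rw [sty] at hy
  rw [stz] at hz
  have hty' : (1 : ℝ) ≤ a + b := by rw [← sty]; exact_mod_cast hty
  have htz' : (1 : ℝ) ≤ a + c := by rw [← stz]; exact_mod_cast htz
  -- `(1 - ε) (a + b) ≤ g + b`, `g ≤ δ (a + c)`, `m b ≤ a + b`, `m c ≤ a + c`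
  have hm0 : (0 : ℝ) < m := by
    rcases Nat.eq_zero_or_pos m with h | h
    · rw [h] at hm
      norm_num at hm
    · exact_mod_cast h
  have hd : 0 ≤ 1 - ε - δ := by
    by_contra hcon
    push Not at hcon
    have := mul_neg_of_pos_of_neg hm0 hcon
    linarith
  have hm2 : (2 : ℝ) < m := by
    have : (m : ℝ) * (1 - ε - δ) ≤ m * 1 := mul_le_mul_of_nonneg_left (by linarith) hm0.le
    linarith
  have k1 : (1 - ε) * (a + b) ≤ δ * (a + c) + b := by linarith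
  -- the two totals are close
  have k2 : (m - 1) * b ≤ a := by linarith
  have k3 : (m - 1) * c ≤ a := by linarith
  have k4 : (1 - ε - δ) * a ≤ δ * c + ε * b := by linarith
  have ha0 : 0 < a := by
    by_contra hcon
    push Not at hcon
    have : (m - 1) * b ≤ 0 := by linarith
    have h3 : b ≤ 0 := by
      by_contra h4
      push Not at h4
      have := mul_pos (by linarith : (0 : ℝ) < m - 1) h4
      linarith
    linarith
  -- multiply by `m - 1`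
  have k5 : (m - 1) * ((1 - ε - δ) * a) ≤ (δ + ε) * a := by
    calc (m - 1) * ((1 - ε - δ) * a) ≤ (m - 1) * (δ * c + ε * b) :=
          mul_le_mul_of_nonneg_left k4 (by linarith)
      _ = δ * ((m - 1) * c) + ε * ((m - 1) * b) := by ring
      _ ≤ δ * a + ε * a := add_le_add (mul_le_mul_of_nonneg_left k3 hδ)
          (mul_le_mul_of_nonneg_left k2 hε)
      _ = (δ + ε) * a := by ring
  have k6 : (m - 1) * (1 - ε - δ) ≤ δ + ε := by
    apply le_of_mul_le_mul_right _ ha0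
    calc (m - 1) * (1 - ε - δ) * a = (m - 1) * ((1 - ε - δ) * a) := by ring
      _ ≤ _ := k5
  nlinarith

/-- **Constraints.** -/
theorem csp_bound {Ω : Type} [Fintype Ω] (sat : L → K → Prop) (V k T S : ℕ) (ε δ : ℝ) (p : Ω → ℝ)
    (hp : ∀ ω, 0 ≤ p ω) (hp1 : ∑ ω, p ω = 1) (R : Ω → Transducer Bool K (V * V) k) (hV : 2 ≤ V)
    (hk : 1 ≤ k) (hε : 0 ≤ ε) (hδ : 0 ≤ δ) (hεδ : ε + δ < 1)
    (hyes : ∀ a : Fin V → Fin V → Bool, twoCycles a % 2 = 1 →
      2 / 3 ≤ probOut p R T (gword V a) (ValueGe sat (1 - ε)))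
    (hno : ∀ a : Fin V → Fin V → Bool, twoCycles a % 2 = 0 →
      2 / 3 ≤ probOut p R T (gword V a) (ValueLe sat δ))
    (hS : ∀ ω, Fintype.card (R ω).Q * (V * V) ^ k ≤ 2 ^ S) :
    (1 - ε - δ) ^ 2 * V ^ 6 ≤ 1800000000 * (k * (S + 1) * (k * T + V ^ 2) ^ 2) := by
  obtain ⟨g, hg⟩ : ∃ g, g = 1 - ε - δ := ⟨_, rfl⟩
  have hg0 : 0 < g := by rw [hg]; linarith
  have hg1 : g ≤ 1 := by rw [hg]; linarith
  obtain ⟨m, hm⟩ : ∃ m, m = ⌊2 / g⌋₊ + 1 := ⟨_, rfl⟩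
  have hm1 : 1 ≤ m := by rw [hm]; exact Nat.le_add_left 1 _
  have hmg : 2 < m * g := by
    have h1 := Nat.lt_floor_add_one (2 / g)
    rw [div_lt_iff₀ hg0] at h1
    rw [hm]
    push_cast
    exact h1
  have hmu : m * g ≤ 3 := by
    have h1 := Nat.floor_le (show 0 ≤ 2 / g by positivity)
    rw [hm]
    push_cast
    have h2 : (⌊2 / g⌋₊ : ℝ) * g ≤ 2 := by
      rw [le_div_iff₀ hg0] at h1
      exact h1
    linarith
  have hb := GapM.gap_bound V k T S m p hp hp1 R hV hk hm1 (ValueGe sat (1 - ε)) (ValueLe sat δ)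
    (fun y t => ((y t).length : ℝ)) (fun y t => Nat.cast_nonneg _) (by
      intro y z J hJ h1 h2 h3 h4
      exact gap_csp sat ε δ m hε hδ (by rw [← hg]; exact hmg) y z J hJ h1 h2 h3 h4) hyes hno hS
  rw [← hg]
  have hb' : ((V ^ 6 : ℕ) : ℝ) ≤ ((200000000 * (m ^ 2 * k * (S + 1) * (k * T + V ^ 2) ^ 2) : ℕ) : ℝ) := by
    exact_mod_cast hb
  push_cast at hb'
  calc g ^ 2 * (V : ℝ) ^ 6 ≤ g ^ 2 * (200000000 * ((m : ℝ) ^ 2 * k * (S + 1) *
        (k * T + V ^ 2) ^ 2)) := mul_le_mul_of_nonneg_left hb' (by positivity)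
    _ = 200000000 * (m * g) ^ 2 * (k * (S + 1) * (k * T + V ^ 2) ^ 2) := by ring
    _ ≤ 200000000 * 3 ^ 2 * (k * (S + 1) * (k * T + V ^ 2) ^ 2) := by
        apply mul_le_mul_of_nonneg_right _ (by positivity)
        apply mul_le_mul_of_nonneg_left _ (by norm_num)
        exact pow_le_pow_left₀ (by positivity) hmu 2
    _ = 1800000000 * (k * (S + 1) * (k * T + V ^ 2) ^ 2) := by norm_num

end Pool.Agent.X240.SH.GapC
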