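import Pool.Agent.X240.SH.IPE2

/-!
# Slow heads: sums over the classes of a transcript
-/

set_option autoImplicit false

open Finset

namespace Pool.Agent.X240.SH

open Pool.Agent.TH457.HT

variable {Λ : Type} {n k : ℕ} {ι : Type} [Fintype ι] [DecidableEq ι]

section cls

variable (P : DetProg Λ n k) (lam b N : ℕ) (hlam : 0 < lam)
  (x : (ι → Bool) → (ι → Bool) → Fin n → Λ) (ζ0 ζ1 : ι → ℕ)
  (hloc : ∀ X X' Y Y', ∀ p : Fin n, (∀ i, ζ0 i = (p : ℕ) / lam → X i = X' i) →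
    (∀ i, ζ1 i = (p : ℕ) / lam → Y i = Y' i) → x X Y p = x X' Y' p)
  (A : (ι → Bool) → (ι → Bool) → ℝ) (hA1 : ∀ X Y, |A X Y| ≤ 1)
  (hA2 : ∀ X Y Y', trans P lam b (x X Y') N P.start = trans P lam b (x X Y) N P.start →
    (∀ i, i ∉ frB P lam b ζ0 ζ1 (trans P lam b (x X Y) N P.start) → Y' i = Y i) → A X Y' = A X Y)
  (τ : List (P.Cfg × P.Cfg))

open Classical in
include hlam hloc hA1 hA2 in
/-- the sum over the translates -/
theorem inner_sumG (X Y : ι → Bool) :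
    (∑ u, ∑ v, (if CC P lam b N x ζ0 ζ1 τ X Y u v then
      A (addOn (frB P lam b ζ0 ζ1 τ) X u) (addOn (frB P lam b ζ0 ζ1 τ) Y v) *
        chi (addOn (frB P lam b ζ0 ζ1 τ) X u) (addOn (frB P lam b ζ0 ζ1 τ) Y v) else 0)) ^ 2 *
      2 ^ (frB P lam b ζ0 ζ1 τ).card ≤ (((2 : ℝ) ^ Fintype.card ι) ^ 2) ^ 2 := by
  have hrect := rect P lam b N hlam false x ζ0 ζ1 hloc τ X Y
  have hAr : ∀ u v v', CC P lam b N x ζ0 ζ1 τ X Y u v → CC P lam b N x ζ0 ζ1 τ X Y u v' →
      A (addOn (frB P lam b ζ0 ζ1 τ) X u) (addOn (frB P lam b ζ0 ζ1 τ) Y v') =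
      A (addOn (frB P lam b ζ0 ζ1 τ) X u) (addOn (frB P lam b ζ0 ζ1 τ) Y v) := by
    intro u v v' h1 h2
    unfold CC at h1 h2
    apply hA2
    · rw [h1, h2]
    · intro i hi
      rw [h1] at hi
      unfold addOn
      rw [if_neg hi, if_neg hi]
  obtain ⟨S, hS⟩ : ∃ S, S = frB P lam b ζ0 ζ1 τ := ⟨_, rfl⟩
  rw [← hS] at hrect hAr ⊢
  obtain ⟨C, hC⟩ : ∃ C : (ι → Bool) → (ι → Bool) → Prop,
      C = CC P lam b N x ζ0 ζ1 τ X Y := ⟨_, rfl⟩
  rw [← hC] at hrect hAr ⊢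
  obtain ⟨A', hA'⟩ : ∃ A' : (ι → Bool) → (ι → Bool) → ℝ,
      A' = fun u v => A (addOn S X u) (addOn S Y v) := ⟨_, rfl⟩
  have hA1' : ∀ u v, |A' u v| ≤ 1 := by
    intro u v
    rw [hA']
    exact hA1 _ _
  have hrect' : ∀ u v u' v', C u v → C u' v' → C u v' ∧ A' u v' = A' u v := by
    intro u v u' v' h1 h2
    have h3 := (hrect u v u' v' h1 h2).1
    rw [hA']
    exact ⟨h3, hAr u v v' h1 h3⟩
  obtain ⟨gU, hgU⟩ : ∃ gU : (ι → Bool) → ℝ,
      gU = fun u => if h : ∃ v, C u v then A' u h.choose else 0 := ⟨_, rfl⟩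
  obtain ⟨hV, hhV⟩ : ∃ hV : (ι → Bool) → ℝ,
      hV = fun v => if ∃ u, C u v then 1 else 0 := ⟨_, rfl⟩
  have key : ∀ u v, (if C u v then A' u v else 0) = gU u * hV v := by
    intro u v
    rw [hgU, hhV]
    simp only
    by_cases h : C u v
    · have e1 : ∃ v, C u v := ⟨v, h⟩
      have e2 : ∃ u, C u v := ⟨u, h⟩
      rw [if_pos h, dif_pos e1, if_pos e2, mul_one]
      exact (hrect' u e1.choose u v e1.choose_spec h).2
    · rw [if_neg h]
      by_cases e1 : ∃ v, C u v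
      · by_cases e2 : ∃ u, C u v
        · obtain ⟨v', hv'⟩ := e1
          obtain ⟨u', hu'⟩ := e2
          exact absurd (hrect' u v' u' v hv' hu').1 h
        · rw [if_neg e2, mul_zero]
      · rw [dif_neg e1, zero_mul]
  have hgU1 : ∀ u, |gU u| ≤ 1 := by
    intro u
    rw [hgU]
    simp only
    split_ifs
    · exact hA1' _ _
    · simp
  have hhV1 : ∀ v, |hV v| ≤ 1 := by
    intro v
    rw [hhV]
    simp only
    split_ifs <;> simp
  have hL := lindsey S (fun u => gU u * (chi X Y * ∏ i ∈ S, sgb (u i && Y i)))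
    (fun v => hV v * ∏ i ∈ S, sgb (X i && v i)) (by
      intro u
      rw [abs_mul, abs_mul, chi_abs, abs_prod_sgb, mul_one, mul_one]
      exact hgU1 u) (by
      intro v
      rw [abs_mul, abs_prod_sgb, mul_one]
      exact hhV1 v)
  have e : ∀ u v, (if C u v then A (addOn S X u) (addOn S Y v) *
      chi (addOn S X u) (addOn S Y v) else 0) =
      gU u * (chi X Y * ∏ i ∈ S, sgb (u i && Y i)) * (hV v * ∏ i ∈ S, sgb (X i && v i)) *
        ∏ i ∈ S, sgb (u i && v i) := by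
    intro u v
    have h1 := key u v
    have h2 : (if C u v then A (addOn S X u) (addOn S Y v) *
        chi (addOn S X u) (addOn S Y v) else 0) =
        (if C u v then A' u v else 0) * chi (addOn S X u) (addOn S Y v) := by
      rw [hA']
      split_ifs
      · rfl
      · rw [zero_mul]
    rw [h2, h1, chi_add]
    ring
  rw [Finset.sum_congr rfl (fun u _ => Finset.sum_congr rfl (fun v _ => e u v))]
  exact hL

open Classical in
include hlam hloc hA1 hA2 in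
/-- the sum over a class -/
theorem class_sumG :
    (∑ X, ∑ Y, (if trans P lam b (x X Y) N P.start = τ then A X Y * chi X Y else 0)) ^ 2 *
      2 ^ (frB P lam b ζ0 ζ1 τ).card ≤ (((2 : ℝ) ^ Fintype.card ι) ^ 2) ^ 2 := by
  obtain ⟨S, hS⟩ : ∃ S, S = frB P lam b ζ0 ζ1 τ := ⟨_, rfl⟩
  have hin := inner_sumG P lam b N hlam x ζ0 ζ1 hloc A hA1 hA2 τ
  unfold CC at hin
  rw [← hS] at hin ⊢
  obtain ⟨M, hM⟩ : ∃ M : ℝ, M = 2 ^ Fintype.card ι := ⟨_, rfl⟩
  have hM0 : 0 < M := by rw [hM]; positivity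
  have hcard : (Fintype.card (ι → Bool) : ℝ) = M := by
    rw [Fintype.card_fun, Fintype.card_bool, hM]
    push_cast
    rfl
  rw [← hM] at hin ⊢
  obtain ⟨F, hF⟩ : ∃ F : (ι → Bool) → (ι → Bool) → ℝ, F = fun X Y =>
      (if trans P lam b (x X Y) N P.start = τ then A X Y * chi X Y else 0) := ⟨_, rfl⟩
  have hFi : ∀ X Y, (∑ u, ∑ v, F (addOn S X u) (addOn S Y v)) ^ 2 * 2 ^ S.card ≤ (M ^ 2) ^ 2 := by
    intro X Y
    rw [hF]
    convert hin X Y
  have hgoal : (∑ X, ∑ Y, F X Y) ^ 2 * 2 ^ S.card ≤ (M ^ 2) ^ 2 := by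
    obtain ⟨s, hs⟩ : ∃ s, s = ∑ X, ∑ Y, F X Y := ⟨_, rfl⟩
    rw [← hs]
    have h1 : ∀ u v, ∑ X, ∑ Y, F (addOn S X u) (addOn S Y v) = s := by
      intro u v
      rw [hs]
      rw [← Equiv.sum_comp (addE S u) (fun X => ∑ Y, F X Y)]
      apply Finset.sum_congr rfl
      intro X _
      exact Equiv.sum_comp (addE S v) (fun Y => F (addE S u X) Y)
    have h2 : ∑ z : (ι → Bool) × (ι → Bool), ∑ u, ∑ v, F (addOn S z.1 u) (addOn S z.2 v) =
        M ^ 2 * s := by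
      rw [Finset.sum_comm]
      have h3 : ∀ u ∈ (univ : Finset (ι → Bool)), ∑ z : (ι → Bool) × (ι → Bool),
          ∑ v, F (addOn S z.1 u) (addOn S z.2 v) = M * s := by
        intro u _
        rw [Finset.sum_comm]
        have h4 : ∀ v ∈ (univ : Finset (ι → Bool)), ∑ z : (ι → Bool) × (ι → Bool),
            F (addOn S z.1 u) (addOn S z.2 v) = s := by
          intro v _
          rw [Fintype.sum_prod_type]
          exact h1 u v
        rw [Finset.sum_congr rfl h4, sum_const, nsmul_eq_mul, card_univ, hcard]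
      rw [Finset.sum_congr rfl h3, sum_const, nsmul_eq_mul, card_univ, hcard]
      ring
    have h5 := sq_sum_le_card_mul_sum_sq (s := (univ : Finset ((ι → Bool) × (ι → Bool))))
      (f := fun z => ∑ u, ∑ v, F (addOn S z.1 u) (addOn S z.2 v))
    rw [h2, card_univ, Fintype.card_prod] at h5
    push_cast at h5
    rw [hcard] at h5
    have h6 : (∑ z : (ι → Bool) × (ι → Bool),
        (∑ u, ∑ v, F (addOn S z.1 u) (addOn S z.2 v)) ^ 2) * 2 ^ S.card ≤ M * M * (M ^ 2) ^ 2 := by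
      rw [Finset.sum_mul]
      calc ∑ z : (ι → Bool) × (ι → Bool),
          (∑ u, ∑ v, F (addOn S z.1 u) (addOn S z.2 v)) ^ 2 * 2 ^ S.card
          ≤ ∑ z : (ι → Bool) × (ι → Bool), (M ^ 2) ^ 2 :=
            Finset.sum_le_sum (fun z _ => hFi z.1 z.2)
        _ = M * M * (M ^ 2) ^ 2 := by
          rw [sum_const, nsmul_eq_mul, card_univ, Fintype.card_prod]
          push_cast
          rw [hcard]
    have h7 : (M ^ 2 * s) ^ 2 * 2 ^ S.card ≤ M * M * (M * M * (M ^ 2) ^ 2) := by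
      calc (M ^ 2 * s) ^ 2 * 2 ^ S.card
          ≤ (M * M * ∑ z : (ι → Bool) × (ι → Bool),
            (∑ u, ∑ v, F (addOn S z.1 u) (addOn S z.2 v)) ^ 2) * 2 ^ S.card :=
            mul_le_mul_of_nonneg_right h5 (by positivity)
        _ = M * M * ((∑ z : (ι → Bool) × (ι → Bool),
            (∑ u, ∑ v, F (addOn S z.1 u) (addOn S z.2 v)) ^ 2) * 2 ^ S.card) := by ring
        _ ≤ M * M * (M * M * (M ^ 2) ^ 2) := mul_le_mul_of_nonneg_left h6 (by positivity)
    have h8 : M ^ 4 * (s ^ 2 * 2 ^ S.card) ≤ M ^ 4 * (M ^ 2) ^ 2 := by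
      calc M ^ 4 * (s ^ 2 * 2 ^ S.card) = (M ^ 2 * s) ^ 2 * 2 ^ S.card := by ring
        _ ≤ M * M * (M * M * (M ^ 2) ^ 2) := h7
        _ = M ^ 4 * (M ^ 2) ^ 2 := by ring
    exact le_of_mul_le_mul_left h8 (by positivity)
  rw [hF] at hgoal
  exact hgoal

variable (K m2 : ℕ)
  (hm : ∀ B : Finset ℕ, B.card ≤ 3 * k * K →
    2 * m2 ≤ ((univ : Finset ι).filter (fun i => ζ1 i = b ∧ ζ0 i ∉ B)).card)

open Classical in
include hlam hloc hm hA1 hA2 in
theorem good_sumG :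
    (∑ z : (ι → Bool) × (ι → Bool), (if (trans P lam b (x z.1 z.2) N P.start).length ≤ K then
      A z.1 z.2 * chi z.1 z.2 else 0)) * 2 ^ m2
      ≤ ((Fintype.card P.Cfg : ℝ) ^ 2 + 1) ^ K * ((2 : ℝ) ^ Fintype.card ι) ^ 2 := by
  obtain ⟨M, hM⟩ : ∃ M : ℝ, M = 2 ^ Fintype.card ι := ⟨_, rfl⟩
  have hM0 : 0 < M := by rw [hM]; positivity
  obtain ⟨tr, htr⟩ : ∃ tr : (ι → Bool) × (ι → Bool) → List (P.Cfg × P.Cfg),
      tr = fun z => trans P lam b (x z.1 z.2) N P.start := ⟨_, rfl⟩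
  obtain ⟨σ, hσ⟩ : ∃ σ : (ι → Bool) × (ι → Bool) → ℝ,
      σ = fun z => A z.1 z.2 * chi z.1 z.2 := ⟨_, rfl⟩
  have hcl : ∀ τ : List (P.Cfg × P.Cfg), τ.length ≤ K →
      (∑ z, (if tr z = τ then σ z else 0)) * 2 ^ m2 ≤ M ^ 2 := by
    intro τ hτ
    have h1 := class_sumG P lam b N hlam x ζ0 ζ1 hloc A hA1 hA2 τ
    rw [← hM] at h1
    have h2 := card_frB P lam b ζ0 ζ1 K m2 hm τ hτ
    obtain ⟨s, hs⟩ : ∃ s, s = ∑ z, (if tr z = τ then σ z else 0) := ⟨_, rfl⟩
    have h3 : (∑ X, ∑ Y, (if trans P lam b (x X Y) N P.start = τ then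
        A X Y * chi X Y else 0)) = s := by
      rw [hs, Fintype.sum_prod_type, htr, hσ]
    rw [h3] at h1
    rw [← hs]
    have h4 : (s * 2 ^ m2) ^ 2 ≤ (M ^ 2) ^ 2 := by
      calc (s * 2 ^ m2) ^ 2 = s ^ 2 * 2 ^ (2 * m2) := by
            rw [mul_pow, ← pow_mul, mul_comm m2 2]
        _ ≤ s ^ 2 * 2 ^ (frB P lam b ζ0 ζ1 τ).card := by
            apply mul_le_mul_of_nonneg_left _ (sq_nonneg s)
            exact pow_le_pow_right₀ (by norm_num) h2
        _ ≤ (M ^ 2) ^ 2 := h1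
    exact (le_abs_self _).trans (abs_le_of_sq_le_sq h4 (by positivity))
  obtain ⟨G, hG⟩ : ∃ G : Finset ((ι → Bool) × (ι → Bool)),
      G = univ.filter (fun z => (tr z).length ≤ K) := ⟨_, rfl⟩
  obtain ⟨key, hkey⟩ : ∃ key : (ι → Bool) × (ι → Bool) → Fin K → Option (P.Cfg × P.Cfg),
      key = fun z (i : Fin K) => (tr z)[(i : ℕ)]? := ⟨_, rfl⟩
  have e1 : (∑ z : (ι → Bool) × (ι → Bool), (if (trans P lam b (x z.1 z.2) N P.start).length ≤ K
      then A z.1 z.2 * chi z.1 z.2 else 0)) = ∑ z ∈ G, σ z := by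
    rw [hG, Finset.sum_filter, htr, hσ]
  have e2 : ∑ z ∈ G, σ z = ∑ κ, ∑ z ∈ G.filter (fun z => key z = κ), σ z :=
    (Finset.sum_fiberwise G key σ).symm
  rw [e1, e2, Finset.sum_mul, ← hM]
  have e3 : ∀ κ ∈ (univ : Finset (Fin K → Option (P.Cfg × P.Cfg))),
      (∑ z ∈ G.filter (fun z => key z = κ), σ z) * 2 ^ m2 ≤ M ^ 2 := by
    intro κ _
    rcases (G.filter (fun z => key z = κ)).eq_empty_or_nonempty with h | ⟨z0, hz0⟩
    · rw [h, sum_empty, zero_mul]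
      positivity
    · obtain ⟨hz1, hz2⟩ := mem_filter.mp hz0
      rw [hG, mem_filter] at hz1
      have e4 : G.filter (fun z => key z = κ) = univ.filter (fun z => tr z = tr z0) := by
        ext z
        rw [hG, hkey]
        simp only [mem_filter, mem_univ, true_and]
        rw [hkey] at hz2
        simp only at hz2
        constructor
        · rintro ⟨h1, h2⟩
          exact getElem?_ext (R := K) h1 hz1.2 (h2.trans hz2.symm)
        · intro h1
          refine ⟨by rw [h1]; exact hz1.2, ?_⟩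
          rw [h1]
          exact hz2
      rw [e4, Finset.sum_filter]
      exact hcl (tr z0) hz1.2
  refine (Finset.sum_le_sum e3).trans ?_
  rw [sum_const, nsmul_eq_mul, card_univ, Fintype.card_fun, Fintype.card_fin, Fintype.card_option,
    Fintype.card_prod]
  push_cast
  rw [← pow_two]

end cls

end Pool.Agent.X240.SH
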