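import Mathlib

/-!
# Transducers with several two-way heads
-/

set_option autoImplicit false

open Finset

namespace Pool.Agent.X240.SH

/-- A nonuniform transducer with `k` two-way heads for words of length `n` over the alphabet `Λ`:
a finite set `Q` of states (a state contains everything which the transducer remembers, for example
the contents of work tapes), a first configuration, a move, and a list of entries (of any type `E`
and of any length) which is written in the step; the move and the list depend on the state, on the
positions of the heads and on the letters under the heads.  In one step each head moves by at most one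
position. -/
structure Transducer (Λ E : Type) (n k : ℕ) where
  /-- the states -/
  Q : Type
  [fin : Fintype Q]
  /-- the first state and the first positions of the heads -/
  start : Q × (Fin k → Fin n)
  /-- the move: from the state, the positions and the letters under the heads to the new state
  and the new positions -/
  move : Q → (Fin k → Fin n) → (Fin k → Λ) → Q × (Fin k → Fin n)
  /-- the entries which are written in the step -/
  write : Q → (Fin k → Fin n) → (Fin k → Λ) → List E
  /-- the heads are slow -/
  slow : ∀ q p l i, ((move q p l).2 i : ℕ) ≤ (p i : ℕ) + 1 ∧ (p i : ℕ) ≤ ((move q p l).2 i : ℕ) + 1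

attribute [instance] Transducer.fin

variable {Λ E : Type} {n k : ℕ}

/-- One step on the word `x`. -/
def Transducer.step (R : Transducer Λ E n k) (x : Fin n → Λ) (c : R.Q × (Fin k → Fin n)) :
    R.Q × (Fin k → Fin n) :=
  R.move c.1 c.2 (fun i => x (c.2 i))

/-- The entries which are written on the word `x` in the step from the configuration `c`. -/
def Transducer.written (R : Transducer Λ E n k) (x : Fin n → Λ) (c : R.Q × (Fin k → Fin n)) :
    List E :=
  R.write c.1 c.2 (fun i => x (c.2 i))

/-- The output on the word `x` in the first `T` steps: the entries which are written in the step
`t < T`. -/
def Transducer.output (R : Transducer Λ E n k) (T : ℕ) (x : Fin n → Λ) (t : Fin T) : List E :=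
  R.written x ((R.step x)^[t] R.start)

open Classical in
/-- The probability that the output has the property `C`, if the transducer `R ω` is chosen with
probability `p ω`. -/
noncomputable def probOut {Ω : Type} [Fintype Ω] (p : Ω → ℝ) (R : Ω → Transducer Λ E n k) (T : ℕ)
    (x : Fin n → Λ) (C : (Fin T → List E) → Prop) : ℝ :=
  ∑ ω, if C ((R ω).output T x) then p ω else 0

/-- The adjacency matrix of a directed graph with `V` vertices as a word, row by row. -/
def gword (V : ℕ) (a : Fin V → Fin V → Bool) (p : Fin (V * V)) : Bool :=
  a p.divNat p.modNat

/-- The number of the cycles of length two of a directed graph. -/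
def twoCycles {V : ℕ} (a : Fin V → Fin V → Bool) : ℕ :=
  ((univ : Finset (Fin V × Fin V)).filter
    (fun e => e.1 < e.2 ∧ a e.1 e.2 = true ∧ a e.2 e.1 = true)).card

end Pool.Agent.X240.SH
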