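import Pool.Agent.X240.SH.GapE
import Pool.Agent.X240.SH.TrDefs

/-!
# Slow heads: transducers and gap problems, the engine
-/

set_option autoImplicit false

open Finset

namespace Pool.Agent.X240.SH

open Pool.Agent.TH457.HT

section windows

variable {Λ : Type} {n k : ℕ}

/-- Words which differ only in the zone `b` and have the same transcript have the same windows. -/
theorem trans_windows (P : DetProg Λ n k) (lam b : ℕ) (x y : Fin n → Λ)
    (hxy : ∀ p : Fin n, (p : ℕ) / lam ≠ b → y p = x p) :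
    ∀ N c, trans P lam b y N c = trans P lam b x N c → ∀ j < N,
      (win P lam y)^[j] c = (win P lam x)^[j] c ∧
      (hit P lam b y ((win P lam x)^[j] c) ↔ hit P lam b x ((win P lam x)^[j] c)) := by
  intro N
  induction N with
  | zero => intro c _ j hj; omega
  | succ N ih =>
    intro c ht j hj
    simp only [trans] at ht
    have h0 : (hit P lam b y c ↔ hit P lam b x c) ∧ win P lam y c = win P lam x c ∧
        trans P lam b y N (win P lam y c) = trans P lam b x N (win P lam x c) := by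
      by_cases hx : hit P lam b x c
      · rw [if_pos hx] at ht
        by_cases hy : hit P lam b y c
        · rw [if_pos hy] at ht
          rw [List.cons.injEq, Prod.mk.injEq] at ht
          exact ⟨⟨fun _ => hx, fun _ => hy⟩, ht.1.2, ht.2⟩
        · exfalso
          have h2 := iter_off P lam b y x c (fun p hp => (hxy p hp).symm) hy
          exact hy ((hit_congr P lam b y x c h2).mp hx)
      · rw [if_neg hx] at ht
        have h2 := iter_off P lam b x y c hxy hx
        have hy : ¬ hit P lam b y c := fun h => hx ((hit_congr P lam b x y c h2).mp h)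
        rw [if_neg hy] at ht
        exact ⟨⟨fun h => absurd h hy, fun h => absurd h hx⟩, h2 lam le_rfl, ht⟩
    obtain ⟨h1, h2, h3⟩ := h0
    rw [h2] at h3
    cases j with
    | zero => exact ⟨rfl, h1⟩
    | succ j =>
      rw [Function.iterate_succ_apply, Function.iterate_succ_apply, h2]
      exact ih (win P lam x c) h3 j (by omega)

end windows

variable {Λ E : Type} {n k : ℕ}

/-- the transducer as a program without answers -/
abbrev toDet (R : Transducer Λ E n k) : DetProg Λ n k where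
  Q := R.Q
  start := R.start
  move := R.move
  out := fun _ _ => none
  slow := R.slow

theorem idle_toDet (R : Transducer Λ E n k) (x : Fin n → Λ) : idle (toDet R) x = R.step x := by
  funext c
  unfold idle
  rw [if_pos rfl]
  rfl

open Classical in
/-- the times at which the zone `b` is visited in the window -/
noncomputable def vis (R : Transducer Λ E n k) (lam b T : ℕ) (x : Fin n → Λ) : Finset (Fin T) :=
  univ.filter (fun t : Fin T =>
    hit (toDet R) lam b x ((win (toDet R) lam x)^[(t : ℕ) / lam] (toDet R).start))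

theorem output_eq (R : Transducer Λ E n k) (lam T : ℕ) (x : Fin n → Λ) (t : Fin T) :
    R.output T x t = R.written x ((R.step x)^[(t : ℕ) % lam]
      ((win (toDet R) lam x)^[(t : ℕ) / lam] (toDet R).start)) := by
  unfold Transducer.output
  congr 1
  have h1 : (win (toDet R) lam x)^[(t : ℕ) / lam] (toDet R).start =
      (R.step x)^[lam * ((t : ℕ) / lam)] R.start := by
    unfold win
    rw [← Function.iterate_mul, idle_toDet]
  rw [h1, ← Function.iterate_add_apply]
  congr 2
  rw [add_comm]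
  exact (Nat.div_add_mod _ _).symm

/-- the outputs agree outside of the visits -/
theorem output_off (R : Transducer Λ E n k) (lam b N T : ℕ) (hlam : 0 < lam) (hT : T ≤ N * lam)
    (x y : Fin n → Λ) (hxy : ∀ p : Fin n, (p : ℕ) / lam ≠ b → y p = x p)
    (ht : trans (toDet R) lam b y N (toDet R).start = trans (toDet R) lam b x N (toDet R).start) :
    vis R lam b T y = vis R lam b T x ∧
      ∀ t, t ∉ vis R lam b T x → R.output T y t = R.output T x t := by
  have hw := trans_windows (toDet R) lam b x y hxy N (toDet R).start ht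
  have hj : ∀ t : Fin T, (t : ℕ) / lam < N := by
    intro t
    apply Nat.div_lt_of_lt_mul
    rw [mul_comm]
    exact lt_of_lt_of_le t.2 hT
  constructor
  · ext t
    unfold vis
    simp only [mem_filter, mem_univ, true_and]
    obtain ⟨h1, h2⟩ := hw _ (hj t)
    rw [h1]
    exact h2
  · intro t htn
    rw [output_eq R lam T y t, output_eq R lam T x t]
    obtain ⟨h1, h2⟩ := hw _ (hj t)
    rw [h1]
    obtain ⟨c, hc⟩ : ∃ c, c = (win (toDet R) lam x)^[(t : ℕ) / lam] (toDet R).start := ⟨_, rfl⟩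
    have hnh : ¬ hit (toDet R) lam b x c := by
      intro h
      apply htn
      unfold vis
      simp only [mem_filter, mem_univ, true_and]
      rw [← hc]
      exact h
    have h3 := iter_off (toDet R) lam b x y c hxy hnh ((t : ℕ) % lam) (Nat.mod_lt _ hlam).le
    rw [idle_toDet, idle_toDet] at h3
    rw [← hc, h3]
    unfold Transducer.written
    congr 1
    funext i
    apply hxy
    intro hb
    apply hnh
    refine ⟨(t : ℕ) % lam, Nat.mod_lt _ hlam, rfl, i, ?_⟩
    rw [idle_toDet]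
    exact hb

/-- the sum of the weights of the visits -/
theorem sum_vis (R : Transducer Λ E n k) (lam D T : ℕ) (hlam : 0 < lam) (x : Fin n → Λ)
    (Z : Finset (Fin D)) (w : Fin T → ℝ) (hw : ∀ t, 0 ≤ w t) :
    ∑ b ∈ Z, ∑ t ∈ vis R lam (b : ℕ) T x, w t ≤ 3 * k * ∑ t, w t := by
  classical
  have h1 : ∀ b ∈ Z, ∑ t ∈ vis R lam (b : ℕ) T x, w t =
      ∑ t : Fin T, (if hit (toDet R) lam b x
        ((win (toDet R) lam x)^[(t : ℕ) / lam] (toDet R).start) then w t else 0) := by
    intro b _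
    unfold vis
    rw [Finset.sum_filter]
  rw [Finset.sum_congr rfl h1, Finset.sum_comm, mul_sum]
  apply Finset.sum_le_sum
  intro t _
  obtain ⟨c, hc⟩ : ∃ c, c = (win (toDet R) lam x)^[(t : ℕ) / lam] (toDet R).start := ⟨_, rfl⟩
  rw [← hc, ← Finset.sum_filter, sum_const, nsmul_eq_mul]
  have h3 := card_near (toDet R) lam D c (Z.filter (fun b : Fin D => hit (toDet R) lam b x c)) (by
    intro z hz
    obtain ⟨s, hs, -, h, hh⟩ := (mem_filter.mp hz).2
    exact near_of_hit (toDet R) lam z hlam x c s hs h hh)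
  have h4 : (((Z.filter (fun b : Fin D => hit (toDet R) lam b x c)).card : ℕ) : ℝ) ≤ 3 * k := by
    exact_mod_cast h3
  exact mul_le_mul_of_nonneg_right h4 (hw t)

/-- the number of the zones whose visits are heavy -/
theorem card_heavy (R : Transducer Λ E n k) (lam D T m : ℕ) (hlam : 0 < lam) (x : Fin n → Λ)
    (Z : Finset (Fin D)) (w : Fin T → ℝ) (hw : ∀ t, 0 ≤ w t) (F : Finset (Fin D)) (hF : F ⊆ Z)
    (hh : ∀ b ∈ F, ∑ t, w t < m * ∑ t ∈ vis R lam (b : ℕ) T x, w t) : F.card ≤ 3 * k * m := by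
  classical
  obtain ⟨W, hW⟩ : ∃ W, W = ∑ t, w t := ⟨_, rfl⟩
  have hW0 : 0 ≤ W := by rw [hW]; exact Finset.sum_nonneg (fun t _ => hw t)
  rw [← hW] at hh
  have h1 : (F.card : ℝ) * W ≤ 3 * k * m * W := by
    calc (F.card : ℝ) * W = ∑ b ∈ F, W := by rw [sum_const, nsmul_eq_mul]
      _ ≤ ∑ b ∈ F, m * ∑ t ∈ vis R lam (b : ℕ) T x, w t := Finset.sum_le_sum (fun b hb => (hh b hb).le)
      _ = m * ∑ b ∈ F, ∑ t ∈ vis R lam (b : ℕ) T x, w t := by rw [mul_sum]
      _ ≤ m * ∑ b ∈ Z, ∑ t ∈ vis R lam (b : ℕ) T x, w t := by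
          apply mul_le_mul_of_nonneg_left _ (Nat.cast_nonneg m)
          apply Finset.sum_le_sum_of_subset_of_nonneg hF
          intro b _ _
          exact Finset.sum_nonneg (fun t _ => hw t)
      _ ≤ m * (3 * k * W) := by
          rw [hW]
          exact mul_le_mul_of_nonneg_left (sum_vis R lam D T hlam x Z w hw) (Nat.cast_nonneg m)
      _ = 3 * k * m * W := by ring
  rcases hW0.eq_or_lt with h | h
  · rcases F.eq_empty_or_nonempty with h2 | ⟨b, hb⟩
    · rw [h2, card_empty]
      exact Nat.zero_le _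
    · exfalso
      have h3 := hh b hb
      have h4 : ∑ t ∈ vis R lam (b : ℕ) T x, w t ≤ W := by
        rw [hW]
        exact Finset.sum_le_sum_of_subset_of_nonneg (subset_univ _) (fun t _ _ => hw t)
      have h5 : (m : ℝ) * ∑ t ∈ vis R lam (b : ℕ) T x, w t ≤ 0 := by
        rw [← h] at h4
        exact mul_nonpos_of_nonneg_of_nonpos (Nat.cast_nonneg m) h4
      linarith
  · have h2 := le_of_mul_le_mul_right h1 h
    exact_mod_cast h2

variable {ι : Type} [Fintype ι] [DecidableEq ι]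

open Classical in
/-- deterministic transducers -/
theorem tr_count (R : Transducer Λ E n k) (lam D N T K S m2 m : ℕ) (hlam : 0 < lam) (c0 : Bool)
    (hT : T ≤ N * lam)
    (x : (ι → Bool) → (ι → Bool) → Fin n → Λ) (ζ0 ζ1 : ι → ℕ)
    (hloc : ∀ X X' Y Y', ∀ p : Fin n, (∀ i, ζ0 i = (p : ℕ) / lam → X i = X' i) →
      (∀ i, ζ1 i = (p : ℕ) / lam → Y i = Y' i) → x X Y p = x X' Y' p)
    (right : (ι → Bool) → (ι → Bool) → Bool)
    (hright : ∀ X Y, sgb (xor c0 (right X Y)) = chi X Y)
    (Yes No : (Fin T → List E) → Prop) (w : (Fin T → List E) → Fin T → ℝ) (hw : ∀ y t, 0 ≤ w y t)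
    (gap : ∀ y z : Fin T → List E, ∀ J : Finset (Fin T), (∀ t, t ∉ J → y t = z t) →
      m * ∑ t ∈ J, w y t ≤ ∑ t, w y t → m * ∑ t ∈ J, w z t ≤ ∑ t, w z t → Yes y → No z → False)
    (Z1 : Finset (Fin D)) (hne : 0 < Z1.card) (hK1 : 24 * k * N ≤ (K + 1) * Z1.card)
    (hm1 : 48 * k * m ≤ Z1.card)
    (hm : ∀ b ∈ Z1, ∀ B : Finset ℕ, B.card ≤ 3 * k * K →
      2 * m2 ≤ ((univ : Finset ι).filter (fun i => ζ1 i = (b : ℕ) ∧ ζ0 i ∉ B)).card)
    (hS : Fintype.card (R.Q × (Fin k → Fin n)) + 1 ≤ 2 ^ S) (hm2 : 2 * S * K + 3 ≤ m2) :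
    ((((univ : Finset ((ι → Bool) × (ι → Bool))).filter
      (fun z => (right z.1 z.2 = true → Yes (R.output T (x z.1 z.2))) ∧
        (right z.1 z.2 = false → No (R.output T (x z.1 z.2))))).card : ℕ) : ℝ) * 14 ≤
      9 * ((2 : ℝ) ^ Fintype.card ι) ^ 2 := by
  obtain ⟨P, hP⟩ : ∃ P, P = toDet R := ⟨_, rfl⟩
  have hSP : Fintype.card P.Cfg + 1 ≤ 2 ^ S := by rw [hP]; exact hS
  obtain ⟨M, hM⟩ : ∃ M : ℝ, M = 2 ^ Fintype.card ι := ⟨_, rfl⟩
  have hM0 : 0 < M := by rw [hM]; positivity
  rw [← hM]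
  obtain ⟨Cor, hCor⟩ : ∃ Cor : (ι → Bool) → (ι → Bool) → Prop, Cor = fun X Y =>
      (right X Y = true → Yes (R.output T (x X Y))) ∧
        (right X Y = false → No (R.output T (x X Y))) := ⟨_, rfl⟩
  obtain ⟨Rt, hRt⟩ : ∃ Rt : Finset ((ι → Bool) × (ι → Bool)),
      Rt = univ.filter (fun z => Cor z.1 z.2) := ⟨_, rfl⟩
  have hRt' : (univ : Finset ((ι → Bool) × (ι → Bool))).filter
      (fun z => (right z.1 z.2 = true → Yes (R.output T (x z.1 z.2))) ∧
        (right z.1 z.2 = false → No (R.output T (x z.1 z.2)))) = Rt := by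
    rw [hRt]
    ext z
    rw [hCor]
    simp only [mem_filter, mem_univ, true_and]
  rw [hRt']
  obtain ⟨tr, htr⟩ : ∃ tr : ℕ → (ι → Bool) → (ι → Bool) → List (P.Cfg × P.Cfg),
      tr = fun b X Y => trans P lam b (x X Y) N P.start := ⟨_, rfl⟩
  obtain ⟨light, hlight⟩ : ∃ light : ℕ → (ι → Bool) → (ι → Bool) → Prop, light = fun b X Y =>
      m * ∑ t ∈ vis R lam b T (x X Y), w (R.output T (x X Y)) t ≤
        ∑ t, w (R.output T (x X Y)) t := ⟨_, rfl⟩
  -- the prediction
  obtain ⟨A, hA⟩ : ∃ A : ℕ → (ι → Bool) → (ι → Bool) → ℝ, A = fun b X Y =>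
      if ∃ Y', (∀ i, i ∉ frB P lam b ζ0 ζ1 (tr b X Y) → Y' i = Y i) ∧ tr b X Y' = tr b X Y ∧
        Cor X Y' ∧ light b X Y' ∧ chi X Y' = 1 then 1 else -1 := ⟨_, rfl⟩
  have hA1 : ∀ b X Y, |A b X Y| ≤ 1 := by
    intro b X Y
    rw [hA]
    simp only
    split_ifs <;> simp
  have hA2 : ∀ b X Y Y', tr b X Y' = tr b X Y →
      (∀ i, i ∉ frB P lam b ζ0 ζ1 (tr b X Y) → Y' i = Y i) → A b X Y' = A b X Y := by
    intro b X Y Y' h1 h2
    rw [hA]
    simp only
    rw [h1]
    apply if_congr _ rfl rfl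
    constructor
    · rintro ⟨Y2, h3, h4⟩
      exact ⟨Y2, fun i hi => (h3 i hi).trans (h2 i hi), h4⟩
    · rintro ⟨Y2, h3, h4⟩
      exact ⟨Y2, fun i hi => (h3 i hi).trans (h2 i hi).symm, h4⟩
  have hA3 : ∀ b X Y, Cor X Y → light b X Y → A b X Y * chi X Y = 1 := by
    intro b X Y hc hl
    rcases (abs_eq (by norm_num : (0 : ℝ) ≤ 1)).mp (chi_abs X Y) with h1 | h1
    · have h2 : A b X Y = 1 := by
        rw [hA]
        simp only
        rw [if_pos ⟨Y, fun i _ => rfl, rfl, hc, hl, h1⟩]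
      rw [h2, h1, mul_one]
    · have h2 : A b X Y = -1 := by
        rw [hA]
        simp only
        rw [if_neg]
        rintro ⟨Y', h3, h4, h5, h6, h7⟩
        have hoff : ∀ p : Fin n, (p : ℕ) / lam ≠ b → x X Y' p = x X Y p := by
          intro p hp
          apply hloc
          · intro i _
            rfl
          · intro i hi
            apply h3
            unfold frB
            simp only [mem_filter, mem_univ, true_and, not_and]
            intro h8
            exact absurd (hi.symm.trans h8) hp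
        obtain ⟨h8, h9⟩ := output_off R lam b N T hlam hT (x X Y) (x X Y') hoff (by
          rw [htr, hP] at h4
          exact h4)
        rw [hlight] at hl h6
        rw [h8] at h6
        rw [hCor] at hc h5
        have h10 : right X Y' ≠ right X Y := by
          intro h
          have e1 := hright X Y
          have e2 := hright X Y'
          rw [h, e1, h1, h7] at e2
          norm_num at e2
        cases hr : right X Y with
        | true =>
          rw [hr] at h10
          have h11 : right X Y' = false := by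
            cases h : right X Y' with
            | true => exact absurd h h10
            | false => rfl
          exact gap _ _ (vis R lam b T (x X Y)) (fun t ht => (h9 t ht).symm) hl h6 (hc.1 hr)
            (h5.2 h11)
        | false =>
          rw [hr] at h10
          have h11 : right X Y' = true := by
            cases h : right X Y' with
            | true => rfl
            | false => exact absurd h h10
          exact gap _ _ (vis R lam b T (x X Y)) h9 h6 hl (h5.1 h11) (hc.2 hr)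
      rw [h2, h1]
      norm_num
  obtain ⟨σ, hσ⟩ : ∃ σ : ℕ → (ι → Bool) × (ι → Bool) → ℝ,
      σ = fun b z => A b z.1 z.2 * chi z.1 z.2 := ⟨_, rfl⟩
  obtain ⟨len, hlen⟩ : ∃ len : Fin D → (ι → Bool) × (ι → Bool) → ℕ,
      len = fun (b : Fin D) (z : (ι → Bool) × (ι → Bool)) => (tr (b : ℕ) z.1 z.2).length :=
    ⟨_, rfl⟩
  have hσ1 : ∀ b z, |σ b z| ≤ 1 := by
    intro b z
    rw [hσ]
    simp only
    rw [abs_mul, chi_abs, mul_one]
    exact hA1 _ _ _
  -- every zone
  have hE : ∀ b ∈ Z1, ∑ z, (if len b z ≤ K then σ b z else 0) ≤ M ^ 2 / 8 := by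
    intro b hb
    have h1 := good_sumG P lam b N hlam x ζ0 ζ1 hloc (A b) (hA1 b) (by
      intro X Y Y' h1 h2
      apply hA2
      · rw [htr]
        exact h1
      · rw [htr]
        exact h2) K m2 (hm b hb)
    rw [← hM] at h1
    obtain ⟨E, hE⟩ : ∃ E : ℝ, E = ∑ z, (if len b z ≤ K then σ b z else 0) := ⟨_, rfl⟩
    have h2 : (∑ z : (ι → Bool) × (ι → Bool),
        (if (trans P lam b (x z.1 z.2) N P.start).length ≤ K then
        A b z.1 z.2 * chi z.1 z.2 else 0)) = E := by
      rw [hE, hlen, hσ, htr]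
    rw [h2] at h1
    rw [← hE]
    have h3 : ((Fintype.card P.Cfg : ℝ) ^ 2 + 1) ^ K ≤ 2 ^ (2 * S * K) := by
      have h4 : (Fintype.card P.Cfg : ℝ) ^ 2 + 1 ≤ 2 ^ (2 * S) := by
        have h5 : ((Fintype.card P.Cfg : ℝ) + 1) ≤ 2 ^ S := by exact_mod_cast hSP
        have h6 : (0 : ℝ) ≤ (Fintype.card P.Cfg : ℝ) := Nat.cast_nonneg _
        calc (Fintype.card P.Cfg : ℝ) ^ 2 + 1 ≤ ((Fintype.card P.Cfg : ℝ) + 1) ^ 2 := by nlinarith
          _ ≤ (2 ^ S) ^ 2 := pow_le_pow_left₀ (by positivity) h5 2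
          _ = 2 ^ (2 * S) := by rw [← pow_mul, mul_comm]
      calc ((Fintype.card P.Cfg : ℝ) ^ 2 + 1) ^ K ≤ (2 ^ (2 * S)) ^ K :=
            pow_le_pow_left₀ (by positivity) h4 K
        _ = 2 ^ (2 * S * K) := by rw [← pow_mul]
    by_contra hcon
    push Not at hcon
    have hEpos : 0 < E := lt_of_le_of_lt (by positivity) hcon
    have h7 : E * (2 ^ (2 * S * K) * 8) ≤ 2 ^ (2 * S * K) * M ^ 2 := by
      calc E * (2 ^ (2 * S * K) * 8) = E * 2 ^ (2 * S * K + 3) := by
            rw [pow_add]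
            norm_num
        _ ≤ E * 2 ^ m2 := mul_le_mul_of_nonneg_left
            (pow_le_pow_right₀ (by norm_num) hm2) hEpos.le
        _ ≤ ((Fintype.card P.Cfg : ℝ) ^ 2 + 1) ^ K * M ^ 2 := h1
        _ ≤ 2 ^ (2 * S * K) * M ^ 2 := mul_le_mul_of_nonneg_right h3 (by positivity)
    have h8 : (0 : ℝ) < 2 ^ (2 * S * K) := by positivity
    have h9 : 2 ^ (2 * S * K) * (E * 8) ≤ 2 ^ (2 * S * K) * M ^ 2 := by
      calc 2 ^ (2 * S * K) * (E * 8) = E * (2 ^ (2 * S * K) * 8) := by ring
        _ ≤ _ := h7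
    have h10 := le_of_mul_le_mul_left h9 h8
    linarith
  -- every input: the transcripts are short
  have hgood : ∀ z, 7 * Z1.card ≤ 8 * (Z1.filter (fun b => len b z ≤ K)).card := by
    intro z
    have h1 := sum_length P lam D hlam (x z.1 z.2) Z1 N P.start
    have h2 : (K + 1) * (Z1.filter (fun b => ¬ len b z ≤ K)).card ≤ N * (3 * k) := by
      calc (K + 1) * (Z1.filter (fun b => ¬ len b z ≤ K)).card
          = ∑ b ∈ Z1.filter (fun b => ¬ len b z ≤ K), (K + 1) := by
            rw [sum_const, smul_eq_mul, mul_comm]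
        _ ≤ ∑ b ∈ Z1.filter (fun b => ¬ len b z ≤ K), len b z := by
            apply Finset.sum_le_sum
            intro b hb
            have := (mem_filter.mp hb).2
            omega
        _ ≤ ∑ b ∈ Z1, len b z :=
            Finset.sum_le_sum_of_subset (filter_subset _ _)
        _ ≤ N * (3 * k) := by
            rw [hlen, htr]
            exact h1
    have h3 : (K + 1) * (8 * (Z1.filter (fun b => ¬ len b z ≤ K)).card) ≤ (K + 1) * Z1.card := by
      calc (K + 1) * (8 * (Z1.filter (fun b => ¬ len b z ≤ K)).card)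
          = 8 * ((K + 1) * (Z1.filter (fun b => ¬ len b z ≤ K)).card) := by ring
        _ ≤ 8 * (N * (3 * k)) := Nat.mul_le_mul_left _ h2
        _ = 24 * k * N := by ring
        _ ≤ (K + 1) * Z1.card := hK1
    have h4 := Nat.le_of_mul_le_mul_left h3 (Nat.succ_pos K)
    have h5 := Finset.card_filter_add_card_filter_not (s := Z1) (fun b => len b z ≤ K)
    omega
  -- every input: the visits are light
  have hheavy : ∀ z : (ι → Bool) × (ι → Bool),
      16 * (Z1.filter (fun b : Fin D => ¬ light (b : ℕ) z.1 z.2)).card ≤ Z1.card := by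
    intro z
    have h1 := card_heavy R lam D T m hlam (x z.1 z.2) Z1 (w (R.output T (x z.1 z.2)))
      (hw _) (Z1.filter (fun b : Fin D => ¬ light (b : ℕ) z.1 z.2)) (filter_subset _ _) (by
        intro b hb
        have h2 := (mem_filter.mp hb).2
        rw [hlight] at h2
        exact not_le.mp h2)
    calc 16 * (Z1.filter (fun b : Fin D => ¬ light (b : ℕ) z.1 z.2)).card ≤ 16 * (3 * k * m) :=
          Nat.mul_le_mul_left _ h1
      _ = 48 * k * m := by ring
      _ ≤ Z1.card := hm1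
  have hpt : ∀ (b : Fin D) z, (if len b z ≤ K then (if z ∈ Rt then (1 : ℝ) else 0) else 0) ≤
      (if len b z ≤ K then σ b z else 0) +
        (if z ∈ Rt then (if light (b : ℕ) z.1 z.2 then 0 else 2) else 1) := by
    intro b z
    have h1 := abs_le.mp (hσ1 b z)
    by_cases h2 : len b z ≤ K
    · rw [if_pos h2, if_pos h2]
      by_cases h3 : z ∈ Rt
      · rw [if_pos h3, if_pos h3]
        by_cases h4 : light (b : ℕ) z.1 z.2
        · rw [if_pos h4, add_zero]
          have h5 : Cor z.1 z.2 := by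
            rw [hRt] at h3
            exact (mem_filter.mp h3).2
          have h6 := hA3 b z.1 z.2 h5 h4
          rw [hσ]
          simp only
          rw [h6]
        · rw [if_neg h4]
          linarith [h1.1]
      · rw [if_neg h3, if_neg h3]
        linarith [h1.1]
    · rw [if_neg h2, if_neg h2, zero_add]
      split_ifs <;> norm_num
  have hcardV : (((univ : Finset ((ι → Bool) × (ι → Bool))).card : ℕ) : ℝ) = M ^ 2 := by
    rw [card_univ, Fintype.card_prod, Fintype.card_fun, Fintype.card_bool, hM]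
    push_cast
    ring
  have hcomp : ∑ z : (ι → Bool) × (ι → Bool), (if z ∈ Rt then (0 : ℝ) else 1) =
      M ^ 2 - Rt.card := by
    have h1 : ∀ z ∈ (univ : Finset ((ι → Bool) × (ι → Bool))),
        (if z ∈ Rt then (0 : ℝ) else 1) = 1 - (if z ∈ Rt then (1 : ℝ) else 0) := by
      intro z _
      split_ifs <;> norm_num
    rw [Finset.sum_congr rfl h1, Finset.sum_sub_distrib, sum_const, nsmul_eq_mul, mul_one, hcardV,
      Finset.sum_ite_mem, univ_inter, sum_const, nsmul_eq_mul, mul_one]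
  -- the heavy visits
  have hsumh : ∑ b ∈ Z1, ∑ z : (ι → Bool) × (ι → Bool),
      (if z ∈ Rt then (if light (b : ℕ) z.1 z.2 then (0 : ℝ) else 2) else 1) ≤
      Z1.card * (Rt.card / 8 + (M ^ 2 - Rt.card)) := by
    rw [Finset.sum_comm]
    have h1 : ∀ z ∈ (univ : Finset ((ι → Bool) × (ι → Bool))), ∑ b ∈ Z1,
        (if z ∈ Rt then (if light (b : ℕ) z.1 z.2 then (0 : ℝ) else 2) else 1) ≤
        Z1.card * ((if z ∈ Rt then (1 : ℝ) else 0) / 8 + (if z ∈ Rt then (0 : ℝ) else 1)) := by
      intro z _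
      by_cases hz : z ∈ Rt
      · simp only [if_pos hz]
        have h2 : ∑ b ∈ Z1, (if light (b : ℕ) z.1 z.2 then (0 : ℝ) else 2) =
            2 * ((Z1.filter (fun b : Fin D => ¬ light (b : ℕ) z.1 z.2)).card : ℝ) := by
          have h3 : ∀ b ∈ Z1, (if light (b : ℕ) z.1 z.2 then (0 : ℝ) else 2) =
              (if ¬ light (b : ℕ) z.1 z.2 then (2 : ℝ) else 0) := by
            intro b _
            by_cases hl : light (b : ℕ) z.1 z.2
            · rw [if_pos hl, if_neg (not_not.mpr hl)]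
            · rw [if_neg hl, if_pos hl]
          rw [Finset.sum_congr rfl h3, ← Finset.sum_filter, sum_const, nsmul_eq_mul, mul_comm]
        rw [h2]
        have h4 : ((16 * (Z1.filter (fun b : Fin D => ¬ light (b : ℕ) z.1 z.2)).card : ℕ) : ℝ) ≤
            ((Z1.card : ℕ) : ℝ) := by
          exact_mod_cast hheavy z
        push_cast at h4
        linarith
      · simp only [if_neg hz]
        rw [sum_const, nsmul_eq_mul]
        norm_num
    refine (Finset.sum_le_sum h1).trans (le_of_eq ?_)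
    rw [← mul_sum, Finset.sum_add_distrib, ← Finset.sum_div, hcomp, Finset.sum_ite_mem, univ_inter,
      sum_const, nsmul_eq_mul, mul_one]
  have hup : ∑ b ∈ Z1, ∑ z, (if len b z ≤ K then (if z ∈ Rt then (1 : ℝ) else 0) else 0) ≤
      Z1.card * (M ^ 2 / 8) + Z1.card * (Rt.card / 8 + (M ^ 2 - Rt.card)) := by
    calc ∑ b ∈ Z1, ∑ z, (if len b z ≤ K then (if z ∈ Rt then (1 : ℝ) else 0) else 0)
        ≤ ∑ b ∈ Z1, (∑ z, (if len b z ≤ K then σ b z else 0) +
          ∑ z : (ι → Bool) × (ι → Bool),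
            (if z ∈ Rt then (if light (b : ℕ) z.1 z.2 then (0 : ℝ) else 2) else 1)) := by
          apply Finset.sum_le_sum
          intro b _
          rw [← Finset.sum_add_distrib]
          exact Finset.sum_le_sum (fun z _ => hpt b z)
      _ = ∑ b ∈ Z1, ∑ z, (if len b z ≤ K then σ b z else 0) + ∑ b ∈ Z1,
          ∑ z : (ι → Bool) × (ι → Bool),
            (if z ∈ Rt then (if light (b : ℕ) z.1 z.2 then (0 : ℝ) else 2) else 1) := by
          rw [Finset.sum_add_distrib]
      _ ≤ Z1.card * (M ^ 2 / 8) + Z1.card * (Rt.card / 8 + (M ^ 2 - Rt.card)) := by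
          apply add_le_add _ hsumh
          calc ∑ b ∈ Z1, ∑ z, (if len b z ≤ K then σ b z else 0) ≤ ∑ b ∈ Z1, M ^ 2 / 8 :=
                Finset.sum_le_sum hE
            _ = Z1.card * (M ^ 2 / 8) := by rw [sum_const, nsmul_eq_mul]
  have hlow : (7 : ℝ) / 8 * Z1.card * Rt.card ≤
      ∑ b ∈ Z1, ∑ z, (if len b z ≤ K then (if z ∈ Rt then (1 : ℝ) else 0) else 0) := by
    rw [Finset.sum_comm]
    have h1 : ∀ z, (if z ∈ Rt then (7 : ℝ) / 8 * Z1.card else 0) ≤
        ∑ b ∈ Z1, (if len b z ≤ K then (if z ∈ Rt then (1 : ℝ) else 0) else 0) := by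
      intro z
      split_ifs with hz
      · have h2 : ∑ b ∈ Z1, (if len b z ≤ K then (1 : ℝ) else 0) =
            ((Z1.filter (fun b => len b z ≤ K)).card : ℝ) := by
          rw [← Finset.sum_filter, sum_const, nsmul_eq_mul, mul_one]
        rw [h2]
        have h3 : ((7 * Z1.card : ℕ) : ℝ) ≤ ((8 * (Z1.filter (fun b => len b z ≤ K)).card : ℕ) : ℝ) :=
          by exact_mod_cast hgood z
        push_cast at h3
        linarith
      · apply Finset.sum_nonneg
        intro b _
        split_ifs <;> norm_num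
    calc (7 : ℝ) / 8 * Z1.card * Rt.card = ∑ z, (if z ∈ Rt then (7 : ℝ) / 8 * Z1.card else 0) := by
          rw [Finset.sum_ite_mem, univ_inter, sum_const, nsmul_eq_mul]
          ring
      _ ≤ _ := Finset.sum_le_sum (fun z _ => h1 z)
  have hZ : (0 : ℝ) < Z1.card := by exact_mod_cast hne
  have h1 := hlow.trans hup
  have h2 : (Z1.card : ℝ) * (7 / 8 * Rt.card) ≤
      Z1.card * (M ^ 2 / 8 + (Rt.card / 8 + (M ^ 2 - Rt.card))) := by
    calc (Z1.card : ℝ) * (7 / 8 * Rt.card) = 7 / 8 * Z1.card * Rt.card := by ring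
      _ ≤ _ := h1
      _ = _ := by ring
  have h3 := le_of_mul_le_mul_left h2 hZ
  linarith

open Classical in
/-- **The engine.** -/
theorem engineTr {Ω : Type} [Fintype Ω] (p : Ω → ℝ) (hp : ∀ ω, 0 ≤ p ω) (hp1 : ∑ ω, p ω = 1)
    (R : Ω → Transducer Λ E n k) (lam D N T K S m2 m : ℕ) (hlam : 0 < lam) (c0 : Bool)
    (hT : T ≤ N * lam)
    (x : (ι → Bool) → (ι → Bool) → Fin n → Λ) (ζ0 ζ1 : ι → ℕ)
    (hloc : ∀ X X' Y Y', ∀ p : Fin n, (∀ i, ζ0 i = (p : ℕ) / lam → X i = X' i) →
      (∀ i, ζ1 i = (p : ℕ) / lam → Y i = Y' i) → x X Y p = x X' Y' p)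
    (right : (ι → Bool) → (ι → Bool) → Bool)
    (hright : ∀ X Y, sgb (xor c0 (right X Y)) = chi X Y)
    (Yes No : (Fin T → List E) → Prop) (w : (Fin T → List E) → Fin T → ℝ) (hw : ∀ y t, 0 ≤ w y t)
    (gap : ∀ y z : Fin T → List E, ∀ J : Finset (Fin T), (∀ t, t ∉ J → y t = z t) →
      m * ∑ t ∈ J, w y t ≤ ∑ t, w y t → m * ∑ t ∈ J, w z t ≤ ∑ t, w z t → Yes y → No z → False)
    (hprob : ∀ X Y, 2 / 3 ≤ probOut p R T (x X Y) (if right X Y = true then Yes else No))
    (Z1 : Finset (Fin D)) (hne : 0 < Z1.card) (hK1 : 24 * k * N ≤ (K + 1) * Z1.card)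
    (hm1 : 48 * k * m ≤ Z1.card)
    (hm : ∀ b ∈ Z1, ∀ B : Finset ℕ, B.card ≤ 3 * k * K →
      2 * m2 ≤ ((univ : Finset ι).filter (fun i => ζ1 i = (b : ℕ) ∧ ζ0 i ∉ B)).card)
    (hS : ∀ ω, Fintype.card ((R ω).Q × (Fin k → Fin n)) + 1 ≤ 2 ^ S)
    (hm2 : 2 * S * K + 3 ≤ m2) : False := by
  obtain ⟨M, hM⟩ : ∃ M : ℝ, M = 2 ^ Fintype.card ι := ⟨_, rfl⟩
  have hM0 : 0 < M := by rw [hM]; positivity
  have hcardV : (((univ : Finset ((ι → Bool) × (ι → Bool))).card : ℕ) : ℝ) = M ^ 2 := by
    rw [card_univ, Fintype.card_prod, Fintype.card_fun, Fintype.card_bool, hM]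
    push_cast
    ring
  obtain ⟨C, hC⟩ : ∃ C : Ω → (ι → Bool) × (ι → Bool) → Prop, C = fun ω z =>
      (if right z.1 z.2 = true then Yes else No) ((R ω).output T (x z.1 z.2)) := ⟨_, rfl⟩
  have h1 : ∀ ω, ((((univ : Finset ((ι → Bool) × (ι → Bool))).filter
      (fun z => C ω z)).card : ℕ) : ℝ) ≤ 9 / 14 * M ^ 2 := by
    intro ω
    have h2 := tr_count (R ω) lam D N T K S m2 m hlam c0 hT x ζ0 ζ1 hloc right hright Yes No w hw gap
      Z1 hne hK1 hm1 hm (hS ω) hm2
    rw [← hM] at h2
    have h3 : (univ : Finset ((ι → Bool) × (ι → Bool))).filter (fun z => C ω z) =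
        univ.filter (fun z => (right z.1 z.2 = true → Yes ((R ω).output T (x z.1 z.2))) ∧
        (right z.1 z.2 = false → No ((R ω).output T (x z.1 z.2)))) := by
      ext z
      rw [hC]
      simp only [mem_filter, mem_univ, true_and]
      cases h : right z.1 z.2 <;> simp
    rw [h3]
    linarith
  have h2 : ∑ z : (ι → Bool) × (ι → Bool), probOut p R T (x z.1 z.2)
      (if right z.1 z.2 = true then Yes else No) =
      ∑ ω, p ω * ((((univ : Finset ((ι → Bool) × (ι → Bool))).filter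
      (fun z => C ω z)).card : ℕ) : ℝ) := by
    unfold probOut
    rw [Finset.sum_comm]
    apply Finset.sum_congr rfl
    intro ω _
    rw [← Finset.sum_filter, sum_const, nsmul_eq_mul, mul_comm, hC]
  have h3 : M ^ 2 * (2 / 3) ≤ ∑ z : (ι → Bool) × (ι → Bool), probOut p R T (x z.1 z.2)
      (if right z.1 z.2 = true then Yes else No) := by
    calc M ^ 2 * (2 / 3) = ∑ z : (ι → Bool) × (ι → Bool), (2 / 3 : ℝ) := by
          rw [sum_const, nsmul_eq_mul, hcardV]
      _ ≤ _ := Finset.sum_le_sum (fun z _ => hprob z.1 z.2)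
  have h4 : ∑ ω, p ω * ((((univ : Finset ((ι → Bool) × (ι → Bool))).filter
      (fun z => C ω z)).card : ℕ) : ℝ) ≤ 9 / 14 * M ^ 2 := by
    calc _ ≤ ∑ ω, p ω * (9 / 14 * M ^ 2) :=
          Finset.sum_le_sum (fun ω _ => mul_le_mul_of_nonneg_left (h1 ω) (hp ω))
      _ = 9 / 14 * M ^ 2 := by rw [← Finset.sum_mul, hp1, one_mul]
  rw [h2] at h3
  have h5 : 0 < M ^ 2 := by positivity
  linarith

end Pool.Agent.X240.SH
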