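import Pool.Agent.X240.SH.IPE2

/-!
# Slow heads: the inner product of two matrices of bits, row by row and column by column
-/

set_option autoImplicit false

open Finset

namespace Pool.Agent.X240.SH.MIP

open Pool.Agent.TH457.HT Pool.Agent.X240.SH

/-- the choice of the parameters -/
theorem paramsIP (V ρ n k T S : ℕ) (hV : 1 ≤ V) (hρ : 1 ≤ ρ) (hn : n = V * ρ) (hk : 1 ≤ k)
    (hkS : k ≤ S + 1) :
    V ^ 2 * n ^ 2 ≤ 200000000 * (k * (S + 1) * (k * T + n) ^ 2) ∨
    ∃ q r d, 1 ≤ q ∧ 2 ≤ r ∧ d = 864 * (k * q) ∧ 4 * (d * r) ≤ V ∧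
      12 * k * (T / (r * ρ) + 1) < (72 * q + 1) * d ∧ 3 * (S + 1) < 2 * k * r ^ 2 := by
  have hn0 : 0 < n := by rw [hn]; positivity
  obtain ⟨t, ht⟩ : ∃ t, t = k * T + n := ⟨_, rfl⟩
  obtain ⟨q, hq⟩ : ∃ q, q = t / n + 1 := ⟨_, rfl⟩
  have hq1 : 1 ≤ q := by rw [hq]; exact Nat.le_add_left 1 _
  have htq : t < n * q := by
    rw [hq]
    have h1 := Nat.div_add_mod t n
    have h2 := Nat.mod_lt t hn0
    calc t = n * (t / n) + t % n := h1.symm
      _ < n * (t / n) + n := by omega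
      _ = n * (t / n + 1) := by ring
  have hnq : n * q ≤ 2 * t := by
    rw [hq, mul_add, mul_one]
    have := Nat.mul_div_le t n
    omega
  rw [← ht]
  obtain ⟨d, hd⟩ : ∃ d, d = 864 * (k * q) := ⟨_, rfl⟩
  have hkq : 1 ≤ k * q := Nat.one_le_iff_ne_zero.mpr (by positivity)
  have hd0 : 0 < 4 * d := by omega
  obtain ⟨r, hr⟩ : ∃ r, r = V / (4 * d) := ⟨_, rfl⟩
  have hVr : V < 4 * d * (r + 1) := by
    rw [hr]
    have h1 := Nat.div_add_mod V (4 * d)
    have h2 := Nat.mod_lt V hd0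
    calc V = 4 * d * (V / (4 * d)) + V % (4 * d) := h1.symm
      _ < 4 * d * (V / (4 * d)) + 4 * d := by omega
      _ = 4 * d * (V / (4 * d) + 1) := by ring
  have hrV : 4 * (d * r) ≤ V := by
    rw [hr]
    have := Nat.mul_div_le V (4 * d)
    calc 4 * (d * (V / (4 * d))) = 4 * d * (V / (4 * d)) := by ring
      _ ≤ V := this
  rcases Nat.lt_or_ge r 2 with h | h
  · left
    have h1 : V ≤ 6912 * (k * q) := by
      have : 4 * d * (r + 1) ≤ 4 * d * 2 := Nat.mul_le_mul_left _ (by omega)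
      omega
    calc V ^ 2 * n ^ 2 ≤ (6912 * (k * q)) ^ 2 * n ^ 2 :=
          Nat.mul_le_mul_right _ (Nat.pow_le_pow_left h1 2)
      _ = 47775744 * (k * k * (n * q) ^ 2) := by ring
      _ ≤ 47775744 * (k * (S + 1) * (2 * t) ^ 2) := by gcongr
      _ = 191102976 * (k * (S + 1) * t ^ 2) := by ring
      _ ≤ 200000000 * (k * (S + 1) * t ^ 2) := Nat.mul_le_mul_right _ (by norm_num)
  have h6 : V ≤ 6 * (d * r) := by
    have : 4 * d * (r + 1) ≤ 6 * (d * r) := by nlinarith
    omega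
  rcases Nat.lt_or_ge (3 * (S + 1)) (2 * k * r ^ 2) with hs | hs
  · right
    refine ⟨q, r, d, hq1, h, hd, hrV, ?_, hs⟩
    have hlam : 0 < r * ρ := by positivity
    have h1 : 12 * k * (T / (r * ρ)) < 72 * (d * q) := by
      apply Nat.lt_of_mul_lt_mul_left (a := n)
      calc n * (12 * k * (T / (r * ρ))) ≤ 6 * (d * r) * ρ * (12 * k * (T / (r * ρ))) := by
            rw [hn]
            exact Nat.mul_le_mul_right _ (Nat.mul_le_mul_right _ h6)
        _ = 72 * d * k * (r * ρ * (T / (r * ρ))) := by ring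
        _ ≤ 72 * d * k * T := Nat.mul_le_mul_left _ (Nat.mul_div_le T (r * ρ))
        _ = 72 * d * (k * T) := by ring
        _ ≤ 72 * d * t := Nat.mul_le_mul_left _ (by omega)
        _ < 72 * d * (n * q) := Nat.mul_lt_mul_of_pos_left htq (by omega)
        _ = n * (72 * (d * q)) := by ring
    have h2 : 12 * k ≤ d := by
      rw [hd]
      nlinarith
    have h3 : 12 * k * (T / (r * ρ) + 1) = 12 * k * (T / (r * ρ)) + 12 * k := by ring
    have h4 : (72 * q + 1) * d = 72 * (d * q) + d := by ring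
    omega
  · left
    calc V ^ 2 * n ^ 2 ≤ (6 * (d * r)) ^ 2 * n ^ 2 :=
          Nat.mul_le_mul_right _ (Nat.pow_le_pow_left h6 2)
      _ = 13436928 * (k * (2 * k * r ^ 2) * (n * q) ^ 2) := by rw [hd]; ring
      _ ≤ 13436928 * (k * (3 * (S + 1)) * (2 * t) ^ 2) := by gcongr
      _ = 161243136 * (k * (S + 1) * t ^ 2) := by ring
      _ ≤ 200000000 * (k * (S + 1) * t ^ 2) := Nat.mul_le_mul_right _ (by norm_num)

/-- extension of a matrix by `false` -/
def eu {M : ℕ} (X : Fin M × Fin M → Bool) (i c : ℕ) : Bool :=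
  if h : i < M ∧ c < M then X (⟨i, h.1⟩, ⟨c, h.2⟩) else false

theorem card_fib (M r B : ℕ) (hr : 0 < r) :
    ((univ : Finset (Fin M)).filter (fun i : Fin M => (i : ℕ) / r = B)).card ≤ r := by
  have h1 : ((univ : Finset (Fin M)).filter (fun i : Fin M => (i : ℕ) / r = B)).card ≤
      (range r).card := by
    apply card_le_card_of_injOn (fun i : Fin M => (i : ℕ) % r)
    · intro i _
      exact mem_coe.mpr (mem_range.mpr (Nat.mod_lt _ hr))
    · intro i hi j hj hij
      have h2 := (mem_filter.mp (mem_coe.mp hi)).2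
      have h3 := (mem_filter.mp (mem_coe.mp hj)).2
      simp only at hij
      apply Fin.ext
      rw [← Nat.div_add_mod (i : ℕ) r, ← Nat.div_add_mod (j : ℕ) r, h2, h3, hij]
  rwa [card_range] at h1

theorem card_rows (d r : ℕ) (hr : 0 < r) (B : Finset ℕ) :
    (d - B.card) * r ≤
      ((univ : Finset (Fin (d * r))).filter (fun i : Fin (d * r) => (i : ℕ) / r ∉ B)).card := by
  classical
  have h1 := Finset.card_filter_add_card_filter_not (s := (univ : Finset (Fin (d * r))))
    (fun i : Fin (d * r) => (i : ℕ) / r ∈ B)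
  rw [card_univ, Fintype.card_fin] at h1
  have h2 : ((univ : Finset (Fin (d * r))).filter (fun i : Fin (d * r) => (i : ℕ) / r ∈ B)).card ≤
      r * B.card := by
    have h3 := Finset.card_le_mul_card_image (f := fun i : Fin (d * r) => (i : ℕ) / r)
      ((univ : Finset (Fin (d * r))).filter (fun i : Fin (d * r) => (i : ℕ) / r ∈ B)) r (by
        intro a _
        refine le_trans (card_le_card ?_) (card_fib (d * r) r a hr)
        intro i hi
        exact mem_filter.mpr ⟨mem_univ _, (mem_filter.mp hi).2⟩)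
    refine h3.trans (Nat.mul_le_mul_left _ (card_le_card ?_))
    intro a ha
    obtain ⟨i, hi, rfl⟩ := mem_image.mp ha
    exact (mem_filter.mp hi).2
  have h4 : (d - B.card) * r = d * r - r * B.card := by
    rw [Nat.sub_mul, mul_comm B.card r]
  omega

theorem card_cols (d r b : ℕ) (hb : b < d) :
    r ≤ ((univ : Finset (Fin (d * r))).filter (fun c : Fin (d * r) => (c : ℕ) / r = b)).card := by
  classical
  have hlt : ∀ v < r, b * r + v < d * r := by
    intro v hv
    calc b * r + v < b * r + r := by omega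
      _ = (b + 1) * r := by ring
      _ ≤ d * r := Nat.mul_le_mul_right _ hb
  have h1 : (univ : Finset (Fin r)).card ≤
      ((univ : Finset (Fin (d * r))).filter (fun c : Fin (d * r) => (c : ℕ) / r = b)).card := by
    apply card_le_card_of_injOn (fun v : Fin r => (⟨b * r + v, hlt v v.2⟩ : Fin (d * r)))
    · intro v _
      have hv := v.2
      apply mem_coe.mpr
      apply mem_filter.mpr
      refine ⟨mem_univ _, ?_⟩
      simp only
      rw [mul_comm, Nat.mul_add_div (by omega), Nat.div_eq_of_lt hv, add_zero]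
    · intro v _ v' _ h
      simp only [Fin.mk.injEq] at h
      exact Fin.ext (by omega)
  rwa [card_univ, Fintype.card_fin] at h1

theorem card_zones {m D : ℕ} :
    ((univ : Finset (Fin (m + D))).filter (fun z : Fin (m + D) => m ≤ (z : ℕ))).card = D := by
  have h3 : (univ : Finset (Fin (m + D))).filter (fun z : Fin (m + D) => m ≤ (z : ℕ)) =
      (univ : Finset (Fin D)).map (Fin.natAddEmb m) := by
    ext z
    simp only [mem_filter, mem_univ, true_and, mem_map, Fin.natAddEmb_apply]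
    constructor
    · intro h
      have hz := z.2
      exact ⟨⟨z - m, by omega⟩, Fin.ext (by simp only [Fin.val_natAdd]; omega)⟩
    · rintro ⟨i, rfl⟩
      simp
  rw [h3, card_map, card_univ, Fintype.card_fin]

/-- **Inner products of matrices.**  A word of `V` rows of length `ρ` contains a bit matrix `X` with `M`
rows in its first `M` rows, row by row, and a bit matrix `Y` with `M` columns in its next `M` rows,
column by column. If a randomized program finds the inner product of `X` and `Y` modulo two (up to a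
constant) with probability at least `2 / 3` within `T` steps, then
`V * n ≤ c √(k (S + 1)) (k T + n)`. -/
theorem matchedIP {Λ Ω : Type} [Fintype Ω] {n k : ℕ} (p : Ω → ℝ) (hp : ∀ ω, 0 ≤ p ω)
    (hp1 : ∑ ω, p ω = 1) (P : Ω → DetProg Λ n k) (V ρ T S : ℕ) (hV : 1 ≤ V)
    (hρ : 1 ≤ ρ) (hn : n = V * ρ) (hn2 : 2 ≤ n) (hk : 1 ≤ k)
    (W : ℕ → (ℕ → ℕ → Bool) → (ℕ → ℕ → Bool) → Fin n → Λ)
    (hW0 : ∀ M X X' Y Y', ∀ p : Fin n, (p : ℕ) / ρ < M →
      (∀ c, X ((p : ℕ) / ρ) c = X' ((p : ℕ) / ρ) c) → W M X Y p = W M X' Y' p)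
    (hW1 : ∀ M X X' Y Y', ∀ p : Fin n, M ≤ (p : ℕ) / ρ →
      (∀ i, Y i ((p : ℕ) / ρ - M) = Y' i ((p : ℕ) / ρ - M)) → W M X Y p = W M X' Y' p)
    (c0 : ℕ → Bool) (right : ℕ → (ℕ → ℕ → Bool) → (ℕ → ℕ → Bool) → Bool)
    (hright : ∀ M, 4 * M ≤ V → ∀ X Y, sgb (xor (c0 M) (right M X Y)) =
      ∏ i ∈ range M, ∏ c ∈ range M, sgb (X i c && Y i c))
    (hprob : ∀ M, 4 * M ≤ V → ∀ X Y, 2 / 3 ≤ prob p P T (W M X Y) (right M X Y))
    (hS : ∀ ω, Fintype.card (P ω).Q * n ^ k ≤ 2 ^ S) :
    V ^ 2 * n ^ 2 ≤ 200000000 * (k * (S + 1) * (k * T + n) ^ 2) := by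
  classical
  have hne : Nonempty Ω := by
    by_contra h
    rw [not_nonempty_iff] at h
    rw [Fintype.sum_empty] at hp1
    exact zero_ne_one hp1
  obtain ⟨ω0⟩ := hne
  have hQ : 1 ≤ Fintype.card (P ω0).Q := Fintype.card_pos_iff.mpr ⟨(P ω0).start.1⟩
  have hkS : k ≤ S + 1 := by
    have h1 : 2 ^ k ≤ 2 ^ S := by
      calc 2 ^ k ≤ n ^ k := Nat.pow_le_pow_left hn2 k
        _ = 1 * n ^ k := (one_mul _).symm
        _ ≤ Fintype.card (P ω0).Q * n ^ k := Nat.mul_le_mul_right _ hQ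
        _ ≤ 2 ^ S := hS ω0
    have := (Nat.pow_le_pow_iff_right (by norm_num : 1 < 2)).mp h1
    omega
  rcases paramsIP V ρ n k T S hV hρ hn hk hkS with h0 | ⟨q, r, d, hq, hr, hd, hdV, h1, h2⟩
  · exact h0
  exfalso
  have hkq : 1 ≤ k * q := Nat.one_le_iff_ne_zero.mpr (by positivity)
  have hd0 : 0 < d := by omega
  have hr0 : 0 < r := by omega
  obtain ⟨Z1, hZ1⟩ : ∃ Z1 : Finset (Fin (d + d)),
      Z1 = (univ : Finset (Fin (d + d))).filter (fun z : Fin (d + d) => d ≤ (z : ℕ)) := ⟨_, rfl⟩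
  have hc1 : Z1.card = d := by rw [hZ1, card_zones]
  have hdr : ∀ p : ℕ, p / (r * ρ) = p / ρ / r := by
    intro p
    rw [Nat.div_div_eq_div_mul, mul_comm]
  have hcfg : ∀ ω, Fintype.card (P ω).Cfg + 1 ≤ 2 ^ (S + 1) := by
    intro ω
    rw [Fintype.card_prod, Fintype.card_fun, Fintype.card_fin, Fintype.card_fin]
    have h3 : 1 ≤ 2 ^ S := Nat.one_le_two_pow
    have h4 := hS ω
    rw [pow_succ]
    omega
  have hT : T ≤ (T / (r * ρ) + 1) * (r * ρ) := by
    have h3 := Nat.div_add_mod T (r * ρ)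
    have h4 := Nat.mod_lt T (show 0 < r * ρ by positivity)
    calc T = r * ρ * (T / (r * ρ)) + T % (r * ρ) := h3.symm
      _ ≤ r * ρ * (T / (r * ρ)) + r * ρ := by omega
      _ = (T / (r * ρ) + 1) * (r * ρ) := by ring
  refine engineIP (ι := Fin (d * r) × Fin (d * r)) p hp hp1 P (r * ρ) (d + d)
    (T / (r * ρ) + 1) T (144 * q + 1) (S + 1) (214 * (k * q * r ^ 2)) (by positivity) (c0 (d * r))
    hT (fun X Y => W (d * r) (eu X) (eu Y)) (fun z => (z.1 : ℕ) / r) (fun z => (z.2 : ℕ) / r + d)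
    ?_ (fun X Y => right (d * r) (eu X) (eu Y)) ?_ (fun X Y => hprob _ hdV _ _) Z1
    (by rw [hc1]; exact hd0) ?_ ?_ hcfg ?_
  · intro X X' Y Y' p hX hY
    rw [hdr] at hX hY
    rcases Nat.lt_or_ge ((p : ℕ) / ρ) (d * r) with hpl | hpl
    · apply hW0 _ _ _ _ _ p hpl
      intro c
      unfold eu
      by_cases hc : (p : ℕ) / ρ < d * r ∧ c < d * r
      · rw [dif_pos hc, dif_pos hc]
        exact hX _ rfl
      · rw [dif_neg hc, dif_neg hc]
    · apply hW1 _ _ _ _ _ p hpl
      intro i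
      unfold eu
      by_cases hc : i < d * r ∧ (p : ℕ) / ρ - d * r < d * r
      · rw [dif_pos hc, dif_pos hc]
        apply hY
        simp only
        have e : (p : ℕ) / ρ / r = ((p : ℕ) / ρ - d * r) / r + d := by
          conv_lhs => rw [show (p : ℕ) / ρ = ((p : ℕ) / ρ - d * r) + d * r by omega]
          rw [Nat.add_mul_div_right _ _ hr0]
        exact e.symm
      · rw [dif_neg hc, dif_neg hc]
  · intro X Y
    rw [hright _ hdV]
    unfold chi
    rw [Fintype.prod_prod_type, ← Fin.prod_univ_eq_prod_range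
      (fun i => ∏ c ∈ range (d * r), sgb (eu X i c && eu Y i c)) (d * r)]
    apply Finset.prod_congr rfl
    intro i _
    rw [← Fin.prod_univ_eq_prod_range (fun c => sgb (eu X i c && eu Y i c)) (d * r)]
    apply Finset.prod_congr rfl
    intro c _
    unfold eu
    rw [dif_pos ⟨i.2, c.2⟩, dif_pos ⟨i.2, c.2⟩]
  · rw [hc1]
    calc 24 * k * (T / (r * ρ) + 1) = 2 * (12 * k * (T / (r * ρ) + 1)) := by ring
      _ ≤ 2 * ((72 * q + 1) * d) := Nat.mul_le_mul_left _ h1.le
      _ = (144 * q + 1 + 1) * d := by ring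
  · intro b hb B hB
    have hbd : d ≤ (b : ℕ) := by
      rw [hZ1] at hb
      exact (mem_filter.mp hb).2
    have hb2 := b.2
    have e : (univ : Finset (Fin (d * r) × Fin (d * r))).filter
        (fun i => (i.2 : ℕ) / r + d = (b : ℕ) ∧ (i.1 : ℕ) / r ∉ B) =
        ((univ : Finset (Fin (d * r))).filter (fun i : Fin (d * r) => (i : ℕ) / r ∉ B)) ×ˢ
        ((univ : Finset (Fin (d * r))).filter (fun c : Fin (d * r) => (c : ℕ) / r = b - d)) := by
      ext z
      simp only [mem_filter, mem_univ, true_and, mem_product]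
      constructor
      · rintro ⟨h3, h4⟩
        exact ⟨h4, by omega⟩
      · rintro ⟨h3, h4⟩
        exact ⟨by omega, h3⟩
    rw [e, card_product]
    have h3 := card_rows d r hr0 B
    have h4 := card_cols d r (b - d) (by omega)
    have h5 : 428 * (k * q) ≤ d - B.card := by
      have h6 : k ≤ k * q := Nat.le_mul_of_pos_right _ hq
      have h7 : 3 * k * (144 * q + 1) = 432 * (k * q) + 3 * k := by ring
      omega
    calc 2 * (214 * (k * q * r ^ 2)) = 428 * (k * q) * r * r := by ring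
      _ ≤ (d - B.card) * r * r := Nat.mul_le_mul_right _ (Nat.mul_le_mul_right _ h5)
      _ ≤ _ := Nat.mul_le_mul h3 h4
  · have h3 : q * (3 * (S + 1)) ≤ q * (2 * k * r ^ 2) := Nat.mul_le_mul_left _ h2.le
    have h4 : S + 1 ≤ q * (S + 1) := Nat.le_mul_of_pos_left _ hq
    have h5 : 2 * (S + 1) * (144 * q + 1) + 3 = 288 * (q * (S + 1)) + 2 * (S + 1) + 3 := by ring
    have h6 : q * (3 * (S + 1)) = 3 * (q * (S + 1)) := by ring
    have h7 : q * (2 * k * r ^ 2) = 2 * (k * q * r ^ 2) := by ring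
    omega

end Pool.Agent.X240.SH.MIP
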