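import Pool.Agent.X240.SH.GapE2
import Pool.Agent.X240.SH.MatchedIP

/-!
# Slow heads: gap problems and cycles of length two
-/

set_option autoImplicit false

open Finset

namespace Pool.Agent.X240.SH.GapM

open Pool.Agent.TH457.HT Pool.Agent.X240.SH Pool.Agent.X240.SH.MIP

/-- the choice of the parameters -/
theorem paramsG (V ρ n k T S m : ℕ) (hV : 1 ≤ V) (hρ : 1 ≤ ρ) (hn : n = V * ρ) (hk : 1 ≤ k)
    (hkS : k ≤ S + 1) (hm : 1 ≤ m) :
    V ^ 2 * n ^ 2 ≤ 200000000 * (m ^ 2 * k * (S + 1) * (k * T + n) ^ 2) ∨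
    ∃ q r d, 1 ≤ q ∧ 2 ≤ r ∧ d = 864 * (k * q * m) ∧ 4 * (d * r) ≤ V ∧
      12 * k * (T / (r * ρ) + 1) < (72 * q + 1) * d ∧ 3 * (S + 1) < 2 * k * m * r ^ 2 := by
  have hn0 : 0 < n := by rw [hn]; positivity
  obtain ⟨t, ht⟩ : ∃ t, t = k * T + n := ⟨_, rfl⟩
  obtain ⟨q, hq⟩ : ∃ q, q = t / n + 1 := ⟨_, rfl⟩
  have hq1 : 1 ≤ q := by rw [hq]; exact Nat.le_add_left 1 _
  have htq : t < n * q := by
    rw [hq]
    have h1 := Nat.div_add_mod t n
    have h2 := Nat.mod_lt t hn0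
    calc t = n * (t / n) + t % n := h1.symm
      _ < n * (t / n) + n := by omega
      _ = n * (t / n + 1) := by ring
  have hnq : n * q ≤ 2 * t := by
    rw [hq, mul_add, mul_one]
    have := Nat.mul_div_le t n
    omega
  rw [← ht]
  obtain ⟨d, hd⟩ : ∃ d, d = 864 * (k * q * m) := ⟨_, rfl⟩
  have hkq : 1 ≤ k * q * m := Nat.one_le_iff_ne_zero.mpr (by positivity)
  have hd0 : 0 < 4 * d := by omega
  obtain ⟨r, hr⟩ : ∃ r, r = V / (4 * d) := ⟨_, rfl⟩
  have hVr : V < 4 * d * (r + 1) := by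
    rw [hr]
    have h1 := Nat.div_add_mod V (4 * d)
    have h2 := Nat.mod_lt V hd0
    calc V = 4 * d * (V / (4 * d)) + V % (4 * d) := h1.symm
      _ < 4 * d * (V / (4 * d)) + 4 * d := by omega
      _ = 4 * d * (V / (4 * d) + 1) := by ring
  have hrV : 4 * (d * r) ≤ V := by
    rw [hr]
    have := Nat.mul_div_le V (4 * d)
    calc 4 * (d * (V / (4 * d))) = 4 * d * (V / (4 * d)) := by ring
      _ ≤ V := this
  rcases Nat.lt_or_ge r 2 with h | h
  · left
    have h1 : V ≤ 6912 * (k * q * m) := by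
      have : 4 * d * (r + 1) ≤ 4 * d * 2 := Nat.mul_le_mul_left _ (by omega)
      omega
    calc V ^ 2 * n ^ 2 ≤ (6912 * (k * q * m)) ^ 2 * n ^ 2 :=
          Nat.mul_le_mul_right _ (Nat.pow_le_pow_left h1 2)
      _ = 47775744 * (m ^ 2 * k * k * (n * q) ^ 2) := by ring
      _ ≤ 47775744 * (m ^ 2 * k * (S + 1) * (2 * t) ^ 2) := by gcongr
      _ = 191102976 * (m ^ 2 * k * (S + 1) * t ^ 2) := by ring
      _ ≤ 200000000 * (m ^ 2 * k * (S + 1) * t ^ 2) := Nat.mul_le_mul_right _ (by norm_num)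
  have h6 : V ≤ 6 * (d * r) := by
    have : 4 * d * (r + 1) ≤ 6 * (d * r) := by nlinarith
    omega
  rcases Nat.lt_or_ge (3 * (S + 1)) (2 * k * m * r ^ 2) with hs | hs
  · right
    refine ⟨q, r, d, hq1, h, hd, hrV, ?_, hs⟩
    have hlam : 0 < r * ρ := by positivity
    have h1 : 12 * k * (T / (r * ρ)) < 72 * (d * q) := by
      apply Nat.lt_of_mul_lt_mul_left (a := n)
      calc n * (12 * k * (T / (r * ρ))) ≤ 6 * (d * r) * ρ * (12 * k * (T / (r * ρ))) := by
            rw [hn]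
            exact Nat.mul_le_mul_right _ (Nat.mul_le_mul_right _ h6)
        _ = 72 * d * k * (r * ρ * (T / (r * ρ))) := by ring
        _ ≤ 72 * d * k * T := Nat.mul_le_mul_left _ (Nat.mul_div_le T (r * ρ))
        _ = 72 * d * (k * T) := by ring
        _ ≤ 72 * d * t := Nat.mul_le_mul_left _ (by omega)
        _ < 72 * d * (n * q) := Nat.mul_lt_mul_of_pos_left htq (by omega)
        _ = n * (72 * (d * q)) := by ring
    have h2 : 12 * k ≤ d := by
      rw [hd]
      have h3 : k ≤ k * q * m := by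
        calc k = k * 1 * 1 := by ring
          _ ≤ k * q * m := Nat.mul_le_mul (Nat.mul_le_mul_left _ hq1) hm
      omega
    have h3 : 12 * k * (T / (r * ρ) + 1) = 12 * k * (T / (r * ρ)) + 12 * k := by ring
    have h4 : (72 * q + 1) * d = 72 * (d * q) + d := by ring
    omega
  · left
    have hmm : m ≤ m ^ 2 := by
      calc m = m ^ 1 := (pow_one m).symm
        _ ≤ m ^ 2 := Nat.pow_le_pow_right hm (by norm_num)
    calc V ^ 2 * n ^ 2 ≤ (6 * (d * r)) ^ 2 * n ^ 2 :=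
          Nat.mul_le_mul_right _ (Nat.pow_le_pow_left h6 2)
      _ = 13436928 * (m * k * (2 * k * m * r ^ 2) * (n * q) ^ 2) := by rw [hd]; ring
      _ ≤ 13436928 * (m * k * (3 * (S + 1)) * (2 * t) ^ 2) := by gcongr
      _ = 161243136 * (m * k * (S + 1) * t ^ 2) := by ring
      _ ≤ 161243136 * (m ^ 2 * k * (S + 1) * t ^ 2) := by gcongr
      _ ≤ 200000000 * (m ^ 2 * k * (S + 1) * t ^ 2) := Nat.mul_le_mul_right _ (by norm_num)

/-- **Inner products of matrices and gap problems.** -/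
theorem matchedTr {Λ Ω E : Type} [Fintype Ω] {n k : ℕ} (p : Ω → ℝ) (hp : ∀ ω, 0 ≤ p ω)
    (hp1 : ∑ ω, p ω = 1) (V ρ T S m : ℕ) (R : Ω → Transducer Λ E n k) (hV : 1 ≤ V)
    (hρ : 1 ≤ ρ) (hn : n = V * ρ) (hn2 : 2 ≤ n) (hk : 1 ≤ k) (hm : 1 ≤ m)
    (W : ℕ → (ℕ → ℕ → Bool) → (ℕ → ℕ → Bool) → Fin n → Λ)
    (hW0 : ∀ M X X' Y Y', ∀ p : Fin n, (p : ℕ) / ρ < M →
      (∀ c, X ((p : ℕ) / ρ) c = X' ((p : ℕ) / ρ) c) → W M X Y p = W M X' Y' p)
    (hW1 : ∀ M X X' Y Y', ∀ p : Fin n, M ≤ (p : ℕ) / ρ →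
      (∀ i, Y i ((p : ℕ) / ρ - M) = Y' i ((p : ℕ) / ρ - M)) → W M X Y p = W M X' Y' p)
    (c0 : ℕ → Bool) (right : ℕ → (ℕ → ℕ → Bool) → (ℕ → ℕ → Bool) → Bool)
    (hright : ∀ M, 4 * M ≤ V → ∀ X Y, sgb (xor (c0 M) (right M X Y)) =
      ∏ i ∈ range M, ∏ c ∈ range M, sgb (X i c && Y i c))
    (Yes No : (Fin T → List E) → Prop) (w : (Fin T → List E) → Fin T → ℝ) (hw : ∀ y t, 0 ≤ w y t)
    (gap : ∀ y z : Fin T → List E, ∀ J : Finset (Fin T), (∀ t, t ∉ J → y t = z t) →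
      m * ∑ t ∈ J, w y t ≤ ∑ t, w y t → m * ∑ t ∈ J, w z t ≤ ∑ t, w z t → Yes y → No z → False)
    (hprob : ∀ M, 4 * M ≤ V → ∀ X Y, 2 / 3 ≤
      probOut p R T (W M X Y) (if right M X Y = true then Yes else No))
    (hS : ∀ ω, Fintype.card (R ω).Q * n ^ k ≤ 2 ^ S) :
    V ^ 2 * n ^ 2 ≤ 200000000 * (m ^ 2 * k * (S + 1) * (k * T + n) ^ 2) := by
  classical
  have hne : Nonempty Ω := by
    by_contra h
    rw [not_nonempty_iff] at h
    rw [Fintype.sum_empty] at hp1
    exact zero_ne_one hp1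
  obtain ⟨ω0⟩ := hne
  have hQ : 1 ≤ Fintype.card (R ω0).Q := Fintype.card_pos_iff.mpr ⟨(R ω0).start.1⟩
  have hkS : k ≤ S + 1 := by
    have h1 : 2 ^ k ≤ 2 ^ S := by
      calc 2 ^ k ≤ n ^ k := Nat.pow_le_pow_left hn2 k
        _ = 1 * n ^ k := (one_mul _).symm
        _ ≤ Fintype.card (R ω0).Q * n ^ k := Nat.mul_le_mul_right _ hQ
        _ ≤ 2 ^ S := hS ω0
    have := (Nat.pow_le_pow_iff_right (by norm_num : 1 < 2)).mp h1
    omega
  rcases paramsG V ρ n k T S m hV hρ hn hk hkS hm with h0 | ⟨q, r, d, hq, hr, hd, hdV, h1, h2⟩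
  · exact h0
  exfalso
  have hkq : 1 ≤ k * q * m := Nat.one_le_iff_ne_zero.mpr (by positivity)
  have hd0 : 0 < d := by omega
  have hr0 : 0 < r := by omega
  obtain ⟨Z1, hZ1⟩ : ∃ Z1 : Finset (Fin (d + d)),
      Z1 = (univ : Finset (Fin (d + d))).filter (fun z : Fin (d + d) => d ≤ (z : ℕ)) := ⟨_, rfl⟩
  have hc1 : Z1.card = d := by rw [hZ1, card_zones]
  have hdr : ∀ p : ℕ, p / (r * ρ) = p / ρ / r := by
    intro p
    rw [Nat.div_div_eq_div_mul, mul_comm]
  have hcfg : ∀ ω, Fintype.card ((R ω).Q × (Fin k → Fin n)) + 1 ≤ 2 ^ (S + 1) := by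
    intro ω
    rw [Fintype.card_prod, Fintype.card_fun, Fintype.card_fin, Fintype.card_fin]
    have h3 : 1 ≤ 2 ^ S := Nat.one_le_two_pow
    have h4 := hS ω
    rw [pow_succ]
    omega
  have hT : T ≤ (T / (r * ρ) + 1) * (r * ρ) := by
    have h3 := Nat.div_add_mod T (r * ρ)
    have h4 := Nat.mod_lt T (show 0 < r * ρ by positivity)
    calc T = r * ρ * (T / (r * ρ)) + T % (r * ρ) := h3.symm
      _ ≤ r * ρ * (T / (r * ρ)) + r * ρ := by omega
      _ = (T / (r * ρ) + 1) * (r * ρ) := by ring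
  have hkqm : k * q ≤ k * q * m := Nat.le_mul_of_pos_right _ hm
  have hkk : k ≤ k * q := Nat.le_mul_of_pos_right _ hq
  refine engineTr (ι := Fin (d * r) × Fin (d * r)) p hp hp1 R (r * ρ) (d + d)
    (T / (r * ρ) + 1) T (144 * q + 1) (S + 1) (214 * (k * q * m * r ^ 2)) m (by positivity)
    (c0 (d * r))
    hT (fun X Y => W (d * r) (eu X) (eu Y)) (fun z => (z.1 : ℕ) / r) (fun z => (z.2 : ℕ) / r + d)
    ?_ (fun X Y => right (d * r) (eu X) (eu Y)) ?_ Yes No w hw gap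
    (fun X Y => hprob _ hdV _ _) Z1
    (by rw [hc1]; exact hd0) ?_ ?_ ?_ hcfg ?_
  · intro X X' Y Y' p hX hY
    rw [hdr] at hX hY
    rcases Nat.lt_or_ge ((p : ℕ) / ρ) (d * r) with hpl | hpl
    · apply hW0 _ _ _ _ _ p hpl
      intro c
      unfold eu
      by_cases hc : (p : ℕ) / ρ < d * r ∧ c < d * r
      · rw [dif_pos hc, dif_pos hc]
        exact hX _ rfl
      · rw [dif_neg hc, dif_neg hc]
    · apply hW1 _ _ _ _ _ p hpl
      intro i
      unfold eu
      by_cases hc : i < d * r ∧ (p : ℕ) / ρ - d * r < d * r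
      · rw [dif_pos hc, dif_pos hc]
        apply hY
        simp only
        have e : (p : ℕ) / ρ / r = ((p : ℕ) / ρ - d * r) / r + d := by
          conv_lhs => rw [show (p : ℕ) / ρ = ((p : ℕ) / ρ - d * r) + d * r by omega]
          rw [Nat.add_mul_div_right _ _ hr0]
        exact e.symm
      · rw [dif_neg hc, dif_neg hc]
  · intro X Y
    rw [hright _ hdV]
    unfold chi
    rw [Fintype.prod_prod_type, ← Fin.prod_univ_eq_prod_range
      (fun i => ∏ c ∈ range (d * r), sgb (eu X i c && eu Y i c)) (d * r)]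
    apply Finset.prod_congr rfl
    intro i _
    rw [← Fin.prod_univ_eq_prod_range (fun c => sgb (eu X i c && eu Y i c)) (d * r)]
    apply Finset.prod_congr rfl
    intro c _
    unfold eu
    rw [dif_pos ⟨i.2, c.2⟩, dif_pos ⟨i.2, c.2⟩]
  · rw [hc1]
    calc 24 * k * (T / (r * ρ) + 1) = 2 * (12 * k * (T / (r * ρ) + 1)) := by ring
      _ ≤ 2 * ((72 * q + 1) * d) := Nat.mul_le_mul_left _ h1.le
      _ = (144 * q + 1 + 1) * d := by ring
  · rw [hc1, hd]
    calc 48 * k * m = 48 * (k * 1 * m) := by ring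
      _ ≤ 864 * (k * q * m) := Nat.mul_le_mul (by norm_num)
          (Nat.mul_le_mul_right _ (Nat.mul_le_mul_left _ hq))
  · intro b hb B hB
    have hbd : d ≤ (b : ℕ) := by
      rw [hZ1] at hb
      exact (mem_filter.mp hb).2
    have hb2 := b.2
    have e : (univ : Finset (Fin (d * r) × Fin (d * r))).filter
        (fun i => (i.2 : ℕ) / r + d = (b : ℕ) ∧ (i.1 : ℕ) / r ∉ B) =
        ((univ : Finset (Fin (d * r))).filter (fun i : Fin (d * r) => (i : ℕ) / r ∉ B)) ×ˢ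
        ((univ : Finset (Fin (d * r))).filter (fun c : Fin (d * r) => (c : ℕ) / r = b - d)) := by
      ext z
      simp only [mem_filter, mem_univ, true_and, mem_product]
      constructor
      · rintro ⟨h3, h4⟩
        exact ⟨h4, by omega⟩
      · rintro ⟨h3, h4⟩
        exact ⟨by omega, h3⟩
    rw [e, card_product]
    have h3 := card_rows d r hr0 B
    have h4 := card_cols d r (b - d) (by omega)
    have h5 : 428 * (k * q * m) ≤ d - B.card := by
      have h7 : 3 * k * (144 * q + 1) = 432 * (k * q) + 3 * k := by ring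
      omega
    calc 2 * (214 * (k * q * m * r ^ 2)) = 428 * (k * q * m) * r * r := by ring
      _ ≤ (d - B.card) * r * r := Nat.mul_le_mul_right _ (Nat.mul_le_mul_right _ h5)
      _ ≤ _ := Nat.mul_le_mul h3 h4
  · have h3 : q * (3 * (S + 1)) ≤ q * (2 * k * m * r ^ 2) := Nat.mul_le_mul_left _ h2.le
    have h4 : S + 1 ≤ q * (S + 1) := Nat.le_mul_of_pos_left _ hq
    have h5 : 2 * (S + 1) * (144 * q + 1) + 3 = 288 * (q * (S + 1)) + 2 * (S + 1) + 3 := by ring
    have h6 : q * (3 * (S + 1)) = 3 * (q * (S + 1)) := by ring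
    have h7 : q * (2 * k * m * r ^ 2) = 2 * (k * q * m * r ^ 2) := by ring
    omega

/-! ### Cycles of length two -/

/-- the graph -/
def gr (V M : ℕ) (X Y : ℕ → ℕ → Bool) (i j : Fin V) : Bool :=
  if (i : ℕ) < M then (if M ≤ (j : ℕ) ∧ (j : ℕ) < 2 * M then X i (j - M) else false)
  else (if (j : ℕ) < M ∧ (i : ℕ) < 2 * M then Y j (i - M) else false)

theorem gr_two (V M : ℕ) (X Y : ℕ → ℕ → Bool) (i j : Fin V) (h : i < j) :
    (gr V M X Y i j = true ∧ gr V M X Y j i = true) ↔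
      ((i : ℕ) < M ∧ M ≤ (j : ℕ) ∧ (j : ℕ) < 2 * M ∧ X i (j - M) = true ∧ Y i (j - M) = true) := by
  have hij : (i : ℕ) < (j : ℕ) := h
  unfold gr
  constructor
  · rintro ⟨h1, h2⟩
    split_ifs at h1 h2 with h3 h4 h5 h6 <;> first | contradiction | skip
    all_goals first | omega | exact ⟨h3, h4.1, h4.2, h1, h2⟩ | skip
  · rintro ⟨h1, h2, h3, h4, h5⟩
    rw [if_pos h1, if_pos ⟨h2, h3⟩, if_neg (by omega), if_pos ⟨h1, h3⟩]
    exact ⟨h4, h5⟩

theorem card_gr (V M : ℕ) (hM : 4 * M ≤ V) (X Y : ℕ → ℕ → Bool) :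
    twoCycles (gr V M X Y) =
      ((range M ×ˢ range M).filter (fun e => (X e.1 e.2 && Y e.1 e.2) = true)).card := by
  unfold twoCycles
  symm
  apply Finset.card_bij (fun (e : ℕ × ℕ) he =>
    ((⟨e.1, by
        have := mem_range.mp (mem_product.mp (mem_filter.mp he).1).1
        omega⟩, ⟨M + e.2, by
        have := mem_range.mp (mem_product.mp (mem_filter.mp he).1).2
        omega⟩) : Fin V × Fin V))
  · intro e he
    obtain ⟨h1, h2⟩ := mem_filter.mp he
    obtain ⟨h3, h4⟩ := mem_product.mp h1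
    rw [mem_range] at h3 h4
    rw [mem_filter]
    refine ⟨mem_univ _, ?_, ?_⟩
    · rw [Fin.lt_def]
      simp only
      omega
    · rw [Bool.and_eq_true] at h2
      apply (gr_two V M X Y _ _ (by rw [Fin.lt_def]; simp only; omega)).mpr
      simp only
      have e1 : M + e.2 - M = e.2 := by omega
      rw [e1]
      exact ⟨h3, by omega, by omega, h2.1, h2.2⟩
  · intro e he e' he' h
    simp only [Prod.mk.injEq, Fin.mk.injEq] at h
    exact Prod.ext h.1 (by omega)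
  · rintro ⟨i, j⟩ hij
    obtain ⟨-, h1, h2⟩ := mem_filter.mp hij
    obtain ⟨h3, h4, h5, h6, h7⟩ := (gr_two V M X Y i j h1).mp h2
    refine ⟨((i : ℕ), (j : ℕ) - M), ?_, ?_⟩
    · rw [mem_filter, mem_product, mem_range, mem_range, Bool.and_eq_true]
      exact ⟨⟨h3, by simp only; omega⟩, h6, h7⟩
    · exact Prod.ext rfl (Fin.ext (by simp only; omega))

theorem prod_sgb {α : Type} (s : Finset α) (f : α → Bool) :
    ∏ e ∈ s, sgb (f e) = (-1) ^ (s.filter (fun e => f e = true)).card := by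
  classical
  unfold sgb
  rw [Finset.prod_ite, prod_const, prod_const_one, mul_one]

theorem sgb_gr (V M : ℕ) (hM : 4 * M ≤ V) (X Y : ℕ → ℕ → Bool) :
    sgb (xor false (decide (twoCycles (gr V M X Y) % 2 = 1))) =
      ∏ i ∈ range M, ∏ c ∈ range M, sgb (X i c && Y i c) := by
  rw [← Finset.prod_product' (range M) (range M) (fun i c => sgb (X i c && Y i c)),
    prod_sgb, card_gr V M hM]
  obtain ⟨N, hN⟩ : ∃ N, N = ((range M ×ˢ range M).filter
    (fun e => (X e.1 e.2 && Y e.1 e.2) = true)).card := ⟨_, rfl⟩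
  rw [← hN, Bool.false_xor]
  rcases Nat.even_or_odd N with h | h
  · rw [h.neg_one_pow]
    have h1 : N % 2 = 0 := Nat.even_iff.mp h
    unfold sgb
    rw [if_neg]
    rw [decide_eq_true_eq]
    omega
  · rw [h.neg_one_pow]
    have h1 : N % 2 = 1 := Nat.odd_iff.mp h
    unfold sgb
    rw [if_pos]
    rw [decide_eq_true_eq]
    exact h1

/-- **Gap problems.**  The parity of the number of the cycles of length two of a directed graph is not
reduced to a gap problem by fast transducers with slow heads: if outputs which agree outside of a set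
which contains at most the fraction `1 / m` of their weights cannot be a yes instance and a no
instance, then `V ^ 6 ≤ c m ^ 2 k (S + 1) (k T + V ^ 2) ^ 2`. -/
theorem gap_bound {Ω E : Type} [Fintype Ω] (V k T S m : ℕ) (p : Ω → ℝ) (hp : ∀ ω, 0 ≤ p ω)
    (hp1 : ∑ ω, p ω = 1) (R : Ω → Transducer Bool E (V * V) k) (hV : 2 ≤ V) (hk : 1 ≤ k)
    (hm : 1 ≤ m)
    (Yes No : (Fin T → List E) → Prop) (w : (Fin T → List E) → Fin T → ℝ) (hw : ∀ y t, 0 ≤ w y t)
    (gap : ∀ y z : Fin T → List E, ∀ J : Finset (Fin T), (∀ t, t ∉ J → y t = z t) →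
      m * ∑ t ∈ J, w y t ≤ ∑ t, w y t → m * ∑ t ∈ J, w z t ≤ ∑ t, w z t → Yes y → No z → False)
    (hyes : ∀ a : Fin V → Fin V → Bool, twoCycles a % 2 = 1 → 2 / 3 ≤ probOut p R T (gword V a) Yes)
    (hno : ∀ a : Fin V → Fin V → Bool, twoCycles a % 2 = 0 → 2 / 3 ≤ probOut p R T (gword V a) No)
    (hS : ∀ ω, Fintype.card (R ω).Q * (V * V) ^ k ≤ 2 ^ S) :
    V ^ 6 ≤ 200000000 * (m ^ 2 * k * (S + 1) * (k * T + V ^ 2) ^ 2) := by
  have h := matchedTr (n := V * V) p hp hp1 V V T S m R (by omega) (by omega) rfl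
    (by nlinarith) hk hm (fun M X Y => gword V (gr V M X Y)) ?_ ?_ (fun _ => false)
    (fun M X Y => decide (twoCycles (gr V M X Y) % 2 = 1)) (fun M hM X Y => sgb_gr V M hM X Y)
    Yes No w hw gap ?_ hS
  · calc V ^ 6 = V ^ 2 * (V * V) ^ 2 := by ring
      _ ≤ _ := h
      _ = 200000000 * (m ^ 2 * k * (S + 1) * (k * T + V ^ 2) ^ 2) := by ring
  · intro M X X' Y Y' p hpM hX
    simp only [gword, gr]
    have e : ((p.divNat : Fin V) : ℕ) = (p : ℕ) / V := rfl
    rw [e, if_pos hpM, if_pos hpM]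
    split_ifs
    · exact hX _
    · rfl
  · intro M X X' Y Y' p hpM hY
    simp only [gword, gr]
    have e : ((p.divNat : Fin V) : ℕ) = (p : ℕ) / V := rfl
    have hn : ¬ ((p : ℕ) / V < M) := by omega
    rw [e, if_neg hn, if_neg hn]
    split_ifs
    · exact hY _
    · rfl
  · intro M hM X Y
    by_cases h1 : twoCycles (gr V M X Y) % 2 = 1
    · simp only [h1, decide_true, if_true]
      exact hyes _ h1
    · have h2 : twoCycles (gr V M X Y) % 2 = 0 := by omega
      simp only [h1, decide_false]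
      exact hno _ h2

end Pool.Agent.X240.SH.GapM
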