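import Pool.Agent.X240.SH.TrDefs

/-!
# Outputs as lists of the edges of regular graphs
-/

set_option autoImplicit false

open Finset

namespace Pool.Agent.X240.SH

variable {A : Type} {T : ℕ}

open Classical in
/-- The number of the edges of the output `y` with exactly one end in `S`: `y t` is the list of the
edges which are written in the step `t`. -/
noncomputable def cut (y : Fin T → List (A × A)) (S : Finset A) : ℕ :=
  ∑ t, (y t).countP (fun e => decide (¬ (e.1 ∈ S ↔ e.2 ∈ S)))

open Classical in
/-- The number of the ends of edges at the vertex `u`. -/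
noncomputable def deg (y : Fin T → List (A × A)) (u : A) : ℕ :=
  ∑ t, ((y t).countP (fun e => decide (e.1 = u)) + (y t).countP (fun e => decide (e.2 = u)))

/-- The output is the list of the edges of a `d`-regular graph with the vertex set `W`, `d ≥ 1`. -/
structure Regular (y : Fin T → List (A × A)) (W : Finset A) (d : ℕ) : Prop where
  one_le : 1 ≤ d
  ends : ∀ t, ∀ e ∈ y t, e.1 ∈ W ∧ e.2 ∈ W
  deg_eq : ∀ u ∈ W, deg y u = d

/-- The output is the list of the edges of a regular graph in which some set of `δ |W|` vertices, where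
`W` is the set of all vertices, has expansion at most `ε`. -/
def SseYes (δ ε : ℝ) (y : Fin T → List (A × A)) : Prop :=
  ∃ W d, Regular y W d ∧ ∃ S ⊆ W, 1 ≤ S.card ∧ (S.card : ℝ) = δ * W.card ∧
    (cut y S : ℝ) ≤ ε * (d * S.card)

/-- The output is the list of the edges of a regular graph in which all sets of `δ |W| ≥ 1` vertices
have expansion at least `1 - η`. -/
def SseNo (δ η : ℝ) (y : Fin T → List (A × A)) : Prop :=
  ∃ W d, Regular y W d ∧ (∃ s : ℕ, 1 ≤ s ∧ (s : ℝ) = δ * W.card) ∧
    ∀ S ⊆ W, (S.card : ℝ) = δ * W.card → (1 - η) * (d * S.card) ≤ cut y S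

end Pool.Agent.X240.SH
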