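import Pool.Agent.X240.SH.GapM
import Pool.Agent.X240.SH.SseDefs

/-!
# Slow heads: small-set expansion
-/

set_option autoImplicit false

open Finset

namespace Pool.Agent.X240.SH.GapSse

open Pool.Agent.X240.SH

variable {A E : Type} {T : ℕ}

/-- the sum over the entries which are written in the steps of `J` -/
noncomputable def sm (J : Finset (Fin T)) (f : E → ℝ) (y : Fin T → List E) : ℝ :=
  ∑ t ∈ J, ((y t).map f).sum

theorem sm_le (J : Finset (Fin T)) (f g : E → ℝ) (y : Fin T → List E)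
    (h : ∀ t ∈ J, ∀ e ∈ y t, f e ≤ g e) : sm J f y ≤ sm J g y := by
  unfold sm
  apply Finset.sum_le_sum
  intro t ht
  exact List.sum_le_sum (fun e he => h t ht e he)

theorem sm_congr (J : Finset (Fin T)) (f g : E → ℝ) (y : Fin T → List E)
    (h : ∀ t ∈ J, ∀ e ∈ y t, f e = g e) : sm J f y = sm J g y :=
  le_antisymm (sm_le J f g y (fun t ht e he => (h t ht e he).le))
    (sm_le J g f y (fun t ht e he => (h t ht e he).ge))

theorem sm_add (J : Finset (Fin T)) (f g : E → ℝ) (y : Fin T → List E) :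
    sm J (fun e => f e + g e) y = sm J f y + sm J g y := by
  unfold sm
  rw [← Finset.sum_add_distrib]
  apply Finset.sum_congr rfl
  intro t _
  exact List.sum_map_add

theorem sm_mul (J : Finset (Fin T)) (c : ℝ) (f : E → ℝ) (y : Fin T → List E) :
    sm J (fun e => c * f e) y = c * sm J f y := by
  unfold sm
  rw [mul_sum]
  apply Finset.sum_congr rfl
  intro t _
  induction y t with
  | nil => simp
  | cons e l ih =>
    rw [List.map_cons, List.sum_cons, List.map_cons, List.sum_cons, mul_add, ih]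

theorem sm_split (J : Finset (Fin T)) (f : E → ℝ) (y : Fin T → List E) :
    sm univ f y = sm (univ \ J) f y + sm J f y :=
  (Finset.sum_sdiff (subset_univ J)).symm

theorem sm_agree (J : Finset (Fin T)) (f : E → ℝ) (y z : Fin T → List E)
    (h : ∀ t, t ∉ J → y t = z t) : sm (univ \ J) f z = sm (univ \ J) f y := by
  unfold sm
  apply Finset.sum_congr rfl
  intro t ht
  rw [mem_sdiff] at ht
  rw [h t ht.2]

theorem sm_nonneg (J : Finset (Fin T)) (f : E → ℝ) (y : Fin T → List E) (h : ∀ e, 0 ≤ f e) :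
    0 ≤ sm J f y := by
  unfold sm
  apply Finset.sum_nonneg
  intro t _
  apply List.sum_nonneg
  intro r hr
  obtain ⟨e, -, rfl⟩ := List.mem_map.mp hr
  exact h e

theorem sm_one (J : Finset (Fin T)) (y : Fin T → List E) :
    sm J (fun _ => 1) y = ∑ t ∈ J, ((y t).length : ℝ) := by
  unfold sm
  apply Finset.sum_congr rfl
  intro t _
  simp

theorem countP_sum (p : E → Prop) [DecidablePred p] (l : List E) :
    ((l.countP (fun e => decide (p e)) : ℕ) : ℝ) = (l.map (fun e => if p e then (1 : ℝ) else 0)).sum := by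
  induction l with
  | nil => simp
  | cons e l ih =>
    rw [List.countP_cons, List.map_cons, List.sum_cons, ← ih]
    by_cases h : p e
    · simp [h, add_comm]
    · simp [h]

open Classical in
/-- the number of ends in `S` -/
noncomputable def al (S : Finset A) (e : A × A) : ℝ :=
  (if e.1 ∈ S then 1 else 0) + (if e.2 ∈ S then 1 else 0)

open Classical in
/-- exactly one end in `S` -/
noncomputable def ch (S : Finset A) (e : A × A) : ℝ := if ¬ (e.1 ∈ S ↔ e.2 ∈ S) then 1 else 0

theorem cut_eq (y : Fin T → List (A × A)) (S : Finset A) : (cut y S : ℝ) = sm univ (ch S) y := by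
  classical
  unfold cut sm ch
  push_cast
  apply Finset.sum_congr rfl
  intro t _
  exact countP_sum (fun e : A × A => ¬ (e.1 ∈ S ↔ e.2 ∈ S)) (y t)

open Classical in
theorem sum_ind (S : Finset A) (g : A × A → A) (e : A × A) :
    ∑ u ∈ S, (if g e = u then (1 : ℝ) else 0) = if g e ∈ S then 1 else 0 := by
  rw [Finset.sum_ite_eq]

theorem vol_eq (y : Fin T → List (A × A)) (S : Finset A) :
    ∑ u ∈ S, (deg y u : ℝ) = sm univ (al S) y := by
  classical
  have h1 : ∀ u, (deg y u : ℝ) = sm univ (fun e : A × A => (if e.1 = u then (1 : ℝ) else 0) +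
      (if e.2 = u then 1 else 0)) y := by
    intro u
    rw [sm_add]
    unfold deg sm
    push_cast
    rw [Finset.sum_add_distrib]
    congr 1
    · apply Finset.sum_congr rfl
      intro t _
      exact countP_sum (fun e : A × A => e.1 = u) (y t)
    · apply Finset.sum_congr rfl
      intro t _
      exact countP_sum (fun e : A × A => e.2 = u) (y t)
  rw [Finset.sum_congr rfl (fun u _ => h1 u)]
  unfold sm
  rw [Finset.sum_comm]
  apply Finset.sum_congr rfl
  intro t _
  induction y t with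
  | nil => simp
  | cons e l ih =>
    simp only [List.map_cons, List.sum_cons]
    rw [Finset.sum_add_distrib, ih]
    congr 1
    rw [Finset.sum_add_distrib, sum_ind S (fun e => e.1) e, sum_ind S (fun e => e.2) e]
    rfl

theorem vol_reg (y : Fin T → List (A × A)) (W : Finset A) (d : ℕ) (h : Regular y W d)
    (S : Finset A) (hS : S ⊆ W) : (d : ℝ) * S.card = sm univ (al S) y := by
  rw [← vol_eq, Finset.sum_congr rfl (fun u hu => by rw [h.deg_eq u (hS hu)]), sum_const,
    nsmul_eq_mul, mul_comm]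

theorem vol_all (y : Fin T → List (A × A)) (W : Finset A) (d : ℕ) (h : Regular y W d) :
    (d : ℝ) * W.card = 2 * sm univ (fun _ => 1) y := by
  rw [vol_reg y W d h W (Subset.refl _), ← sm_mul]
  apply sm_congr
  intro t _ e he
  obtain ⟨h1, h2⟩ := h.ends t e he
  unfold al
  rw [if_pos h1, if_pos h2]
  norm_num

theorem al_nonneg (S : Finset A) (e : A × A) : 0 ≤ al S e := by
  unfold al
  split_ifs <;> norm_num

theorem al_le (S : Finset A) (e : A × A) : al S e ≤ 2 := by
  unfold al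
  split_ifs <;> norm_num

theorem ch_nonneg (S : Finset A) (e : A × A) : 0 ≤ ch S e := by
  unfold ch
  split_ifs <;> norm_num

theorem ch_le (S : Finset A) (e : A × A) : ch S e ≤ 1 := by
  unfold ch
  split_ifs <;> norm_num

open Classical in
theorem ch_diff (S S' : Finset A) (h : S ⊆ S') (e : A × A) :
    ch S' e ≤ ch S e + al (S' \ S) e ∧ ch S e ≤ ch S' e + al (S' \ S) e := by
  unfold ch al
  have h1 := @h e.1
  have h2 := @h e.2
  simp only [mem_sdiff]
  by_cases a1 : e.1 ∈ S <;> by_cases a2 : e.2 ∈ S <;> by_cases b1 : e.1 ∈ S' <;>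
    by_cases b2 : e.2 ∈ S' <;> simp_all <;> norm_num

/-- a yes instance and a no instance do not agree outside of a light set -/
theorem gap_sse (δ ε η : ℝ) (m : ℕ) (hδ : 0 < δ) (hδ1 : δ ≤ 1) (hε : 0 ≤ ε) (hη : 0 ≤ η)
    (hm : 8 < m * (δ * (1 - ε - η))) (y z : Fin T → List (A × A)) (J : Finset (Fin T))
    (hJ : ∀ t, t ∉ J → y t = z t)
    (hy : (m : ℝ) * ∑ t ∈ J, ((y t).length : ℝ) ≤ ∑ t, ((y t).length : ℝ))
    (hz : (m : ℝ) * ∑ t ∈ J, ((z t).length : ℝ) ≤ ∑ t, ((z t).length : ℝ))
    (h1 : SseYes δ ε y) (h2 : SseNo δ η z) : False := by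
  classical
  obtain ⟨W, d, hr, S, hSW, hS1, hSc, hcut⟩ := h1
  obtain ⟨W', d', hr', ⟨s, hs1, hs⟩, hno⟩ := h2
  rw [← sm_one, ← sm_one] at hy hz
  have ty := vol_all y W d hr
  have tz := vol_all z W' d' hr'
  have vS := vol_reg y W d hr S hSW
  obtain ⟨S0, hS0⟩ : ∃ S0 : Finset A, S0 = S ∩ W' := ⟨_, rfl⟩
  have hS0W : S0 ⊆ W' := by rw [hS0]; exact inter_subset_right
  have vS0 := vol_reg z W' d' hr' S0 hS0W
  have hmem : ∀ t, ∀ e ∈ z t, (e.1 ∈ S0 ↔ e.1 ∈ S) ∧ (e.2 ∈ S0 ↔ e.2 ∈ S) := by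
    intro t e he
    obtain ⟨h1, h2⟩ := hr'.ends t e he
    rw [hS0, mem_inter, mem_inter]
    exact ⟨⟨fun h => h.1, fun h => ⟨h, h1⟩⟩, ⟨fun h => h.1, fun h => ⟨h, h2⟩⟩⟩
  have eα : sm univ (al S0) z = sm univ (al S) z := by
    apply sm_congr
    intro t _ e he
    obtain ⟨h1, h2⟩ := hmem t e he
    unfold al
    rw [if_congr h1 rfl rfl, if_congr h2 rfl rfl]
  have eχ : sm univ (ch S0) z = sm univ (ch S) z := by
    apply sm_congr
    intro t _ e he
    obtain ⟨h1, h2⟩ := hmem t e he
    unfold ch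
    rw [if_congr (not_congr (iff_congr h1 h2)) rfl rfl]
  rw [eα] at vS0
  rw [cut_eq] at hcut
  -- splitting
  have s1 := sm_split J (fun _ => (1 : ℝ)) y
  have s2 := sm_split J (fun _ => (1 : ℝ)) z
  rw [sm_agree J _ y z hJ] at s2
  have s3 := sm_split J (al S) y
  have s4 := sm_split J (al S) z
  rw [sm_agree J _ y z hJ] at s4
  have s5 := sm_split J (ch S) y
  have s6 := sm_split J (ch S) z
  rw [sm_agree J _ y z hJ] at s6
  have n1 := sm_nonneg J (al S) y (al_nonneg S)
  have n2 := sm_nonneg J (al S) z (al_nonneg S)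
  have n3 := sm_nonneg J (ch S) y (ch_nonneg S)
  have u1 : sm J (al S) y ≤ 2 * sm J (fun _ => 1) y := by
    rw [← sm_mul]
    exact sm_le J _ _ _ (fun t _ e _ => by have := al_le S e; linarith)
  have u2 : sm J (al S) z ≤ 2 * sm J (fun _ => 1) z := by
    rw [← sm_mul]
    exact sm_le J _ _ _ (fun t _ e _ => by have := al_le S e; linarith)
  have u3 : sm J (ch S) z ≤ sm J (fun _ => 1) z :=
    sm_le J _ _ _ (fun t _ e _ => ch_le S e)
  have b0 := sm_nonneg J (fun _ => (1 : ℝ)) y (fun _ => by norm_num)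
  have c0 := sm_nonneg J (fun _ => (1 : ℝ)) z (fun _ => by norm_num)
  -- the size of the set
  obtain ⟨S', hS'W, hS'c, hS'⟩ : ∃ S' ⊆ W', S'.card = s ∧
      sm univ (ch S') z ≤ sm univ (ch S0) z + |(d' : ℝ) * s - d' * S0.card| := by
    have hsW : s ≤ W'.card := by
      have h3 : (s : ℝ) ≤ W'.card := by
        rw [hs]
        have : (0 : ℝ) ≤ W'.card := Nat.cast_nonneg _
        nlinarith
      exact_mod_cast h3
    rcases Nat.le_total s S0.card with hle | hle
    · obtain ⟨S', hS'1, hS'2⟩ := Finset.exists_subset_card_eq hle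
      refine ⟨S', hS'1.trans hS0W, hS'2, ?_⟩
      have h3 : sm univ (ch S') z ≤ sm univ (fun e => ch S0 e + al (S0 \ S') e) z :=
        sm_le _ _ _ _ (fun t _ e _ => (ch_diff S' S0 hS'1 e).2)
      rw [sm_add] at h3
      refine h3.trans (add_le_add_right ?_ _)
      rw [← vol_reg z W' d' hr' (S0 \ S') ((sdiff_subset).trans hS0W)]
      have h4 : ((S0 \ S').card : ℝ) = S0.card - s := by
        rw [card_sdiff_of_subset hS'1, Nat.cast_sub (by rw [hS'2]; exact hle), hS'2]
      rw [h4]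
      have := neg_abs_le ((d' : ℝ) * s - d' * S0.card)
      linarith
    · obtain ⟨S', hS'1, hS'2, hS'3⟩ := Finset.exists_subsuperset_card_eq hS0W hle hsW
      refine ⟨S', hS'2, hS'3, ?_⟩
      have h3 : sm univ (ch S') z ≤ sm univ (fun e => ch S0 e + al (S' \ S0) e) z :=
        sm_le _ _ _ _ (fun t _ e _ => (ch_diff S0 S' hS'1 e).1)
      rw [sm_add] at h3
      refine h3.trans (add_le_add_right ?_ _)
      rw [← vol_reg z W' d' hr' (S' \ S0) ((sdiff_subset).trans hS'2)]
      have h4 : ((S' \ S0).card : ℝ) = s - S0.card := by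
        rw [card_sdiff_of_subset hS'1, Nat.cast_sub (by rw [hS'3]; exact hle), hS'3]
      rw [h4]
      have := le_abs_self ((d' : ℝ) * s - d' * S0.card)
      linarith
  have hno' := hno S' hS'W (by rw [hS'c]; exact hs)
  rw [cut_eq, hS'c] at hno'
  rw [eχ] at hS'
  -- names
  obtain ⟨a, ha⟩ : ∃ a, a = sm (univ \ J) (fun _ => (1 : ℝ)) y := ⟨_, rfl⟩
  obtain ⟨b, hb⟩ : ∃ b, b = sm J (fun _ => (1 : ℝ)) y := ⟨_, rfl⟩
  obtain ⟨c, hc⟩ : ∃ c, c = sm J (fun _ => (1 : ℝ)) z := ⟨_, rfl⟩
  rw [← ha, ← hb] at s1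
  rw [← ha, ← hc] at s2
  rw [← hb] at hy u1 b0
  rw [← hc] at hz u2 u3 c0
  rw [s1] at hy ty
  rw [s2] at hz tz
  have dS : (d : ℝ) * S.card = 2 * δ * (a + b) := by
    rw [hSc]
    calc (d : ℝ) * (δ * W.card) = δ * (d * W.card) := by ring
      _ = 2 * δ * (a + b) := by rw [ty]; ring
  have ds : (d' : ℝ) * s = 2 * δ * (a + c) := by
    rw [hs]
    calc (d' : ℝ) * (δ * W'.card) = δ * (d' * W'.card) := by ring
      _ = 2 * δ * (a + c) := by rw [tz]; ring
  have hb1 : 1 - ε - η ≤ 1 := by linarith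
  have hg0 : 0 < m * (δ * (1 - ε - η)) := by linarith
  have hm0 : (0 : ℝ) < m := by
    rcases Nat.eq_zero_or_pos m with h | h
    · rw [h] at hm
      norm_num at hm
    · exact_mod_cast h
  have hd1 : 0 < δ * (1 - ε - η) := by
    by_contra hcon
    push Not at hcon
    have := mul_nonpos_of_nonneg_of_nonpos hm0.le hcon
    linarith
  have hd2 : 0 < 1 - ε - η := by
    by_contra hcon
    push Not at hcon
    have := mul_nonpos_of_nonneg_of_nonpos hδ.le hcon
    linarith
  have hd3 : δ * (1 - ε - η) ≤ 1 := by nlinarith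
  have hm6 : (8 : ℝ) < m := by
    have : (m : ℝ) * (δ * (1 - ε - η)) ≤ m * 1 := mul_le_mul_of_nonneg_left hd3 hm0.le
    linarith
  -- the difference of the volumes
  have habs : |(d' : ℝ) * s - d' * S0.card| ≤ 4 * (b + c) := by
    rw [abs_le]
    have hδb : δ * b ≤ b := by nlinarith
    have hδc : δ * c ≤ c := by nlinarith
    have hδb0 : 0 ≤ δ * b := mul_nonneg hδ.le b0
    have hδc0 : 0 ≤ δ * c := mul_nonneg hδ.le c0
    constructor
    · nlinarith
    · nlinarith
  -- the contradiction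
  have hda : 0 ≤ δ * (a + b) := by
    have h3 : 0 ≤ (d : ℝ) * S.card := by positivity
    linarith
  have k0 : (1 - η) * (2 * δ * (a + c)) ≤ ε * (2 * δ * (a + b)) + 5 * (b + c) := by
    rw [← dS, ← ds]
    have h3 : (1 - η) * ((d' : ℝ) * s) ≤ sm univ (ch S') z := hno'
    have h4 : sm univ (ch S) z ≤ ε * (d * S.card) + c := by
      rw [s6]
      linarith
    linarith
  have hη1 : η ≤ 1 := by linarith
  have k1 : (1 - η) * (2 * δ * a) ≤ ε * (2 * δ * a) + ε * (2 * δ) * b + 5 * (b + c) := by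
    have h3 : 0 ≤ (1 - η) * (2 * δ * c) := mul_nonneg (by linarith) (by positivity)
    nlinarith
  have k2 : 2 * δ * (1 - ε - η) * a ≤ 7 * (b + c) := by
    have hεδ : ε * (2 * δ) ≤ 2 := by nlinarith
    have h3 : ε * (2 * δ) * b ≤ 2 * b := mul_le_mul_of_nonneg_right hεδ b0
    nlinarith
  have k3 : (m - 1) * b ≤ a := by linarith
  have k4 : (m - 1) * c ≤ a := by linarith
  have ha0 : 0 < a := by
    by_contra hcon
    push Not at hcon
    have hbz : b ≤ 0 := by
      by_contra h4
      push Not at h4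
      have := mul_pos (by linarith : (0 : ℝ) < m - 1) h4
      linarith
    have h3 : 0 < (d : ℝ) * S.card := by
      have h4 := hr.one_le
      have : (1 : ℝ) ≤ d := by exact_mod_cast h4
      have : (1 : ℝ) ≤ S.card := by exact_mod_cast hS1
      positivity
    rw [dS] at h3
    have h5 : 0 < δ * (a + b) := by linarith
    have h6 : δ * (a + b) ≤ 0 := mul_nonpos_of_nonneg_of_nonpos hδ.le (by linarith)
    linarith
  have k5 : (m - 1) * (2 * δ * (1 - ε - η)) * a ≤ 14 * a := by
    calc (m - 1) * (2 * δ * (1 - ε - η)) * a = (m - 1) * (2 * δ * (1 - ε - η) * a) := by ring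
      _ ≤ (m - 1) * (7 * (b + c)) := mul_le_mul_of_nonneg_left k2 (by linarith)
      _ = 7 * ((m - 1) * b) + 7 * ((m - 1) * c) := by ring
      _ ≤ 7 * a + 7 * a := add_le_add (by linarith) (by linarith)
      _ = 14 * a := by ring
  have k6 := le_of_mul_le_mul_right k5 ha0
  have k7 : (m - 1) * (2 * δ * (1 - ε - η)) =
      2 * (m * (δ * (1 - ε - η))) - 2 * (δ * (1 - ε - η)) := by ring
  linarith

end Pool.Agent.X240.SH.GapSse
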