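import Pool.Agent.X240.SH.TrDefs

/-!
# Outputs as records of a weighted graph with a bound
-/

set_option autoImplicit false

open Finset

namespace Pool.Agent.X240.SH

variable {A : Type} {T : ℕ}

/-- The records which are written: a vertex with its weight, an edge, and the bound for the weight of
the vertex covers. -/
inductive VRec (A : Type) where
  /-- the vertex `u` has the weight `w` -/
  | vertex (u : A) (w : ℝ)
  /-- an edge between `u` and `v` -/
  | edge (u v : A)
  /-- the bound `t` -/
  | bound (t : ℝ)

/-- the record of the vertex `u` -/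
def VRec.IsVertex (u : A) (r : VRec A) : Prop := ∃ a, r = VRec.vertex u a

/-- the record of an edge with the end `u` -/
def VRec.IsEnd (u : A) (r : VRec A) : Prop := ∃ v, r = VRec.edge u v ∨ r = VRec.edge v u

/-- the record of the bound -/
def VRec.IsBound (r : VRec A) : Prop := ∃ t, r = VRec.bound t

open Classical in
/-- The number of the records of the output with the property `P`. -/
noncomputable def cntR (y : Fin T → List (VRec A)) (P : VRec A → Prop) : ℕ :=
  ∑ i, (y i).countP (fun r => decide (P r))

/-- A set of vertices, their weights, and a bound. -/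
structure VInst (A : Type) where
  /-- the vertices -/
  W : Finset A
  /-- the weights -/
  w : A → ℝ
  /-- the bound -/
  t : ℝ

/-- The output `y` consists of the records of a weighted graph whose degrees are at most `D` and of a
positive bound: each vertex and the bound are written exactly once. -/
structure Writes (y : Fin T → List (VRec A)) (G : VInst A) (D : ℕ) : Prop where
  nonneg : ∀ u, 0 ≤ G.w u
  pos : 0 < G.t
  vertex : ∀ i u a, VRec.vertex u a ∈ y i → u ∈ G.W ∧ G.w u = a
  edge : ∀ i u v, VRec.edge u v ∈ y i → u ∈ G.W ∧ v ∈ G.W
  bound : ∀ i t, VRec.bound t ∈ y i → t = G.t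
  once : ∀ u ∈ G.W, cntR y (VRec.IsVertex u) = 1
  onceB : cntR y VRec.IsBound = 1
  deg : ∀ u ∈ G.W, cntR y (VRec.IsEnd u) ≤ D

/-- The set `C` is a vertex cover of the written graph. -/
def CoversR (y : Fin T → List (VRec A)) (C : Finset A) : Prop :=
  ∀ i u v, VRec.edge u v ∈ y i → u ∈ C ∨ v ∈ C

/-- The output describes a weighted graph with degrees at most `D` which has a vertex cover of weight
at most the bound. -/
def VcYes (D : ℕ) (y : Fin T → List (VRec A)) : Prop :=
  ∃ G : VInst A, Writes y G D ∧ ∃ C ⊆ G.W, CoversR y C ∧ ∑ u ∈ C, G.w u ≤ G.t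

/-- The output describes a weighted graph with degrees at most `D` all of whose vertex covers have at
least `c` times the weight which is given by the bound. -/
def VcNo (D : ℕ) (c : ℝ) (y : Fin T → List (VRec A)) : Prop :=
  ∃ G : VInst A, Writes y G D ∧ ∀ C ⊆ G.W, CoversR y C → c * G.t ≤ ∑ u ∈ C, G.w u

end Pool.Agent.X240.SH
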