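import Pool.Agent.X240.SH.GapSse
import Pool.Agent.X240.SH.VcDefs

/-!
# Slow heads: vertex cover
-/

set_option autoImplicit false

open Finset

namespace Pool.Agent.X240.SH.GapVc

open Pool.Agent.X240.SH Pool.Agent.X240.SH.GapSse

variable {A E : Type} {T : ℕ}

theorem sm_sum {β : Type} (J : Finset (Fin T)) (X : Finset β) (f : β → E → ℝ)
    (y : Fin T → List E) : sm J (fun r => ∑ u ∈ X, f u r) y = ∑ u ∈ X, sm J (f u) y := by
  classical
  induction X using Finset.induction_on with
  | empty =>
    simp only [sum_empty]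
    unfold sm
    apply Finset.sum_eq_zero
    intro t _
    simp
  | insert a X ha ih =>
    rw [sum_insert ha, ← ih, ← sm_add]
    congr 1
    funext r
    rw [sum_insert ha]

open Classical in
theorem sm_ind (P : VRec A → Prop) (c : ℝ) (y : Fin T → List (VRec A)) :
    sm univ (fun r => if P r then c else 0) y = c * cntR y P := by
  have h : sm univ (fun r => if P r then c else 0) y =
      sm univ (fun r => c * (if P r then 1 else 0)) y := by
    apply sm_congr
    intro t _ r _
    split_ifs <;> simp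
  rw [h, sm_mul]
  congr 1
  unfold sm cntR
  push_cast
  apply Finset.sum_congr rfl
  intro t _
  rw [countP_sum]

/-- a single record -/
theorem single_le (J : Finset (Fin T)) (f : E → ℝ) (hf : ∀ r, 0 ≤ f r) (y : Fin T → List E)
    (i : Fin T) (hi : i ∈ J) (r : E) (hr : r ∈ y i) : f r ≤ sm J f y := by
  unfold sm
  have h1 : f r ≤ ((y i).map f).sum := by
    apply List.single_le_sum
    · intro x hx
      obtain ⟨e, -, rfl⟩ := List.mem_map.mp hx
      exact hf e
    · exact List.mem_map.mpr ⟨r, hr, rfl⟩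
  refine h1.trans (Finset.single_le_sum (f := fun i => ((y i).map f).sum) ?_ hi)
  intro j _
  apply List.sum_nonneg
  intro x hx
  obtain ⟨e, -, rfl⟩ := List.mem_map.mp hx
  exact hf e

open Classical in
/-- the sum over a set of vertices which have records -/
theorem sum_records (J : Finset (Fin T)) (X W : Finset A) (hX : X ⊆ W) (P : A → E → Prop)
    (g : A → ℝ) (hg : ∀ u, 0 ≤ g u) (y : Fin T → List E)
    (h : ∀ u ∈ X, ∃ i ∈ J, ∃ r ∈ y i, P u r) :
    ∑ u ∈ X, g u ≤ sm J (fun r => ∑ u ∈ W, if P u r then g u else 0) y := by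
  rw [sm_sum]
  have h1 : ∀ u ∈ X, g u ≤ sm J (fun r => if P u r then g u else 0) y := by
    intro u hu
    obtain ⟨i, hi, r, hr, hp⟩ := h u hu
    have h2 := single_le J (fun r => if P u r then g u else 0) (by
      intro r
      split_ifs
      · exact hg u
      · exact le_rfl) y i hi r hr
    simp only [if_pos hp] at h2
    exact h2
  refine (Finset.sum_le_sum h1).trans ?_
  apply Finset.sum_le_sum_of_subset_of_nonneg hX
  intro u _ _
  apply sm_nonneg
  intro r
  split_ifs
  · exact hg u
  · exact le_rfl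

/-- the smaller weight of the ends of an edge -/
noncomputable def me (G : VInst A) : VRec A → ℝ
  | VRec.vertex _ _ => 0
  | VRec.edge u v => min (G.w u) (G.w v)
  | VRec.bound _ => 0

open Classical in
/-- the sum of these weights at a vertex -/
noncomputable def mu (G : VInst A) (y : Fin T → List (VRec A)) (u : A) : ℝ :=
  sm univ (fun r => if VRec.IsEnd u r then me G r else 0) y

/-- the vertices -/
noncomputable def vm (G : VInst A) (y : Fin T → List (VRec A)) : VRec A → ℝ
  | VRec.vertex u _ => mu G y u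
  | VRec.edge _ _ => 0
  | VRec.bound _ => 0

/-- the bound -/
noncomputable def bm (G : VInst A) (y : Fin T → List (VRec A)) : VRec A → ℝ
  | VRec.vertex _ _ => 0
  | VRec.edge _ _ => 0
  | VRec.bound _ => sm univ (me G) y

/-- the masses -/
noncomputable def ms (G : VInst A) (y : Fin T → List (VRec A)) (r : VRec A) : ℝ :=
  me G r + vm G y r + bm G y r

theorem me_nonneg (G : VInst A) (hG : ∀ u, 0 ≤ G.w u) (r : VRec A) : 0 ≤ me G r := by
  cases r with
  | vertex u a => exact le_rfl
  | edge u v => exact le_min (hG u) (hG v)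
  | bound t => exact le_rfl

open Classical in
theorem mu_nonneg (G : VInst A) (hG : ∀ u, 0 ≤ G.w u) (y : Fin T → List (VRec A)) (u : A) :
    0 ≤ mu G y u := by
  unfold mu
  apply sm_nonneg
  intro r
  split_ifs
  · exact me_nonneg G hG r
  · exact le_rfl

theorem vm_nonneg (G : VInst A) (hG : ∀ u, 0 ≤ G.w u) (y : Fin T → List (VRec A)) (r : VRec A) :
    0 ≤ vm G y r := by
  cases r with
  | vertex u a => exact mu_nonneg G hG y u
  | edge u v => exact le_rfl
  | bound t => exact le_rfl

theorem bm_nonneg (G : VInst A) (hG : ∀ u, 0 ≤ G.w u) (y : Fin T → List (VRec A)) (r : VRec A) :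
    0 ≤ bm G y r := by
  cases r with
  | vertex u a => exact le_rfl
  | edge u v => exact le_rfl
  | bound t => exact sm_nonneg _ _ _ (me_nonneg G hG)

theorem ms_nonneg (G : VInst A) (hG : ∀ u, 0 ≤ G.w u) (y : Fin T → List (VRec A)) (r : VRec A) :
    0 ≤ ms G y r :=
  add_nonneg (add_nonneg (me_nonneg G hG r) (vm_nonneg G hG y r)) (bm_nonneg G hG y r)

open Classical in
theorem end_sum (G : VInst A) (hG : ∀ u, 0 ≤ G.w u) (X : Finset A) (r : VRec A) :
    ∑ u ∈ X, (if VRec.IsEnd u r then me G r else 0) ≤ 2 * me G r := by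
  cases r with
  | vertex u a =>
    apply le_of_eq
    simp [me]
  | bound t =>
    apply le_of_eq
    simp [me]
  | edge v v' =>
    have h0 := me_nonneg G hG (VRec.edge v v')
    have h1 : ∀ u ∈ X, (if VRec.IsEnd u (VRec.edge v v') then me G (VRec.edge v v') else 0) ≤
        (if v = u then me G (VRec.edge v v') else 0) +
          (if v' = u then me G (VRec.edge v v') else 0) := by
      intro u _
      by_cases h : VRec.IsEnd u (VRec.edge v v')
      · rw [if_pos h]
        obtain ⟨w, h2 | h2⟩ := h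
        · rw [VRec.edge.injEq] at h2
          rw [if_pos h2.1]
          split_ifs <;> linarith
        · rw [VRec.edge.injEq] at h2
          rw [if_pos h2.2]
          split_ifs <;> linarith
      · rw [if_neg h]
        split_ifs <;> linarith
    refine (Finset.sum_le_sum h1).trans ?_
    rw [Finset.sum_add_distrib, Finset.sum_ite_eq, Finset.sum_ite_eq]
    split_ifs <;> linarith

open Classical in
theorem vm_eq (G : VInst A) (y : Fin T → List (VRec A)) (X : Finset A) (r : VRec A)
    (hr : ∀ u a, r = VRec.vertex u a → u ∈ X) :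
    vm G y r = ∑ u ∈ X, (if VRec.IsVertex u r then mu G y u else 0) := by
  cases r with
  | vertex v a =>
    have h1 : ∀ u ∈ X, (if VRec.IsVertex u (VRec.vertex v a) then mu G y u else 0) =
        (if v = u then mu G y u else 0) := by
      intro u _
      apply if_congr _ rfl rfl
      constructor
      · rintro ⟨b, hb⟩
        rw [VRec.vertex.injEq] at hb
        exact hb.1
      · intro h
        exact ⟨a, by rw [h]⟩
    rw [Finset.sum_congr rfl h1, Finset.sum_ite_eq, if_pos (hr v a rfl)]
    rfl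
  | edge u v =>
    symm
    apply Finset.sum_eq_zero
    intro w _
    rw [if_neg]
    rintro ⟨b, hb⟩
    cases hb
  | bound t =>
    symm
    apply Finset.sum_eq_zero
    intro w _
    rw [if_neg]
    rintro ⟨b, hb⟩
    cases hb

/-- the total mass -/
theorem total_mass (G : VInst A) (D : ℕ) (y : Fin T → List (VRec A)) (h : Writes y G D) :
    sm univ (ms G y) y ≤ 4 * sm univ (me G) y := by
  classical
  have e : sm univ (ms G y) y = sm univ (me G) y + sm univ (vm G y) y + sm univ (bm G y) y := by
    rw [← sm_add, ← sm_add]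
    rfl
  have hb : sm univ (bm G y) y = sm univ (me G) y := by
    have h1 : sm univ (bm G y) y =
        sm univ (fun r => if VRec.IsBound r then sm univ (me G) y else 0) y := by
      apply sm_congr
      intro t _ r _
      cases r with
      | vertex u a =>
        rw [if_neg]
        · rfl
        · rintro ⟨b, hb⟩
          cases hb
      | edge u v =>
        rw [if_neg]
        · rfl
        · rintro ⟨b, hb⟩
          cases hb
      | bound s =>
        rw [if_pos ⟨s, rfl⟩]
        rfl
    rw [h1, sm_ind, h.onceB, Nat.cast_one, mul_one]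
  have hv : sm univ (vm G y) y ≤ 2 * sm univ (me G) y := by
    have h1 : sm univ (vm G y) y =
        sm univ (fun r => ∑ u ∈ G.W, (if VRec.IsVertex u r then mu G y u else 0)) y := by
      apply sm_congr
      intro t _ r hr
      apply vm_eq
      intro u a hra
      rw [hra] at hr
      exact (h.vertex t u a hr).1
    have h2 : ∑ u ∈ G.W, sm univ (fun r => if VRec.IsVertex u r then mu G y u else 0) y =
        ∑ u ∈ G.W, mu G y u := by
      apply Finset.sum_congr rfl
      intro u hu
      rw [sm_ind, h.once u hu, Nat.cast_one, mul_one]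
    rw [h1, sm_sum, h2]
    have h3 : ∑ u ∈ G.W, mu G y u =
        sm univ (fun r => ∑ u ∈ G.W, (if VRec.IsEnd u r then me G r else 0)) y := by
      rw [sm_sum]
      rfl
    rw [h3, ← sm_mul]
    exact sm_le _ _ _ _ (fun t _ r _ => end_sum G h.nonneg G.W r)
  rw [e]
  linarith

/-- the cheaper end of an edge -/
def IsCh (G : VInst A) (u : A) (r : VRec A) : Prop :=
  ∃ v, (r = VRec.edge u v ∨ r = VRec.edge v u) ∧ me G r = G.w u ∧
    ∀ u', (∃ v', r = VRec.edge u' v' ∨ r = VRec.edge v' u') → G.w u < G.w u' ∨ u' = u ∨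
      (G.w u' = G.w u ∧ r = VRec.edge u u')

open Classical in
theorem ch_sum (G : VInst A) (hG : ∀ u, 0 ≤ G.w u) (X : Finset A) (r : VRec A) :
    ∑ u ∈ X, (if IsCh G u r then G.w u else 0) ≤ me G r := by
  rcases Classical.em (∃ u ∈ X, IsCh G u r) with ⟨u, hu, hur⟩ | h
  · have h1 : ∀ u' ∈ X, u' ≠ u → (if IsCh G u' r then G.w u' else 0) = 0 := by
      intro u' _ hne
      rw [if_neg]
      intro hu'
      obtain ⟨v, hv1, hv2, hv3⟩ := hur
      obtain ⟨v', hv1', hv2', hv3'⟩ := hu'
      rcases hv3 u' ⟨v', hv1'⟩ with h2 | h2 | ⟨h2, h3⟩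
      · rw [← hv2, ← hv2'] at h2
        exact lt_irrefl _ h2
      · exact hne h2
      · rcases hv3' u ⟨v, hv1⟩ with h4 | h4 | ⟨h4, h5⟩
        · rw [← hv2, ← hv2'] at h4
          exact lt_irrefl _ h4
        · exact hne h4.symm
        · rw [h3, VRec.edge.injEq] at h5
          exact hne h5.1.symm
    rw [Finset.sum_eq_single_of_mem u hu h1, if_pos hur]
    obtain ⟨v, hv1, hv2, hv3⟩ := hur
    exact hv2.ge
  · have h1 : ∑ u ∈ X, (if IsCh G u r then G.w u else 0) = 0 := by
      apply Finset.sum_eq_zero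
      intro u hu
      rw [if_neg]
      intro h2
      exact h ⟨u, hu, h2⟩
    rw [h1]
    exact me_nonneg G hG r

theorem exists_ch (G : VInst A) (u v : A) : ∃ w, (w = u ∨ w = v) ∧ IsCh G w (VRec.edge u v) := by
  rcases le_or_gt (G.w u) (G.w v) with h | h
  · refine ⟨u, Or.inl rfl, v, Or.inl rfl, min_eq_left h, ?_⟩
    rintro u' ⟨v', h1 | h1⟩
    · rw [VRec.edge.injEq] at h1
      exact Or.inr (Or.inl h1.1.symm)
    · rw [VRec.edge.injEq] at h1
      rw [← h1.2]
      rcases h.lt_or_eq with h2 | h2
      · exact Or.inl h2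
      · exact Or.inr (Or.inr ⟨h2.symm, rfl⟩)
  · refine ⟨v, Or.inr rfl, u, Or.inr rfl, min_eq_right h.le, ?_⟩
    rintro u' ⟨v', h1 | h1⟩
    · rw [VRec.edge.injEq] at h1
      rw [← h1.1]
      exact Or.inl h
    · rw [VRec.edge.injEq] at h1
      exact Or.inr (Or.inl h1.2.symm)

/-- a cover is not much lighter than the sum of the smaller weights -/
theorem me_le (G : VInst A) (D : ℕ) (y : Fin T → List (VRec A)) (h : Writes y G D) (C : Finset A)
    (hC : C ⊆ G.W) (hc : CoversR y C) : sm univ (me G) y ≤ D * ∑ u ∈ C, G.w u := by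
  classical
  have h1 : sm univ (me G) y ≤ sm univ (fun r => ∑ u ∈ C, if VRec.IsEnd u r then G.w u else 0) y := by
    apply sm_le
    intro i _ r hr
    have h0 : ∀ u ∈ C, 0 ≤ (if VRec.IsEnd u r then G.w u else 0) := by
      intro u _
      split_ifs
      · exact h.nonneg u
      · exact le_rfl
    cases r with
    | vertex u a => exact Finset.sum_nonneg h0
    | bound t => exact Finset.sum_nonneg h0
    | edge u v =>
      rcases hc i u v hr with h2 | h2
      · have h3 := Finset.single_le_sum h0 h2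
        rw [if_pos ⟨v, Or.inl rfl⟩] at h3
        exact (min_le_left _ _).trans h3
      · have h3 := Finset.single_le_sum h0 h2
        rw [if_pos ⟨u, Or.inr rfl⟩] at h3
        exact (min_le_right _ _).trans h3
  refine h1.trans ?_
  rw [sm_sum, mul_sum]
  apply Finset.sum_le_sum
  intro u hu
  rw [sm_ind, mul_comm]
  apply mul_le_mul_of_nonneg_right _ (h.nonneg u)
  exact_mod_cast h.deg u (hC hu)

theorem exists_of_cnt (y : Fin T → List (VRec A)) (P : VRec A → Prop) (h : cntR y P = 1) :
    ∃ i, ∃ r ∈ y i, P r := by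
  classical
  by_contra hcon
  push Not at hcon
  have : cntR y P = 0 := by
    unfold cntR
    apply Finset.sum_eq_zero
    intro i _
    rw [List.countP_eq_zero]
    intro r hr
    simp only [decide_eq_true_eq]
    exact hcon i r hr
  omega

/-- the instance is determined by the output -/
theorem writes_uniq (y : Fin T → List (VRec A)) (G G' : VInst A) (D : ℕ) (h : Writes y G D)
    (h' : Writes y G' D) : G.W ⊆ G'.W ∧ (∀ u ∈ G.W, G'.w u = G.w u) ∧ G'.t = G.t := by
  refine ⟨?_, ?_, ?_⟩
  · intro u hu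
    obtain ⟨i, r, hr, a, ha⟩ := exists_of_cnt y _ (h.once u hu)
    rw [ha] at hr
    exact (h'.vertex i u a hr).1
  · intro u hu
    obtain ⟨i, r, hr, a, ha⟩ := exists_of_cnt y _ (h.once u hu)
    rw [ha] at hr
    rw [(h'.vertex i u a hr).2, (h.vertex i u a hr).2]
  · obtain ⟨i, r, hr, t, ht⟩ := exists_of_cnt y _ h.onceB
    rw [ht] at hr
    rw [← h'.bound i t hr, ← h.bound i t hr]

open Classical in
/-- the weights of the steps -/
noncomputable def wtV (D : ℕ) (y : Fin T → List (VRec A)) (i : Fin T) : ℝ :=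
  if h : ∃ G : VInst A, Writes y G D then ((y i).map (ms h.choose y)).sum else 0

open Classical in
theorem wtV_nonneg (D : ℕ) (y : Fin T → List (VRec A)) (i : Fin T) : 0 ≤ wtV D y i := by
  unfold wtV
  split_ifs with h
  · apply List.sum_nonneg
    intro x hx
    obtain ⟨r, -, rfl⟩ := List.mem_map.mp hx
    exact ms_nonneg _ h.choose_spec.nonneg _ _
  · exact le_rfl

/-- a yes instance and a no instance do not agree outside of a light set -/
theorem gap_vc (D m : ℕ) (c : ℝ) (hc : 1 < c) (hm : 4 * D * c < m * (c - 1))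
    (y z : Fin T → List (VRec A)) (J : Finset (Fin T)) (hJ : ∀ t, t ∉ J → y t = z t)
    (hz : (m : ℝ) * ∑ t ∈ J, wtV D z t ≤ ∑ t, wtV D z t)
    (h1 : VcYes D y) (h2 : VcNo D c z) : False := by
  classical
  obtain ⟨Gy, hGy, C, hCW, hC, hCt⟩ := h1
  obtain ⟨G0, hG0, hno0⟩ := h2
  have hex : ∃ G : VInst A, Writes z G D := ⟨G0, hG0⟩
  obtain ⟨G, hGdef⟩ : ∃ G, G = hex.choose := ⟨_, rfl⟩
  have hG : Writes z G D := by rw [hGdef]; exact hex.choose_spec
  obtain ⟨u1, u2, u3⟩ := writes_uniq z G G0 D hG hG0
  have hno : ∀ C ⊆ G.W, CoversR z C → c * G.t ≤ ∑ u ∈ C, G.w u := by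
    intro C hC1 hC2
    have h3 := hno0 C (hC1.trans u1) hC2
    rw [u3] at h3
    rw [Finset.sum_congr rfl (fun u hu => u2 u (hC1 hu))] at h3
    exact h3
  have hw : ∀ K : Finset (Fin T), ∑ t ∈ K, wtV D z t = sm K (ms G z) z := by
    intro K
    unfold sm
    apply Finset.sum_congr rfl
    intro t _
    unfold wtV
    rw [dif_pos hex, hGdef]
  rw [hw, hw] at hz
  have htot := total_mass G D z hG
  -- the cheaper ends of all edges
  obtain ⟨X0, hX0⟩ : ∃ X0 : Finset A, X0 = G.W.filter (fun u => ∃ i, ∃ r ∈ z i, IsCh G u r) :=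
    ⟨_, rfl⟩
  have hX0c : CoversR z X0 := by
    intro i u v huv
    obtain ⟨x, hx1, hx2⟩ := exists_ch G u v
    have hxW : x ∈ G.W := by
      rcases hx1 with rfl | rfl
      · exact (hG.edge i _ v huv).1
      · exact (hG.edge i u _ huv).2
    have hxX : x ∈ X0 := by
      rw [hX0]
      exact mem_filter.mpr ⟨hxW, i, _, huv, hx2⟩
    rcases hx1 with rfl | rfl
    · exact Or.inl hxX
    · exact Or.inr hxX
  have hX0W : X0 ⊆ G.W := by rw [hX0]; exact filter_subset _ _
  have hW0 : 0 < sm univ (me G) z := by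
    have h3 := hno X0 hX0W hX0c
    have h4 : ∑ u ∈ X0, G.w u ≤ sm univ (me G) z := by
      refine (sum_records univ X0 G.W hX0W (IsCh G) G.w hG.nonneg z ?_).trans ?_
      · intro u hu
        rw [hX0, mem_filter] at hu
        obtain ⟨-, i, r, hr, hur⟩ := hu
        exact ⟨i, mem_univ _, r, hr, hur⟩
      · exact sm_le _ _ _ _ (fun t _ r _ => ch_sum G hG.nonneg G.W r)
    have h5 := mul_pos (by linarith : (0 : ℝ) < c) hG.pos
    linarith
  have hD : 1 ≤ D := by
    rcases Nat.eq_zero_or_pos D with h | h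
    · exfalso
      have h3 := me_le G D z hG X0 hX0W hX0c
      rw [h, Nat.cast_zero, zero_mul] at h3
      linarith
    · exact h
  have hDr : (1 : ℝ) ≤ D := by exact_mod_cast hD
  have hm4 : (4 : ℝ) < m := by
    by_contra hcon
    push Not at hcon
    have h3 : (m : ℝ) * (c - 1) ≤ 4 * (c - 1) := mul_le_mul_of_nonneg_right hcon (by linarith)
    have h4 : 4 * c ≤ 4 * D * c := by nlinarith
    linarith
  -- the bound is written outside of `J`
  have hbd : G.t = Gy.t := by
    obtain ⟨i, r, hr, s, hs⟩ := exists_of_cnt z _ hG.onceB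
    by_cases hi : i ∈ J
    · exfalso
      have h3 := single_le J (ms G z) (ms_nonneg G hG.nonneg z) z i hi r hr
      have h4 : sm univ (me G) z ≤ ms G z r := by
        rw [hs]
        unfold ms
        have : bm G z (VRec.bound s) = sm univ (me G) z := rfl
        rw [this]
        have h5 := me_nonneg G hG.nonneg (VRec.bound s)
        have h6 := vm_nonneg G hG.nonneg z (VRec.bound s)
        linarith
      have h7 : (m : ℝ) * sm univ (me G) z ≤ 4 * sm univ (me G) z := by
        calc (m : ℝ) * sm univ (me G) z ≤ m * sm J (ms G z) z :=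
              mul_le_mul_of_nonneg_left (h4.trans h3) (Nat.cast_nonneg _)
          _ ≤ _ := hz.trans htot
      have h8 := le_of_mul_le_mul_right h7 hW0
      linarith
    · rw [hs] at hr
      have h3 := hG.bound i s hr
      rw [← hJ i hi] at hr
      rw [← h3, hGy.bound i s hr]
  -- the vertices which are written outside of `J`
  obtain ⟨Vc, hVc⟩ : ∃ Vc : Finset A,
      Vc = G.W.filter (fun u => ∃ i, i ∉ J ∧ ∃ a, VRec.vertex u a ∈ z i) := ⟨_, rfl⟩
  obtain ⟨B, hB⟩ : ∃ B : Finset A, B = G.W \ Vc := ⟨_, rfl⟩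
  have hwVc : ∀ u ∈ Vc, G.w u = Gy.w u ∧ u ∈ Gy.W := by
    intro u hu
    rw [hVc, mem_filter] at hu
    obtain ⟨-, i, hi, a, ha⟩ := hu
    have h3 := (hG.vertex i u a ha).2
    rw [← hJ i hi] at ha
    have h4 := hGy.vertex i u a ha
    exact ⟨by rw [h3, h4.2], h4.1⟩
  obtain ⟨X1, hX1⟩ : ∃ X1 : Finset A,
      X1 = G.W.filter (fun u => ∃ i ∈ J, ∃ r ∈ z i, IsCh G u r) := ⟨_, rfl⟩
  obtain ⟨X2, hX2⟩ : ∃ X2 : Finset A, X2 = G.W.filter (fun u => ∃ i ∈ (univ : Finset (Fin T)),
      ∃ r ∈ z i, (∃ v ∈ B, VRec.IsEnd v r) ∧ IsCh G u r) := ⟨_, rfl⟩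
  obtain ⟨C', hC'⟩ : ∃ C' : Finset A, C' = (C ∩ Vc) ∪ (X1 ∪ X2) := ⟨_, rfl⟩
  have hC'W : C' ⊆ G.W := by
    rw [hC', hX1, hX2, hVc]
    apply union_subset
    · exact inter_subset_right.trans (filter_subset _ _)
    · exact union_subset (filter_subset _ _) (filter_subset _ _)
  have hC'c : CoversR z C' := by
    intro i u v huv
    obtain ⟨huW, hvW⟩ := hG.edge i u v huv
    have hch : ∀ X : Finset A, X ⊆ C' → (∀ x, (x = u ∨ x = v) → IsCh G x (VRec.edge u v) → x ∈ X) →
        u ∈ C' ∨ v ∈ C' := by
      intro X hX h3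
      obtain ⟨x, hx1, hx2⟩ := exists_ch G u v
      have h4 := hX (h3 x hx1 hx2)
      rcases hx1 with rfl | rfl
      · exact Or.inl h4
      · exact Or.inr h4
    by_cases hi : i ∈ J
    · apply hch X1
      · rw [hC']
        exact subset_union_left.trans subset_union_right
      · intro x hx1 hx2
        rw [hX1, mem_filter]
        refine ⟨?_, i, hi, _, huv, hx2⟩
        rcases hx1 with rfl | rfl
        · exact huW
        · exact hvW
    · by_cases hbad : ∃ x ∈ B, VRec.IsEnd x (VRec.edge u v)
      · apply hch X2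
        · rw [hC']
          exact subset_union_right.trans subset_union_right
        · intro x hx1 hx2
          rw [hX2, mem_filter]
          refine ⟨?_, i, mem_univ _, _, huv, hbad, hx2⟩
          rcases hx1 with rfl | rfl
          · exact huW
          · exact hvW
      · have huV : u ∈ Vc := by
          by_contra h3
          apply hbad
          refine ⟨u, ?_, v, Or.inl rfl⟩
          rw [hB, mem_sdiff]
          exact ⟨huW, h3⟩
        have hvV : v ∈ Vc := by
          by_contra h3
          apply hbad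
          refine ⟨v, ?_, u, Or.inr rfl⟩
          rw [hB, mem_sdiff]
          exact ⟨hvW, h3⟩
        have h3 : VRec.edge u v ∈ y i := by rw [hJ i hi]; exact huv
        rw [hC']
        rcases hC i u v h3 with h4 | h4
        · exact Or.inl (mem_union_left _ (mem_inter.mpr ⟨h4, huV⟩))
        · exact Or.inr (mem_union_left _ (mem_inter.mpr ⟨h4, hvV⟩))
  -- the weights
  have w1 : ∑ u ∈ C ∩ Vc, G.w u ≤ Gy.t := by
    rw [Finset.sum_congr rfl (fun u hu => (hwVc u (mem_inter.mp hu).2).1)]
    refine le_trans ?_ hCt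
    exact Finset.sum_le_sum_of_subset_of_nonneg inter_subset_left (fun u _ _ => hGy.nonneg u)
  have w2 : ∑ u ∈ X1, G.w u ≤ sm J (me G) z := by
    refine (sum_records J X1 G.W (by rw [hX1]; exact filter_subset _ _) (IsCh G) G.w hG.nonneg z
      ?_).trans ?_
    · intro u hu
      rw [hX1, mem_filter] at hu
      exact hu.2
    · exact sm_le _ _ _ _ (fun t _ r _ => ch_sum G hG.nonneg G.W r)
  obtain ⟨P2, hP2⟩ : ∃ P2 : A → VRec A → Prop,
      P2 = fun u r => (∃ v ∈ B, VRec.IsEnd v r) ∧ IsCh G u r := ⟨_, rfl⟩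
  have w3 : ∑ u ∈ X2, G.w u ≤ ∑ u ∈ B, mu G z u := by
    refine (sum_records univ X2 G.W (by rw [hX2]; exact filter_subset _ _)
      P2 G.w hG.nonneg z ?_).trans ?_
    · intro u hu
      rw [hX2, mem_filter] at hu
      rw [hP2]
      exact hu.2
    · have h3 : ∑ u ∈ B, mu G z u =
          sm univ (fun r => ∑ u ∈ B, (if VRec.IsEnd u r then me G r else 0)) z := by
        rw [sm_sum]
        rfl
      rw [h3]
      apply sm_le
      intro i _ r _
      by_cases hbad : ∃ v ∈ B, VRec.IsEnd v r
      · have h4 : ∀ u ∈ G.W, (if P2 u r then G.w u else 0) =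
            (if IsCh G u r then G.w u else 0) := by
          intro u _
          apply if_congr _ rfl rfl
          rw [hP2]
          exact ⟨fun h => h.2, fun h => ⟨hbad, h⟩⟩
        rw [Finset.sum_congr rfl h4]
        refine (ch_sum G hG.nonneg G.W r).trans ?_
        obtain ⟨v, hvB, hv⟩ := hbad
        have h5 := Finset.single_le_sum (f := fun u => if VRec.IsEnd u r then me G r else 0)
          (s := B) (by
            intro u _
            split_ifs
            · exact me_nonneg G hG.nonneg r
            · exact le_rfl) hvB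
        simp only [if_pos hv] at h5
        exact h5
      · have h4 : ∑ u ∈ G.W, (if P2 u r then G.w u else 0) = 0 := by
          apply Finset.sum_eq_zero
          intro u _
          rw [if_neg]
          rw [hP2]
          rintro ⟨h5, -⟩
          exact hbad h5
        rw [h4]
        apply Finset.sum_nonneg
        intro u _
        split_ifs
        · exact me_nonneg G hG.nonneg r
        · exact le_rfl
  have w4 : ∑ u ∈ B, mu G z u ≤ sm J (vm G z) z := by
    refine (sum_records J B G.W (by rw [hB]; exact sdiff_subset) VRec.IsVertex (mu G z)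
      (mu_nonneg G hG.nonneg z) z ?_).trans ?_
    · intro u hu
      rw [hB, mem_sdiff] at hu
      obtain ⟨i, r, hr, a, ha⟩ := exists_of_cnt z _ (hG.once u hu.1)
      refine ⟨i, ?_, r, hr, a, ha⟩
      by_contra hi
      apply hu.2
      rw [hVc, mem_filter]
      rw [ha] at hr
      exact ⟨hu.1, i, hi, a, hr⟩
    · apply le_of_eq
      apply sm_congr
      intro i _ r hr
      symm
      apply vm_eq
      intro u a hra
      rw [hra] at hr
      exact (hG.vertex i u a hr).1
  have w5 : sm J (me G) z + sm J (vm G z) z ≤ sm J (ms G z) z := by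
    rw [← sm_add]
    apply sm_le
    intro i _ r _
    have := bm_nonneg G hG.nonneg z r
    unfold ms
    linarith
  have w6 : ∑ u ∈ C', G.w u ≤ G.t + sm J (ms G z) z := by
    have h3 : ∑ u ∈ C', G.w u ≤ ∑ u ∈ C ∩ Vc, G.w u + (∑ u ∈ X1, G.w u + ∑ u ∈ X2, G.w u) := by
      rw [hC']
      have h4 : ∀ P Q : Finset A, ∑ u ∈ P ∪ Q, G.w u ≤ ∑ u ∈ P, G.w u + ∑ u ∈ Q, G.w u := by
        intro P Q
        rw [← Finset.sum_union_inter]
        have : 0 ≤ ∑ u ∈ P ∩ Q, G.w u := Finset.sum_nonneg (fun u _ => hG.nonneg u)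
        linarith
      refine (h4 _ _).trans (add_le_add_right (h4 _ _) _)
    rw [hbd]
    linarith
  have w7 := me_le G D z hG C' hC'W hC'c
  have w8 := hno C' hC'W hC'c
  obtain ⟨s, hs⟩ : ∃ s, s = ∑ u ∈ C', G.w u := ⟨_, rfl⟩
  rw [← hs] at w6 w7 w8
  have hs0 : 0 < s := by
    have := mul_pos (by linarith : (0 : ℝ) < c) hG.pos
    linarith
  have hm0 : (0 : ℝ) < m := by linarith
  have k1 : (m : ℝ) * s ≤ m * G.t + 4 * D * s := by
    have h3 : (m : ℝ) * sm J (ms G z) z ≤ 4 * (D * s) := by linarith
    have h4 : (m : ℝ) * s ≤ m * (G.t + sm J (ms G z) z) := mul_le_mul_of_nonneg_left w6 hm0.le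
    linarith
  have k2 : c * ((m : ℝ) * s) ≤ m * s + c * (4 * D * s) := by
    have h3 := mul_le_mul_of_nonneg_left k1 (by linarith : (0 : ℝ) ≤ c)
    have h4 : (m : ℝ) * (c * G.t) ≤ m * s := mul_le_mul_of_nonneg_left w8 hm0.le
    linarith
  have k3 : (m * (c - 1)) * s ≤ (4 * D * c) * s := by linarith
  have k4 := le_of_mul_le_mul_right k3 hs0
  linarith

end Pool.Agent.X240.SH.GapVc
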