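import Mathlib

/-!
# Inner products modulo two on a part of the bits
-/

set_option autoImplicit false

open Finset

namespace Pool.Agent.X240.SH

/-- the sign of a bit -/
def sgb (b : Bool) : ℝ := if b then -1 else 1

theorem sgb_sq (b : Bool) : sgb b * sgb b = 1 := by
  cases b <;> norm_num [sgb]

theorem abs_sgb (b : Bool) : |sgb b| = 1 := by
  cases b <;> norm_num [sgb]

theorem sgb_four (x y u v : Bool) : sgb ((xor x u) && (xor y v)) =
    sgb (x && y) * sgb (u && y) * sgb (x && v) * sgb (u && v) := by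
  cases x <;> cases y <;> cases u <;> cases v <;> norm_num [sgb]

theorem sgb_xor (x y : Bool) : sgb (xor x y) = sgb x * sgb y := by
  cases x <;> cases y <;> norm_num [sgb]

variable {ι : Type} [Fintype ι] [DecidableEq ι]

theorem sum_prod_bool (f : ι → Bool → ℝ) :
    ∑ u : ι → Bool, ∏ i, f i (u i) = ∏ i, (f i true + f i false) := by
  have h := (Finset.prod_univ_sum (fun _ : ι => (univ : Finset Bool)) f).symm
  rw [Fintype.piFinset_univ] at h
  rw [h]
  apply Finset.prod_congr rfl
  intro i _
  rw [Fintype.sum_bool]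

/-- the kernel -/
theorem kernel (S : Finset ι) (v v' : ι → Bool) :
    ∑ u : ι → Bool, ((∏ i ∈ S, sgb (u i && v i)) * ∏ i ∈ S, sgb (u i && v' i)) =
      if ∀ i ∈ S, v' i = v i then (2 : ℝ) ^ Fintype.card ι else 0 := by
  have h1 : ∀ u : ι → Bool, (∏ i ∈ S, sgb (u i && v i)) * ∏ i ∈ S, sgb (u i && v' i) =
      ∏ i, (if i ∈ S then sgb (u i && v i) * sgb (u i && v' i) else 1) := by
    intro u
    rw [← Finset.prod_mul_distrib, Finset.prod_ite_mem, univ_inter]
  rw [Finset.sum_congr rfl (fun u _ => h1 u),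
    sum_prod_bool (fun i b => if i ∈ S then sgb (b && v i) * sgb (b && v' i) else 1)]
  split_ifs with h
  · have h2 : ∀ i ∈ (univ : Finset ι), ((if i ∈ S then sgb (true && v i) * sgb (true && v' i) else 1) +
        (if i ∈ S then sgb (false && v i) * sgb (false && v' i) else 1)) = (2 : ℝ) := by
      intro i _
      split_ifs with hi
      · rw [h i hi, sgb_sq, sgb_sq]
        norm_num
      · norm_num
    rw [Finset.prod_congr rfl h2, prod_const, card_univ]
  · push Not at h
    obtain ⟨i, hi, hne⟩ := h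
    apply Finset.prod_eq_zero (mem_univ i)
    rw [if_pos hi, if_pos hi]
    revert hne
    cases v i <;> cases v' i <;> norm_num [sgb]

/-- the number of functions which agree with a given one on `S` -/
theorem card_agree (S : Finset ι) (v : ι → Bool) :
    (∑ v' : ι → Bool, if ∀ i ∈ S, v' i = v i then (1 : ℝ) else 0) * 2 ^ S.card =
      2 ^ Fintype.card ι := by
  have h1 : ∀ v' : ι → Bool, (if ∀ i ∈ S, v' i = v i then (1 : ℝ) else 0) =
      ∏ i, (if i ∈ S then (if v' i = v i then 1 else 0) else 1) := by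
    intro v'
    rw [Finset.prod_ite_mem, univ_inter]
    by_cases h : ∀ i ∈ S, v' i = v i
    · rw [if_pos h]
      symm
      apply Finset.prod_eq_one
      intro i hi
      rw [if_pos (h i hi)]
    · rw [if_neg h]
      push Not at h
      obtain ⟨i, hi, hne⟩ := h
      symm
      apply Finset.prod_eq_zero hi
      rw [if_neg hne]
  rw [Finset.sum_congr rfl (fun u _ => h1 u),
    sum_prod_bool (fun i b => if i ∈ S then (if b = v i then (1 : ℝ) else 0) else 1)]
  have h2 : ∀ i ∈ (univ : Finset ι),
      ((if i ∈ S then (if true = v i then (1 : ℝ) else 0) else 1) +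
        (if i ∈ S then (if false = v i then (1 : ℝ) else 0) else 1)) = if i ∈ S then 1 else 2 := by
    intro i _
    by_cases hi : i ∈ S
    · rw [if_pos hi, if_pos hi, if_pos hi]
      cases v i <;> simp
    · rw [if_neg hi, if_neg hi, if_neg hi]
      norm_num
  rw [Finset.prod_congr rfl h2, Finset.prod_ite, prod_const_one, one_mul, prod_const]
  have h3 := Finset.card_filter_add_card_filter_not (s := (univ : Finset ι)) (fun i => i ∈ S)
  rw [card_univ] at h3
  have h4 : (univ.filter (fun i => i ∈ S)).card = S.card := by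
    congr 1
    ext i
    simp
  rw [h4] at h3
  rw [← pow_add, ← h3]
  congr 1
  omega

/-- **The lemma of Lindsey on a part of the bits.** -/
theorem lindsey (S : Finset ι) (g h : (ι → Bool) → ℝ) (hg : ∀ u, |g u| ≤ 1)
    (hh : ∀ v, |h v| ≤ 1) :
    (∑ u, ∑ v, g u * h v * ∏ i ∈ S, sgb (u i && v i)) ^ 2 * 2 ^ S.card
      ≤ (((2 : ℝ) ^ Fintype.card ι) ^ 2) ^ 2 := by
  obtain ⟨N, hN⟩ : ∃ N : ℝ, N = 2 ^ Fintype.card ι := ⟨_, rfl⟩
  have hN0 : 0 < N := by rw [hN]; positivity
  have hcard : ((univ : Finset (ι → Bool)).card : ℝ) = N := by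
    rw [card_univ, Fintype.card_fun, Fintype.card_bool, hN]
    push_cast
    rfl
  rw [← hN]
  obtain ⟨T, hT⟩ : ∃ T : (ι → Bool) → ℝ, T = fun u => ∑ v, h v * ∏ i ∈ S, sgb (u i && v i) :=
    ⟨_, rfl⟩
  have e1 : ∑ u, ∑ v, g u * h v * ∏ i ∈ S, sgb (u i && v i) = ∑ u, g u * T u := by
    apply Finset.sum_congr rfl
    intro u _
    rw [hT]
    simp only
    rw [mul_sum]
    apply Finset.sum_congr rfl
    intro v _
    ring
  have e2 : (∑ u, g u * T u) ^ 2 ≤ N * ∑ u, T u ^ 2 := by
    refine (Finset.sum_mul_sq_le_sq_mul_sq univ g T).trans ?_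
    apply mul_le_mul_of_nonneg_right _ (Finset.sum_nonneg (fun u _ => sq_nonneg _))
    calc ∑ u, g u ^ 2 ≤ ∑ u : ι → Bool, (1 : ℝ) := by
          apply Finset.sum_le_sum
          intro u _
          rw [← sq_abs]
          have h1 := abs_nonneg (g u)
          have h2 := hg u
          nlinarith
      _ = N := by rw [sum_const, nsmul_eq_mul, mul_one, hcard]
  have e3 : ∑ u, T u ^ 2 = ∑ v, ∑ v', h v * h v' *
      (if ∀ i ∈ S, v' i = v i then N else 0) := by
    have h1 : ∀ u, T u ^ 2 = ∑ v, ∑ v', h v * h v' *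
        ((∏ i ∈ S, sgb (u i && v i)) * ∏ i ∈ S, sgb (u i && v' i)) := by
      intro u
      rw [hT]
      simp only
      rw [pow_two, Finset.sum_mul_sum]
      apply Finset.sum_congr rfl
      intro v _
      apply Finset.sum_congr rfl
      intro v' _
      ring
    rw [Finset.sum_congr rfl (fun u _ => h1 u), Finset.sum_comm]
    apply Finset.sum_congr rfl
    intro v _
    rw [Finset.sum_comm]
    apply Finset.sum_congr rfl
    intro v' _
    rw [← mul_sum, kernel, ← hN]
  have e4 : (∑ u, T u ^ 2) * 2 ^ S.card ≤ N * (N * N) := by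
    have h1 : ∑ u, T u ^ 2 ≤ ∑ v : ι → Bool, N *
        ∑ v' : ι → Bool, (if ∀ i ∈ S, v' i = v i then (1 : ℝ) else 0) := by
      rw [e3]
      apply Finset.sum_le_sum
      intro v _
      rw [mul_sum]
      apply Finset.sum_le_sum
      intro v' _
      split_ifs
      · have h2 : h v * h v' ≤ 1 := by
          have h3 : |h v * h v'| ≤ 1 := by
            rw [abs_mul]
            exact mul_le_one₀ (hh v) (abs_nonneg _) (hh v')
          exact (le_abs_self _).trans h3
        nlinarith
      · simp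
    calc (∑ u, T u ^ 2) * 2 ^ S.card
        ≤ (∑ v : ι → Bool, N *
          ∑ v' : ι → Bool, (if ∀ i ∈ S, v' i = v i then (1 : ℝ) else 0)) * 2 ^ S.card :=
          mul_le_mul_of_nonneg_right h1 (by positivity)
      _ = ∑ v : ι → Bool, N *
          ((∑ v' : ι → Bool, (if ∀ i ∈ S, v' i = v i then (1 : ℝ) else 0)) * 2 ^ S.card) := by
          rw [Finset.sum_mul]
          apply Finset.sum_congr rfl
          intro v _
          ring
      _ = ∑ v : ι → Bool, N * N := by
          apply Finset.sum_congr rfl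
          intro v _
          rw [card_agree, hN]
      _ = N * (N * N) := by rw [sum_const, nsmul_eq_mul, hcard]
  rw [e1]
  calc (∑ u, g u * T u) ^ 2 * 2 ^ S.card ≤ N * (∑ u, T u ^ 2) * 2 ^ S.card :=
        mul_le_mul_of_nonneg_right e2 (by positivity)
    _ = N * ((∑ u, T u ^ 2) * 2 ^ S.card) := by ring
    _ ≤ N * (N * (N * N)) := mul_le_mul_of_nonneg_left e4 hN0.le
    _ = (N ^ 2) ^ 2 := by ring

end Pool.Agent.X240.SH
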