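import Pool.Agent.X240.SH.IPW
import Pool.Agent.X240.SH.IPL
import Pool.Agent.TH457.HT.Engine

/-!
# Slow heads: randomized programs and inner products modulo two
-/

set_option autoImplicit false

open Finset

namespace Pool.Agent.X240.SH

open Pool.Agent.TH457.HT

variable {Λ : Type} {n k : ℕ} {ι : Type} [Fintype ι] [DecidableEq ι]

/-- the bits of `u` are added on `S` -/
def addOn (S : Finset ι) (X u : ι → Bool) : ι → Bool :=
  fun i => if i ∈ S then xor (X i) (u i) else X i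

omit [Fintype ι] in
theorem addOn_invol (S : Finset ι) (u X : ι → Bool) : addOn S (addOn S X u) u = X := by
  funext i
  unfold addOn
  split_ifs <;> simp

/-- the bijection -/
def addE (S : Finset ι) (u : ι → Bool) : Equiv.Perm (ι → Bool) :=
  ⟨fun X => addOn S X u, fun X => addOn S X u, addOn_invol S u, addOn_invol S u⟩

/-- the inner product modulo two as a sign -/
noncomputable def chi (X Y : ι → Bool) : ℝ := ∏ i, sgb (X i && Y i)

theorem chi_add (S : Finset ι) (X Y u v : ι → Bool) :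
    chi (addOn S X u) (addOn S Y v) = chi X Y * (∏ i ∈ S, sgb (u i && Y i)) *
      (∏ i ∈ S, sgb (X i && v i)) * ∏ i ∈ S, sgb (u i && v i) := by
  unfold chi
  have h1 : ∀ i ∈ (univ : Finset ι), sgb (addOn S X u i && addOn S Y v i) = sgb (X i && Y i) *
      (if i ∈ S then sgb (u i && Y i) * sgb (X i && v i) * sgb (u i && v i) else 1) := by
    intro i _
    unfold addOn
    split_ifs
    · rw [sgb_four]
      ring
    · rw [mul_one]
  rw [Finset.prod_congr rfl h1, Finset.prod_mul_distrib, Finset.prod_ite_mem, univ_inter,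
    Finset.prod_mul_distrib, Finset.prod_mul_distrib]
  ring

omit [Fintype ι] [DecidableEq ι] in
theorem abs_prod_sgb (S : Finset ι) (f : ι → Bool) : |∏ i ∈ S, sgb (f i)| = 1 := by
  rw [Finset.abs_prod]
  apply Finset.prod_eq_one
  intro i _
  exact abs_sgb _

theorem chi_abs (X Y : ι → Bool) : |chi X Y| = 1 := abs_prod_sgb univ (fun i => X i && Y i)

theorem chi_sq (X Y : ι → Bool) : chi X Y * chi X Y = 1 := by
  have := chi_abs X Y
  rw [← abs_mul_abs_self, this, mul_one]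

/-- the sign of the answer after `N` windows -/
noncomputable def aS (P : DetProg Λ n k) (lam N : ℕ) (c0 : Bool) (x : Fin n → Λ) : ℝ :=
  match P.out ((win P lam x)^[N] P.start).1 ((win P lam x)^[N] P.start).2 with
  | none => 0
  | some bb => sgb (xor c0 bb)

theorem abs_aS (P : DetProg Λ n k) (lam N : ℕ) (c0 : Bool) (x : Fin n → Λ) :
    |aS P lam N c0 x| ≤ 1 := by
  unfold aS
  split
  · simp
  · rw [abs_sgb]

section cls

variable (P : DetProg Λ n k) (lam b N : ℕ) (hlam : 0 < lam) (c0 : Bool)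
  (x : (ι → Bool) → (ι → Bool) → Fin n → Λ) (ζ0 ζ1 : ι → ℕ)
  (hloc : ∀ X X' Y Y', ∀ p : Fin n, (∀ i, ζ0 i = (p : ℕ) / lam → X i = X' i) →
    (∀ i, ζ1 i = (p : ℕ) / lam → Y i = Y' i) → x X Y p = x X' Y' p)
  (τ : List (P.Cfg × P.Cfg))

open Classical in
/-- the free bits -/
noncomputable def frB : Finset ι :=
  univ.filter (fun i => ζ1 i = b ∧ ∀ e ∈ τ, ¬ near P lam e.1 (ζ0 i))

/-- membership in the class of a transcript -/
def CC (X Y u v : ι → Bool) : Prop :=
  trans P lam b (x (addOn (frB P lam b ζ0 ζ1 τ) X u) (addOn (frB P lam b ζ0 ζ1 τ) Y v)) N P.start = τ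

include hlam hloc in
theorem rect (X Y u v u' v' : ι → Bool) (h1 : CC P lam b N x ζ0 ζ1 τ X Y u v)
    (h2 : CC P lam b N x ζ0 ζ1 τ X Y u' v') :
    CC P lam b N x ζ0 ζ1 τ X Y u v' ∧
      aS P lam N c0 (x (addOn (frB P lam b ζ0 ζ1 τ) X u) (addOn (frB P lam b ζ0 ζ1 τ) Y v')) =
      aS P lam N c0 (x (addOn (frB P lam b ζ0 ζ1 τ) X u) (addOn (frB P lam b ζ0 ζ1 τ) Y v)) := by
  obtain ⟨S, hS⟩ : ∃ S, S = frB P lam b ζ0 ζ1 τ := ⟨_, rfl⟩
  unfold CC at h1 h2 ⊢
  rw [← hS] at h1 h2 ⊢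
  have hmS : ∀ i, i ∈ S ↔ (ζ1 i = b ∧ ∀ e ∈ τ, ¬ near P lam e.1 (ζ0 i)) := by
    intro i
    rw [hS]
    unfold frB
    simp only [mem_filter, mem_univ, true_and]
  obtain ⟨h3, h4⟩ := trans_rect P lam b hlam (x (addOn S X u) (addOn S Y v))
    (x (addOn S X u') (addOn S Y v')) (x (addOn S X u) (addOn S Y v')) (by
      intro p hp
      apply hloc
      · intro i _
        rfl
      · intro i hi
        have : i ∉ S := by
          intro h
          exact hp (hi.symm.trans ((hmS i).mp h).1)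
        unfold addOn
        rw [if_neg this, if_neg this]) N P.start (by
      intro e he
      rw [h1, ← h2] at he
      exact mem_trans P lam b _ e N P.start he) (by
      intro e he p hp
      rw [h1] at he
      apply hloc
      · intro i hi
        have : i ∉ S := by
          intro h
          apply ((hmS i).mp h).2 e he
          rw [hi]
          exact hp
        unfold addOn
        rw [if_neg this, if_neg this]
      · intro i _
        rfl)
  refine ⟨h3.trans h1, ?_⟩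
  unfold aS
  rw [h4]

open Classical in
include hlam hloc in
/-- the sum over the translates -/
theorem inner_sum (X Y : ι → Bool) :
    (∑ u, ∑ v, (if CC P lam b N x ζ0 ζ1 τ X Y u v then
      aS P lam N c0 (x (addOn (frB P lam b ζ0 ζ1 τ) X u) (addOn (frB P lam b ζ0 ζ1 τ) Y v)) *
        chi (addOn (frB P lam b ζ0 ζ1 τ) X u) (addOn (frB P lam b ζ0 ζ1 τ) Y v) else 0)) ^ 2 *
      2 ^ (frB P lam b ζ0 ζ1 τ).card ≤ (((2 : ℝ) ^ Fintype.card ι) ^ 2) ^ 2 := by
  obtain ⟨S, hS⟩ : ∃ S, S = frB P lam b ζ0 ζ1 τ := ⟨_, rfl⟩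
  have hrect := rect P lam b N hlam c0 x ζ0 ζ1 hloc τ X Y
  rw [← hS] at hrect ⊢
  obtain ⟨C, hC⟩ : ∃ C : (ι → Bool) → (ι → Bool) → Prop,
      C = CC P lam b N x ζ0 ζ1 τ X Y := ⟨_, rfl⟩
  rw [← hC] at hrect ⊢
  obtain ⟨A, hA⟩ : ∃ A : (ι → Bool) → (ι → Bool) → ℝ,
      A = fun u v => aS P lam N c0 (x (addOn S X u) (addOn S Y v)) := ⟨_, rfl⟩
  have hA1 : ∀ u v, |A u v| ≤ 1 := by
    intro u v
    rw [hA]
    exact abs_aS _ _ _ _ _
  have hrect' : ∀ u v u' v', C u v → C u' v' → C u v' ∧ A u v' = A u v := by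
    intro u v u' v' h1 h2
    rw [hA]
    exact hrect u v u' v' h1 h2
  obtain ⟨gU, hgU⟩ : ∃ gU : (ι → Bool) → ℝ,
      gU = fun u => if h : ∃ v, C u v then A u h.choose else 0 := ⟨_, rfl⟩
  obtain ⟨hV, hhV⟩ : ∃ hV : (ι → Bool) → ℝ,
      hV = fun v => if ∃ u, C u v then 1 else 0 := ⟨_, rfl⟩
  have key : ∀ u v, (if C u v then A u v else 0) = gU u * hV v := by
    intro u v
    rw [hgU, hhV]
    simp only
    by_cases h : C u v
    · have e1 : ∃ v, C u v := ⟨v, h⟩
      have e2 : ∃ u, C u v := ⟨u, h⟩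
      rw [if_pos h, dif_pos e1, if_pos e2, mul_one]
      exact (hrect' u e1.choose u v e1.choose_spec h).2
    · rw [if_neg h]
      by_cases e1 : ∃ v, C u v
      · by_cases e2 : ∃ u, C u v
        · obtain ⟨v', hv'⟩ := e1
          obtain ⟨u', hu'⟩ := e2
          exact absurd (hrect' u v' u' v hv' hu').1 h
        · rw [if_neg e2, mul_zero]
      · rw [dif_neg e1, zero_mul]
  have hgU1 : ∀ u, |gU u| ≤ 1 := by
    intro u
    rw [hgU]
    simp only
    split_ifs
    · exact hA1 _ _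
    · simp
  have hhV1 : ∀ v, |hV v| ≤ 1 := by
    intro v
    rw [hhV]
    simp only
    split_ifs <;> simp
  have hL := lindsey S (fun u => gU u * (chi X Y * ∏ i ∈ S, sgb (u i && Y i)))
    (fun v => hV v * ∏ i ∈ S, sgb (X i && v i)) (by
      intro u
      rw [abs_mul, abs_mul, chi_abs, abs_prod_sgb, mul_one, mul_one]
      exact hgU1 u) (by
      intro v
      rw [abs_mul, abs_prod_sgb, mul_one]
      exact hhV1 v)
  have e : ∀ u v, (if C u v then aS P lam N c0 (x (addOn S X u) (addOn S Y v)) *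
      chi (addOn S X u) (addOn S Y v) else 0) =
      gU u * (chi X Y * ∏ i ∈ S, sgb (u i && Y i)) * (hV v * ∏ i ∈ S, sgb (X i && v i)) *
        ∏ i ∈ S, sgb (u i && v i) := by
    intro u v
    have h1 := key u v
    have h2 : (if C u v then aS P lam N c0 (x (addOn S X u) (addOn S Y v)) *
        chi (addOn S X u) (addOn S Y v) else 0) =
        (if C u v then A u v else 0) * chi (addOn S X u) (addOn S Y v) := by
      rw [hA]
      split_ifs
      · rfl
      · rw [zero_mul]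
    rw [h2, h1, chi_add]
    ring
  rw [Finset.sum_congr rfl (fun u _ => Finset.sum_congr rfl (fun v _ => e u v))]
  exact hL

open Classical in
include hlam hloc in
/-- the sum over a class -/
theorem class_sum :
    (∑ X, ∑ Y, (if trans P lam b (x X Y) N P.start = τ then
      aS P lam N c0 (x X Y) * chi X Y else 0)) ^ 2 * 2 ^ (frB P lam b ζ0 ζ1 τ).card
      ≤ (((2 : ℝ) ^ Fintype.card ι) ^ 2) ^ 2 := by
  obtain ⟨S, hS⟩ : ∃ S, S = frB P lam b ζ0 ζ1 τ := ⟨_, rfl⟩
  have hin := inner_sum P lam b N hlam c0 x ζ0 ζ1 hloc τ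
  unfold CC at hin
  rw [← hS] at hin ⊢
  obtain ⟨M, hM⟩ : ∃ M : ℝ, M = 2 ^ Fintype.card ι := ⟨_, rfl⟩
  have hM0 : 0 < M := by rw [hM]; positivity
  have hcard : (Fintype.card (ι → Bool) : ℝ) = M := by
    rw [Fintype.card_fun, Fintype.card_bool, hM]
    push_cast
    rfl
  rw [← hM] at hin ⊢
  obtain ⟨F, hF⟩ : ∃ F : (ι → Bool) → (ι → Bool) → ℝ, F = fun X Y =>
      (if trans P lam b (x X Y) N P.start = τ then
      aS P lam N c0 (x X Y) * chi X Y else 0) := ⟨_, rfl⟩
  have hFi : ∀ X Y, (∑ u, ∑ v, F (addOn S X u) (addOn S Y v)) ^ 2 * 2 ^ S.card ≤ (M ^ 2) ^ 2 := by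
    intro X Y
    rw [hF]
    convert hin X Y
  have hgoal : (∑ X, ∑ Y, F X Y) ^ 2 * 2 ^ S.card ≤ (M ^ 2) ^ 2 := by
    obtain ⟨s, hs⟩ : ∃ s, s = ∑ X, ∑ Y, F X Y := ⟨_, rfl⟩
    rw [← hs]
    have h1 : ∀ u v, ∑ X, ∑ Y, F (addOn S X u) (addOn S Y v) = s := by
      intro u v
      rw [hs]
      rw [← Equiv.sum_comp (addE S u) (fun X => ∑ Y, F X Y)]
      apply Finset.sum_congr rfl
      intro X _
      exact Equiv.sum_comp (addE S v) (fun Y => F (addE S u X) Y)
    have h2 : ∑ z : (ι → Bool) × (ι → Bool), ∑ u, ∑ v, F (addOn S z.1 u) (addOn S z.2 v) =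
        M ^ 2 * s := by
      rw [Finset.sum_comm]
      have h3 : ∀ u ∈ (univ : Finset (ι → Bool)), ∑ z : (ι → Bool) × (ι → Bool),
          ∑ v, F (addOn S z.1 u) (addOn S z.2 v) = M * s := by
        intro u _
        rw [Finset.sum_comm]
        have h4 : ∀ v ∈ (univ : Finset (ι → Bool)), ∑ z : (ι → Bool) × (ι → Bool),
            F (addOn S z.1 u) (addOn S z.2 v) = s := by
          intro v _
          rw [Fintype.sum_prod_type]
          exact h1 u v
        rw [Finset.sum_congr rfl h4, sum_const, nsmul_eq_mul, card_univ, hcard]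
      rw [Finset.sum_congr rfl h3, sum_const, nsmul_eq_mul, card_univ, hcard]
      ring
    have h5 := sq_sum_le_card_mul_sum_sq (s := (univ : Finset ((ι → Bool) × (ι → Bool))))
      (f := fun z => ∑ u, ∑ v, F (addOn S z.1 u) (addOn S z.2 v))
    rw [h2, card_univ, Fintype.card_prod] at h5
    push_cast at h5
    rw [hcard] at h5
    have h6 : (∑ z : (ι → Bool) × (ι → Bool),
        (∑ u, ∑ v, F (addOn S z.1 u) (addOn S z.2 v)) ^ 2) * 2 ^ S.card ≤ M * M * (M ^ 2) ^ 2 := by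
      rw [Finset.sum_mul]
      calc ∑ z : (ι → Bool) × (ι → Bool),
          (∑ u, ∑ v, F (addOn S z.1 u) (addOn S z.2 v)) ^ 2 * 2 ^ S.card
          ≤ ∑ z : (ι → Bool) × (ι → Bool), (M ^ 2) ^ 2 :=
            Finset.sum_le_sum (fun z _ => hFi z.1 z.2)
        _ = M * M * (M ^ 2) ^ 2 := by
          rw [sum_const, nsmul_eq_mul, card_univ, Fintype.card_prod]
          push_cast
          rw [hcard]
    have h7 : (M ^ 2 * s) ^ 2 * 2 ^ S.card ≤ M * M * (M * M * (M ^ 2) ^ 2) := by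
      calc (M ^ 2 * s) ^ 2 * 2 ^ S.card
          ≤ (M * M * ∑ z : (ι → Bool) × (ι → Bool),
            (∑ u, ∑ v, F (addOn S z.1 u) (addOn S z.2 v)) ^ 2) * 2 ^ S.card :=
            mul_le_mul_of_nonneg_right h5 (by positivity)
        _ = M * M * ((∑ z : (ι → Bool) × (ι → Bool),
            (∑ u, ∑ v, F (addOn S z.1 u) (addOn S z.2 v)) ^ 2) * 2 ^ S.card) := by ring
        _ ≤ M * M * (M * M * (M ^ 2) ^ 2) := mul_le_mul_of_nonneg_left h6 (by positivity)
    have h8 : M ^ 4 * (s ^ 2 * 2 ^ S.card) ≤ M ^ 4 * (M ^ 2) ^ 2 := by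
      calc M ^ 4 * (s ^ 2 * 2 ^ S.card) = (M ^ 2 * s) ^ 2 * 2 ^ S.card := by ring
        _ ≤ M * M * (M * M * (M ^ 2) ^ 2) := h7
        _ = M ^ 4 * (M ^ 2) ^ 2 := by ring
    exact le_of_mul_le_mul_left h8 (by positivity)
  rw [hF] at hgoal
  exact hgoal

end cls

end Pool.Agent.X240.SH
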