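import Pool.Agent.X240.SH.IPE

/-!
# Slow heads: randomized programs and inner products modulo two, the engine
-/

set_option autoImplicit false

open Finset

namespace Pool.Agent.X240.SH

open Pool.Agent.TH457.HT

variable {Λ : Type} {n k : ℕ} {ι : Type} [Fintype ι] [DecidableEq ι]

/-- the zones near the configurations of a list -/
theorem near_list (P : DetProg Λ n k) (lam : ℕ) : ∀ τ : List (P.Cfg × P.Cfg),
    ∃ B : Finset ℕ, B.card ≤ 3 * k * τ.length ∧ ∀ e ∈ τ, ∀ z, near P lam e.1 z → z ∈ B := by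
  intro τ
  induction τ with
  | nil => exact ⟨∅, by simp, by simp⟩
  | cons e τ ih =>
    obtain ⟨B, hB1, hB2⟩ := ih
    obtain ⟨F, hF⟩ : ∃ F : Finset ℕ, F = (univ : Finset (Fin k)).biUnion (fun h =>
      Finset.Icc ((e.1.2 h : ℕ) / lam - 1) ((e.1.2 h : ℕ) / lam + 1)) := ⟨_, rfl⟩
    have hF1 : F.card ≤ 3 * k := by
      rw [hF]
      refine card_biUnion_le.trans ?_
      refine (Finset.sum_le_sum (g := fun _ => 3) ?_).trans ?_
      · intro h _
        rw [Nat.card_Icc]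
        omega
      · simp [mul_comm]
    refine ⟨F ∪ B, ?_, ?_⟩
    · refine (card_union_le _ _).trans ?_
      rw [List.length_cons]
      calc F.card + B.card ≤ 3 * k + 3 * k * τ.length := Nat.add_le_add hF1 hB1
        _ = 3 * k * (τ.length + 1) := by ring
    · intro e' he' z hz
      rcases List.mem_cons.mp he' with h1 | h1
      · rw [h1] at hz
        obtain ⟨h, h2, h3⟩ := hz
        apply mem_union_left
        rw [hF]
        simp only [mem_biUnion, mem_univ, true_and, Finset.mem_Icc]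
        exact ⟨h, by omega, h2⟩
      · exact mem_union_right _ (hB2 e' h1 z hz)

section

variable (P : DetProg Λ n k) (lam b N : ℕ) (hlam : 0 < lam) (c0 : Bool)
  (x : (ι → Bool) → (ι → Bool) → Fin n → Λ) (ζ0 ζ1 : ι → ℕ)
  (hloc : ∀ X X' Y Y', ∀ p : Fin n, (∀ i, ζ0 i = (p : ℕ) / lam → X i = X' i) →
    (∀ i, ζ1 i = (p : ℕ) / lam → Y i = Y' i) → x X Y p = x X' Y' p)
  (K m2 : ℕ)
  (hm : ∀ B : Finset ℕ, B.card ≤ 3 * k * K →
    2 * m2 ≤ ((univ : Finset ι).filter (fun i => ζ1 i = b ∧ ζ0 i ∉ B)).card)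

include hm in
theorem card_frB (τ : List (P.Cfg × P.Cfg)) (hτ : τ.length ≤ K) :
    2 * m2 ≤ (frB P lam b ζ0 ζ1 τ).card := by
  classical
  obtain ⟨B, hB1, hB2⟩ := near_list P lam τ
  refine (hm B (hB1.trans (Nat.mul_le_mul_left _ hτ))).trans (card_le_card ?_)
  intro i hi
  unfold frB
  simp only [mem_filter, mem_univ, true_and] at hi ⊢
  exact ⟨hi.1, fun e he hn => hi.2 (hB2 e he _ hn)⟩

open Classical in
include hlam hloc hm in
theorem good_sum :
    (∑ z : (ι → Bool) × (ι → Bool), (if (trans P lam b (x z.1 z.2) N P.start).length ≤ K then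
      aS P lam N c0 (x z.1 z.2) * chi z.1 z.2 else 0)) * 2 ^ m2
      ≤ ((Fintype.card P.Cfg : ℝ) ^ 2 + 1) ^ K * ((2 : ℝ) ^ Fintype.card ι) ^ 2 := by
  obtain ⟨M, hM⟩ : ∃ M : ℝ, M = 2 ^ Fintype.card ι := ⟨_, rfl⟩
  have hM0 : 0 < M := by rw [hM]; positivity
  obtain ⟨tr, htr⟩ : ∃ tr : (ι → Bool) × (ι → Bool) → List (P.Cfg × P.Cfg),
      tr = fun z => trans P lam b (x z.1 z.2) N P.start := ⟨_, rfl⟩
  obtain ⟨σ, hσ⟩ : ∃ σ : (ι → Bool) × (ι → Bool) → ℝ,
      σ = fun z => aS P lam N c0 (x z.1 z.2) * chi z.1 z.2 := ⟨_, rfl⟩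
  have hcl : ∀ τ : List (P.Cfg × P.Cfg), τ.length ≤ K →
      (∑ z, (if tr z = τ then σ z else 0)) * 2 ^ m2 ≤ M ^ 2 := by
    intro τ hτ
    have h1 := class_sum P lam b N hlam c0 x ζ0 ζ1 hloc τ
    rw [← hM] at h1
    have h2 := card_frB P lam b ζ0 ζ1 K m2 hm τ hτ
    obtain ⟨s, hs⟩ : ∃ s, s = ∑ z, (if tr z = τ then σ z else 0) := ⟨_, rfl⟩
    have h3 : (∑ X, ∑ Y, (if trans P lam b (x X Y) N P.start = τ then
        aS P lam N c0 (x X Y) * chi X Y else 0)) = s := by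
      rw [hs, Fintype.sum_prod_type, htr, hσ]
    rw [h3] at h1
    rw [← hs]
    have h4 : (s * 2 ^ m2) ^ 2 ≤ (M ^ 2) ^ 2 := by
      calc (s * 2 ^ m2) ^ 2 = s ^ 2 * 2 ^ (2 * m2) := by
            rw [mul_pow, ← pow_mul, mul_comm m2 2]
        _ ≤ s ^ 2 * 2 ^ (frB P lam b ζ0 ζ1 τ).card := by
            apply mul_le_mul_of_nonneg_left _ (sq_nonneg s)
            exact pow_le_pow_right₀ (by norm_num) h2
        _ ≤ (M ^ 2) ^ 2 := h1
    exact (le_abs_self _).trans (abs_le_of_sq_le_sq h4 (by positivity))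
  obtain ⟨G, hG⟩ : ∃ G : Finset ((ι → Bool) × (ι → Bool)),
      G = univ.filter (fun z => (tr z).length ≤ K) := ⟨_, rfl⟩
  obtain ⟨key, hkey⟩ : ∃ key : (ι → Bool) × (ι → Bool) → Fin K → Option (P.Cfg × P.Cfg),
      key = fun z (i : Fin K) => (tr z)[(i : ℕ)]? := ⟨_, rfl⟩
  have e1 : (∑ z : (ι → Bool) × (ι → Bool), (if (trans P lam b (x z.1 z.2) N P.start).length ≤ K
      then aS P lam N c0 (x z.1 z.2) * chi z.1 z.2 else 0)) = ∑ z ∈ G, σ z := by
    rw [hG, Finset.sum_filter, htr, hσ]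
  have e2 : ∑ z ∈ G, σ z = ∑ κ, ∑ z ∈ G.filter (fun z => key z = κ), σ z :=
    (Finset.sum_fiberwise G key σ).symm
  rw [e1, e2, Finset.sum_mul, ← hM]
  have e3 : ∀ κ ∈ (univ : Finset (Fin K → Option (P.Cfg × P.Cfg))),
      (∑ z ∈ G.filter (fun z => key z = κ), σ z) * 2 ^ m2 ≤ M ^ 2 := by
    intro κ _
    rcases (G.filter (fun z => key z = κ)).eq_empty_or_nonempty with h | ⟨z0, hz0⟩
    · rw [h, sum_empty, zero_mul]
      positivity
    · obtain ⟨hz1, hz2⟩ := mem_filter.mp hz0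
      rw [hG, mem_filter] at hz1
      have e4 : G.filter (fun z => key z = κ) = univ.filter (fun z => tr z = tr z0) := by
        ext z
        rw [hG, hkey]
        simp only [mem_filter, mem_univ, true_and]
        rw [hkey] at hz2
        simp only at hz2
        constructor
        · rintro ⟨h1, h2⟩
          exact getElem?_ext (R := K) h1 hz1.2 (h2.trans hz2.symm)
        · intro h1
          refine ⟨by rw [h1]; exact hz1.2, ?_⟩
          rw [h1]
          exact hz2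
      rw [e4, Finset.sum_filter]
      exact hcl (tr z0) hz1.2
  refine (Finset.sum_le_sum e3).trans ?_
  rw [sum_const, nsmul_eq_mul, card_univ, Fintype.card_fun, Fintype.card_fin, Fintype.card_option,
    Fintype.card_prod]
  push_cast
  rw [← pow_two]

end

open Classical in
/-- deterministic programs -/
theorem det_count (P : DetProg Λ n k) (lam D N T K S m2 : ℕ) (hlam : 0 < lam) (c0 : Bool)
    (hT : T ≤ N * lam)
    (x : (ι → Bool) → (ι → Bool) → Fin n → Λ) (ζ0 ζ1 : ι → ℕ)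
    (hloc : ∀ X X' Y Y', ∀ p : Fin n, (∀ i, ζ0 i = (p : ℕ) / lam → X i = X' i) →
      (∀ i, ζ1 i = (p : ℕ) / lam → Y i = Y' i) → x X Y p = x X' Y' p)
    (right : (ι → Bool) → (ι → Bool) → Bool)
    (hright : ∀ X Y, sgb (xor c0 (right X Y)) = chi X Y)
    (Z1 : Finset (Fin D)) (hne : 0 < Z1.card) (hK1 : 24 * k * N ≤ (K + 1) * Z1.card)
    (hm : ∀ b ∈ Z1, ∀ B : Finset ℕ, B.card ≤ 3 * k * K →
      2 * m2 ≤ ((univ : Finset ι).filter (fun i => ζ1 i = (b : ℕ) ∧ ζ0 i ∉ B)).card)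
    (hS : Fintype.card P.Cfg + 1 ≤ 2 ^ S) (hm2 : 2 * S * K + 3 ≤ m2) :
    ((((univ : Finset ((ι → Bool) × (ι → Bool))).filter
      (fun z => P.Answers T (x z.1 z.2) (right z.1 z.2))).card : ℕ) : ℝ) * 5 ≤
      3 * ((2 : ℝ) ^ Fintype.card ι) ^ 2 := by
  obtain ⟨M, hM⟩ : ∃ M : ℝ, M = 2 ^ Fintype.card ι := ⟨_, rfl⟩
  have hM0 : 0 < M := by rw [hM]; positivity
  rw [← hM]
  obtain ⟨R, hR⟩ : ∃ R : Finset ((ι → Bool) × (ι → Bool)),
      R = univ.filter (fun z => P.Answers T (x z.1 z.2) (right z.1 z.2)) := ⟨_, rfl⟩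
  rw [← hR]
  obtain ⟨σ, hσ⟩ : ∃ σ : (ι → Bool) × (ι → Bool) → ℝ,
      σ = fun z => aS P lam N c0 (x z.1 z.2) * chi z.1 z.2 := ⟨_, rfl⟩
  obtain ⟨len, hlen⟩ : ∃ len : Fin D → (ι → Bool) × (ι → Bool) → ℕ,
      len = fun (b : Fin D) (z : (ι → Bool) × (ι → Bool)) =>
        (trans P lam (b : ℕ) (x z.1 z.2) N P.start).length := ⟨_, rfl⟩
  have hσ1 : ∀ z, |σ z| ≤ 1 := by
    intro z
    rw [hσ]
    simp only
    rw [abs_mul, chi_abs, mul_one]
    exact abs_aS _ _ _ _ _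
  have hσR : ∀ z ∈ R, σ z = 1 := by
    intro z hz
    rw [hR, mem_filter] at hz
    have h1 := out_of_answers P lam N T hT _ _ hz.2
    rw [hσ]
    simp only
    unfold aS
    rw [h1]
    simp only
    rw [hright]
    exact chi_sq _ _
  -- every zone
  have hE : ∀ b ∈ Z1, ∑ z, (if len b z ≤ K then σ z else 0) ≤ M ^ 2 / 8 := by
    intro b hb
    have h1 := good_sum P lam b N hlam c0 x ζ0 ζ1 hloc K m2 (hm b hb)
    rw [← hM] at h1
    obtain ⟨E, hE⟩ : ∃ E : ℝ, E = ∑ z, (if len b z ≤ K then σ z else 0) := ⟨_, rfl⟩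
    have h2 : (∑ z : (ι → Bool) × (ι → Bool),
        (if (trans P lam b (x z.1 z.2) N P.start).length ≤ K then
        aS P lam N c0 (x z.1 z.2) * chi z.1 z.2 else 0)) = E := by
      rw [hE, hlen, hσ]
    rw [h2] at h1
    rw [← hE]
    have h3 : ((Fintype.card P.Cfg : ℝ) ^ 2 + 1) ^ K ≤ 2 ^ (2 * S * K) := by
      have h4 : (Fintype.card P.Cfg : ℝ) ^ 2 + 1 ≤ 2 ^ (2 * S) := by
        have h5 : ((Fintype.card P.Cfg : ℝ) + 1) ≤ 2 ^ S := by exact_mod_cast hS
        have h6 : (0 : ℝ) ≤ (Fintype.card P.Cfg : ℝ) := Nat.cast_nonneg _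
        calc (Fintype.card P.Cfg : ℝ) ^ 2 + 1 ≤ ((Fintype.card P.Cfg : ℝ) + 1) ^ 2 := by nlinarith
          _ ≤ (2 ^ S) ^ 2 := pow_le_pow_left₀ (by positivity) h5 2
          _ = 2 ^ (2 * S) := by rw [← pow_mul, mul_comm]
      calc ((Fintype.card P.Cfg : ℝ) ^ 2 + 1) ^ K ≤ (2 ^ (2 * S)) ^ K :=
            pow_le_pow_left₀ (by positivity) h4 K
        _ = 2 ^ (2 * S * K) := by rw [← pow_mul]
    by_contra hcon
    push Not at hcon
    have hEpos : 0 < E := lt_of_le_of_lt (by positivity) hcon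
    have h7 : E * (2 ^ (2 * S * K) * 8) ≤ 2 ^ (2 * S * K) * M ^ 2 := by
      calc E * (2 ^ (2 * S * K) * 8) = E * 2 ^ (2 * S * K + 3) := by
            rw [pow_add]
            norm_num
        _ ≤ E * 2 ^ m2 := mul_le_mul_of_nonneg_left
            (pow_le_pow_right₀ (by norm_num) hm2) hEpos.le
        _ ≤ ((Fintype.card P.Cfg : ℝ) ^ 2 + 1) ^ K * M ^ 2 := h1
        _ ≤ 2 ^ (2 * S * K) * M ^ 2 := mul_le_mul_of_nonneg_right h3 (by positivity)
    have h8 : (0 : ℝ) < 2 ^ (2 * S * K) := by positivity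
    have h9 : 2 ^ (2 * S * K) * (E * 8) ≤ 2 ^ (2 * S * K) * M ^ 2 := by
      calc 2 ^ (2 * S * K) * (E * 8) = E * (2 ^ (2 * S * K) * 8) := by ring
        _ ≤ _ := h7
    have h10 := le_of_mul_le_mul_left h9 h8
    linarith
  -- every input
  have hgood : ∀ z, 7 * Z1.card ≤ 8 * (Z1.filter (fun b => len b z ≤ K)).card := by
    intro z
    have h1 := sum_length P lam D hlam (x z.1 z.2) Z1 N P.start
    have h2 : (K + 1) * (Z1.filter (fun b => ¬ len b z ≤ K)).card ≤ N * (3 * k) := by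
      calc (K + 1) * (Z1.filter (fun b => ¬ len b z ≤ K)).card
          = ∑ b ∈ Z1.filter (fun b => ¬ len b z ≤ K), (K + 1) := by
            rw [sum_const, smul_eq_mul, mul_comm]
        _ ≤ ∑ b ∈ Z1.filter (fun b => ¬ len b z ≤ K), len b z := by
            apply Finset.sum_le_sum
            intro b hb
            have := (mem_filter.mp hb).2
            omega
        _ ≤ ∑ b ∈ Z1, len b z :=
            Finset.sum_le_sum_of_subset (filter_subset _ _)
        _ ≤ N * (3 * k) := by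
            rw [hlen]
            exact h1
    have h3 : (K + 1) * (8 * (Z1.filter (fun b => ¬ len b z ≤ K)).card) ≤ (K + 1) * Z1.card := by
      calc (K + 1) * (8 * (Z1.filter (fun b => ¬ len b z ≤ K)).card)
          = 8 * ((K + 1) * (Z1.filter (fun b => ¬ len b z ≤ K)).card) := by ring
        _ ≤ 8 * (N * (3 * k)) := Nat.mul_le_mul_left _ h2
        _ = 24 * k * N := by ring
        _ ≤ (K + 1) * Z1.card := hK1
    have h4 := Nat.le_of_mul_le_mul_left h3 (Nat.succ_pos K)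
    have h5 := Finset.card_filter_add_card_filter_not (s := Z1) (fun b => len b z ≤ K)
    omega
  have hpt : ∀ b z, (if len b z ≤ K then (if z ∈ R then (1 : ℝ) else 0) else 0) ≤
      (if len b z ≤ K then σ z else 0) + (if z ∈ R then 0 else 1) := by
    intro b z
    have h1 := abs_le.mp (hσ1 z)
    split_ifs with h2 h3 h3
    · rw [hσR z h3]
      norm_num
    · linarith [h1.1]
    · norm_num
    · norm_num
  have hcardV : (((univ : Finset ((ι → Bool) × (ι → Bool))).card : ℕ) : ℝ) = M ^ 2 := by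
    rw [card_univ, Fintype.card_prod, Fintype.card_fun, Fintype.card_bool, hM]
    push_cast
    ring
  have hcomp : ∑ z : (ι → Bool) × (ι → Bool), (if z ∈ R then (0 : ℝ) else 1) = M ^ 2 - R.card := by
    have h1 : ∀ z ∈ (univ : Finset ((ι → Bool) × (ι → Bool))),
        (if z ∈ R then (0 : ℝ) else 1) = 1 - (if z ∈ R then (1 : ℝ) else 0) := by
      intro z _
      split_ifs <;> norm_num
    rw [Finset.sum_congr rfl h1, Finset.sum_sub_distrib, sum_const, nsmul_eq_mul, mul_one, hcardV,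
      Finset.sum_ite_mem, univ_inter, sum_const, nsmul_eq_mul, mul_one]
  have hup : ∑ b ∈ Z1, ∑ z, (if len b z ≤ K then (if z ∈ R then (1 : ℝ) else 0) else 0) ≤
      Z1.card * (M ^ 2 / 8 + (M ^ 2 - R.card)) := by
    calc ∑ b ∈ Z1, ∑ z, (if len b z ≤ K then (if z ∈ R then (1 : ℝ) else 0) else 0)
        ≤ ∑ b ∈ Z1, (M ^ 2 / 8 + (M ^ 2 - R.card)) := by
          apply Finset.sum_le_sum
          intro b hb
          calc ∑ z, (if len b z ≤ K then (if z ∈ R then (1 : ℝ) else 0) else 0)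
              ≤ ∑ z, ((if len b z ≤ K then σ z else 0) + (if z ∈ R then 0 else 1)) :=
                Finset.sum_le_sum (fun z _ => hpt b z)
            _ = ∑ z, (if len b z ≤ K then σ z else 0) + (M ^ 2 - R.card) := by
                rw [Finset.sum_add_distrib, hcomp]
            _ ≤ M ^ 2 / 8 + (M ^ 2 - R.card) := by
                linarith [hE b hb]
      _ = Z1.card * (M ^ 2 / 8 + (M ^ 2 - R.card)) := by
          rw [sum_const, nsmul_eq_mul]
  have hlow : (7 : ℝ) / 8 * Z1.card * R.card ≤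
      ∑ b ∈ Z1, ∑ z, (if len b z ≤ K then (if z ∈ R then (1 : ℝ) else 0) else 0) := by
    rw [Finset.sum_comm]
    have h1 : ∀ z, (if z ∈ R then (7 : ℝ) / 8 * Z1.card else 0) ≤
        ∑ b ∈ Z1, (if len b z ≤ K then (if z ∈ R then (1 : ℝ) else 0) else 0) := by
      intro z
      split_ifs with hz
      · have h2 : ∑ b ∈ Z1, (if len b z ≤ K then (1 : ℝ) else 0) =
            ((Z1.filter (fun b => len b z ≤ K)).card : ℝ) := by
          rw [← Finset.sum_filter, sum_const, nsmul_eq_mul, mul_one]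
        rw [h2]
        have h3 : ((7 * Z1.card : ℕ) : ℝ) ≤ ((8 * (Z1.filter (fun b => len b z ≤ K)).card : ℕ) : ℝ) :=
          by exact_mod_cast hgood z
        push_cast at h3
        linarith
      · apply Finset.sum_nonneg
        intro b _
        split_ifs <;> norm_num
    calc (7 : ℝ) / 8 * Z1.card * R.card = ∑ z, (if z ∈ R then (7 : ℝ) / 8 * Z1.card else 0) := by
          rw [Finset.sum_ite_mem, univ_inter, sum_const, nsmul_eq_mul]
          ring
      _ ≤ _ := Finset.sum_le_sum (fun z _ => h1 z)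
  have hZ : (0 : ℝ) < Z1.card := by exact_mod_cast hne
  have h1 := hlow.trans hup
  have h2 : (Z1.card : ℝ) * (7 / 8 * R.card) ≤ Z1.card * (M ^ 2 / 8 + (M ^ 2 - R.card)) := by
    calc (Z1.card : ℝ) * (7 / 8 * R.card) = 7 / 8 * Z1.card * R.card := by ring
      _ ≤ _ := h1
  have h3 := le_of_mul_le_mul_left h2 hZ
  linarith

/-- **The engine.**  Randomized programs with slow heads and error probability at most one third cannot
compute inner products modulo two if for most pairs of zones there are products of a bit in the first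
zone and a bit in the second zone. -/
theorem engineIP {Ω : Type} [Fintype Ω] (p : Ω → ℝ) (hp : ∀ ω, 0 ≤ p ω) (hp1 : ∑ ω, p ω = 1)
    (P : Ω → DetProg Λ n k) (lam D N T K S m2 : ℕ) (hlam : 0 < lam) (c0 : Bool)
    (hT : T ≤ N * lam)
    (x : (ι → Bool) → (ι → Bool) → Fin n → Λ) (ζ0 ζ1 : ι → ℕ)
    (hloc : ∀ X X' Y Y', ∀ p : Fin n, (∀ i, ζ0 i = (p : ℕ) / lam → X i = X' i) →
      (∀ i, ζ1 i = (p : ℕ) / lam → Y i = Y' i) → x X Y p = x X' Y' p)
    (right : (ι → Bool) → (ι → Bool) → Bool)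
    (hright : ∀ X Y, sgb (xor c0 (right X Y)) = chi X Y)
    (hprob : ∀ X Y, 2 / 3 ≤ prob p P T (x X Y) (right X Y))
    (Z1 : Finset (Fin D)) (hne : 0 < Z1.card) (hK1 : 24 * k * N ≤ (K + 1) * Z1.card)
    (hm : ∀ b ∈ Z1, ∀ B : Finset ℕ, B.card ≤ 3 * k * K →
      2 * m2 ≤ ((univ : Finset ι).filter (fun i => ζ1 i = (b : ℕ) ∧ ζ0 i ∉ B)).card)
    (hS : ∀ ω, Fintype.card (P ω).Cfg + 1 ≤ 2 ^ S) (hm2 : 2 * S * K + 3 ≤ m2) : False := by
  classical
  obtain ⟨M, hM⟩ : ∃ M : ℝ, M = 2 ^ Fintype.card ι := ⟨_, rfl⟩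
  have hM0 : 0 < M := by rw [hM]; positivity
  have hcardV : (((univ : Finset ((ι → Bool) × (ι → Bool))).card : ℕ) : ℝ) = M ^ 2 := by
    rw [card_univ, Fintype.card_prod, Fintype.card_fun, Fintype.card_bool, hM]
    push_cast
    ring
  have h1 : ∀ ω, ((((univ : Finset ((ι → Bool) × (ι → Bool))).filter
      (fun z => (P ω).Answers T (x z.1 z.2) (right z.1 z.2))).card : ℕ) : ℝ) ≤ 3 / 5 * M ^ 2 := by
    intro ω
    have := det_count (P ω) lam D N T K S m2 hlam c0 hT x ζ0 ζ1 hloc right hright Z1 hne hK1 hm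
      (hS ω) hm2
    rw [← hM] at this
    linarith
  have h2 : ∑ z : (ι → Bool) × (ι → Bool), prob p P T (x z.1 z.2) (right z.1 z.2) =
      ∑ ω, p ω * ((((univ : Finset ((ι → Bool) × (ι → Bool))).filter
      (fun z => (P ω).Answers T (x z.1 z.2) (right z.1 z.2))).card : ℕ) : ℝ) := by
    unfold prob
    rw [Finset.sum_comm]
    apply Finset.sum_congr rfl
    intro ω _
    rw [← Finset.sum_filter, sum_const, nsmul_eq_mul, mul_comm]
  have h3 : M ^ 2 * (2 / 3) ≤
      ∑ z : (ι → Bool) × (ι → Bool), prob p P T (x z.1 z.2) (right z.1 z.2) := by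
    calc M ^ 2 * (2 / 3) = ∑ z : (ι → Bool) × (ι → Bool), (2 / 3 : ℝ) := by
          rw [sum_const, nsmul_eq_mul, hcardV]
      _ ≤ _ := Finset.sum_le_sum (fun z _ => hprob z.1 z.2)
  have h4 : ∑ ω, p ω * ((((univ : Finset ((ι → Bool) × (ι → Bool))).filter
      (fun z => (P ω).Answers T (x z.1 z.2) (right z.1 z.2))).card : ℕ) : ℝ) ≤ 3 / 5 * M ^ 2 := by
    calc _ ≤ ∑ ω, p ω * (3 / 5 * M ^ 2) :=
          Finset.sum_le_sum (fun ω _ => mul_le_mul_of_nonneg_left (h1 ω) (hp ω))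
      _ = 3 / 5 * M ^ 2 := by rw [← Finset.sum_mul, hp1, one_mul]
  rw [h2] at h3
  have h5 : 0 < M ^ 2 := by positivity
  linarith

end Pool.Agent.X240.SH
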