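import Pool.Agent.TH457.HT.DetDefs

/-!
# Slow heads: windows of deterministic computations and the transcript of one zone
-/

set_option autoImplicit false

open Finset

namespace Pool.Agent.X240.SH

open Pool.Agent.TH457.HT

variable {Λ : Type} {n k : ℕ}

/-- one step, or nothing in a final configuration -/
def idle (P : DetProg Λ n k) (x : Fin n → Λ) (c : P.Cfg) : P.Cfg :=
  if P.out c.1 c.2 = none then P.step x c else c

/-- a window of `lam` steps -/
def win (P : DetProg Λ n k) (lam : ℕ) (x : Fin n → Λ) (c : P.Cfg) : P.Cfg := (idle P x)^[lam] c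

/-- a head is in the zone `z` during the window -/
def hit (P : DetProg Λ n k) (lam z : ℕ) (x : Fin n → Λ) (c : P.Cfg) : Prop :=
  ∃ s < lam, P.out ((idle P x)^[s] c).1 ((idle P x)^[s] c).2 = none ∧
    ∃ h, ((((idle P x)^[s] c).2 h : Fin n) : ℕ) / lam = z

/-- a zone near a head -/
def near (P : DetProg Λ n k) (lam : ℕ) (c : P.Cfg) (z : ℕ) : Prop :=
  ∃ h, z ≤ (c.2 h : ℕ) / lam + 1 ∧ (c.2 h : ℕ) / lam ≤ z + 1

theorem slow_idle (P : DetProg Λ n k) (x : Fin n → Λ) (c : P.Cfg) (h : Fin k) :
    ∀ t, ((((idle P x)^[t] c).2 h : Fin n) : ℕ) ≤ (c.2 h : ℕ) + t ∧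
      (c.2 h : ℕ) ≤ ((((idle P x)^[t] c).2 h : Fin n) : ℕ) + t := by
  intro t
  induction t with
  | zero => simp
  | succ t ih =>
    rw [Function.iterate_succ_apply']
    obtain ⟨c', hc'⟩ : ∃ c', c' = (idle P x)^[t] c := ⟨_, rfl⟩
    rw [← hc'] at ih ⊢
    unfold idle
    split_ifs
    · have h2 := P.slow c'.1 c'.2 (fun i => x (c'.2 i)) h
      have e : P.step x c' = P.move c'.1 c'.2 (fun i => x (c'.2 i)) := rfl
      rw [e]
      omega
    · omega

theorem near_of_hit (P : DetProg Λ n k) (lam z : ℕ) (hlam : 0 < lam) (x : Fin n → Λ) (c : P.Cfg)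
    (t : ℕ) (ht : t < lam) (h : Fin k)
    (hz : ((((idle P x)^[t] c).2 h : Fin n) : ℕ) / lam = z) : near P lam c z := by
  refine ⟨h, ?_⟩
  have h5 := slow_idle P x c h t
  rw [← hz]
  obtain ⟨u, hu⟩ : ∃ u, u = ((((idle P x)^[t] c).2 h : Fin n) : ℕ) := ⟨_, rfl⟩
  obtain ⟨v, hv⟩ : ∃ v, v = (c.2 h : ℕ) := ⟨_, rfl⟩
  rw [← hu, ← hv] at h5
  rw [← hu, ← hv]
  have e1 : u / lam ≤ (v + lam) / lam := Nat.div_le_div_right (by omega)
  have e2 : v / lam ≤ (u + lam) / lam := Nat.div_le_div_right (by omega)
  rw [Nat.add_div_right _ hlam] at e1 e2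
  exact ⟨e1, e2⟩

/-- equal letters near the heads -/
theorem iter_near (P : DetProg Λ n k) (lam : ℕ) (hlam : 0 < lam) (x z : Fin n → Λ) (c : P.Cfg)
    (hz : ∀ p : Fin n, near P lam c ((p : ℕ) / lam) → z p = x p) :
    ∀ t ≤ lam, (idle P z)^[t] c = (idle P x)^[t] c := by
  intro t
  induction t with
  | zero => intro _; rfl
  | succ t ih =>
    intro ht
    rw [Function.iterate_succ_apply', Function.iterate_succ_apply', ih (by omega)]
    unfold idle
    split_ifs with h
    · unfold DetProg.step
      congr 1
      funext i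
      exact hz _ (near_of_hit P lam _ hlam x c t (by omega) i rfl)
    · rfl

/-- equal letters outside of a zone which is not hit -/
theorem iter_off (P : DetProg Λ n k) (lam b : ℕ) (x z : Fin n → Λ) (c : P.Cfg)
    (hz : ∀ p : Fin n, (p : ℕ) / lam ≠ b → z p = x p) (hh : ¬ hit P lam b x c) :
    ∀ t ≤ lam, (idle P z)^[t] c = (idle P x)^[t] c := by
  intro t
  induction t with
  | zero => intro _; rfl
  | succ t ih =>
    intro ht
    rw [Function.iterate_succ_apply', Function.iterate_succ_apply', ih (by omega)]
    unfold idle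
    split_ifs with h
    · unfold DetProg.step
      congr 1
      funext i
      apply hz
      intro hb
      exact hh ⟨t, by omega, h, i, hb⟩
    · rfl

theorem hit_congr (P : DetProg Λ n k) (lam b : ℕ) (x z : Fin n → Λ) (c : P.Cfg)
    (h : ∀ t ≤ lam, (idle P z)^[t] c = (idle P x)^[t] c) :
    hit P lam b z c ↔ hit P lam b x c := by
  unfold hit
  constructor
  · rintro ⟨s, hs, h1, h2⟩
    rw [h s hs.le] at h1 h2
    exact ⟨s, hs, h1, h2⟩
  · rintro ⟨s, hs, h1, h2⟩
    rw [← h s hs.le] at h1 h2
    exact ⟨s, hs, h1, h2⟩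

open Classical in
/-- The transcript of the zone `b`: the configurations at the beginning and at the end of the windows
in which the zone is hit. -/
noncomputable def trans (P : DetProg Λ n k) (lam b : ℕ) (x : Fin n → Λ) :
    ℕ → P.Cfg → List (P.Cfg × P.Cfg)
  | 0, _ => []
  | N + 1, c => if hit P lam b x c then (c, win P lam x c) :: trans P lam b x N (win P lam x c)
      else trans P lam b x N (win P lam x c)

theorem mem_trans (P : DetProg Λ n k) (lam b : ℕ) (x : Fin n → Λ) (e : P.Cfg × P.Cfg) :
    ∀ N c, e ∈ trans P lam b x N c → hit P lam b x e.1 ∧ e.2 = win P lam x e.1 := by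
  intro N
  induction N with
  | zero => intro c h; simp [trans] at h
  | succ N ih =>
    intro c h
    simp only [trans] at h
    split_ifs at h with hh
    · rcases List.mem_cons.mp h with h1 | h1
      · rw [h1]
        exact ⟨hh, rfl⟩
      · exact ih _ h1
    · exact ih _ h

/-- **The transcripts are rectangles.** -/
theorem trans_rect (P : DetProg Λ n k) (lam b : ℕ) (hlam : 0 < lam) (x y z : Fin n → Λ)
    (hz : ∀ p : Fin n, (p : ℕ) / lam ≠ b → z p = x p) :
    ∀ N c, (∀ e ∈ trans P lam b x N c, hit P lam b y e.1 ∧ e.2 = win P lam y e.1) →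
      (∀ e ∈ trans P lam b x N c, ∀ p : Fin n, near P lam e.1 ((p : ℕ) / lam) → z p = y p) →
      trans P lam b z N c = trans P lam b x N c ∧
        (win P lam z)^[N] c = (win P lam x)^[N] c := by
  intro N
  induction N with
  | zero => intro c _ _; exact ⟨rfl, rfl⟩
  | succ N ih =>
    intro c hy hzy
    rw [Function.iterate_succ_apply, Function.iterate_succ_apply]
    simp only [trans] at hy hzy ⊢
    by_cases hh : hit P lam b x c
    · rw [if_pos hh] at hy hzy ⊢
      have h1 := hy _ List.mem_cons_self
      have h2 := iter_near P lam hlam y z c (hzy _ List.mem_cons_self)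
      have h3 : win P lam z c = win P lam x c := by
        have h4 : win P lam x c = win P lam y c := h1.2
        rw [h4]
        exact h2 lam le_rfl
      have h5 : hit P lam b z c := (hit_congr P lam b y z c h2).mpr h1.1
      rw [if_pos h5, h3]
      obtain ⟨h6, h7⟩ := ih (win P lam x c) (fun e he => hy e (List.mem_cons_of_mem _ he))
        (fun e he => hzy e (List.mem_cons_of_mem _ he))
      exact ⟨by rw [h6], h7⟩
    · rw [if_neg hh] at hy hzy ⊢
      have h2 := iter_off P lam b x z c hz hh
      have h3 : win P lam z c = win P lam x c := h2 lam le_rfl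
      have h5 : ¬ hit P lam b z c := fun h => hh ((hit_congr P lam b x z c h2).mp h)
      rw [if_neg h5, h3]
      exact ih (win P lam x c) hy hzy

/-- the number of zones near the heads -/
theorem card_near (P : DetProg Λ n k) (lam D : ℕ) (c : P.Cfg) (F : Finset (Fin D))
    (hF : ∀ z ∈ F, near P lam c z) : F.card ≤ 3 * k := by
  classical
  have hsub : F.image (fun z : Fin D => (z : ℕ)) ⊆ (univ : Finset (Fin k)).biUnion (fun h =>
      Finset.Icc ((c.2 h : ℕ) / lam - 1) ((c.2 h : ℕ) / lam + 1)) := by
    intro z hz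
    obtain ⟨z', hz', rfl⟩ := mem_image.mp hz
    obtain ⟨h, h1, h2⟩ := hF z' hz'
    simp only [mem_biUnion, mem_univ, true_and, Finset.mem_Icc]
    exact ⟨h, by omega, h1⟩
  have hcard : ((univ : Finset (Fin k)).biUnion (fun h =>
      Finset.Icc ((c.2 h : ℕ) / lam - 1) ((c.2 h : ℕ) / lam + 1))).card ≤ 3 * k := by
    refine card_biUnion_le.trans ?_
    refine (Finset.sum_le_sum (g := fun _ => 3) ?_).trans ?_
    · intro h _
      rw [Nat.card_Icc]
      omega
    · simp [mul_comm]
  have := (card_le_card hsub).trans hcard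
  rwa [card_image_of_injective _ Fin.val_injective] at this

/-- the lengths of the transcripts -/
theorem sum_length (P : DetProg Λ n k) (lam D : ℕ) (hlam : 0 < lam) (x : Fin n → Λ)
    (Z : Finset (Fin D)) :
    ∀ N c, ∑ b ∈ Z, (trans P lam b x N c).length ≤ N * (3 * k) := by
  classical
  intro N
  induction N with
  | zero => intro c; simp [trans]
  | succ N ih =>
    intro c
    have h1 : ∀ b ∈ Z, (trans P lam b x (N + 1) c).length =
        (if hit P lam b x c then 1 else 0) + (trans P lam b x N (win P lam x c)).length := by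
      intro b _
      simp only [trans]
      split_ifs
      · rw [List.length_cons, add_comm]
      · rw [zero_add]
    rw [Finset.sum_congr rfl h1, Finset.sum_add_distrib, ← Finset.card_filter]
    have h2 := ih (win P lam x c)
    have h3 := card_near P lam D c (Z.filter (fun b => hit P lam b x c)) (by
      intro z hz
      obtain ⟨s, hs, -, h, hh⟩ := (mem_filter.mp hz).2
      exact near_of_hit P lam z hlam x c s hs h hh)
    calc (Z.filter (fun b : Fin D => hit P lam b x c)).card +
          ∑ b ∈ Z, (trans P lam b x N (win P lam x c)).length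
        ≤ 3 * k + N * (3 * k) := Nat.add_le_add h3 h2
      _ = (N + 1) * (3 * k) := by ring

theorem idle_final (P : DetProg Λ n k) (x : Fin n → Λ) (c : P.Cfg)
    (h : P.out c.1 c.2 ≠ none) : ∀ t, (idle P x)^[t] c = c := by
  intro t
  induction t with
  | zero => rfl
  | succ t ih =>
    rw [Function.iterate_succ_apply', ih]
    unfold idle
    rw [if_neg h]

/-- the answer after many windows -/
theorem out_of_answers (P : DetProg Λ n k) (lam N T : ℕ) (hN : T ≤ N * lam) (x : Fin n → Λ)
    (bb : Bool) (h : P.Answers T x bb) :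
    P.out ((win P lam x)^[N] P.start).1 ((win P lam x)^[N] P.start).2 = some bb := by
  obtain ⟨t, ht, h1, h2⟩ := h
  have h3 : ∀ s ≤ t, (idle P x)^[s] P.start = (P.step x)^[s] P.start := by
    intro s
    induction s with
    | zero => intro _; rfl
    | succ s ih =>
      intro hs
      rw [Function.iterate_succ_apply', Function.iterate_succ_apply', ih (by omega)]
      unfold idle
      rw [if_pos (h2 s (by omega))]
  have h4 : (win P lam x)^[N] P.start = (idle P x)^[N * lam] P.start := by
    unfold win
    rw [← Function.iterate_mul, mul_comm]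
  have h5 : (idle P x)^[N * lam] P.start = (P.step x)^[t] P.start := by
    obtain ⟨r, hr⟩ : ∃ r, N * lam = r + t := ⟨N * lam - t, by omega⟩
    rw [hr, Function.iterate_add_apply, h3 t le_rfl]
    apply idle_final
    rw [h1]
    simp
  rw [h4, h5]
  exact h1

end Pool.Agent.X240.SH
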