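import Pool.Agent.X240.SH.FoolS

/-!
# Slow heads: two matrices of bits, row by row and column by column
-/

set_option autoImplicit false

open Finset

namespace Pool.Agent.X240.SH

open Pool.Agent.TH457.HT

/-- the choice of the parameters -/
theorem paramsM (V ρ n k T S : ℕ) (hV : 1 ≤ V) (hρ : 1 ≤ ρ) (hn : n = V * ρ) (hk : 1 ≤ k)
    (hkS : k ≤ S + 1) :
    V ^ 2 * n ^ 2 ≤ 200000000 * (k * (S + 1) * (k * T + n) ^ 2) ∨
    ∃ q r d, 1 ≤ q ∧ 2 ≤ r ∧ d = 864 * (k * q) ∧ 4 * (d * r) ≤ V ∧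
      12 * k * (T / (r * ρ) + 1) < (72 * q + 1) * d ∧ S + 1 < 2 * k * r ^ 2 := by
  have hn0 : 0 < n := by rw [hn]; positivity
  obtain ⟨t, ht⟩ : ∃ t, t = k * T + n := ⟨_, rfl⟩
  obtain ⟨q, hq⟩ : ∃ q, q = t / n + 1 := ⟨_, rfl⟩
  have hq1 : 1 ≤ q := by rw [hq]; exact Nat.le_add_left 1 _
  have htq : t < n * q := by
    rw [hq]
    have h1 := Nat.div_add_mod t n
    have h2 := Nat.mod_lt t hn0
    calc t = n * (t / n) + t % n := h1.symm
      _ < n * (t / n) + n := by omega
      _ = n * (t / n + 1) := by ring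
  have hnq : n * q ≤ 2 * t := by
    rw [hq, mul_add, mul_one]
    have := Nat.mul_div_le t n
    omega
  rw [← ht]
  obtain ⟨d, hd⟩ : ∃ d, d = 864 * (k * q) := ⟨_, rfl⟩
  have hkq : 1 ≤ k * q := Nat.one_le_iff_ne_zero.mpr (by positivity)
  have hd0 : 0 < 4 * d := by omega
  obtain ⟨r, hr⟩ : ∃ r, r = V / (4 * d) := ⟨_, rfl⟩
  have hVr : V < 4 * d * (r + 1) := by
    rw [hr]
    have h1 := Nat.div_add_mod V (4 * d)
    have h2 := Nat.mod_lt V hd0
    calc V = 4 * d * (V / (4 * d)) + V % (4 * d) := h1.symm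
      _ < 4 * d * (V / (4 * d)) + 4 * d := by omega
      _ = 4 * d * (V / (4 * d) + 1) := by ring
  have hrV : 4 * (d * r) ≤ V := by
    rw [hr]
    have := Nat.mul_div_le V (4 * d)
    calc 4 * (d * (V / (4 * d))) = 4 * d * (V / (4 * d)) := by ring
      _ ≤ V := this
  rcases Nat.lt_or_ge r 2 with h | h
  · left
    have h1 : V ≤ 6912 * (k * q) := by
      have : 4 * d * (r + 1) ≤ 4 * d * 2 := Nat.mul_le_mul_left _ (by omega)
      omega
    calc V ^ 2 * n ^ 2 ≤ (6912 * (k * q)) ^ 2 * n ^ 2 :=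
          Nat.mul_le_mul_right _ (Nat.pow_le_pow_left h1 2)
      _ = 47775744 * (k * k * (n * q) ^ 2) := by ring
      _ ≤ 47775744 * (k * (S + 1) * (2 * t) ^ 2) := by gcongr
      _ = 191102976 * (k * (S + 1) * t ^ 2) := by ring
      _ ≤ 200000000 * (k * (S + 1) * t ^ 2) := Nat.mul_le_mul_right _ (by norm_num)
  have h6 : V ≤ 6 * (d * r) := by
    have : 4 * d * (r + 1) ≤ 6 * (d * r) := by nlinarith
    omega
  rcases Nat.lt_or_ge (S + 1) (2 * k * r ^ 2) with hs | hs
  · right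
    refine ⟨q, r, d, hq1, h, hd, hrV, ?_, hs⟩
    have hlam : 0 < r * ρ := by positivity
    have h1 : 12 * k * (T / (r * ρ)) < 72 * (d * q) := by
      apply Nat.lt_of_mul_lt_mul_left (a := n)
      calc n * (12 * k * (T / (r * ρ))) ≤ 6 * (d * r) * ρ * (12 * k * (T / (r * ρ))) := by
            rw [hn]
            exact Nat.mul_le_mul_right _ (Nat.mul_le_mul_right _ h6)
        _ = 72 * d * k * (r * ρ * (T / (r * ρ))) := by ring
        _ ≤ 72 * d * k * T := Nat.mul_le_mul_left _ (Nat.mul_div_le T (r * ρ))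
        _ = 72 * d * (k * T) := by ring
        _ ≤ 72 * d * t := Nat.mul_le_mul_left _ (by omega)
        _ < 72 * d * (n * q) := Nat.mul_lt_mul_of_pos_left htq (by omega)
        _ = n * (72 * (d * q)) := by ring
    have h2 : 12 * k ≤ d := by
      rw [hd]
      nlinarith
    have h3 : 12 * k * (T / (r * ρ) + 1) = 12 * k * (T / (r * ρ)) + 12 * k := by ring
    have h4 : (72 * q + 1) * d = 72 * (d * q) + d := by ring
    omega
  · left
    calc V ^ 2 * n ^ 2 ≤ (6 * (d * r)) ^ 2 * n ^ 2 :=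
          Nat.mul_le_mul_right _ (Nat.pow_le_pow_left h6 2)
      _ = 13436928 * (k * (2 * k * r ^ 2) * (n * q) ^ 2) := by rw [hd]; ring
      _ ≤ 13436928 * (k * (S + 1) * (2 * t) ^ 2) := by gcongr
      _ = 53747712 * (k * (S + 1) * t ^ 2) := by ring
      _ ≤ 200000000 * (k * (S + 1) * t ^ 2) := Nat.mul_le_mul_right _ (by norm_num)

/-- extension of a matrix by `false` -/
def exM {M : ℕ} (γ : Fin M → Fin M → Bool) (i c : ℕ) : Bool :=
  if h : i < M ∧ c < M then γ ⟨i, h.1⟩ ⟨c, h.2⟩ else false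

theorem exM_out {M : ℕ} (γ : Fin M → Fin M → Bool) (i c : ℕ) (h : ¬ (i < M ∧ c < M)) :
    exM γ i c = false := dif_neg h

/-- the zone of a row -/
def zidx {d r : ℕ} (i : Fin (d * r)) : Fin (2 * d) :=
  ⟨(i : ℕ) / r, by
    have h1 : (i : ℕ) / r < d := Nat.div_lt_of_lt_mul (lt_of_lt_of_eq i.2 (mul_comm _ _))
    omega⟩

/-- change of the bits in the rows of the zones of `A` and in the columns of the zone `b` -/
def flipM {d r : ℕ} (A : Finset (Fin (2 * d))) (b : ℕ) (s : A × Fin r × Fin r → Bool)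
    (γ : Fin (d * r) → Fin (d * r) → Bool) (i c : Fin (d * r)) : Bool :=
  if h : zidx i ∈ A ∧ (c : ℕ) / r + d = b ∧ 0 < r then
    xor (γ i c) (s (⟨zidx i, h.1⟩, ⟨(i : ℕ) % r, Nat.mod_lt _ h.2.2⟩,
      ⟨(c : ℕ) % r, Nat.mod_lt _ h.2.2⟩))
  else γ i c

theorem flipM_invol {d r : ℕ} (A : Finset (Fin (2 * d))) (b : ℕ) (s : A × Fin r × Fin r → Bool)
    (γ : Fin (d * r) → Fin (d * r) → Bool) : flipM A b s (flipM A b s γ) = γ := by
  funext i c
  unfold flipM
  split_ifs with h
  · simp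
  · rfl

/-- the bijection -/
def flipE {d r : ℕ} (A : Finset (Fin (2 * d))) (b : ℕ) (s : A × Fin r × Fin r → Bool) :
    Equiv.Perm (Fin (d * r) → Fin (d * r) → Bool) :=
  ⟨flipM A b s, flipM A b s, flipM_invol A b s, flipM_invol A b s⟩

theorem flipM_row {d r : ℕ} (A : Finset (Fin (2 * d))) (b : ℕ) (s : A × Fin r × Fin r → Bool)
    (γ : Fin (d * r) → Fin (d * r) → Bool) (i : ℕ) (hi : ∀ a ∈ A, i / r ≠ (a : ℕ)) (c : ℕ) :
    exM (flipM A b s γ) i c = exM γ i c := by
  unfold exM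
  by_cases h : i < d * r ∧ c < d * r
  · rw [dif_pos h, dif_pos h]
    unfold flipM
    rw [dif_neg]
    rintro ⟨ha, -⟩
    exact hi _ ha rfl
  · rw [dif_neg h, dif_neg h]

theorem flipM_col {d r : ℕ} (A : Finset (Fin (2 * d))) (b : ℕ) (s : A × Fin r × Fin r → Bool)
    (γ : Fin (d * r) → Fin (d * r) → Bool) (c : ℕ) (hc : c / r + d ≠ b) (i : ℕ) :
    exM (flipM A b s γ) i c = exM γ i c := by
  unfold exM
  by_cases h : i < d * r ∧ c < d * r
  · rw [dif_pos h, dif_pos h]
    unfold flipM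
    rw [dif_neg]
    rintro ⟨-, h1, -⟩
    exact hc h1
  · rw [dif_neg h, dif_neg h]

theorem flipM_inj {d r : ℕ} (A : Finset (Fin (2 * d))) (hA : ∀ a ∈ A, (a : ℕ) < d) (b : ℕ)
    (hb : d ≤ b) (hb2 : b < 2 * d)
    (s s' : A × Fin r × Fin r → Bool) (γ : Fin (d * r) → Fin (d * r) → Bool)
    (h : flipM A b s γ = flipM A b s' γ) : s = s' := by
  funext ⟨a, u, v⟩
  have hu := u.2
  have hv := v.2
  have hr : 0 < r := by omega
  have ha := hA a a.2
  have hi : (a : Fin (2 * d)) * r + (u : ℕ) < d * r := by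
    calc ((a : Fin (2 * d)) : ℕ) * r + u < ((a : Fin (2 * d)) : ℕ) * r + r := by omega
      _ = (((a : Fin (2 * d)) : ℕ) + 1) * r := by ring
      _ ≤ d * r := Nat.mul_le_mul_right _ ha
  have hc : (b - d) * r + (v : ℕ) < d * r := by
    calc (b - d) * r + v < (b - d) * r + r := by omega
      _ = (b - d + 1) * r := by ring
      _ ≤ d * r := Nat.mul_le_mul_right _ (by omega)
  have h1 := congrFun (congrFun h ⟨_, hi⟩) ⟨_, hc⟩
  have e1 : (((a : Fin (2 * d)) : ℕ) * r + u) / r = (a : Fin (2 * d)) := by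
    rw [mul_comm, Nat.mul_add_div hr, Nat.div_eq_of_lt hu, add_zero]
  have e2 : (((a : Fin (2 * d)) : ℕ) * r + u) % r = u := by
    rw [mul_comm, Nat.mul_add_mod, Nat.mod_eq_of_lt hu]
  have e3 : ((b - d) * r + (v : ℕ)) / r = b - d := by
    rw [mul_comm, Nat.mul_add_div hr, Nat.div_eq_of_lt hv, add_zero]
  have e4 : ((b - d) * r + (v : ℕ)) % r = v := by
    rw [mul_comm, Nat.mul_add_mod, Nat.mod_eq_of_lt hv]
  have e0 : zidx (⟨((a : Fin (2 * d)) : ℕ) * r + u, hi⟩ : Fin (d * r)) = a := Fin.ext e1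
  have hcond : zidx (⟨((a : Fin (2 * d)) : ℕ) * r + u, hi⟩ : Fin (d * r)) ∈ A ∧
      ((⟨(b - d) * r + v, hc⟩ : Fin (d * r)) : ℕ) / r + d = b ∧ 0 < r := by
    refine ⟨by rw [e0]; exact a.2, ?_, hr⟩
    simp only [e3]
    omega
  unfold flipM at h1
  rw [dif_pos hcond, dif_pos hcond] at h1
  have h3 := Bool.xor_right_inj.mp h1
  have e5 : (⟨(((⟨((a : Fin (2 * d)) : ℕ) * r + u, hi⟩ : Fin (d * r))) : ℕ) % r,
      Nat.mod_lt _ hcond.2.2⟩ : Fin r) = u := Fin.ext e2
  have e6 : (⟨(((⟨(b - d) * r + v, hc⟩ : Fin (d * r))) : ℕ) % r,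
      Nat.mod_lt _ hcond.2.2⟩ : Fin r) = v := Fin.ext e4
  have e7 : (⟨zidx (⟨((a : Fin (2 * d)) : ℕ) * r + u, hi⟩ : Fin (d * r)), hcond.1⟩ : A) = a :=
    Subtype.ext e0
  rw [e5, e6, e7] at h3
  exact h3

/-- **Matched matrices.**  A word of `V` rows of length `ρ` contains a bit matrix `X` with `M` rows in
its first `M` rows, row by row, and a bit matrix `Y` with `M` columns in its next `M` rows, column by
column. If a nondeterministic program accepts all words with `X = Y` within `T` steps and accepts a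
word only if `Y ≤ X`, then `V * n ≤ c √(k (S + 1)) (k T + n)`. -/
theorem matched {Λ : Type} {n k : ℕ} (P : HeadProg Λ n k) (V ρ T S : ℕ) (hV : 1 ≤ V)
    (hρ : 1 ≤ ρ) (hn : n = V * ρ) (hn2 : 2 ≤ n) (hk : 1 ≤ k)
    (W : ℕ → (ℕ → ℕ → Bool) → (ℕ → ℕ → Bool) → Fin n → Λ)
    (hW0 : ∀ M X X' Y Y', ∀ p : Fin n, (p : ℕ) / ρ < M →
      (∀ c, X ((p : ℕ) / ρ) c = X' ((p : ℕ) / ρ) c) → W M X Y p = W M X' Y' p)
    (hW1 : ∀ M X X' Y Y', ∀ p : Fin n, M ≤ (p : ℕ) / ρ →
      (∀ i, Y i ((p : ℕ) / ρ - M) = Y' i ((p : ℕ) / ρ - M)) → W M X Y p = W M X' Y' p)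
    (hacc : ∀ M, 4 * M ≤ V → ∀ X, P.AcceptsIn T (W M X X))
    (hsound : ∀ M, 4 * M ≤ V → ∀ X Y, P.Accepts (W M X Y) →
      ∀ i < M, ∀ c < M, Y i c = true → X i c = true)
    (hS : Fintype.card P.Q * n ^ k ≤ 2 ^ S) :
    V ^ 2 * n ^ 2 ≤ 200000000 * (k * (S + 1) * (k * T + n) ^ 2) := by
  classical
  have hQ : 1 ≤ Fintype.card P.Q := by
    obtain ⟨t, -, c, -⟩ := hacc 0 (Nat.zero_le _) (fun _ _ => false)
    exact Fintype.card_pos_iff.mpr ⟨(c 0).1⟩
  have hkS : k ≤ S + 1 := by
    have h1 : 2 ^ k ≤ 2 ^ S := by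
      calc 2 ^ k ≤ n ^ k := Nat.pow_le_pow_left hn2 k
        _ = 1 * n ^ k := (one_mul _).symm
        _ ≤ Fintype.card P.Q * n ^ k := Nat.mul_le_mul_right _ hQ
        _ ≤ 2 ^ S := hS
    have := (Nat.pow_le_pow_iff_right (by norm_num : 1 < 2)).mp h1
    omega
  rcases paramsM V ρ n k T S hV hρ hn hk hkS with h0 | ⟨q, r, d, hq, hr, hd, hdV, h1, h2⟩
  · exact h0
  exfalso
  have hkq : 1 ≤ k * q := Nat.one_le_iff_ne_zero.mpr (by positivity)
  have hd0 : 0 < d := by omega
  have hr0 : 0 < r := by omega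
  obtain ⟨Z0, hZ0⟩ : ∃ Z0 : Finset (Fin (2 * d)),
      Z0 = (univ : Finset (Fin (2 * d))).filter (fun z : Fin (2 * d) => (z : ℕ) < d) := ⟨_, rfl⟩
  obtain ⟨Z1, hZ1⟩ : ∃ Z1 : Finset (Fin (2 * d)),
      Z1 = (univ : Finset (Fin (2 * d))).filter (fun z : Fin (2 * d) => d ≤ (z : ℕ)) := ⟨_, rfl⟩
  have hc0 : Z0.card = d := by
    have h3 : Z0 = (univ : Finset (Fin d)).map
        ⟨fun i : Fin d => (⟨(i : ℕ), by have := i.2; omega⟩ : Fin (2 * d)), by
        intro i j hij
        simp only [Fin.mk.injEq] at hij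
        exact Fin.ext hij⟩ := by
      ext z
      simp only [hZ0, mem_filter, mem_univ, true_and, mem_map, Function.Embedding.coeFn_mk]
      constructor
      · intro h
        exact ⟨⟨z, h⟩, rfl⟩
      · rintro ⟨i, rfl⟩
        exact i.2
    rw [h3, card_map, card_univ, Fintype.card_fin]
  have hc01 : Z0.card + Z1.card = 2 * d := by
    have h3 := Finset.card_filter_add_card_filter_not (s := (univ : Finset (Fin (2 * d))))
      (fun z : Fin (2 * d) => (z : ℕ) < d)
    rw [card_univ, Fintype.card_fin] at h3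
    have h4 : Z1 = univ.filter (fun z : Fin (2 * d) => ¬ (z : ℕ) < d) := by
      rw [hZ1]
      apply filter_congr
      intro z _
      omega
    rw [hZ0, h4]
    exact h3
  have hc1 : Z1.card = d := by omega
  have hdr : ∀ p : ℕ, p / (r * ρ) = p / ρ / r := by
    intro p
    rw [Nat.div_div_eq_div_mul, mul_comm]
  have hcfg : Fintype.card P.Cfg + 1 ≤ 2 ^ (S + 1) := by
    rw [Fintype.card_prod, Fintype.card_fun, Fintype.card_fin, Fintype.card_fin]
    have : 1 ≤ 2 ^ S := Nat.one_le_two_pow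
    rw [pow_succ]
    omega
  have key := engineG (Γ := Fin (d * r) → Fin (d * r) → Bool) P (r * ρ) (2 * d) T (S + 1) (72 * q)
    (3 * (216 * (k * q)) * r ^ 2) (by positivity) Z0 Z1
    (by rw [← Finset.card_pos, hc1]; exact hd0)
    (fun γ => W (d * r) (exM γ) (exM γ)) (fun γ => hacc _ hdV _) (by
      intro b hb A hA hAc
      have hAd : ∀ a ∈ A, (a : ℕ) < d := by
        intro a ha
        have := hA ha
        rw [hZ0] at this
        exact (mem_filter.mp this).2
      have hbd : d ≤ (b : ℕ) := by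
        rw [hZ1] at hb
        exact (mem_filter.mp hb).2
      refine ⟨A × Fin r × Fin r → Bool, inferInstance, flipE A b, ?_, ?_, ?_⟩
      · rw [Fintype.card_fun, Fintype.card_bool, Fintype.card_prod, Fintype.card_prod,
          Fintype.card_fin, Fintype.card_coe]
        apply Nat.pow_le_pow_right (by norm_num)
        rw [pow_two]
        apply Nat.mul_le_mul_right
        omega
      · intro s γ p hpA hpb
        rw [hdr] at hpb
        simp only [hdr] at hpA
        rcases Nat.lt_or_ge ((p : ℕ) / ρ) (d * r) with hp | hp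
        · apply hW0 _ _ _ _ _ p hp
          intro c
          exact flipM_row A b s γ _ hpA c
        · apply hW1 _ _ _ _ _ p hp
          intro i
          apply flipM_col
          intro hh
          apply hpb
          have e : (p : ℕ) / ρ / r = ((p : ℕ) / ρ - d * r) / r + d := by
            conv_lhs => rw [show (p : ℕ) / ρ = ((p : ℕ) / ρ - d * r) + d * r by omega]
            rw [Nat.add_mul_div_right _ _ hr0]
          rw [e, hh]
      · intro γ s s' hne hac hac'
        apply hne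
        have hmixw : ∀ s s' : A × Fin r × Fin r → Bool,
            mix (r * ρ) b (W (d * r) (exM (flipE A b s γ)) (exM (flipE A b s γ)))
              (W (d * r) (exM (flipE A b s' γ)) (exM (flipE A b s' γ))) =
            W (d * r) (exM (flipE A b s γ)) (exM (flipE A b s' γ)) := by
          intro s s'
          funext p
          unfold mix
          rw [hdr]
          by_cases hpb : (p : ℕ) / ρ / r = b
          · rw [if_pos hpb]
            apply hW1
            · rw [← Nat.le_div_iff_mul_le hr0, hpb]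
              exact hbd
            · intro i
              rfl
          · rw [if_neg hpb]
            rcases Nat.lt_or_ge ((p : ℕ) / ρ) (d * r) with hp | hp
            · exact hW0 _ _ _ _ _ p hp (fun c => rfl)
            · apply hW1 _ _ _ _ _ p hp
              intro i
              have hcb : ((p : ℕ) / ρ - d * r) / r + d ≠ b := by
                intro hh
                apply hpb
                have e : (p : ℕ) / ρ / r = ((p : ℕ) / ρ - d * r) / r + d := by
                  conv_lhs => rw [show (p : ℕ) / ρ = ((p : ℕ) / ρ - d * r) + d * r by omega]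
                  rw [Nat.add_mul_div_right _ _ hr0]
                rw [e, hh]
              exact (flipM_col A b s γ _ hcb i).trans (flipM_col A b s' γ _ hcb i).symm
        rw [hmixw] at hac hac'
        have g1 := hsound _ hdV _ _ hac
        have g2 := hsound _ hdV _ _ hac'
        apply flipM_inj A hAd b hbd b.2 s s' γ
        funext i c
        have g3 := g1 i i.2 c c.2
        have g4 := g2 i i.2 c c.2
        have e1 : ∀ s, exM (flipE A b s γ) i c = flipM A b s γ i c := by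
          intro s
          unfold exM
          rw [dif_pos ⟨i.2, c.2⟩]
          rfl
        rw [e1, e1] at g3 g4
        cases h5 : flipM A b s γ i c <;> cases h6 : flipM A b s' γ i c
        · rfl
        · rw [h5, h6] at g3
          exact absurd (g3 rfl) (by simp)
        · rw [h5, h6] at g4
          exact absurd (g4 rfl) (by simp)
        · rfl) (by rw [hc1]; exact h1) (by
      rw [hc0, hd]
      apply le_of_eq
      ring) hcfg
  rw [hc0, hd] at key
  obtain ⟨e, he⟩ : ∃ e, e = k * q := ⟨_, rfl⟩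
  rw [← he] at key
  have hr2 : 4 ≤ r ^ 2 := by nlinarith
  have h3 : e * 4 ≤ e * r ^ 2 := Nat.mul_le_mul_left _ hr2
  have h4 : (S + 1) * (2 * (72 * q) + 2) ≤ (S + 1) * (146 * q) := Nat.mul_le_mul_left _ (by omega)
  have h5 : 1 ≤ (S + 1) * q := Nat.one_le_iff_ne_zero.mpr (by positivity)
  have h6 : (S + 1) * (146 * q) = 146 * ((S + 1) * q) := by ring
  have h7 : 3 * (216 * e) * r ^ 2 = 648 * (e * r ^ 2) := by ring
  have h8 : 432 * (e * r ^ 2) ≤ 147 * ((S + 1) * q) := by omega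
  have h9 : (S + 1) * q < 2 * (e * r ^ 2) := by
    calc (S + 1) * q < 2 * k * r ^ 2 * q := Nat.mul_lt_mul_of_pos_right h2 (by omega)
      _ = 2 * (e * r ^ 2) := by rw [he]; ring
  omega

end Pool.Agent.X240.SH
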