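import Pool.Agent.TH457.HT.Gen3
import Pool.Agent.TH457.HT.ZDefs

/-!
# Slow heads and 3SUM (`a + b = c`, numbers between `-N ^ 3` and `N ^ 3`)
-/

set_option autoImplicit false

open Finset

namespace Pool.Agent.X240.SH

open Pool.Agent.TH457.HT

/-- one of the numbers is the sum of two others -/
def HasSum3 {N : ℕ} (x : Fin N → ℤ) : Prop :=
  ∃ i j k : Fin N, i ≠ j ∧ i ≠ k ∧ j ≠ k ∧ x i + x j = x k

/-- the numbers of the instance, from the values `u j` of the blocks; `h = N / 6`, `Y = 4 h ^ 3` -/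
def inst (h Y m : ℕ) (u : ℕ → ℕ) (a : ℕ) : ℤ :=
  if a < 6 * m ∧ a % 6 = 0 then ((5 * Y + (u (a / 6) * (2 * h) + a / 6) : ℕ) : ℤ)
  else if a < 6 * m ∧ a % 6 = 1 then ((18 * Y : ℕ) : ℤ) - ((u (a / 6) * (2 * h) + a / 6 : ℕ) : ℤ)
  else if a < 6 * m ∧ a % 6 = 2 then ((23 * Y + (a / 6 + 1) : ℕ) : ℤ)
  else ((31 * Y + a : ℕ) : ℤ)

/-- the kinds of numbers -/
theorem inst_cases (h Y m : ℕ) (u : ℕ → ℕ) (N : ℕ) (hm : m < h) (hY : Y = 4 * h ^ 3)
    (hu : ∀ j < m, u j < 2 * h ^ 2) (a : ℕ) (ha : a < N) :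
    (∃ j y : ℕ, j < m ∧ a = 6 * j ∧ y = u j * (2 * h) + j ∧ y < Y ∧
      inst h Y m u a = 5 * (Y : ℤ) + y) ∨
    (∃ j y : ℕ, j < m ∧ a = 6 * j + 1 ∧ y = u j * (2 * h) + j ∧ y < Y ∧
      inst h Y m u a = 18 * (Y : ℤ) - y) ∨
    (∃ t : ℕ, 1 ≤ t ∧ t ≤ m ∧ a = 6 * (t - 1) + 2 ∧ inst h Y m u a = 23 * (Y : ℤ) + t) ∨
    (∃ t : ℕ, t < N ∧ t = a ∧ inst h Y m u a = 31 * (Y : ℤ) + t) := by
  have hy : ∀ j < m, u j * (2 * h) + j < Y := by
    intro j hj
    have h1 : u j + 1 ≤ 2 * h ^ 2 := hu j hj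
    calc u j * (2 * h) + j < u j * (2 * h) + 2 * h := by omega
      _ = (u j + 1) * (2 * h) := by ring
      _ ≤ 2 * h ^ 2 * (2 * h) := Nat.mul_le_mul_right _ h1
      _ = Y := by rw [hY]; ring
  unfold inst
  by_cases h0 : a < 6 * m ∧ a % 6 = 0
  · rw [if_pos h0]
    left
    refine ⟨a / 6, _, by omega, by omega, rfl, hy _ (by omega), ?_⟩
    push_cast
    ring
  · rw [if_neg h0]
    by_cases h1 : a < 6 * m ∧ a % 6 = 1
    · rw [if_pos h1]
      right; left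
      refine ⟨a / 6, _, by omega, by omega, rfl, hy _ (by omega), ?_⟩
      push_cast
      ring
    · rw [if_neg h1]
      by_cases h2 : a < 6 * m ∧ a % 6 = 2
      · rw [if_pos h2]
        right; right; left
        refine ⟨a / 6 + 1, by omega, by omega, by omega, ?_⟩
        push_cast
        ring
      · rw [if_neg h2]
        right; right; right
        refine ⟨a, ha, rfl, ?_⟩
        push_cast
        ring

/-- two values are equal if the difference of the numbers is small -/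
theorem diff_small (h m : ℕ) (u : ℕ → ℕ) (hm : m < h) (i j t : ℕ) (hi : i < m)
    (hj : j < m) (ht1 : 1 ≤ t) (ht : t ≤ m)
    (he : ((u i * (2 * h) + i : ℕ) : ℤ) - ((u j * (2 * h) + j : ℕ) : ℤ) = t) :
    i ≠ j ∧ u i = u j := by
  push_cast at he
  have hij1 : (i : ℤ) < m := by exact_mod_cast hi
  have hij2 : (j : ℤ) < m := by exact_mod_cast hj
  have hmN : (m : ℤ) < h := by exact_mod_cast hm
  have ht' : (t : ℤ) ≤ m := by exact_mod_cast ht
  have ht1' : (1 : ℤ) ≤ t := by exact_mod_cast ht1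
  have h0 : (0 : ℤ) ≤ i := by positivity
  have h0' : (0 : ℤ) ≤ j := by positivity
  have hN : (0 : ℤ) < h := by linarith
  have e : ((u i : ℤ) - u j) * (2 * h) = t - (i - j) := by linarith
  have hu : (u i : ℤ) - u j = 0 := by
    rcases lt_trichotomy ((u i : ℤ) - u j) 0 with hlt | heq | hgt
    · exfalso
      have h1 : (u i : ℤ) - u j ≤ -1 := by linarith
      have h2 : ((u i : ℤ) - u j) * (2 * h) ≤ -1 * (2 * h) :=
        mul_le_mul_of_nonneg_right h1 (by linarith)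
      linarith
    · exact heq
    · exfalso
      have h1 : 1 ≤ (u i : ℤ) - u j := by linarith
      have h2 : 1 * (2 * (h : ℤ)) ≤ ((u i : ℤ) - u j) * (2 * h) :=
        mul_le_mul_of_nonneg_right h1 (by linarith)
      linarith
  rw [hu, zero_mul] at e
  refine ⟨?_, ?_⟩
  · rintro rfl; linarith
  · have : (u i : ℤ) = u j := by linarith
    exact_mod_cast this

theorem nums (h Y N : ℕ) (hh : 2 ≤ h) (hY : Y = 4 * h ^ 3) (hN : N ≤ 6 * h + 5) :
    N < Y ∧ h < Y := by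
  have h1 : 4 * h ≤ h ^ 3 := by
    calc 4 * h ≤ h ^ 2 * h := Nat.mul_le_mul_right _ (by nlinarith)
      _ = h ^ 3 := by ring
  omega

/-- a solution gives two equal values -/
theorem eq_of_sum (h Y m : ℕ) (u : ℕ → ℕ) (N : ℕ) (hh : 2 ≤ h) (hm : m < h)
    (hY : Y = 4 * h ^ 3) (hN : N ≤ 6 * h + 5) (hu : ∀ j < m, u j < 2 * h ^ 2) (a b c : ℕ)
    (ha : a < N) (hb : b < N) (hc : c < N)
    (he : inst h Y m u a + inst h Y m u b = inst h Y m u c) :
    ∃ i j, i < m ∧ j < m ∧ i ≠ j ∧ u i = u j := by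
  obtain ⟨n1, n2⟩ := nums h Y N hh hY hN
  have key := diff_small h m u hm
  rcases inst_cases h Y m u N hm hY hu a ha with ⟨j1, y1, hj1, -, hy1, hb1, e1⟩ |
    ⟨j1, y1, hj1, -, hy1, hb1, e1⟩ | ⟨t1, ht1, hb1, -, e1⟩ | ⟨t1, ht1, -, e1⟩ <;>
  rcases inst_cases h Y m u N hm hY hu b hb with ⟨j2, y2, hj2, -, hy2, hb2, e2⟩ |
    ⟨j2, y2, hj2, -, hy2, hb2, e2⟩ | ⟨t2, ht2, hb2, -, e2⟩ | ⟨t2, ht2, -, e2⟩ <;>
  rcases inst_cases h Y m u N hm hY hu c hc with ⟨j3, y3, hj3, -, hy3, hb3, e3⟩ |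
    ⟨j3, y3, hj3, -, hy3, hb3, e3⟩ | ⟨t3, ht3, hb3, -, e3⟩ | ⟨t3, ht3, -, e3⟩ <;>
  rw [e1, e2, e3] at he <;>
  first
  | (exfalso; omega)
  | exact ⟨j1, j2, hj1, hj2, key j1 j2 t3 hj1 hj2 ht3 hb3 (by rw [← hy1, ← hy2]; linarith)⟩
  | exact ⟨j2, j1, hj2, hj1, key j2 j1 t3 hj2 hj1 ht3 hb3 (by rw [← hy2, ← hy1]; linarith)⟩

/-- two equal values give a solution -/
theorem sum_of_eq (h Y m : ℕ) (u : ℕ → ℕ) (i j : ℕ) (hij : i < j) (hj : j < m)
    (he : u i = u j) :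
    inst h Y m u (6 * j) + inst h Y m u (6 * i + 1) = inst h Y m u (6 * (j - i - 1) + 2) := by
  unfold inst
  rw [if_pos (by omega), if_neg (by omega), if_pos (by omega), if_neg (by omega),
    if_neg (by omega), if_pos (by omega)]
  have e1 : 6 * j / 6 = j := by omega
  have e2 : (6 * i + 1) / 6 = i := by omega
  have e3 : (6 * (j - i - 1) + 2) / 6 = j - i - 1 := by omega
  rw [e1, e2, e3, he]
  have e4 : j - i - 1 + 1 = j - i := by omega
  rw [e4]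
  omega

/-- the numbers are distinct -/
theorem inst_inj (h Y m : ℕ) (u : ℕ → ℕ) (N : ℕ) (hh : 2 ≤ h) (hm : m < h)
    (hY : Y = 4 * h ^ 3) (hN : N ≤ 6 * h + 5) (hu : ∀ j < m, u j < 2 * h ^ 2) (a b : ℕ)
    (ha : a < N) (hb : b < N) (he : inst h Y m u a = inst h Y m u b) : a = b := by
  obtain ⟨n1, n2⟩ := nums h Y N hh hY hN
  have hinj : ∀ i j, i < m → j < m → u i * (2 * h) + i = u j * (2 * h) + j → i = j := by
    intro i j hi hj hij
    have h1 : (u i * (2 * h) + i) % (2 * h) = i := by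
      rw [mul_comm, Nat.mul_add_mod, Nat.mod_eq_of_lt (by omega)]
    have h2 : (u j * (2 * h) + j) % (2 * h) = j := by
      rw [mul_comm, Nat.mul_add_mod, Nat.mod_eq_of_lt (by omega)]
    rw [hij, h2] at h1
    exact h1.symm
  rcases inst_cases h Y m u N hm hY hu a ha with ⟨j1, y1, hj1, ha1, hy1, hb1, e1⟩ |
    ⟨j1, y1, hj1, ha1, hy1, hb1, e1⟩ | ⟨t1, ht1, hb1, ha1, e1⟩ | ⟨t1, ht1, ha1, e1⟩ <;>
  rcases inst_cases h Y m u N hm hY hu b hb with ⟨j2, y2, hj2, ha2, hy2, hb2, e2⟩ |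
    ⟨j2, y2, hj2, ha2, hy2, hb2, e2⟩ | ⟨t2, ht2, hb2, ha2, e2⟩ | ⟨t2, ht2, ha2, e2⟩ <;>
  rw [e1, e2] at he <;>
  first
  | (exfalso; omega)
  | omega
  | (have h3 : y1 = y2 := by omega
     have h4 := hinj j1 j2 hj1 hj2 (by rw [← hy1, ← hy2]; exact h3)
     omega)

theorem inst_abs (h Y m : ℕ) (u : ℕ → ℕ) (N : ℕ) (hh : 2 ≤ h) (hm : m < h)
    (hY : Y = 4 * h ^ 3) (hN : N ≤ 6 * h + 5) (hN' : 6 * h ≤ N) (hu : ∀ j < m, u j < 2 * h ^ 2)
    (a : ℕ) (ha : a < N) : |inst h Y m u a| ≤ (N : ℤ) ^ 3 := by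
  obtain ⟨n1, n2⟩ := nums h Y N hh hY hN
  have h1 : 32 * Y ≤ N ^ 3 := by
    calc 32 * Y = 128 * h ^ 3 := by rw [hY]; ring
      _ ≤ 216 * h ^ 3 := Nat.mul_le_mul_right _ (by norm_num)
      _ = (6 * h) ^ 3 := by ring
      _ ≤ N ^ 3 := Nat.pow_le_pow_left hN' 3
  have h2 : 32 * (Y : ℤ) ≤ (N : ℤ) ^ 3 := by exact_mod_cast h1
  obtain ⟨M, hM⟩ : ∃ M : ℤ, M = (N : ℤ) ^ 3 := ⟨_, rfl⟩
  rw [← hM] at h2 ⊢
  rcases inst_cases h Y m u N hm hY hu a ha with ⟨j1, y1, hj1, -, hy1, hb1, e1⟩ |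
    ⟨j1, y1, hj1, -, hy1, hb1, e1⟩ | ⟨t1, ht1, hb1, -, e1⟩ | ⟨t1, ht1, -, e1⟩ <;>
  rw [e1, abs_le] <;>
  constructor <;> omega

/-- the word -/
def ZW (N w m : ℕ) (v : Fin m → Fin (2 * (N / 6) ^ 2)) : Fin (N * (w + 1)) → Bool :=
  zword N w (fun a => inst (N / 6) (4 * (N / 6) ^ 3) m
    (fun j => if h : j < m then (v ⟨j, h⟩ : ℕ) else 0) a)

theorem ZW_local (N w m : ℕ) (v v' : Fin m → Fin (2 * (N / 6) ^ 2)) (p : Fin (N * (w + 1)))
    (h : ∀ h : (p : ℕ) / (6 * (w + 1)) < m,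
      v ⟨(p : ℕ) / (6 * (w + 1)), h⟩ = v' ⟨(p : ℕ) / (6 * (w + 1)), h⟩) :
    ZW N w m v p = ZW N w m v' p := by
  unfold ZW zword
  congr 1
  dsimp only
  obtain ⟨a, ha⟩ : ∃ a, a = (p : ℕ) / (w + 1) := ⟨_, rfl⟩
  have e : (p : ℕ) / (6 * (w + 1)) = a / 6 := by
    rw [ha, Nat.div_div_eq_div_mul]
    exact congrArg (fun z => (p : ℕ) / z) (mul_comm _ _)
  rw [← ha]
  have key : ∀ h2 : a / 6 < m, v ⟨a / 6, h2⟩ = v' ⟨a / 6, h2⟩ := by
    intro h2
    have h4 := h (by rw [e]; exact h2)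
    have h5 : (⟨(p : ℕ) / (6 * (w + 1)), by rw [e]; exact h2⟩ : Fin m) = ⟨a / 6, h2⟩ :=
      Fin.ext e
    rw [h5] at h4
    exact h4
  unfold inst
  by_cases h1 : a < 6 * m
  · have h2 : a / 6 < m := by omega
    simp only [h2, dite_true, key h2]
  · rw [if_neg (fun h' => h1 h'.1), if_neg (fun h' => h1 h'.1), if_neg (fun h' => h1 h'.1),
      if_neg (fun h' => h1 h'.1), if_neg (fun h' => h1 h'.1)]

variable {N w : ℕ}

theorem hm6 (m : ℕ) (hm : (m + 1) * (6 * (w + 1)) ≤ N * (w + 1)) : m < N / 6 := by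
  have h1 : (6 * (m + 1)) * (w + 1) ≤ N * (w + 1) := by
    calc (6 * (m + 1)) * (w + 1) = (m + 1) * (6 * (w + 1)) := by ring
      _ ≤ _ := hm
  have := Nat.le_of_mul_le_mul_right h1 (by omega)
  omega

theorem hex (m : ℕ) (v : Fin m → Fin (2 * (N / 6) ^ 2)) (j : ℕ) (hj : j < m) :
    (fun j => if h : j < m then (v ⟨j, h⟩ : ℕ) else 0) j < 2 * (N / 6) ^ 2 := by
  simp only [hj, dite_true]
  exact (v ⟨j, hj⟩).2

/-- the list -/
def lst (N m : ℕ) (v : Fin m → Fin (2 * (N / 6) ^ 2)) (a : Fin N) : ℤ :=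
  inst (N / 6) (4 * (N / 6) ^ 3) m (fun j => if h : j < m then (v ⟨j, h⟩ : ℕ) else 0) a

theorem lst_inj (hN : 12 ≤ N) (m : ℕ) (hm : m < N / 6) (v : Fin m → Fin (2 * (N / 6) ^ 2)) :
    Function.Injective (lst N m v) := by
  intro a b hab
  exact Fin.ext (inst_inj _ _ m _ N (by omega) hm rfl (by omega) (hex m v) a b a.2 b.2 hab)

theorem lst_abs (hN : 12 ≤ N) (m : ℕ) (hm : m < N / 6) (v : Fin m → Fin (2 * (N / 6) ^ 2))
    (a : Fin N) : |lst N m v a| ≤ (N : ℤ) ^ 3 :=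
  inst_abs _ _ m _ N (by omega) hm rfl (by omega) (by omega) (hex m v) a a.2

theorem lst_yes (m : ℕ) (hm : m < N / 6) (v : Fin m → Fin (2 * (N / 6) ^ 2))
    (hv : ¬ Function.Injective v) : HasSum3 (lst N m v) := by
  have h3 : ∃ i j : Fin m, i < j ∧ v i = v j := by
    unfold Function.Injective at hv
    push Not at hv
    obtain ⟨a, b, hvab, hab⟩ := hv
    rcases lt_or_gt_of_ne hab with h | h
    · exact ⟨a, b, h, hvab⟩
    · exact ⟨b, a, h, hvab.symm⟩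
  obtain ⟨i, j, hij, hvij⟩ := h3
  have hij' : (i : ℕ) < j := hij
  have hj := j.2
  refine ⟨⟨6 * j, by omega⟩, ⟨6 * i + 1, by omega⟩, ⟨6 * (j - i - 1) + 2, by omega⟩,
    ?_, ?_, ?_, ?_⟩
  · intro h; have := congrArg Fin.val h; simp only at this; omega
  · intro h; have := congrArg Fin.val h; simp only at this; omega
  · intro h; have := congrArg Fin.val h; simp only at this; omega
  · apply sum_of_eq _ _ m _ i j hij' hj
    simp only [i.2, j.2, dite_true]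
    rw [hvij]

theorem lst_no (hN : 12 ≤ N) (m : ℕ) (hm : m < N / 6) (v : Fin m → Fin (2 * (N / 6) ^ 2))
    (hv : Function.Injective v) : ¬ HasSum3 (lst N m v) := by
  rintro ⟨a, b, c, -, -, -, habc⟩
  obtain ⟨i, j, hi, hj, hij, he⟩ := eq_of_sum _ _ m _ N (by omega) hm rfl (by omega) (hex m v)
    a b c a.2 b.2 c.2 habc
  simp only [hi, hj, dite_true] at he
  exact hij (congrArg Fin.val (hv (Fin.ext he)))

theorem small {K k S T : ℕ} (hN : N < 12) (hK : 12 ≤ K) (hk : 1 ≤ k) :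
    (N * (w + 1)) ^ 3 ≤ K * (k * (S + 1) * (w + 1) * (k * T + N * (w + 1)) ^ 2) := by
  have h1 : N * (w + 1) ≤ K * (k * (S + 1) * (w + 1)) := by
    have h2 : 1 ≤ k * (S + 1) := Nat.one_le_iff_ne_zero.mpr (by positivity)
    calc N * (w + 1) ≤ K * (w + 1) := Nat.mul_le_mul_right _ (by omega)
      _ = K * (1 * (w + 1)) := by ring
      _ ≤ K * (k * (S + 1) * (w + 1)) :=
          Nat.mul_le_mul_left _ (Nat.mul_le_mul_right _ h2)
  calc (N * (w + 1)) ^ 3 = N * (w + 1) * (N * (w + 1)) ^ 2 := by ring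
    _ ≤ K * (k * (S + 1) * (w + 1)) * (k * T + N * (w + 1)) ^ 2 := by gcongr; omega
    _ = _ := by ring

open Classical in
/-- **Randomized slow heads and 3SUM.** -/
theorem sum_rand (N w : ℕ) {k : ℕ} {Ω : Type} [Fintype Ω] (p : Ω → ℝ) (hp : ∀ ω, 0 ≤ p ω)
    (hp1 : ∑ ω, p ω = 1) (P : Ω → DetProg Bool (N * (w + 1)) k) (T S : ℕ) (hk : 1 ≤ k)
    (hS : ∀ ω, Fintype.card (P ω).Q * (N * (w + 1)) ^ k ≤ 2 ^ S)
    (h : ∀ x : Fin N → ℤ, Function.Injective x → (∀ i, |x i| ≤ (N : ℤ) ^ 3) →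
      1 - 1 / 20000 ≤ prob p P T (zword N w x) (decide (HasSum3 x))) :
    (N * (w + 1)) ^ 3 ≤ 2100000 * (k * (S + 1) * (w + 1) * (k * T + N * (w + 1)) ^ 2) := by
  rcases Nat.lt_or_ge N 12 with hN | hN
  · exact small hN (by norm_num) hk
  have hn : 0 < N * (w + 1) := by positivity
  have hdiv : N * (w + 1) / (6 * (w + 1)) = N / 6 := Nat.mul_div_mul_right N 6 (by omega)
  have h := blocksR3 p hp hp1 (fun ω => (P ω).flip) (6 * (w + 1)) (2 * (N / 6) ^ 2) T S hn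
    (by omega) hk (by have : 1 ≤ N / 6 := by omega
                      positivity) (by rw [hdiv])
    (fun m v => ZW N w m v)
    (fun m v v' q hq => ZW_local N w m v v' q hq)
    (by
      intro m hm v hv
      rw [prob_flip]
      have hm' := hm6 m hm
      have h1 := h _ (lst_inj hN m hm' v) (lst_abs hN m hm' v)
      rw [decide_eq_false (lst_no hN m hm' v hv)] at h1
      exact h1)
    (by
      intro m hm v hv
      rw [prob_flip]
      have hm' := hm6 m hm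
      have h1 := h _ (lst_inj hN m hm' v) (lst_abs hN m hm' v)
      rw [decide_eq_true (lst_yes m hm' v hv)] at h1
      exact h1)
    (fun ω => hS ω)
  refine h.trans ?_
  calc 342468 * (k * (S + 1) * (6 * (w + 1)) * (k * T + N * (w + 1)) ^ 2)
      = 2054808 * (k * (S + 1) * (w + 1) * (k * T + N * (w + 1)) ^ 2) := by ring
    _ ≤ 2100000 * (k * (S + 1) * (w + 1) * (k * T + N * (w + 1)) ^ 2) := by gcongr; norm_num

/-- **Nondeterministic slow heads which verify the absence of solutions.** -/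
theorem sum_nondet (N w : ℕ) {k : ℕ} (P : HeadProg Bool (N * (w + 1)) k) (T S : ℕ)
    (hk : 1 ≤ k) (hS : Fintype.card P.Q * (N * (w + 1)) ^ k ≤ 2 ^ S)
    (hacc : ∀ x : Fin N → ℤ, Function.Injective x → (∀ i, |x i| ≤ (N : ℤ) ^ 3) → ¬ HasSum3 x →
      P.AcceptsIn T (zword N w x))
    (hsound : ∀ x : Fin N → ℤ, Function.Injective x → (∀ i, |x i| ≤ (N : ℤ) ^ 3) → HasSum3 x →
      ¬ P.Accepts (zword N w x)) :
    (N * (w + 1)) ^ 3 ≤ 51000 * (k * (S + 1) * (w + 1) * (k * T + N * (w + 1)) ^ 2) := by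
  rcases Nat.lt_or_ge N 12 with hN | hN
  · exact small hN (by norm_num) hk
  have hn : 0 < N * (w + 1) := by positivity
  have hdiv : N * (w + 1) / (6 * (w + 1)) = N / 6 := Nat.mul_div_mul_right N 6 (by omega)
  have h := blocksN3 P (6 * (w + 1)) (2 * (N / 6) ^ 2) T S hn
    (by omega) hk (by have : 1 ≤ N / 6 := by omega
                      positivity) (by rw [hdiv])
    (fun m v => ZW N w m v)
    (fun m v v' q hq => ZW_local N w m v v' q hq)
    (by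
      intro m hm v hv
      have hm' := hm6 m hm
      exact hacc _ (lst_inj hN m hm' v) (lst_abs hN m hm' v) (lst_no hN m hm' v hv))
    (by
      intro m hm v hv
      have hm' := hm6 m hm
      by_contra hni
      exact hsound _ (lst_inj hN m hm' v) (lst_abs hN m hm' v) (lst_yes m hm' v hni) hv)
    hS
  refine h.trans ?_
  calc 8456 * (k * (S + 1) * (6 * (w + 1)) * (k * T + N * (w + 1)) ^ 2)
      = 50736 * (k * (S + 1) * (w + 1) * (k * T + N * (w + 1)) ^ 2) := by ring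
    _ ≤ 51000 * (k * (S + 1) * (w + 1) * (k * T + N * (w + 1)) ^ 2) := by gcongr; norm_num

end Pool.Agent.X240.SH
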