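import Mathlib

/-!
# Lists of edges as words
-/

set_option autoImplicit false

namespace Pool.Agent.X240.SH

/-- the letters of the code of a pair: `w` binary digits for each number, the last digit first -/
def elet (w : ℕ) (e : ℕ × ℕ) (o : ℕ) : Bool :=
  if o < w then Nat.testBit e.1 o else Nat.testBit e.2 (o - w)

/-- the word of a list of `M` pairs, `2 w` letters for each of them -/
def eword (M w : ℕ) (x : Fin M → ℕ × ℕ) (p : Fin (M * (2 * w))) : Bool :=
  elet w (x ⟨(p : ℕ) / (2 * w), Nat.div_lt_of_lt_mul (lt_of_lt_of_eq p.2 (mul_comm _ _))⟩)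
    ((p : ℕ) % (2 * w))

/-- `x` lists the edges of a simple graph with vertices below `V`: each edge is given by the smaller
and the larger of its vertices, and no edge is listed twice -/
def IsEdgeList {M : ℕ} (V : ℕ) (x : Fin M → ℕ × ℕ) : Prop :=
  Function.Injective x ∧ ∀ a, (x a).1 < (x a).2 ∧ (x a).2 < V

/-- the graph has a triangle -/
def HasTriangle {M : ℕ} (x : Fin M → ℕ × ℕ) : Prop :=
  ∃ p q r : ℕ, (∃ a, x a = (p, q)) ∧ (∃ a, x a = (q, r)) ∧ (∃ a, x a = (p, r))

end Pool.Agent.X240.SH
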