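import Pool.Agent.X240.SH.Bip
import Pool.Agent.X240.SH.BipR
import Pool.Agent.X240.SH.TriDefs

/-!
# Slow heads and triangle detection
-/

set_option autoImplicit false

open Finset

namespace Pool.Agent.X240.SH

open Pool.Agent.TH457.HT

/-- the edges of the instance, from the values `u j` of the blocks -/
def tinst (M q d m : ℕ) (u : ℕ → ℕ) (a : ℕ) : ℕ × ℕ :=
  if a < 2 * m ∧ a / 2 / d % 2 = 1 then
    (if a % 2 = 0 then (u (a / 2) / q, 2 * q + a)
      else (q + u (a / 2) % q, 2 * q + (a - 1)))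
  else if a < 2 * m ∧ a % 2 = 0 then (u (a / 2) / q, q + u (a / 2) % q)
  else (2 * q + a, 2 * q + M)

/-- the kinds of edges -/
theorem tinst_cases (M q d m : ℕ) (u : ℕ → ℕ) (hq : 0 < q)
    (hu : ∀ j < m, u j < q ^ 2) (a : ℕ) :
    (∃ b x y : ℕ, b < m ∧ b / d % 2 = 1 ∧ a = 2 * b ∧ x < q ∧ y < q ∧
      x = u b / q ∧ y = u b % q ∧ tinst M q d m u a = (x, 2 * q + 2 * b)) ∨
    (∃ b x y : ℕ, b < m ∧ b / d % 2 = 1 ∧ a = 2 * b + 1 ∧ x < q ∧ y < q ∧
      x = u b / q ∧ y = u b % q ∧ tinst M q d m u a = (q + y, 2 * q + 2 * b)) ∨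
    (∃ b x y : ℕ, b < m ∧ b / d % 2 = 0 ∧ a = 2 * b ∧ x < q ∧ y < q ∧
      x = u b / q ∧ y = u b % q ∧ tinst M q d m u a = (x, q + y)) ∨
    (¬ (a < 2 * m ∧ a / 2 / d % 2 = 1) ∧ tinst M q d m u a = (2 * q + a, 2 * q + M)) := by
  have hx : ∀ j < m, u j / q < q := by
    intro j hj
    rw [Nat.div_lt_iff_lt_mul hq]
    calc u j < q ^ 2 := hu j hj
      _ = q * q := by ring
  have hy : ∀ j < m, u j % q < q := fun j _ => Nat.mod_lt _ hq
  unfold tinst
  by_cases h1 : a < 2 * m ∧ a / 2 / d % 2 = 1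
  · rw [if_pos h1]
    by_cases h2 : a % 2 = 0
    · rw [if_pos h2]
      left
      refine ⟨a / 2, _, _, by omega, h1.2, by omega, hx _ (by omega), hy _ (by omega), rfl, rfl, ?_⟩
      have : 2 * (a / 2) = a := by omega
      rw [this]
    · rw [if_neg h2]
      right; left
      refine ⟨a / 2, _, _, by omega, h1.2, by omega, hx _ (by omega), hy _ (by omega), rfl, rfl, ?_⟩
      have : 2 * (a / 2) = a - 1 := by omega
      rw [this]
  · rw [if_neg h1]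
    by_cases h2 : a < 2 * m ∧ a % 2 = 0
    · rw [if_pos h2]
      right; right; left
      refine ⟨a / 2, _, _, by omega, ?_, by omega, hx _ (by omega), hy _ (by omega), rfl, rfl, rfl⟩
      have h3 : a / 2 / d % 2 ≠ 1 := fun h4 => h1 ⟨h2.1, h4⟩
      omega
    · rw [if_neg h2]
      right; right; right
      exact ⟨h1, rfl⟩

/-- the value from the digits -/
theorem val_eq (q a b : ℕ) (h1 : a / q = b / q) (h2 : a % q = b % q) :
    a = b := by
  rw [← Nat.div_add_mod a q, ← Nat.div_add_mod b q, h1, h2]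

/-- the edges are distinct -/
theorem tinst_inj (M q d m : ℕ) (u : ℕ → ℕ) (hq : 0 < q)
    (hu : ∀ j < m, u j < q ^ 2)
    (hinj : ∀ i j, i < m → j < m → i / d % 2 = 0 → j / d % 2 = 0 → u i = u j → i = j)
    (a b : ℕ) (ha : a < M) (hb : b < M) (he : tinst M q d m u a = tinst M q d m u b) :
    a = b := by
  rcases tinst_cases M q d m u hq hu a with
    ⟨b1, x1, y1, hb1, hc1, ha1, hx1, hy1, ex1, ey1, e1⟩ |
    ⟨b1, x1, y1, hb1, hc1, ha1, hx1, hy1, ex1, ey1, e1⟩ |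
    ⟨b1, x1, y1, hb1, hc1, ha1, hx1, hy1, ex1, ey1, e1⟩ | ⟨hc1, e1⟩ <;>
  rcases tinst_cases M q d m u hq hu b with
    ⟨b2, x2, y2, hb2, hc2, ha2, hx2, hy2, ex2, ey2, e2⟩ |
    ⟨b2, x2, y2, hb2, hc2, ha2, hx2, hy2, ex2, ey2, e2⟩ |
    ⟨b2, x2, y2, hb2, hc2, ha2, hx2, hy2, ex2, ey2, e2⟩ | ⟨hc2, e2⟩ <;>
  rw [e1, e2, Prod.mk.injEq] at he <;>
  first
  | omega
  | (have h3 : u b1 = u b2 := val_eq q _ _ (by rw [← ex1, ← ex2]; omega)
      (by rw [← ey1, ← ey2]; omega)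
     have h4 := hinj b1 b2 hb1 hb2 hc1 hc2 h3
     omega)

/-- the edges are ordered, and the vertices are small -/
theorem tinst_lt (M q d m V : ℕ) (u : ℕ → ℕ) (hq : 0 < q) (hV : 2 * q + M < V)
    (hu : ∀ j < m, u j < q ^ 2) (hm : 2 * m ≤ M) (a : ℕ) (ha : a < M) :
    (tinst M q d m u a).1 < (tinst M q d m u a).2 ∧ (tinst M q d m u a).2 < V := by
  rcases tinst_cases M q d m u hq hu a with
    ⟨b1, x1, y1, hb1, hc1, ha1, hx1, hy1, ex1, ey1, e1⟩ |
    ⟨b1, x1, y1, hb1, hc1, ha1, hx1, hy1, ex1, ey1, e1⟩ |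
    ⟨b1, x1, y1, hb1, hc1, ha1, hx1, hy1, ex1, ey1, e1⟩ | ⟨hc1, e1⟩ <;>
  rw [e1] <;> constructor <;> dsimp only <;> omega

/-- two equal values in different classes give a triangle -/
theorem tri_of_eq (M q d m : ℕ) (u : ℕ → ℕ) (i j : ℕ) (hi : i < m) (hj : j < m)
    (hci : i / d % 2 = 0) (hcj : j / d % 2 = 1) (he : u i = u j) :
    tinst M q d m u (2 * i) = (u i / q, q + u i % q) ∧
    tinst M q d m u (2 * j + 1) = (q + u i % q, 2 * q + 2 * j) ∧
    tinst M q d m u (2 * j) = (u i / q, 2 * q + 2 * j) := by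
  have e1 : 2 * i / 2 = i := by omega
  have e2 : (2 * j + 1) / 2 = j := by omega
  have e3 : 2 * j / 2 = j := by omega
  unfold tinst
  refine ⟨?_, ?_, ?_⟩
  · rw [if_neg (by rw [e1]; omega), if_pos (by omega), e1]
  · rw [if_pos (by rw [e2]; omega), if_neg (by omega), e2, he]
    have : 2 * j + 1 - 1 = 2 * j := by omega
    rw [this]
  · rw [if_pos (by rw [e3]; omega), if_pos (by omega), e3, he]

/-- a triangle gives two equal values -/
theorem eq_of_tri (M k d m : ℕ) (u : ℕ → ℕ) (hk : 0 < k) (hu : ∀ j < m, u j < k ^ 2)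
    (p q r a b c : ℕ) (ha : a < M) (hb : b < M) (hc : c < M)
    (e1 : tinst M k d m u a = (p, q)) (e2 : tinst M k d m u b = (q, r))
    (e3 : tinst M k d m u c = (p, r)) :
    ∃ i j, i < m ∧ j < m ∧ i ≠ j ∧ u i = u j := by
  rcases tinst_cases M k d m u hk hu a with
    ⟨b1, x1, y1, hb1, hc1, ha1, hx1, hy1, ex1, ey1, f1⟩ |
    ⟨b1, x1, y1, hb1, hc1, ha1, hx1, hy1, ex1, ey1, f1⟩ |
    ⟨b1, x1, y1, hb1, hc1, ha1, hx1, hy1, ex1, ey1, f1⟩ | ⟨hc1, f1⟩ <;>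
  rcases tinst_cases M k d m u hk hu b with
    ⟨b2, x2, y2, hb2, hc2, ha2, hx2, hy2, ex2, ey2, f2⟩ |
    ⟨b2, x2, y2, hb2, hc2, ha2, hx2, hy2, ex2, ey2, f2⟩ |
    ⟨b2, x2, y2, hb2, hc2, ha2, hx2, hy2, ex2, ey2, f2⟩ | ⟨hc2, f2⟩ <;>
  rcases tinst_cases M k d m u hk hu c with
    ⟨b3, x3, y3, hb3, hc3, ha3, hx3, hy3, ex3, ey3, f3⟩ |
    ⟨b3, x3, y3, hb3, hc3, ha3, hx3, hy3, ex3, ey3, f3⟩ |
    ⟨b3, x3, y3, hb3, hc3, ha3, hx3, hy3, ex3, ey3, f3⟩ | ⟨hc3, f3⟩ <;>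
  rw [f1, Prod.mk.injEq] at e1 <;>
  rw [f2, Prod.mk.injEq] at e2 <;>
  rw [f3, Prod.mk.injEq] at e3 <;>
  first
  | (exfalso; omega)
  | (have h5 : b2 = b3 := by omega
     subst h5
     refine ⟨b1, b2, hb1, hb2, ?_, ?_⟩
     · rintro rfl
       omega
     · exact val_eq k _ _ (by rw [← ex1, ← ex3]; omega) (by rw [← ey1, ← ey2]; omega))

/-- the list of edges -/
def tlst (M q d m : ℕ) (v : Fin m → Fin (q ^ 2)) (a : Fin M) : ℕ × ℕ :=
  tinst M q d m (fun j => if h : j < m then (v ⟨j, h⟩ : ℕ) else 0) a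

/-- the word -/
def TW (M w q d m : ℕ) (v : Fin m → Fin (q ^ 2)) : Fin (M * (2 * w)) → Bool :=
  eword M w (tlst M q d m v)

theorem TW_local (M w q d m : ℕ) (v v' : Fin m → Fin (q ^ 2)) (p : Fin (M * (2 * w)))
    (h : ∀ h : (p : ℕ) / (2 * (2 * w)) < m,
      v ⟨(p : ℕ) / (2 * (2 * w)), h⟩ = v' ⟨(p : ℕ) / (2 * (2 * w)), h⟩) :
    TW M w q d m v p = TW M w q d m v' p := by
  unfold TW eword tlst
  congr 1
  dsimp only
  obtain ⟨a, ha⟩ : ∃ a, a = (p : ℕ) / (2 * w) := ⟨_, rfl⟩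
  have e : (p : ℕ) / (2 * (2 * w)) = a / 2 := by
    rw [ha, Nat.div_div_eq_div_mul]
    exact congrArg (fun z => (p : ℕ) / z) (mul_comm _ _)
  rw [← ha]
  have key : ∀ h2 : a / 2 < m, v ⟨a / 2, h2⟩ = v' ⟨a / 2, h2⟩ := by
    intro h2
    have h4 := h (by rw [e]; exact h2)
    have h5 : (⟨(p : ℕ) / (2 * (2 * w)), by rw [e]; exact h2⟩ : Fin m) = ⟨a / 2, h2⟩ :=
      Fin.ext e
    rw [h5] at h4
    exact h4
  unfold tinst
  by_cases h1 : a < 2 * m
  · have h2 : a / 2 < m := by omega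
    simp only [h2, dite_true, key h2]
  · rw [if_neg (fun h' => h1 h'.1), if_neg (fun h' => h1 h'.1), if_neg (fun h' => h1 h'.1),
      if_neg (fun h' => h1 h'.1)]

variable {M w q : ℕ}

theorem hm2 (hw : 1 ≤ w) (m : ℕ) (hm : (m + 1) * (2 * (2 * w)) ≤ M * (2 * w)) : m < M / 2 := by
  have h1 : (2 * (m + 1)) * (2 * w) ≤ M * (2 * w) := by
    calc (2 * (m + 1)) * (2 * w) = (m + 1) * (2 * (2 * w)) := by ring
      _ ≤ _ := hm
  have := Nat.le_of_mul_le_mul_right h1 (by omega)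
  omega

theorem tex (m : ℕ) (v : Fin m → Fin (q ^ 2)) (j : ℕ) (hj : j < m) :
    (fun j => if h : j < m then (v ⟨j, h⟩ : ℕ) else 0) j < q ^ 2 := by
  simp only [hj, dite_true]
  exact (v ⟨j, hj⟩).2

theorem tlst_simple (V : ℕ) (hq : 0 < q) (hV : 2 * q + M < V) (d m : ℕ) (hm : m < M / 2)
    (v : Fin m → Fin (q ^ 2))
    (hv : ∀ i j : Fin m, (i : ℕ) / d % 2 = (j : ℕ) / d % 2 → v i = v j → i = j) :
    IsEdgeList V (tlst M q d m v) := by
  refine ⟨?_, ?_⟩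
  · intro a b hab
    refine Fin.ext (tinst_inj M q d m _ hq (tex m v) ?_ a b a.2 b.2 hab)
    intro i j hi hj hci hcj hij
    simp only [hi, hj, dite_true] at hij
    exact congrArg Fin.val (hv ⟨i, hi⟩ ⟨j, hj⟩ (hci.trans hcj.symm) (Fin.ext hij))
  · intro a
    exact tinst_lt M q d m V _ hq hV (tex m v) (by omega) a a.2

theorem tlst_yes (d m : ℕ) (hm : m < M / 2) (v : Fin m → Fin (q ^ 2))
    (hv : ∀ i j : Fin m, (i : ℕ) / d % 2 = (j : ℕ) / d % 2 → v i = v j → i = j)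
    (hni : ¬ Function.Injective v) : HasTriangle (tlst M q d m v) := by
  have h3 : ∃ i j : Fin m, (i : ℕ) / d % 2 = 0 ∧ (j : ℕ) / d % 2 = 1 ∧ v i = v j := by
    unfold Function.Injective at hni
    push Not at hni
    obtain ⟨a, b, hvab, hab⟩ := hni
    have h4 : (a : ℕ) / d % 2 ≠ (b : ℕ) / d % 2 := fun h5 => hab (hv a b h5 hvab)
    rcases Nat.mod_two_eq_zero_or_one ((a : ℕ) / d) with h5 | h5
    · exact ⟨a, b, h5, by omega, hvab⟩
    · exact ⟨b, a, by omega, h5, hvab.symm⟩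
  obtain ⟨i, j, hci, hcj, hij⟩ := h3
  have hi := i.2
  have hj := j.2
  obtain ⟨e1, e2, e3⟩ := tri_of_eq M q d m
    (fun j => if h : j < m then (v ⟨j, h⟩ : ℕ) else 0) i j i.2 j.2 hci hcj
    (by simp only [i.2, j.2, dite_true]; rw [hij])
  exact ⟨_, _, _, ⟨⟨2 * i, by omega⟩, e1⟩, ⟨⟨2 * j + 1, by omega⟩, e2⟩, ⟨⟨2 * j, by omega⟩, e3⟩⟩

theorem tlst_no (hq : 0 < q) (d m : ℕ) (v : Fin m → Fin (q ^ 2))
    (hv : Function.Injective v) : ¬ HasTriangle (tlst M q d m v) := by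
  rintro ⟨p, q', r, ⟨a, ha⟩, ⟨b, hb⟩, ⟨c, hc⟩⟩
  obtain ⟨i, j, hi, hj, hij, he⟩ := eq_of_tri M q d m _ hq (tex m v)
    p q' r a b c a.2 b.2 c.2 ha hb hc
  simp only [hi, hj, dite_true] at he
  exact hij (congrArg Fin.val (hv (Fin.ext he)))

theorem tsmall {K k S T : ℕ} (hM : M < 2) (hK : 2 ≤ K) (hk : 1 ≤ k) :
    (M * (2 * w)) ^ 3 ≤ K * (k * (S + 1) * w * (k * T + M * (2 * w)) ^ 2) := by
  have h1 : M * (2 * w) ≤ K * (k * (S + 1) * w) := by
    have h2 : 1 ≤ k * (S + 1) := Nat.one_le_iff_ne_zero.mpr (by positivity)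
    calc M * (2 * w) ≤ 1 * (2 * w) := Nat.mul_le_mul_right _ (by omega)
      _ = 2 * (1 * w) := by ring
      _ ≤ K * (k * (S + 1) * w) := Nat.mul_le_mul hK (Nat.mul_le_mul_right _ h2)
  calc (M * (2 * w)) ^ 3 = M * (2 * w) * (M * (2 * w)) ^ 2 := by ring
    _ ≤ K * (k * (S + 1) * w) * (k * T + M * (2 * w)) ^ 2 := by gcongr; omega
    _ = _ := by ring

/-- **Nondeterministic slow heads which verify that there is no triangle.** -/
theorem tri_nondet (M w : ℕ) {k : ℕ} (P : HeadProg Bool (M * (2 * w)) k) (T S : ℕ)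
    (hk : 1 ≤ k) (hS : Fintype.card P.Q * (M * (2 * w)) ^ k ≤ 2 ^ S)
    (hacc : ∀ x : Fin M → ℕ × ℕ, IsEdgeList (4 * M) x → ¬ HasTriangle x →
      P.AcceptsIn T (eword M w x))
    (hsound : ∀ x : Fin M → ℕ × ℕ, IsEdgeList (4 * M) x → HasTriangle x →
      ¬ P.Accepts (eword M w x)) :
    (M * (2 * w)) ^ 3 ≤ 920000 * (k * (S + 1) * w * (k * T + M * (2 * w)) ^ 2) := by
  rcases Nat.lt_or_ge M 2 with hM | hM
  · exact tsmall hM (by norm_num) hk
  rcases Nat.eq_zero_or_pos w with rfl | hw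
  · simp
  have hn : 0 < M * (2 * w) := by positivity
  have hdiv : M * (2 * w) / (2 * (2 * w)) = M / 2 := Nat.mul_div_mul_right M 2 (by omega)
  have h1 : 1 ≤ M / 2 := by omega
  have hq : 0 < 2 * (M / 2) := by omega
  have hV : 2 * (2 * (M / 2)) + M < 4 * M := by omega
  have h := blocksB P (2 * (2 * w)) ((2 * (M / 2)) ^ 2) T S hn
    (by omega) hk (by positivity) (by rw [hdiv]; nlinarith)
    (fun d m v => TW M w (2 * (M / 2)) d m v)
    (fun d m v v' p hp => TW_local M w _ d m v v' p hp)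
    (by
      intro d m hm v hv
      exact hacc _ (tlst_simple _ hq hV d m (hm2 hw m hm) v (fun i j _ h => hv h))
        (tlst_no hq d m v hv))
    (by
      intro d m hm v hp hv
      have hm' := hm2 hw m hm
      by_contra hni
      exact hsound _ (tlst_simple _ hq hV d m hm' v hp) (tlst_yes d m hm' v hp hni) hv)
    hS
  refine h.trans ?_
  calc 228312 * (k * (S + 1) * (2 * (2 * w)) * (k * T + M * (2 * w)) ^ 2)
      = 913248 * (k * (S + 1) * w * (k * T + M * (2 * w)) ^ 2) := by ring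
    _ ≤ 920000 * (k * (S + 1) * w * (k * T + M * (2 * w)) ^ 2) := by gcongr; norm_num

open Classical in
/-- **Randomized slow heads and triangle detection.** -/
theorem tri_rand (M w : ℕ) {k : ℕ} {Ω : Type} [Fintype Ω] (p : Ω → ℝ) (hp : ∀ ω, 0 ≤ p ω)
    (hp1 : ∑ ω, p ω = 1) (P : Ω → DetProg Bool (M * (2 * w)) k) (T S : ℕ) (hk : 1 ≤ k)
    (hS : ∀ ω, Fintype.card (P ω).Q * (M * (2 * w)) ^ k ≤ 2 ^ S)
    (h : ∀ x : Fin M → ℕ × ℕ, IsEdgeList (144 * M) x →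
      1 - 1 / 10000 ≤ prob p P T (eword M w x) (decide (HasTriangle x))) :
    (M * (2 * w)) ^ 3 ≤ 37000000 * (k * (S + 1) * w * (k * T + M * (2 * w)) ^ 2) := by
  rcases Nat.lt_or_ge M 2 with hM | hM
  · exact tsmall hM (by norm_num) hk
  rcases Nat.eq_zero_or_pos w with rfl | hw
  · simp
  have hn : 0 < M * (2 * w) := by positivity
  have hdiv : M * (2 * w) / (2 * (2 * w)) = M / 2 := Nat.mul_div_mul_right M 2 (by omega)
  have h1 : 1 ≤ M / 2 := by omega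
  have hq : 0 < 142 * (M / 2) := by omega
  have hV : 2 * (142 * (M / 2)) + M < 144 * M := by omega
  have h := blocksRB p hp hp1 (fun ω => (P ω).flip) (2 * (2 * w)) ((142 * (M / 2)) ^ 2) T S hn
    (by omega) hk (by positivity) (by rw [hdiv]; nlinarith)
    (fun d m v => TW M w (142 * (M / 2)) d m v)
    (fun d m v v' p hp => TW_local M w _ d m v v' p hp)
    (by
      intro d m hm v hv
      rw [prob_flip]
      have hm' := hm2 hw m hm
      have h1 := h _ (tlst_simple _ hq hV d m hm' v (fun i j _ h => hv h))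
      rw [decide_eq_false (tlst_no hq d m v hv)] at h1
      exact h1)
    (by
      intro d m hm v hpr hv
      rw [prob_flip]
      have hm' := hm2 hw m hm
      have h1 := h _ (tlst_simple _ hq hV d m hm' v hpr)
      rw [decide_eq_true (tlst_yes d m hm' v hpr hv)] at h1
      exact h1)
    (fun ω => hS ω)
  refine h.trans ?_
  calc 9246636 * (k * (S + 1) * (2 * (2 * w)) * (k * T + M * (2 * w)) ^ 2)
      = 36986544 * (k * (S + 1) * w * (k * T + M * (2 * w)) ^ 2) := by ring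
    _ ≤ 37000000 * (k * (S + 1) * w * (k * T + M * (2 * w)) ^ 2) := by gcongr; norm_num

end Pool.Agent.X240.SH
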