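import Pool.Agent.X240.SH.ApDefs

/-!
# The sum of the distances of a weighted directed graph
-/

set_option autoImplicit false

open Finset

namespace Pool.Agent.X240.SH

/-- the word of a complete directed graph with the vertices `0, ..., V - 1` and with weights: the
cells `(u, v)` of the matrix of the weights, row by row, with `w + 1` letters for each cell: the
`w + 1` last binary digits of the weight `x u v` -/
def adword (V w : ℕ) (x : Fin V → Fin V → ℕ) (p : Fin (V * (V * (w + 1)))) : Bool :=
  Nat.testBit (x (arow p) (acol p)) ((p : ℕ) % (w + 1))

/-- the distance of two vertices: the minimal weight of a walk in the complete directed graph -/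
noncomputable def adist {V : ℕ} (x : Fin V → Fin V → ℕ) (u v : Fin V) : ℕ :=
  sInf {s | Walk (fun a b => decide (a ≠ b)) x u v s}

/-- the sum of the distances of all ordered pairs of different vertices -/
noncomputable def distSum {V : ℕ} (x : Fin V → Fin V → ℕ) : ℕ :=
  ∑ u, ∑ v, if u = v then 0 else adist x u v

end Pool.Agent.X240.SH
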