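import Pool.Agent.X240.SH.MatchedIP
import Pool.Agent.X240.SH.WiDefs

/-!
# Slow heads and the sum of the distances
-/

set_option autoImplicit false

open Finset

namespace Pool.Agent.X240.SH.Wi

open Pool.Agent.TH457.HT Pool.Agent.X240.SH

/-- a bit as a number -/
def bn (b : Bool) : ℕ := if b then 1 else 0

theorem bn_le (b : Bool) : bn b ≤ 1 := by unfold bn; split_ifs <;> norm_num

/-- the three basic weights -/
def A0 (M u v : ℕ) : ℕ := (2 * ((v : ℤ) - M - u) ^ 2 + 1).toNat
def B0 (M u v : ℕ) : ℕ := (8 * (M : ℤ) ^ 2 - 4 * ((u : ℤ) - M) * ((v : ℤ) - 3 * M) + 1).toNat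
def C0 (M u v : ℕ) : ℕ :=
  (8 * (M : ℤ) ^ 2 - 4 * u * ((v : ℤ) - 3 * M) - 2 * ((v : ℤ) - 3 * M) ^ 2 + 2).toNat

/-- from the first layer to the second -/
def IC (M u v : ℕ) : Prop := u < M ∧ M ≤ v ∧ v < 2 * M
/-- from the second layer to the third -/
def CJ (M u v : ℕ) : Prop := M ≤ u ∧ u < 2 * M ∧ 2 * M ≤ v ∧ v < 4 * M
/-- from the first layer to the third -/
def IJ (M u v : ℕ) : Prop := u < M ∧ 2 * M ≤ v ∧ v < 4 * M

instance (M u v : ℕ) : Decidable (IC M u v) := inferInstanceAs (Decidable (_ ∧ _ ∧ _))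
instance (M u v : ℕ) : Decidable (CJ M u v) := inferInstanceAs (Decidable (_ ∧ _ ∧ _ ∧ _))
instance (M u v : ℕ) : Decidable (IJ M u v) := inferInstanceAs (Decidable (_ ∧ _ ∧ _))

theorem A0_cast (M u v : ℕ) : (A0 M u v : ℤ) = 2 * ((v : ℤ) - M - u) ^ 2 + 1 :=
  Int.toNat_of_nonneg (by positivity)

theorem B0_cast (M u v : ℕ) (h : CJ M u v) :
    (B0 M u v : ℤ) = 8 * (M : ℤ) ^ 2 - 4 * ((u : ℤ) - M) * ((v : ℤ) - 3 * M) + 1 ∧
      1 ≤ B0 M u v ∧ B0 M u v ≤ 12 * M ^ 2 + 1 := by
  obtain ⟨h1, h2, h3, h4⟩ := h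
  have a1 : (u : ℤ) < 2 * M := by exact_mod_cast h2
  have a2 : (M : ℤ) ≤ u := by exact_mod_cast h1
  have a3 : (v : ℤ) < 4 * M := by exact_mod_cast h4
  have a4 : (2 * M : ℤ) ≤ v := by exact_mod_cast h3
  obtain ⟨j, hj⟩ : ∃ j : ℤ, j = (v : ℤ) - 3 * M := ⟨_, rfl⟩
  obtain ⟨c, hc⟩ : ∃ c : ℤ, c = (u : ℤ) - M := ⟨_, rfl⟩
  unfold B0
  rw [← hj, ← hc]
  have c1 : -(M : ℤ) ≤ j := by omega
  have c2 : j < M := by omega
  have d1 : 0 ≤ c := by omega
  have d2 : c < M := by omega
  have c3 : c * j ≤ M * M := by nlinarith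
  have c4 : -((M : ℤ) * M) ≤ c * j := by nlinarith
  have c6 : 0 ≤ (M : ℤ) * M := by positivity
  have e : (((8 * (M : ℤ) ^ 2 - 4 * c * j + 1).toNat : ℕ) : ℤ) = 8 * (M : ℤ) ^ 2 - 4 * c * j + 1 :=
    Int.toNat_of_nonneg (by nlinarith)
  refine ⟨e, ?_, ?_⟩
  · have : (1 : ℤ) ≤ (((8 * (M : ℤ) ^ 2 - 4 * c * j + 1).toNat : ℕ) : ℤ) := by
      rw [e]
      nlinarith
    exact_mod_cast this
  · have : (((8 * (M : ℤ) ^ 2 - 4 * c * j + 1).toNat : ℕ) : ℤ) ≤ ((12 * M ^ 2 + 1 : ℕ) : ℤ) := by
      rw [e]
      push_cast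
      nlinarith
    exact_mod_cast this

theorem C0_cast (M u v : ℕ) (h : IJ M u v) :
    (C0 M u v : ℤ) = 8 * (M : ℤ) ^ 2 - 4 * u * ((v : ℤ) - 3 * M) - 2 * ((v : ℤ) - 3 * M) ^ 2 + 2 ∧
      C0 M u v ≤ 12 * M ^ 2 + 2 := by
  obtain ⟨h1, h2, h3⟩ := h
  have a1 : (u : ℤ) < M := by exact_mod_cast h1
  have a3 : (v : ℤ) < 4 * M := by exact_mod_cast h3
  have a0 : (0 : ℤ) ≤ u := Int.natCast_nonneg u
  have a4 : (2 * M : ℤ) ≤ v := by exact_mod_cast h2
  obtain ⟨j, hj⟩ : ∃ j : ℤ, j = (v : ℤ) - 3 * M := ⟨_, rfl⟩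
  unfold C0
  rw [← hj]
  have c1 : -(M : ℤ) ≤ j := by omega
  have c2 : j < M := by omega
  have c3 : (u : ℤ) * j ≤ M * M := by nlinarith
  have c4 : -((M : ℤ) * M) ≤ u * j := by nlinarith
  have c5 : j ^ 2 ≤ M * M := by nlinarith
  have c7 : 0 ≤ j ^ 2 := by positivity
  have e : (((8 * (M : ℤ) ^ 2 - 4 * u * j - 2 * j ^ 2 + 2).toNat : ℕ) : ℤ) =
      8 * (M : ℤ) ^ 2 - 4 * u * j - 2 * j ^ 2 + 2 :=
    Int.toNat_of_nonneg (by nlinarith)
  refine ⟨e, ?_⟩
  have : (((8 * (M : ℤ) ^ 2 - 4 * u * j - 2 * j ^ 2 + 2).toNat : ℕ) : ℤ) ≤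
      ((12 * M ^ 2 + 2 : ℕ) : ℤ) := by
    rw [e]
    push_cast
    nlinarith
  exact_mod_cast this

theorem A0_range (M u v : ℕ) (h : IC M u v) : 1 ≤ A0 M u v ∧ A0 M u v ≤ 12 * M ^ 2 + 1 := by
  obtain ⟨h1, h2, h3⟩ := h
  have a1 : (u : ℤ) < M := by exact_mod_cast h1
  have a2 : (M : ℤ) ≤ v := by exact_mod_cast h2
  have a3 : (v : ℤ) < 2 * M := by exact_mod_cast h3
  have a0 : (0 : ℤ) ≤ u := Int.natCast_nonneg u
  have e := A0_cast M u v
  constructor
  · have : (1 : ℤ) ≤ (A0 M u v : ℤ) := by
      rw [e]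
      nlinarith [sq_nonneg ((v : ℤ) - M - u)]
    exact_mod_cast this
  · have : (A0 M u v : ℤ) ≤ ((12 * M ^ 2 + 1 : ℕ) : ℤ) := by
      rw [e]
      push_cast
      obtain ⟨j, hj⟩ : ∃ j : ℤ, j = (v : ℤ) - M - u := ⟨_, rfl⟩
      rw [← hj]
      have c1 : -(M : ℤ) < j := by omega
      have c2 : j < M := by omega
      nlinarith
    exact_mod_cast this

/-- the weights -/
def wx (M : ℕ) (X Y : ℕ → ℕ → Bool) (u v : ℕ) : ℕ :=
  if IC M u v then A0 M u v + bn (X u (v - M))
  else if CJ M u v then
    B0 M u v + (if v ≤ u + 2 * M ∧ u + 2 * M < v + M then bn (Y (u + 2 * M - v) (u - M)) else 0)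
  else if IJ M u v then C0 M u v + 1
  else 12 * M ^ 2 + 4

/-- the distances -/
def wd (M : ℕ) (X Y : ℕ → ℕ → Bool) (u v : ℕ) : ℕ :=
  if IC M u v then A0 M u v + bn (X u (v - M))
  else if CJ M u v then
    B0 M u v + (if v ≤ u + 2 * M ∧ u + 2 * M < v + M then bn (Y (u + 2 * M - v) (u - M)) else 0)
  else if IJ M u v then
    C0 M u v + (if 3 * M ≤ u + v ∧ u + v < 4 * M then
      bn (X u (u + v - 3 * M) || Y u (u + v - 3 * M)) else 1)
  else 12 * M ^ 2 + 4

theorem wd_le_wx (M : ℕ) (X Y : ℕ → ℕ → Bool) (u v : ℕ) : wd M X Y u v ≤ wx M X Y u v := by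
  unfold wd wx
  split_ifs with h1 h2 h3 h4
  · exact le_rfl
  · exact le_rfl
  · exact le_rfl
  · have := bn_le (X u (u + v - 3 * M) || Y u (u + v - 3 * M))
    omega
  · exact le_rfl
  · exact le_rfl

theorem wx_range (M : ℕ) (X Y : ℕ → ℕ → Bool) (u v : ℕ) :
    1 ≤ wx M X Y u v ∧ wx M X Y u v ≤ 12 * M ^ 2 + 4 := by
  unfold wx
  split_ifs with h1 h2 h4 h3
  · have := A0_range M u v h1
    have := bn_le (X u (v - M))
    omega
  · have := B0_cast M u v h2
    have := bn_le (Y (u + 2 * M - v) (u - M))
    omega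
  · have := B0_cast M u v h2
    omega
  · have := C0_cast M u v h3
    omega
  · omega

/-- the triangle inequality -/
theorem tri (M : ℕ) (X Y : ℕ → ℕ → Bool) (u k v : ℕ) :
    wd M X Y u v ≤ wx M X Y u k + wd M X Y k v := by
  have hbig : wd M X Y u v ≤ 12 * M ^ 2 + 4 := (wd_le_wx M X Y u v).trans (wx_range M X Y u v).2
  by_cases a : IC M u k
  · by_cases b : CJ M k v
    · have hk1 := b.1
      have hk2 := b.2.1
      have hv1 := b.2.2.1
      have hv2 := b.2.2.2
      have hu := a.1
      have c : IJ M u v := ⟨hu, hv1, hv2⟩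
      have n1 : ¬ IC M u v := fun h => by unfold IC at h; omega
      have n2 : ¬ CJ M u v := fun h => by unfold CJ at h; omega
      have n3 : ¬ IC M k v := fun h => by unfold IC at h; omega
      have e1 := A0_cast M u k
      have e2 := (B0_cast M k v b).1
      have e3 := (C0_cast M u v c).1
      have key : (A0 M u k : ℤ) + B0 M k v = C0 M u v +
          2 * ((k : ℤ) - M - u - ((v : ℤ) - 3 * M)) ^ 2 := by
        rw [e1, e2, e3]
        ring
      unfold wd wx
      rw [if_pos a, if_neg n1, if_neg n2, if_pos c, if_neg n3, if_pos b]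
      by_cases q : u + v = k + 2 * M
      · have g1 : 3 * M ≤ u + v ∧ u + v < 4 * M := by omega
        have g2 : v ≤ k + 2 * M ∧ k + 2 * M < v + M := by omega
        rw [if_pos g1, if_pos g2]
        have f1 : u + v - 3 * M = k - M := by omega
        have f2 : k + 2 * M - v = u := by omega
        rw [f1, f2]
        have q0 : (k : ℤ) - M - u - ((v : ℤ) - 3 * M) = 0 := by
          have : (u : ℤ) + v = k + 2 * M := by exact_mod_cast q
          linarith
        rw [q0] at key
        have key2 : A0 M u k + B0 M k v = C0 M u v := by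
          have : (A0 M u k : ℤ) + B0 M k v = C0 M u v := by rw [key]; ring
          exact_mod_cast this
        have hb : bn (X u (k - M) || Y u (k - M)) ≤ bn (X u (k - M)) + bn (Y u (k - M)) := by
          cases X u (k - M) <;> cases Y u (k - M) <;> simp [bn]
        omega
      · have q0 : (k : ℤ) - M - u - ((v : ℤ) - 3 * M) ≠ 0 := by
          intro h
          apply q
          have : (u : ℤ) + v = k + 2 * M := by linarith
          exact_mod_cast this
        have q1 : 1 ≤ ((k : ℤ) - M - u - ((v : ℤ) - 3 * M)) ^ 2 := by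
          have : 0 < ((k : ℤ) - M - u - ((v : ℤ) - 3 * M)) ^ 2 := by positivity
          omega
        have key2 : C0 M u v + 2 ≤ A0 M u k + B0 M k v := by
          have : (C0 M u v : ℤ) + 2 ≤ A0 M u k + B0 M k v := by rw [key]; linarith
          exact_mod_cast this
        have hb : (if 3 * M ≤ u + v ∧ u + v < 4 * M then
            bn (X u (u + v - 3 * M) || Y u (u + v - 3 * M)) else 1) ≤ 1 := by
          split_ifs
          · exact bn_le _
          · exact le_rfl
        omega
    · have n1 : ¬ IC M k v := fun h => by unfold IC at h a; omega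
      have n2 : ¬ IJ M k v := fun h => by unfold IJ at h; unfold IC at a; omega
      have e : wd M X Y k v = 12 * M ^ 2 + 4 := by
        unfold wd
        rw [if_neg n1, if_neg b, if_neg n2]
      omega
  · by_cases b : CJ M u k
    · have n1 : ¬ IC M k v := fun h => by unfold IC at h; unfold CJ at b; omega
      have n2 : ¬ IJ M k v := fun h => by unfold IJ at h; unfold CJ at b; omega
      have n3 : ¬ CJ M k v := fun h => by unfold CJ at h b; omega
      have e : wd M X Y k v = 12 * M ^ 2 + 4 := by
        unfold wd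
        rw [if_neg n1, if_neg n3, if_neg n2]
      omega
    · by_cases c : IJ M u k
      · have n1 : ¬ IC M k v := fun h => by unfold IC at h; unfold IJ at c; omega
        have n2 : ¬ IJ M k v := fun h => by unfold IJ at h c; omega
        have n3 : ¬ CJ M k v := fun h => by unfold CJ at h; unfold IJ at c; omega
        have e : wd M X Y k v = 12 * M ^ 2 + 4 := by
          unfold wd
          rw [if_neg n1, if_neg n3, if_neg n2]
        omega
      · have e : wx M X Y u k = 12 * M ^ 2 + 4 := by
          unfold wx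
          rw [if_neg a, if_neg b, if_neg c]
        omega

variable {V : ℕ}

/-- the weights as a function of the vertices -/
def wV (V M : ℕ) (X Y : ℕ → ℕ → Bool) (u v : Fin V) : ℕ := wx M X Y u v

theorem walk_low (M : ℕ) (X Y : ℕ → ℕ → Bool) (u v : Fin V) (s : ℕ)
    (h : Walk (fun a b => decide (a ≠ b)) (wV V M X Y) u v s) :
    (if u = v then 0 else wd M X Y u v) ≤ s := by
  induction h with
  | edge u v h =>
    split_ifs
    · exact Nat.zero_le _
    · exact wd_le_wx M X Y u v
  | cons u k v s h _ ih =>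
    split_ifs with h1
    · exact Nat.zero_le _
    · split_ifs at ih with h2
      · subst h2
        exact (wd_le_wx M X Y u k).trans (Nat.le_add_right _ _)
      · exact (tri M X Y u k v).trans (Nat.add_le_add_left ih _)

theorem walk_up (M : ℕ) (hM : 4 * M ≤ V) (X Y : ℕ → ℕ → Bool) (u v : Fin V) (huv : u ≠ v) :
    Walk (fun a b => decide (a ≠ b)) (wV V M X Y) u v (wd M X Y u v) := by
  have hedge : wx M X Y u v = wd M X Y u v →
      Walk (fun a b => decide (a ≠ b)) (wV V M X Y) u v (wd M X Y u v) := by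
    intro h
    rw [← h]
    exact Walk.edge u v (by simpa using huv)
  by_cases n1 : IC M u v
  · apply hedge
    unfold wx wd
    rw [if_pos n1, if_pos n1]
  · by_cases n2 : CJ M u v
    · apply hedge
      unfold wx wd
      rw [if_neg n1, if_pos n2, if_neg n1, if_pos n2]
    · by_cases n3 : IJ M u v
      · by_cases g : 3 * M ≤ (u : ℕ) + v ∧ (u : ℕ) + v < 4 * M
        · by_cases hb : (X u (u + v - 3 * M) || Y u (u + v - 3 * M)) = true
          · apply hedge
            unfold wx wd
            rw [if_neg n1, if_neg n2, if_pos n3, if_neg n1, if_neg n2, if_pos n3, if_pos g, hb]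
            rfl
          · rw [Bool.not_eq_true] at hb
            have hu := n3.1
            have hv1 := n3.2.1
            have hv2 := n3.2.2
            obtain ⟨k, hk⟩ : ∃ k : Fin V, (k : ℕ) = u + v - 2 * M :=
              ⟨⟨u + v - 2 * M, by omega⟩, rfl⟩
            have a : IC M u k := by unfold IC; omega
            have b : CJ M k v := by unfold CJ; omega
            have m3 : ¬ IC M k v := fun h => by unfold IC at h; omega
            have hbX : X u (u + v - 3 * M) = false := by
              cases hh : X u (u + v - 3 * M)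
              · rfl
              · rw [hh] at hb
                simp at hb
            have hbY : Y u (u + v - 3 * M) = false := by
              cases hh : Y u (u + v - 3 * M)
              · rfl
              · rw [hh] at hb
                simp at hb
            have e1 := A0_cast M u k
            have e2 := (B0_cast M k v b).1
            have e3 := (C0_cast M u v n3).1
            have hk' : (k : ℤ) = u + v - 2 * M := by
              rw [hk, Nat.cast_sub (by omega)]
              push_cast
              ring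
            have key2 : A0 M u k + B0 M k v = C0 M u v := by
              have : (A0 M u k : ℤ) + B0 M k v = C0 M u v := by
                rw [e1, e2, e3, hk']
                ring
              exact_mod_cast this
            have ew : wd M X Y u v = wV V M X Y u k + wV V M X Y k v := by
              show wd M X Y u v = wx M X Y u k + wx M X Y k v
              unfold wx wd
              rw [if_neg n1, if_neg n2, if_pos n3, if_pos g, hb, if_pos a, if_neg m3, if_pos b]
              have g2 : (v : ℕ) ≤ k + 2 * M ∧ (k : ℕ) + 2 * M < v + M := by omega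
              rw [if_pos g2]
              have f1 : (k : ℕ) - M = u + v - 3 * M := by omega
              have f2 : (k : ℕ) + 2 * M - v = u := by omega
              rw [f1, f2, hbX, hbY]
              have z : bn false = 0 := rfl
              rw [z]
              omega
            rw [ew]
            have ne1 : u ≠ k := by
              intro h
              have := congrArg Fin.val h
              unfold IC at a
              omega
            have ne2 : k ≠ v := by
              intro h
              have := congrArg Fin.val h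
              unfold CJ at b
              omega
            exact Walk.cons u k v _ (by simpa using ne1) (Walk.edge k v (by simpa using ne2))
        · apply hedge
          unfold wx wd
          rw [if_neg n1, if_neg n2, if_pos n3, if_neg n1, if_neg n2, if_pos n3, if_neg g]
      · apply hedge
        unfold wx wd
        rw [if_neg n1, if_neg n2, if_neg n3, if_neg n1, if_neg n2, if_neg n3]

theorem adist_eq (M : ℕ) (hM : 4 * M ≤ V) (X Y : ℕ → ℕ → Bool) (u v : Fin V) (huv : u ≠ v) :
    adist (wV V M X Y) u v = wd M X Y u v := by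
  have h1 := walk_up M hM X Y u v huv
  apply le_antisymm
  · exact Nat.sInf_le h1
  · apply le_csInf ⟨_, h1⟩
    intro s hs
    have := walk_low M X Y u v s hs
    rwa [if_neg huv] at this

end Pool.Agent.X240.SH.Wi
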