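import Pool.Agent.X240.SH.Wi

/-!
# Slow heads and the sum of the distances: the bound
-/

set_option autoImplicit false

open Finset

namespace Pool.Agent.X240.SH.Wi

open Pool.Agent.TH457.HT Pool.Agent.X240.SH

theorem sgb_par (m : ℕ) : sgb (decide (m % 2 = 1)) = (-1 : ℝ) ^ m := by
  rcases Nat.even_or_odd m with h | h
  · rw [h.neg_one_pow]
    have : m % 2 = 0 := Nat.even_iff.mp h
    simp [this, sgb]
  · rw [h.neg_one_pow]
    have : m % 2 = 1 := Nat.odd_iff.mp h
    simp [this, sgb]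

theorem pow_bn (b : Bool) : (-1 : ℝ) ^ bn b = sgb b := by
  cases b <;> simp [bn, sgb]

/-- the three kinds of signs -/
noncomputable def e1 (M : ℕ) (X : ℕ → ℕ → Bool) (u v : ℕ) : ℝ :=
  if u < M ∧ M ≤ v ∧ v < 2 * M then sgb (X u (v - M)) else 1
noncomputable def e2 (M : ℕ) (X Y : ℕ → ℕ → Bool) (u v : ℕ) : ℝ :=
  if u < M ∧ 3 * M ≤ u + v ∧ u + v < 4 * M then
    sgb (X u (u + v - 3 * M) || Y u (u + v - 3 * M)) else 1
noncomputable def e3 (M : ℕ) (Y : ℕ → ℕ → Bool) (u v : ℕ) : ℝ :=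
  if M ≤ u ∧ u < 2 * M ∧ v ≤ u + 2 * M ∧ u + 2 * M < v + M then
    sgb (Y (u + 2 * M - v) (u - M)) else 1

/-- all bits are zero -/
def O : ℕ → ℕ → Bool := fun _ _ => false

theorem pow_wd (M : ℕ) (X Y : ℕ → ℕ → Bool) (u v : ℕ) :
    (-1 : ℝ) ^ wd M X Y u v = (-1 : ℝ) ^ wd M O O u v * (e1 M X u v * e2 M X Y u v * e3 M Y u v) := by
  have z : bn false = 0 := rfl
  by_cases n1 : IC M u v
  · have g1 : u < M ∧ M ≤ v ∧ v < 2 * M := n1
    have g2 : ¬ (u < M ∧ 3 * M ≤ u + v ∧ u + v < 4 * M) := by omega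
    have g3 : ¬ (M ≤ u ∧ u < 2 * M ∧ v ≤ u + 2 * M ∧ u + 2 * M < v + M) := by omega
    unfold wd e1 e2 e3 O
    rw [if_pos n1, if_pos n1, if_pos g1, if_neg g2, if_neg g3, z, add_zero, pow_add, pow_bn]
    ring
  · have g1 : ¬ (u < M ∧ M ≤ v ∧ v < 2 * M) := n1
    by_cases n2 : CJ M u v
    · have m2 := n2
      unfold CJ at m2
      have g2 : ¬ (u < M ∧ 3 * M ≤ u + v ∧ u + v < 4 * M) := by omega
      unfold wd e1 e2 e3 O
      rw [if_neg n1, if_pos n2, if_neg n1, if_pos n2, if_neg g1, if_neg g2]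
      by_cases g : v ≤ u + 2 * M ∧ u + 2 * M < v + M
      · have g3 : M ≤ u ∧ u < 2 * M ∧ v ≤ u + 2 * M ∧ u + 2 * M < v + M := by omega
        rw [if_pos g, if_pos g, if_pos g3, z, add_zero, pow_add, pow_bn]
        ring
      · have g3 : ¬ (M ≤ u ∧ u < 2 * M ∧ v ≤ u + 2 * M ∧ u + 2 * M < v + M) := by omega
        rw [if_neg g, if_neg g, if_neg g3]
        ring
    · by_cases n3 : IJ M u v
      · have m3 := n3
        unfold IJ at m3
        have g3 : ¬ (M ≤ u ∧ u < 2 * M ∧ v ≤ u + 2 * M ∧ u + 2 * M < v + M) := by omega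
        unfold wd e1 e2 e3 O
        rw [if_neg n1, if_neg n2, if_pos n3, if_neg n1, if_neg n2, if_pos n3, if_neg g1, if_neg g3]
        by_cases g : 3 * M ≤ u + v ∧ u + v < 4 * M
        · have g2 : u < M ∧ 3 * M ≤ u + v ∧ u + v < 4 * M := by omega
          have z' : bn (false || false) = 0 := rfl
          rw [if_pos g, if_pos g, if_pos g2, z', add_zero, pow_add, pow_bn]
          ring
        · have g2 : ¬ (u < M ∧ 3 * M ≤ u + v ∧ u + v < 4 * M) := by omega
          rw [if_neg g, if_neg g, if_neg g2]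
          ring
      · have m2 := n2
        unfold CJ at m2
        have m3 := n3
        unfold IJ at m3
        have g2 : ¬ (u < M ∧ 3 * M ≤ u + v ∧ u + v < 4 * M) := by omega
        have g3 : ¬ (M ≤ u ∧ u < 2 * M ∧ v ≤ u + 2 * M ∧ u + 2 * M < v + M) := by omega
        unfold wd e1 e2 e3
        rw [if_neg n1, if_neg n2, if_neg n3, if_neg n1, if_neg n2, if_neg n3, if_neg g1,
          if_neg g2, if_neg g3]
        ring

theorem e_diag (M : ℕ) (X Y : ℕ → ℕ → Bool) (u : ℕ) :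
    e1 M X u u * e2 M X Y u u * e3 M Y u u = 1 := by
  have g1 : ¬ (u < M ∧ M ≤ u ∧ u < 2 * M) := by omega
  have g2 : ¬ (u < M ∧ 3 * M ≤ u + u ∧ u + u < 4 * M) := by omega
  have g3 : ¬ (M ≤ u ∧ u < 2 * M ∧ u ≤ u + 2 * M ∧ u + 2 * M < u + M) := by omega
  unfold e1 e2 e3
  rw [if_neg g1, if_neg g2, if_neg g3]
  norm_num

/-- double products with few factors -/
theorem dbl (V M : ℕ) (f val : ℕ → ℕ → ℝ) (a : ℕ → ℕ) (g : ℕ → ℕ → ℕ)
    (ha : ∀ i < M, a i < V) (hai : ∀ i < M, ∀ i' < M, a i = a i' → i = i')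
    (hg : ∀ i < M, ∀ j < M, g i j < V)
    (hgi : ∀ i < M, ∀ j < M, ∀ j' < M, g i j = g i j' → j = j')
    (hval : ∀ i < M, ∀ j < M, f (a i) (g i j) = val i j)
    (h1 : ∀ u v, (∀ i < M, ∀ j < M, ¬ (a i = u ∧ g i j = v)) → f u v = 1) :
    ∏ u ∈ range V, ∏ v ∈ range V, f u v = ∏ i ∈ range M, ∏ j ∈ range M, val i j := by
  rw [← Finset.prod_product' (range V) (range V) f, ← Finset.prod_product' (range M) (range M) val]
  have h2 : ∏ z ∈ (range M ×ˢ range M).image (fun z : ℕ × ℕ => (a z.1, g z.1 z.2)), f z.1 z.2 =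
      ∏ z ∈ range V ×ˢ range V, f z.1 z.2 := by
    apply Finset.prod_subset
    · intro z hz
      obtain ⟨y, hy, rfl⟩ := mem_image.mp hz
      obtain ⟨hy1, hy2⟩ := mem_product.mp hy
      rw [mem_range] at hy1 hy2
      exact mem_product.mpr ⟨mem_range.mpr (ha _ hy1), mem_range.mpr (hg _ hy1 _ hy2)⟩
    · intro z _ hz
      apply h1
      rintro i hi j hj ⟨e, e'⟩
      exact hz (mem_image.mpr ⟨(i, j), mem_product.mpr ⟨mem_range.mpr hi, mem_range.mpr hj⟩,
        Prod.ext e e'⟩)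
  rw [← h2, Finset.prod_image]
  · apply Finset.prod_congr rfl
    intro z hz
    obtain ⟨hy1, hy2⟩ := mem_product.mp hz
    rw [mem_range] at hy1 hy2
    exact hval _ hy1 _ hy2
  · intro z hz z' hz' h
    obtain ⟨hy1, hy2⟩ := mem_product.mp (mem_coe.mp hz)
    obtain ⟨hy1', hy2'⟩ := mem_product.mp (mem_coe.mp hz')
    rw [mem_range] at hy1 hy2 hy1' hy2'
    simp only [Prod.mk.injEq] at h
    have e := hai _ hy1 _ hy1' h.1
    apply Prod.ext e
    have h3 := h.2
    rw [← e] at h3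
    exact hgi _ hy1 _ hy2 _ hy2' h3

theorem prod_e (V M : ℕ) (hM : 4 * M ≤ V) (X Y : ℕ → ℕ → Bool) :
    ∏ u ∈ range V, ∏ v ∈ range V, (e1 M X u v * e2 M X Y u v * e3 M Y u v) =
      ∏ i ∈ range M, ∏ c ∈ range M, sgb (X i c && Y i c) := by
  have h1 : ∏ u ∈ range V, ∏ v ∈ range V, e1 M X u v = ∏ i ∈ range M, ∏ c ∈ range M, sgb (X i c) := by
    apply dbl V M (e1 M X) (fun i c => sgb (X i c)) (fun i => i) (fun _ c => M + c)
    · intro i hi; omega
    · intro i _ i' _ h; exact h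
    · intro i _ j hj; omega
    · intro i _ j _ j' _ h; omega
    · intro i hi j hj
      unfold e1
      rw [if_pos (by omega)]
      congr 2
      omega
    · intro u v h
      unfold e1
      rw [if_neg]
      rintro ⟨g1, g2, g3⟩
      exact h u g1 (v - M) (by omega) ⟨rfl, by omega⟩
  have h2 : ∏ u ∈ range V, ∏ v ∈ range V, e2 M X Y u v =
      ∏ i ∈ range M, ∏ c ∈ range M, sgb (X i c || Y i c) := by
    apply dbl V M (e2 M X Y) (fun i c => sgb (X i c || Y i c)) (fun i => i)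
      (fun i c => 3 * M + c - i)
    · intro i hi; omega
    · intro i _ i' _ h; exact h
    · intro i hi j hj; omega
    · intro i hi j _ j' _ h; omega
    · intro i hi j hj
      unfold e2
      rw [if_pos (by omega)]
      have : i + (3 * M + j - i) - 3 * M = j := by omega
      rw [this]
    · intro u v h
      unfold e2
      rw [if_neg]
      rintro ⟨g1, g2, g3⟩
      exact h u g1 (u + v - 3 * M) (by omega) ⟨rfl, by omega⟩
  have h3 : ∏ u ∈ range V, ∏ v ∈ range V, e3 M Y u v =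
      ∏ c ∈ range M, ∏ i ∈ range M, sgb (Y i c) := by
    apply dbl V M (e3 M Y) (fun c i => sgb (Y i c)) (fun c => M + c)
      (fun c i => 3 * M + c - i)
    · intro i hi; omega
    · intro i _ i' _ h; omega
    · intro i hi j hj; omega
    · intro i hi j _ j' _ h; omega
    · intro i hi j hj
      unfold e3
      rw [if_pos (by omega)]
      have f1 : M + i + 2 * M - (3 * M + i - j) = j := by omega
      have f2 : M + i - M = i := by omega
      rw [f1, f2]
    · intro u v h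
      unfold e3
      rw [if_neg]
      rintro ⟨g1, g2, g3, g4⟩
      exact h (u - M) (by omega) (u + 2 * M - v) (by omega) ⟨by omega, by omega⟩
  rw [Finset.prod_comm] at h3
  have h4 : ∏ u ∈ range V, ∏ v ∈ range V, (e1 M X u v * e2 M X Y u v * e3 M Y u v) =
      (∏ u ∈ range V, ∏ v ∈ range V, e1 M X u v) * (∏ u ∈ range V, ∏ v ∈ range V, e2 M X Y u v) *
        (∏ u ∈ range V, ∏ v ∈ range V, e3 M Y u v) := by
    simp only [Finset.prod_mul_distrib]
  rw [h4, h1, h2]
  have h5 : ∏ u ∈ range V, ∏ v ∈ range V, e3 M Y u v =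
      ∏ i ∈ range M, ∏ c ∈ range M, sgb (Y i c) := by
    rw [Finset.prod_comm (s := range M)] at h3
    rw [Finset.prod_comm (s := range V), h3, Finset.prod_comm]
  rw [h5, ← Finset.prod_mul_distrib, ← Finset.prod_mul_distrib]
  apply Finset.prod_congr rfl
  intro i _
  rw [← Finset.prod_mul_distrib, ← Finset.prod_mul_distrib]
  apply Finset.prod_congr rfl
  intro c _
  cases X i c <;> cases Y i c <;> norm_num [sgb]

/-- the sum of the distances of the instance without bits -/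
noncomputable def KV (V M : ℕ) : ℕ := ∑ u : Fin V, ∑ v : Fin V, if u = v then 0 else wd M O O u v

theorem par_sum {V : ℕ} (M : ℕ) (hM : 4 * M ≤ V) (X Y : ℕ → ℕ → Bool) :
    (-1 : ℝ) ^ distSum (wV V M X Y) = (-1 : ℝ) ^ KV V M *
      ∏ i ∈ range M, ∏ c ∈ range M, sgb (X i c && Y i c) := by
  have h1 : distSum (wV V M X Y) = ∑ u : Fin V, ∑ v : Fin V, if u = v then 0 else wd M X Y u v := by
    unfold distSum
    apply Finset.sum_congr rfl
    intro u _
    apply Finset.sum_congr rfl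
    intro v _
    split_ifs with h
    · rfl
    · exact adist_eq M hM X Y u v h
  rw [h1]
  unfold KV
  rw [← Finset.prod_pow_eq_pow_sum, ← Finset.prod_pow_eq_pow_sum]
  have h2 : ∀ u : Fin V, (-1 : ℝ) ^ (∑ v : Fin V, if u = v then 0 else wd M X Y u v) =
      (-1 : ℝ) ^ (∑ v : Fin V, if u = v then 0 else wd M O O u v) *
        ∏ v : Fin V, (e1 M X u v * e2 M X Y u v * e3 M Y u v) := by
    intro u
    rw [← Finset.prod_pow_eq_pow_sum, ← Finset.prod_pow_eq_pow_sum, ← Finset.prod_mul_distrib]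
    apply Finset.prod_congr rfl
    intro v _
    split_ifs with h
    · rw [← h, e_diag]
      norm_num
    · exact pow_wd M X Y u v
  rw [Finset.prod_congr rfl (fun u _ => h2 u), Finset.prod_mul_distrib]
  congr 1
  rw [← prod_e V M hM X Y, ← Fin.prod_univ_eq_prod_range
    (fun u => ∏ v ∈ range V, (e1 M X u v * e2 M X Y u v * e3 M Y u v)) V]
  apply Finset.prod_congr rfl
  intro u _
  exact Fin.prod_univ_eq_prod_range (fun v => e1 M X u v * e2 M X Y u v * e3 M Y u v) V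

/-- **The sum of the distances and slow heads.** -/
theorem wi_rand (V w k T S : ℕ) {Ω : Type} [Fintype Ω] (p : Ω → ℝ) (hp : ∀ ω, 0 ≤ p ω)
    (hp1 : ∑ ω, p ω = 1) (P : Ω → DetProg Bool (V * (V * (w + 1))) k) (hk : 1 ≤ k)
    (hS : ∀ ω, Fintype.card (P ω).Q * (V * (V * (w + 1))) ^ k ≤ 2 ^ S)
    (h : ∀ x : Fin V → Fin V → ℕ, (∀ u v, 1 ≤ x u v ∧ x u v ≤ V ^ 2) →
      2 / 3 ≤ prob p P T (adword V w x) (decide (distSum x % 2 = 1))) :
    V ^ 2 * (V * (V * (w + 1))) ^ 2
      ≤ 200000000 * (k * (S + 1) * (k * T + V * (V * (w + 1))) ^ 2) := by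
  rcases Nat.lt_or_ge V 2 with hV | hV
  · obtain ⟨n, hn⟩ : ∃ n, n = V * (V * (w + 1)) := ⟨_, rfl⟩
    rw [← hn]
    calc V ^ 2 * n ^ 2 ≤ 1 ^ 2 * n ^ 2 := Nat.mul_le_mul_right _ (Nat.pow_le_pow_left (by omega) 2)
      _ = 1 * (1 * 1 * n ^ 2) := by ring
      _ ≤ 200000000 * (k * (S + 1) * (k * T + n) ^ 2) := by
        gcongr
        · norm_num
        · omega
        · omega
  have hn2 : 2 ≤ V * (V * (w + 1)) := by
    calc 2 ≤ V := hV
      _ = V * 1 := (mul_one V).symm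
      _ ≤ V * (V * (w + 1)) := Nat.mul_le_mul_left _ (Nat.one_le_iff_ne_zero.mpr (by positivity))
  have hρ : 1 ≤ V * (w + 1) := Nat.one_le_iff_ne_zero.mpr (by positivity)
  apply MIP.matchedIP p hp hp1 P V (V * (w + 1)) T S (by omega) hρ rfl hn2 hk
    (fun M X Y => adword V w (wV V M X Y)) ?_ ?_ (fun M => decide (KV V M % 2 = 1))
    (fun M X Y => decide (distSum (wV V M X Y) % 2 = 1)) ?_ ?_ hS
  · intro M X X' Y Y' p hp hX
    have hu : ((arow p : Fin V) : ℕ) = (p : ℕ) / (V * (w + 1)) := rfl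
    unfold adword
    congr 1
    show wx M X Y (arow p) (acol p) = wx M X' Y' (arow p) (acol p)
    rw [← hu] at hp hX
    have n2 : ¬ CJ M (arow p) (acol p) := fun h => by unfold CJ at h; omega
    unfold wx
    rw [if_neg n2, if_neg n2, hX]
  · intro M X X' Y Y' p hp hY
    have hu : ((arow p : Fin V) : ℕ) = (p : ℕ) / (V * (w + 1)) := rfl
    unfold adword
    congr 1
    show wx M X Y (arow p) (acol p) = wx M X' Y' (arow p) (acol p)
    rw [← hu] at hp hY
    have n1 : ¬ IC M (arow p) (acol p) := fun h => by unfold IC at h; omega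
    unfold wx
    rw [if_neg n1, if_neg n1, hY]
  · intro M hM X Y
    rw [sgb_xor, sgb_par, sgb_par, par_sum M hM, ← mul_assoc, ← mul_pow]
    norm_num
  · intro M hM X Y
    apply h
    intro u v
    have h1 := wx_range M X Y u v
    refine ⟨h1.1, h1.2.trans ?_⟩
    rcases Nat.eq_zero_or_pos M with h0 | h0
    · subst h0
      calc 12 * 0 ^ 2 + 4 = 2 ^ 2 := by norm_num
        _ ≤ V ^ 2 := Nat.pow_le_pow_left hV 2
    · calc 12 * M ^ 2 + 4 ≤ (4 * M) ^ 2 := by nlinarith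
        _ ≤ V ^ 2 := Nat.pow_le_pow_left hM 2

end Pool.Agent.X240.SH.Wi
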